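import Pool.Agent.H21.HD.Defs
import Pool.Agent.H18.FatToric

/-!
Adding a point.
-/

namespace Pool.Agent.H21.HD

open MvPolynomial Pool.Agent.H18.Fat
open scoped Classical

namespace BridgeCX

/-- The derivative in the direction `P`. -/
noncomputable def dd {n : ℕ} (P : Fin n → ℂ) : MvPolynomial (Fin n) ℂ →ₗ[ℂ] MvPolynomial (Fin n) ℂ :=
  ∑ j, P j • (pderiv j : Derivation ℂ (MvPolynomial (Fin n) ℂ) (MvPolynomial (Fin n) ℂ)).toLinearMap

theorem dd_apply {n : ℕ} (P : Fin n → ℂ) (F : MvPolynomial (Fin n) ℂ) :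
    dd P F = ∑ j, P j • pderiv j F := by
  unfold dd
  rw [LinearMap.sum_apply]
  rfl

theorem shift_pderiv {n : ℕ} (q : Fin n → ℂ) (j : Fin n) (F : MvPolynomial (Fin n) ℂ) :
    shift q (pderiv j F) = pderiv j (shift q F) := by
  unfold shift
  induction F using MvPolynomial.induction_on with
  | C a => simp
  | add F G hF hG => simp only [map_add, hF, hG]
  | mul_X F i hF =>
    rw [pderiv_mul, map_add, map_mul, map_mul, map_mul, pderiv_mul, hF, aeval_X, map_add,
      pderiv_C, add_zero]
    congr 2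
    by_cases hij : i = j
    · subst hij
      rw [pderiv_X_self, map_one]
    · rw [pderiv_X_of_ne hij, map_zero]

theorem coeff_shift_dd {n : ℕ} (P q : Fin n → ℂ) (F : MvPolynomial (Fin n) ℂ)
    (β : Fin n →₀ ℕ) :
    coeff β (shift q (dd P F)) =
      ∑ j, P j * ((β j : ℂ) + 1) * coeff (β + Finsupp.single j 1) (shift q F) := by
  rw [dd_apply]
  have h1 : shift q (∑ j, P j • pderiv j F) = ∑ j, P j • pderiv j (shift q F) := by
    have h2 : shift q (∑ j, P j • pderiv j F) = ∑ j, P j • shift q (pderiv j F) := by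
      unfold shift
      rw [map_sum]
      exact Finset.sum_congr rfl fun j _ => by rw [map_smul]
    rw [h2]
    exact Finset.sum_congr rfl fun j _ => by rw [shift_pderiv]
  rw [h1, coeff_sum]
  refine Finset.sum_congr rfl fun j _ => ?_
  rw [coeff_smul, coeff_pderiv, smul_eq_mul]
  ring

theorem dd_isHomogeneous {n d : ℕ} (P : Fin n → ℂ) {F : MvPolynomial (Fin n) ℂ}
    (hF : F.IsHomogeneous d) : (dd P F).IsHomogeneous (d - 1) := by
  rw [dd_apply]
  apply IsHomogeneous.sum
  intro j _
  rw [smul_eq_C_mul]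
  simpa using (isHomogeneous_C (Fin n) (P j)).mul (hF.pderiv (i := j))

theorem dd_vanishes {n m : ℕ} (P q : Fin n → ℂ) {F : MvPolynomial (Fin n) ℂ}
    (hF : VanishesToOrder F q m) : VanishesToOrder (dd P F) q (m - 1) := by
  intro β hβ
  rw [coeff_shift_dd]
  refine Finset.sum_eq_zero fun j _ => ?_
  rw [hF (β + Finsupp.single j 1) (by
    simp only [map_add, Finsupp.degree_single]
    omega), mul_zero]

theorem vanishes_of_dd {n d m : ℕ} (P : Fin n → ℂ) {F : MvPolynomial (Fin n) ℂ}
    (hF : F.IsHomogeneous d) (hm : m ≤ d) (h : VanishesToOrder (dd P F) P m) :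
    VanishesToOrder F P m := by
  intro β hβ
  have h1 := h β hβ
  rw [coeff_shift_dd] at h1
  have h2 := coeff_shift_euler P β (fun α : mons n d => coeff α.1 F)
  rw [exists_toPoly hF, h1] at h2
  have h3 : (d : ℂ) - (β.degree : ℂ) ≠ 0 := by
    intro h4
    have h5 : (d : ℂ) = (β.degree : ℂ) := sub_eq_zero.1 h4
    have h6 : d = β.degree := by exact_mod_cast h5
    omega
  exact (mul_eq_zero.1 h2.symm).resolve_left h3

theorem iter_isHomogeneous {n : ℕ} (P : Fin n → ℂ) (e : ℕ) :
    ∀ {d : ℕ} {F : MvPolynomial (Fin n) ℂ}, F.IsHomogeneous d →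
      (((dd P) ^ e) F).IsHomogeneous (d - e) := by
  induction e with
  | zero =>
    intro d F hF
    simpa using hF
  | succ e ih =>
    intro d F hF
    rw [pow_succ, Module.End.mul_apply]
    have h1 := ih (dd_isHomogeneous P hF)
    have h2 : d - 1 - e = d - (e + 1) := by omega
    rwa [h2] at h1

theorem iter_vanishes {n : ℕ} (P q : Fin n → ℂ) (e : ℕ) :
    ∀ {m : ℕ} {F : MvPolynomial (Fin n) ℂ}, VanishesToOrder F q m →
      VanishesToOrder (((dd P) ^ e) F) q (m - e) := by
  induction e with
  | zero =>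
    intro m F hF
    simpa using hF
  | succ e ih =>
    intro m F hF
    rw [pow_succ, Module.End.mul_apply]
    have h1 := ih (dd_vanishes P q hF)
    have h2 : m - 1 - e = m - (e + 1) := by omega
    rwa [h2] at h1

theorem vanishes_of_iter {n : ℕ} (P : Fin n → ℂ) (e : ℕ) :
    ∀ {d : ℕ} {F : MvPolynomial (Fin n) ℂ}, F.IsHomogeneous d → e ≤ d →
      ((dd P) ^ e) F = 0 → VanishesToOrder F P (d + 1 - e) := by
  induction e with
  | zero =>
    intro d F _ _ h
    rw [pow_zero, Module.End.one_apply] at h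
    subst h
    intro β _
    simp [shift]
  | succ e ih =>
    intro d F hF he h
    rw [pow_succ, Module.End.mul_apply] at h
    have h1 := ih (dd_isHomogeneous P hF) (by omega) h
    have h2 : d - 1 + 1 - e = d + 1 - (e + 1) := by omega
    rw [h2] at h1
    exact vanishes_of_dd P hF (by omega) h1

theorem finite_fat {r d : ℕ} {ι : Type*} (p : ι → Fin (r + 1) → ℂ) (m : ι → ℕ) :
    Module.Finite ℂ (fatForms r d p m) := by
  have h1 : fatForms r d p m ≤ LinearMap.range (toPoly (r + 1) d) := fun F hF =>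
    ⟨_, exists_toPoly hF.1⟩
  exact Module.Finite.of_injective (Submodule.inclusion h1) (Submodule.inclusion_injective h1)

end BridgeCX

open BridgeCX

/-- Adding a point of multiplicity `d + 1 - e` imposes at most as many conditions as there are
forms of degree `d - e` with the other multiplicities lowered by `e`. -/
theorem finrank_fat_le_add {r : ℕ} {ι : Type} [Fintype ι] (d : ℕ)
    (p : ι → Fin (r + 1) → ℂ) (m : ι → ℕ) (i₀ : ι) (e : ℕ) (he : e ≤ d) (hi₀ : m i₀ = 0) :
    Module.finrank ℂ (fatForms r d p m) ≤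
      Module.finrank ℂ (fatForms r d p (Function.update m i₀ (d + 1 - e))) +
        Module.finrank ℂ (fatForms r (d - e) p (fun i => m i - e)) := by
  have hfin1 := finite_fat (d := d) p m
  have hfin2 := finite_fat (d := d) p (Function.update m i₀ (d + 1 - e))
  have hfin3 := finite_fat (d := d - e) p (fun i => m i - e)
  let T : fatForms r d p m →ₗ[ℂ] MvPolynomial (Fin (r + 1)) ℂ :=
    ((dd (p i₀)) ^ e).comp (fatForms r d p m).subtype
  have hT : ∀ F : fatForms r d p m, T F = ((dd (p i₀)) ^ e) F.1 := fun _ => rfl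
  have h1 := LinearMap.finrank_range_add_finrank_ker T
  have h2 : Module.finrank ℂ (LinearMap.range T) ≤
      Module.finrank ℂ (fatForms r (d - e) p (fun i => m i - e)) := by
    apply Submodule.finrank_mono
    rintro _ ⟨F, rfl⟩
    rw [hT]
    exact ⟨iter_isHomogeneous _ e F.2.1, fun i => iter_vanishes _ _ e (F.2.2 i)⟩
  have h3 : Module.finrank ℂ (LinearMap.ker T) ≤
      Module.finrank ℂ (fatForms r d p (Function.update m i₀ (d + 1 - e))) := by
    rw [(Submodule.equivMapOfInjective _ (Submodule.subtype_injective (fatForms r d p m))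
      (LinearMap.ker T)).finrank_eq]
    apply Submodule.finrank_mono
    rintro _ ⟨F, hF, rfl⟩
    refine ⟨F.2.1, fun i => ?_⟩
    by_cases hi : i = i₀
    · subst hi
      rw [Function.update_self]
      exact vanishes_of_iter _ e F.2.1 he hF
    · rw [Function.update_of_ne hi]
      exact F.2.2 i
  omega

end Pool.Agent.H21.HD
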