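import Pool.Agent.H21.HD.Defs
import Pool.Agent.H18.FatToric
import Pool.Agent.H21.HD.BridgeC

/-!
Pairs with large multiplicities.
-/

namespace Pool.Agent.H21.HD

open MvPolynomial Pool.Agent.H18.Fat
open scoped Classical

namespace BridgeDX

open BridgeCX

theorem range_toPoly' (n d : ℕ) :
    LinearMap.range (toPoly n d) = homogeneousSubmodule (Fin n) ℂ d := by
  ext F
  constructor
  · rintro ⟨f, rfl⟩
    exact toPoly_isHomogeneous f
  · intro hF
    exact ⟨_, exists_toPoly hF⟩

theorem finrank_homog' (r d : ℕ) :
    Module.finrank ℂ (homogeneousSubmodule (Fin (r + 1)) ℂ d) = (d + r).choose r := by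
  rw [← range_toPoly', LinearMap.finrank_range_of_inj (toPoly_injective (r + 1) d),
    Module.finrank_fintype_fun_eq_card, Fintype.card_coe, card_mons]

theorem finite_homog' (n d : ℕ) :
    Module.Finite ℂ (homogeneousSubmodule (Fin n) ℂ d) := by
  rw [← range_toPoly']
  infer_instance

/-- A fat point imposes at least one condition. -/
theorem finrank_fat_lt {r d : ℕ} {ι : Type*} (p : ι → Fin (r + 1) → ℂ) (m : ι → ℕ) (i : ι)
    (hi : 1 ≤ m i) (hp : p i 0 ≠ 0) :
    Module.finrank ℂ (fatForms r d p m) < (d + r).choose r := by
  have hfin := finite_homog' (r + 1) d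
  rw [← finrank_homog' r d]
  apply Submodule.finrank_lt_finrank_of_lt
  refine lt_of_le_of_ne (fun F hF => hF.1) ?_
  intro heq
  have h1 : (X 0 ^ d : MvPolynomial (Fin (r + 1)) ℂ) ∈ homogeneousSubmodule (Fin (r + 1)) ℂ d := by
    rw [mem_homogeneousSubmodule]
    simpa using (isHomogeneous_X ℂ (0 : Fin (r + 1))).pow d
  rw [← heq] at h1
  have h2 := h1.2 i 0 (by
    rw [map_zero]
    omega)
  have h3 : coeff 0 (shift (p i) (X 0 ^ d)) = p i 0 ^ d := by
    unfold shift
    rw [map_pow, aeval_X, ← constantCoeff_eq, map_pow]
    simp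
  rw [h3] at h2
  exact pow_ne_zero d hp h2

end BridgeDX

open BridgeCX BridgeDX

/-- If two multiplicities have sum at least `d + 2` and there is a nonzero form, then the
conditions are not maximal. -/
theorem not_maximal_of_pair {r k : ℕ} (hr : 1 ≤ r) (d : ℕ) (p : Fin k → Fin (r + 1) → ℂ)
    (hp : ∀ i, p i 0 ≠ 0) (m : Fin k → ℕ) (hm : ∀ i, 1 ≤ m i ∧ m i ≤ d) (i j : Fin k) (hij : i ≠ j)
    (h : d + 2 ≤ m i + m j) (hpos : 0 < Module.finrank ℂ (fatForms r d p m)) :
    ¬ ImposesMaximalConditions r d p m := by
  intro hmax
  unfold ImposesMaximalConditions at hmax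
  have hmi := hm i
  have hmj := hm j
  have hzero : (0 + r - 1).choose r = 0 := Nat.choose_eq_zero_of_lt (by omega)
  set len : ℕ → ℕ := fun a => (a + r - 1).choose r with hlen
  have hlen0 : len 0 = 0 := hzero
  have hlen' : ∀ a, (a + r - 1).choose r = len a := fun _ => rfl
  let mi : Fin k → ℕ := fun l => if l = i then m l else 0
  let mij : Fin k → ℕ := fun l => if l = i ∨ l = j then m l else 0
  let n : Fin k → ℕ := fun l => if l = i ∨ l = j then 0 else m l
  -- the single point
  have h1 : ((d + r).choose r : ℤ) - (len (m i) : ℤ) ≤ Module.finrank ℂ (fatForms r d p mi) := by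
    have h := finrank_fatForms_ge (d := d) hr hp mi
    have h2 : ∑ l, ((mi l + r - 1).choose r : ℤ) = (len (m i) : ℤ) := by
      rw [Finset.sum_eq_single i]
      · simp [mi, hlen]
      · intro l _ hl
        have : mi l = 0 := if_neg hl
        rw [this]
        exact_mod_cast hzero
      · intro hi
        exact absurd (Finset.mem_univ _) hi
    rwa [h2] at h
  -- adding the second point
  have h2 : Module.finrank ℂ (fatForms r d p mi) <
      Module.finrank ℂ (fatForms r d p mij) + len (m j) := by
    have h3 := finrank_fat_le_add d p mi j (d + 1 - m j) (by omega) (if_neg (Ne.symm hij))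
    have h4 : ∀ inst : DecidableEq (Fin k),
        @Function.update (Fin k) (fun _ => ℕ) inst mi j (d + 1 - (d + 1 - m j)) = mij := by
      intro inst
      funext l
      by_cases hl : l = j
      · subst hl
        rw [Function.update_self]
        have : mij l = m l := if_pos (Or.inr rfl)
        rw [this]
        omega
      · rw [Function.update_of_ne hl]
        by_cases hli : l = i
        · simp [mi, mij, hli]
        · simp [mi, mij, hli, hl]
    rw [h4] at h3
    have h5 := finrank_fat_lt (d := d - (d + 1 - m j)) p (fun l => mi l - (d + 1 - m j)) i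
      (by
        have : mi i = m i := if_pos rfl
        change 1 ≤ mi i - (d + 1 - m j)
        rw [this]
        omega) (hp i)
    have h6 : d - (d + 1 - m j) + r = m j + r - 1 := by omega
    rw [h6, hlen' (m j)] at h5
    omega
  -- the other points
  have h3 : Module.finrank ℂ (fatForms r d p mij) ≤
      Module.finrank ℂ (fatForms r d p m) + ∑ l, len (n l) := by
    have h4 := finrank_add_length_ge (d := d) hr p mij p hp n
    have hfin := finite_fat (d := d) p m
    have h5 : Module.finrank ℂ (fatForms r d (Sum.elim p p) (Sum.elim mij n)) ≤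
        Module.finrank ℂ (fatForms r d p m) := by
      apply Submodule.finrank_mono
      intro F hF
      refine ⟨hF.1, fun l => ?_⟩
      by_cases hl : l = i ∨ l = j
      · have h6 := hF.2 (Sum.inl l)
        simp only [Sum.elim_inl] at h6
        have h7 : mij l = m l := if_pos hl
        rwa [h7] at h6
      · have h6 := hF.2 (Sum.inr l)
        simp only [Sum.elim_inr] at h6
        have h7 : n l = m l := if_neg hl
        rwa [h7] at h6
    exact h4.trans (Nat.add_le_add_right h5 _)
  -- the sum of the lengths
  have h4 : ∑ l, len (m l) = ∑ l, len (n l) + len (m i) + len (m j) := by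
    have h5 : ∀ l, len (m l) = len (n l) + (if l = i then len (m i) else 0) +
        (if l = j then len (m j) else 0) := by
      intro l
      by_cases hl : l = i
      · subst hl
        have h7 : n l = 0 := if_pos (Or.inl rfl)
        rw [h7, hlen0, if_pos rfl, if_neg hij]
        omega
      · by_cases hl' : l = j
        · subst hl'
          have h7 : n l = 0 := if_pos (Or.inr rfl)
          rw [h7, hlen0, if_pos rfl, if_neg hl]
          omega
        · have h7 : n l = m l := if_neg (by tauto)
          rw [h7, if_neg hl, if_neg hl']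
          omega
    rw [Finset.sum_congr rfl fun l _ => h5 l, Finset.sum_add_distrib, Finset.sum_add_distrib]
    simp
  have h5 : ∑ l, ((m l + r - 1).choose r : ℤ) = ((∑ l, len (m l) : ℕ) : ℤ) := by
    push_cast
    rfl
  rw [h5, h4] at hmax
  generalize ∑ l, len (n l) = S at hmax h3
  have h6 : (0 : ℤ) < (Module.finrank ℂ (fatForms r d p m) : ℤ) := by exact_mod_cast hpos
  rcases le_total (0 : ℤ) (((d + r).choose r : ℤ) -
      ((S + len (m i) + len (m j) : ℕ) : ℤ)) with h7 | h7
  · rw [max_eq_right h7] at hmax
    push_cast at hmax h1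
    omega
  · rw [max_eq_left h7] at hmax
    omega

end Pool.Agent.H21.HD
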