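import Pool.Agent.H21.HD.Defs
import Pool.Agent.H18.FatToric

/-!
Apolarity.
-/

namespace Pool.Agent.H21.HD

open MvPolynomial Pool.Agent.H18.Fat
open scoped Classical

namespace BridgeAX

/-- The factorial of an exponent vector. -/
noncomputable def fact {n : ℕ} (α : Fin n →₀ ℕ) : ℂ := ∏ j, ((α j).factorial : ℂ)

theorem fact_ne_zero {n : ℕ} (α : Fin n →₀ ℕ) : fact α ≠ 0 :=
  Finset.prod_ne_zero_iff.2 fun j _ => Nat.cast_ne_zero.2 (Nat.factorial_ne_zero _)

theorem fact_add_single {n : ℕ} (β : Fin n →₀ ℕ) (j : Fin n) :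
    fact (β + Finsupp.single j 1) = ((β j : ℂ) + 1) * fact β := by
  unfold fact
  rw [← Finset.mul_prod_erase Finset.univ _ (Finset.mem_univ j),
    ← Finset.mul_prod_erase Finset.univ (fun i => ((β i).factorial : ℂ)) (Finset.mem_univ j)]
  have h2 : ∏ x ∈ Finset.univ.erase j,
      (((β + Finsupp.single j 1 : Fin n →₀ ℕ) x).factorial : ℂ) =
      ∏ x ∈ Finset.univ.erase j, ((β x).factorial : ℂ) := by
    refine Finset.prod_congr rfl fun x hx => ?_
    have hx' : x ≠ j := Finset.ne_of_mem_erase hx
    simp [Finsupp.single_eq_of_ne hx']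
  rw [h2]
  simp only [Finsupp.add_apply, Finsupp.single_eq_same]
  rw [Nat.factorial_succ]
  push_cast
  ring

/-- The apolar pairing. -/
noncomputable def pair {n d : ℕ} (f : mons n d → ℂ) : MvPolynomial (Fin n) ℂ →ₗ[ℂ] ℂ where
  toFun G := ∑ α : mons n d, fact α.1 * f α * coeff α.1 G
  map_add' G H := by
    rw [← Finset.sum_add_distrib]
    exact Finset.sum_congr rfl fun α _ => by rw [coeff_add]; ring
  map_smul' c G := by
    rw [RingHom.id_apply, smul_eq_mul, Finset.mul_sum]
    exact Finset.sum_congr rfl fun α _ => by rw [coeff_smul, smul_eq_mul]; ring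

theorem pair_apply {n d : ℕ} (f : mons n d → ℂ) (G : MvPolynomial (Fin n) ℂ) :
    pair f G = ∑ α : mons n d, fact α.1 * f α * coeff α.1 G := rfl

theorem pair_monomial {n d : ℕ} (f : mons n d → ℂ) (β : mons n d) :
    pair f (monomial β.1 1) = fact β.1 * f β := by
  rw [pair_apply, Finset.sum_eq_single β]
  · rw [coeff_monomial, if_pos rfl, mul_one]
  · intro α _ hα
    rw [coeff_monomial, if_neg (fun h => hα (Subtype.ext h.symm)), mul_zero]
  · intro h
    exact absurd (Finset.mem_univ _) h

theorem coeff_shift_top {n d : ℕ} (q : Fin n → ℂ) (f : mons n d → ℂ) (β : mons n d) :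
    coeff β.1 (shift q (toPoly n d f)) = f β := by
  rw [coeff_shift_toPoly, Finset.sum_eq_single β]
  · have : tc q β.1 β.1 = 1 := by
      unfold tc
      refine Finset.prod_eq_one fun j _ => ?_
      simp
    rw [this, mul_one]
  · intro α _ hα
    have : tc q α.1 β.1 = 0 := by
      obtain ⟨j, hj⟩ : ∃ j, α.1 j < β.1 j := by
        by_contra hcon
        push Not at hcon
        apply hα
        have h1 := mem_mons.1 α.2
        have h2 := mem_mons.1 β.2
        rw [Finsupp.degree_eq_sum] at h1 h2
        have h3 := (Finset.sum_eq_sum_iff_of_le (fun j _ => hcon j)).1 (h2.trans h1.symm)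
        apply Subtype.ext
        ext j
        exact (h3 j (Finset.mem_univ j)).symm
      unfold tc
      apply Finset.prod_eq_zero (Finset.mem_univ j)
      rw [Nat.choose_eq_zero_of_lt hj]
      simp
    rw [this, mul_zero]
  · intro h
    exact absurd (Finset.mem_univ _) h

/-- Apolarity for monomials times powers of a linear form. -/
theorem pair_monomial_mul_lin_pow {n d : ℕ} (q : Fin n → ℂ) (f : mons n d → ℂ) (e : ℕ) :
    ∀ β : Fin n →₀ ℕ, β.degree + e = d →
      pair f (monomial β 1 * lin q ^ e) =
        (e.factorial : ℂ) * fact β * coeff β (shift q (toPoly n d f)) := by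
  induction e with
  | zero =>
    intro β hβ
    have hβ' : β ∈ mons n d := mem_mons.2 (by omega)
    rw [pow_zero, mul_one, pair_monomial f ⟨β, hβ'⟩, coeff_shift_top q f ⟨β, hβ'⟩]
    simp
  | succ e ih =>
    intro β hβ
    have h1 : (monomial β 1 * lin q ^ (e + 1) : MvPolynomial (Fin n) ℂ) =
        ∑ j, q j • (monomial (β + Finsupp.single j 1) 1 * lin q ^ e) := by
      have h2 : (monomial β 1 * lin q ^ (e + 1) : MvPolynomial (Fin n) ℂ) =
          (monomial β 1 * lin q) * lin q ^ e := by
        rw [pow_succ]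
        ring
      rw [h2]
      have h3 : (monomial β 1 * lin q : MvPolynomial (Fin n) ℂ) =
          ∑ j, q j • monomial (β + Finsupp.single j 1) 1 := by
        unfold lin
        rw [Finset.mul_sum]
        refine Finset.sum_congr rfl fun j _ => ?_
        rw [X, C_mul_monomial, monomial_mul, smul_monomial, smul_eq_mul]
        simp
      rw [h3, Finset.sum_mul]
      exact Finset.sum_congr rfl fun j _ => by rw [smul_mul_assoc]
    rw [h1, map_sum]
    have h4 : ∀ j : Fin n, pair f (q j • (monomial (β + Finsupp.single j 1) 1 * lin q ^ e)) =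
        ((e.factorial : ℂ) * fact β) * (q j * ((β j : ℂ) + 1) *
          coeff (β + Finsupp.single j 1) (shift q (toPoly n d f))) := by
      intro j
      rw [map_smul, ih (β + Finsupp.single j 1) (by
        simp only [map_add, Finsupp.degree_single]
        omega), fact_add_single, smul_eq_mul]
      ring
    rw [Finset.sum_congr rfl fun j _ => h4 j, ← Finset.mul_sum, coeff_shift_euler q β f]
    have h5 : (d : ℂ) - (β.degree : ℂ) = (e : ℂ) + 1 := by
      rw [← hβ]
      push_cast
      ring
    rw [h5, Nat.factorial_succ]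
    push_cast
    ring

theorem pair_mul_lin_pow_eq_zero {n d m : ℕ} (q : Fin n → ℂ) (f : mons n d → ℂ)
    (hf : VanishesToOrder (toPoly n d f) q m) {e : ℕ} (he : e ≤ d) (hme : d < m + e)
    {g : MvPolynomial (Fin n) ℂ} (hg : g.IsHomogeneous (d - e)) :
    pair f (g * lin q ^ e) = 0 := by
  rw [g.as_sum, Finset.sum_mul, map_sum]
  refine Finset.sum_eq_zero fun β hβ => ?_
  have h1 : β.degree = d - e := by
    by_contra hne
    exact (mem_support_iff.1 hβ) (hg.coeff_eq_zero hne)
  have h2 : (monomial β (coeff β g) : MvPolynomial (Fin n) ℂ) =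
      coeff β g • monomial β 1 := by
    rw [smul_monomial, smul_eq_mul, mul_one]
  rw [h2, smul_mul_assoc, map_smul, pair_monomial_mul_lin_pow q f e β (by omega),
    hf β (by omega), mul_zero, smul_zero]

theorem lin_isHomogeneous {σ : Type*} [Fintype σ] (v : σ → ℂ) : (lin v).IsHomogeneous 1 :=
  IsHomogeneous.sum _ _ _ fun s _ => isHomogeneous_C_mul_X _ _

theorem powSpan_le {σ P : Type*} [Fintype σ] (d : ℕ) (v : P → σ → ℂ) (e : P → ℕ) :
    powSpan d v e ≤ homogeneousSubmodule σ ℂ d := by
  unfold powSpan
  rw [Submodule.span_le]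
  rintro F ⟨p, g, he, hg, rfl⟩
  rw [SetLike.mem_coe, mem_homogeneousSubmodule]
  have h1 := hg.mul ((lin_isHomogeneous (v p)).pow (e p))
  have h2 : d - e p + 1 * e p = d := by omega
  rwa [h2] at h1

theorem range_toPoly (n d : ℕ) :
    LinearMap.range (toPoly n d) = homogeneousSubmodule (Fin n) ℂ d := by
  ext F
  constructor
  · rintro ⟨f, rfl⟩
    exact toPoly_isHomogeneous f
  · intro hF
    exact ⟨_, exists_toPoly hF⟩

theorem finrank_comap {n d : ℕ} {W : Submodule ℂ (MvPolynomial (Fin n) ℂ)}
    (hW : W ≤ homogeneousSubmodule (Fin n) ℂ d) :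
    Module.finrank ℂ (W.comap (toPoly n d)) = Module.finrank ℂ W := by
  have h1 : (W.comap (toPoly n d)).map (toPoly n d) = W := by
    apply Submodule.map_comap_eq_of_le
    rw [range_toPoly]
    exact hW
  conv_rhs => rw [← h1]
  exact (Submodule.equivMapOfInjective _ (toPoly_injective _ _) _).finrank_eq

end BridgeAX

open BridgeAX in
/-- Apolarity: the forms vanishing at the fat points annihilate the powers. -/
theorem finrank_fat_add_powSpan {r : ℕ} {ι : Type} [Fintype ι] (d : ℕ)
    (p : ι → Fin (r + 1) → ℂ) (m : ι → ℕ) :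
    Module.finrank ℂ (fatForms r d p m) +
      Module.finrank ℂ (powSpan d p (fun i => d + 1 - m i)) ≤ (d + r).choose r := by
  have h1 : fatForms r d p m ≤ homogeneousSubmodule (Fin (r + 1)) ℂ d := fun F hF => hF.1
  rw [← finrank_comap h1, ← finrank_comap (powSpan_le d p (fun i => d + 1 - m i))]
  set W₁ := (fatForms r d p m).comap (toPoly (r + 1) d) with hW₁
  set W₂ := (powSpan d p (fun i => d + 1 - m i)).comap (toPoly (r + 1) d) with hW₂
  -- the pairing as a map to the dual
  let u : (mons (r + 1) d → ℂ) →ₗ[ℂ] Module.Dual ℂ (mons (r + 1) d → ℂ) :=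
    { toFun := fun f => (pair f).comp (toPoly (r + 1) d)
      map_add' := fun f g => by
        ext x
        simp only [LinearMap.comp_apply, LinearMap.add_apply, pair_apply, Pi.add_apply]
        rw [← Finset.sum_add_distrib]
        exact Finset.sum_congr rfl fun α _ => by ring
      map_smul' := fun c f => by
        ext x
        simp only [LinearMap.comp_apply, LinearMap.smul_apply, pair_apply, Pi.smul_apply,
          RingHom.id_apply, smul_eq_mul]
        rw [Finset.mul_sum]
        exact Finset.sum_congr rfl fun α _ => by ring }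
  have hu : ∀ f x, u f x = pair f (toPoly (r + 1) d x) := fun _ _ => rfl
  have huinj : Function.Injective u := by
    rw [← LinearMap.ker_eq_bot, LinearMap.ker_eq_bot']
    intro f hf
    funext β
    have h2 : u f (Pi.single β 1) = 0 := by rw [hf]; rfl
    rw [hu, pair_apply, Finset.sum_eq_single β] at h2
    · rw [coeff_toPoly, Pi.single_eq_same, mul_one] at h2
      exact (mul_eq_zero.1 h2).resolve_left (fact_ne_zero _)
    · intro α _ hα
      rw [coeff_toPoly, Pi.single_eq_of_ne hα, mul_zero]
    · intro h
      exact absurd (Finset.mem_univ _) h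
  have hmap : W₁.map u ≤ W₂.dualAnnihilator := by
    rintro _ ⟨f, hf, rfl⟩
    rw [Submodule.mem_dualAnnihilator]
    intro x hx
    rw [hu]
    have h3 : toPoly (r + 1) d x ∈ powSpan d p (fun i => d + 1 - m i) := hx
    have h4 : powSpan d p (fun i => d + 1 - m i) ≤ LinearMap.ker (pair f) := by
      unfold powSpan
      rw [Submodule.span_le]
      rintro F ⟨i, g, he, hg, rfl⟩
      rw [SetLike.mem_coe, LinearMap.mem_ker]
      simp only at he hg ⊢
      exact pair_mul_lin_pow_eq_zero (p i) f (hf.2 i) he (by omega) hg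
    exact LinearMap.mem_ker.1 (h4 h3)
  have h5 : Module.finrank ℂ W₁ ≤ Module.finrank ℂ W₂.dualAnnihilator := by
    rw [(Submodule.equivMapOfInjective u huinj W₁).finrank_eq]
    exact Submodule.finrank_mono hmap
  have h6 := Subspace.finrank_add_finrank_dualAnnihilator_eq W₂
  rw [Module.finrank_fintype_fun_eq_card, Fintype.card_coe, card_mons] at h6
  omega

end Pool.Agent.H21.HD
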