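import Pool.Agent.H21.HD.Defs
import Pool.Agent.H18.FatToric
import Pool.Agent.H21.HD.BridgeA

/-!
Consequences of apolarity.
-/

namespace Pool.Agent.H21.HD

open MvPolynomial Pool.Agent.H18.Fat
open scoped Classical

namespace BridgeBX

open BridgeAX

theorem finrank_homog (n d : ℕ) :
    Module.finrank ℂ (homogeneousSubmodule (Fin n) ℂ d) = (mons n d).card := by
  rw [← range_toPoly, LinearMap.finrank_range_of_inj (toPoly_injective n d),
    Module.finrank_fintype_fun_eq_card, Fintype.card_coe]

theorem finite_homog (n d : ℕ) :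
    Module.Finite ℂ (homogeneousSubmodule (Fin n) ℂ d) := by
  rw [← range_toPoly]
  infer_instance

theorem finite_of_le {n d : ℕ} {W : Submodule ℂ (MvPolynomial (Fin n) ℂ)}
    (hW : W ≤ homogeneousSubmodule (Fin n) ℂ d) : Module.Finite ℂ W := by
  have := finite_homog n d
  exact Module.Finite.of_injective (Submodule.inclusion hW) (Submodule.inclusion_injective hW)

end BridgeBX

open BridgeAX BridgeBX

/-- If the powers span then no form vanishes at the fat points. -/
theorem fat_eq_bot_of_span {r : ℕ} {ι : Type} [Fintype ι] (d : ℕ)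
    (p : ι → Fin (r + 1) → ℂ) (m : ι → ℕ)
    (h : homogeneousSubmodule (Fin (r + 1)) ℂ d ≤ powSpan d p (fun i => d + 1 - m i)) :
    Module.finrank ℂ (fatForms r d p m) = 0 := by
  have h1 := finrank_fat_add_powSpan d p m
  have h2 : powSpan d p (fun i => d + 1 - m i) = homogeneousSubmodule (Fin (r + 1)) ℂ d :=
    le_antisymm (powSpan_le d p _) h
  rw [h2, finrank_homog, card_mons] at h1
  omega

/-- If the powers are independent then the fat points impose independent conditions. -/
theorem finrank_fat_of_indep {r : ℕ} {ι : Type} [Fintype ι] (d : ℕ)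
    (p : ι → Fin (r + 1) → ℂ) (m : ι → ℕ) (hm : ∀ i, 1 ≤ m i ∧ m i ≤ d)
    (h : Indep d p (fun i => d + 1 - m i)) :
    (Module.finrank ℂ (fatForms r d p m) : ℤ) ≤
      ((d + r).choose r : ℤ) - ∑ i, ((m i + r - 1).choose r : ℤ) := by
  have h1 := finrank_fat_add_powSpan d p m
  -- the sum map
  let Φ : (∀ i, (mons (r + 1) (m i - 1) → ℂ)) →ₗ[ℂ] MvPolynomial (Fin (r + 1)) ℂ :=
    { toFun := fun f => ∑ i, toPoly (r + 1) (m i - 1) (f i) * lin (p i) ^ (d + 1 - m i)
      map_add' := fun f g => by
        rw [← Finset.sum_add_distrib]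
        refine Finset.sum_congr rfl fun i _ => ?_
        rw [Pi.add_apply, map_add, add_mul]
      map_smul' := fun c f => by
        rw [RingHom.id_apply, Finset.smul_sum]
        refine Finset.sum_congr rfl fun i _ => ?_
        rw [Pi.smul_apply, map_smul, smul_mul_assoc] }
  have hΦ : ∀ f, Φ f = ∑ i, toPoly (r + 1) (m i - 1) (f i) * lin (p i) ^ (d + 1 - m i) :=
    fun _ => rfl
  have hdeg : ∀ i, d - (d + 1 - m i) = m i - 1 := fun i => by
    have := hm i
    omega
  have hinj : Function.Injective Φ := by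
    rw [← LinearMap.ker_eq_bot, LinearMap.ker_eq_bot']
    intro f hf
    rw [hΦ] at hf
    have h2 := h (fun i => toPoly (r + 1) (m i - 1) (f i)) (fun i => by
      change (toPoly (r + 1) (m i - 1) (f i)).IsHomogeneous (d - (d + 1 - m i))
      rw [hdeg i]
      exact toPoly_isHomogeneous _) hf
    funext i
    apply toPoly_injective (r + 1) (m i - 1)
    rw [h2 i]
    exact (map_zero _).symm
  have hrange : LinearMap.range Φ ≤ powSpan d p (fun i => d + 1 - m i) := by
    rintro _ ⟨f, rfl⟩
    rw [hΦ]
    refine Submodule.sum_mem _ fun i _ => ?_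
    refine Submodule.subset_span ⟨i, toPoly (r + 1) (m i - 1) (f i), ?_, ?_, rfl⟩
    · have := hm i
      change d + 1 - m i ≤ d
      omega
    · change (toPoly (r + 1) (m i - 1) (f i)).IsHomogeneous (d - (d + 1 - m i))
      rw [hdeg i]
      exact toPoly_isHomogeneous _
  have := finite_of_le (powSpan_le d p (fun i => d + 1 - m i))
  have h3 := Submodule.finrank_mono hrange
  rw [LinearMap.finrank_range_of_inj hinj, Module.finrank_pi_fintype] at h3
  have h4 : ∑ i, Module.finrank ℂ (mons (r + 1) (m i - 1) → ℂ) =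
      ∑ i, (m i + r - 1).choose r := by
    refine Finset.sum_congr rfl fun i _ => ?_
    rw [Module.finrank_fintype_fun_eq_card, Fintype.card_coe, card_mons]
    have := hm i
    congr 1
    omega
  rw [h4] at h3
  have h5 : ((∑ i, (m i + r - 1).choose r : ℕ) : ℤ) = ∑ i, ((m i + r - 1).choose r : ℤ) := by
    push_cast
    rfl
  rw [← h5]
  omega

end Pool.Agent.H21.HD
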