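import Mathlib

/-!
Balanced maps.
-/

namespace Pool.Agent.H21.HD

open scoped Classical

private theorem exists_bal {X Y : Type} [Fintype X] [Fintype Y] [Nonempty Y] :
    ∃ f : X → Y, ∀ y, Fintype.card X / Fintype.card Y ≤
      (Finset.univ.filter (fun x => f x = y)).card ∧
      (Finset.univ.filter (fun x => f x = y)).card ≤ Fintype.card X / Fintype.card Y + 1 := by
  set n := Fintype.card X with hn
  set m := Fintype.card Y with hm
  have hm0 : 0 < m := Fintype.card_pos
  let eX : X ≃ Fin n := Fintype.equivFin X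
  let eY : Y ≃ Fin m := Fintype.equivFin Y
  refine ⟨fun x => eY.symm ⟨(eX x : ℕ) % m, Nat.mod_lt _ hm0⟩, fun y => ?_⟩
  have h1 : (Finset.univ.filter (fun x : X => eY.symm ⟨(eX x : ℕ) % m, Nat.mod_lt _ hm0⟩ = y)).card
      = Nat.count (fun k => k ≡ (eY y : ℕ) [MOD m]) n := by
    rw [Nat.count_eq_card_filter_range]
    refine Finset.card_bij (fun x _ => (eX x : ℕ)) ?_ ?_ ?_
    · intro x hx
      rw [Finset.mem_filter] at hx ⊢
      refine ⟨Finset.mem_range.2 (eX x).2, ?_⟩
      have h2 := hx.2
      rw [Equiv.symm_apply_eq] at h2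
      have h3 := congrArg Fin.val h2
      change (eX x : ℕ) % m = (eY y : ℕ) % m
      rw [Nat.mod_eq_of_lt (eY y).2]
      exact h3
    · intro x _ x' _ h
      exact eX.injective (Fin.ext h)
    · intro k hk
      rw [Finset.mem_filter, Finset.mem_range] at hk
      refine ⟨eX.symm ⟨k, hk.1⟩, ?_, by simp⟩
      rw [Finset.mem_filter]
      refine ⟨Finset.mem_univ _, ?_⟩
      rw [Equiv.symm_apply_eq]
      apply Fin.ext
      have h4 : k % m = (eY y : ℕ) % m := hk.2
      rw [Nat.mod_eq_of_lt (eY y).2] at h4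
      simpa using h4
  rw [h1, Nat.count_modEq_card _ hm0]
  constructor
  · exact Nat.le_add_right _ _
  · split_ifs
    · exact le_refl _
    · exact Nat.le_succ _

/-- A map with fibres of size at most `|X| / |Y| + 1`. -/
theorem exists_balanced {X Y : Type} [Fintype X] [Fintype Y] [Nonempty Y] :
    ∃ f : X → Y, ∀ y, (Finset.univ.filter (fun x => f x = y)).card ≤
      Fintype.card X / Fintype.card Y + 1 := by
  obtain ⟨f, hf⟩ := exists_bal (X := X) (Y := Y)
  exact ⟨f, fun y => (hf y).2⟩

/-- A map with fibres of size at least `|X| / |Y|`. -/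
theorem exists_balanced' {X Y : Type} [Fintype X] [Fintype Y] [Nonempty Y] :
    ∃ f : X → Y, ∀ y, Fintype.card X / Fintype.card Y ≤
      (Finset.univ.filter (fun x => f x = y)).card := by
  obtain ⟨f, hf⟩ := exists_bal (X := X) (Y := Y)
  exact ⟨f, fun y => (hf y).1⟩

end Pool.Agent.H21.HD
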