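import Pool.Agent.H21.HD.Defs

/-!
Renaming variables.
-/

namespace Pool.Agent.H21.HD

open MvPolynomial
open scoped Classical

/-- Independence does not depend on the names of the variables. -/
theorem indep_transport {σ τ P : Type} [Fintype σ] [Fintype τ] [Fintype P] (E : σ ≃ τ) (d : ℕ)
    (w : P → σ → ℂ) (e : P → ℕ) (h : Indep d w e) :
    Indep d (fun p t => w p (E.symm t)) e := by
  intro g hg hsum p
  have hlin : ∀ p, rename E.symm (lin (fun t => w p (E.symm t))) = lin (w p) := by
    intro p
    unfold lin
    rw [map_sum]
    simp only [map_mul, rename_C, rename_X]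
    exact Equiv.sum_comp E.symm (fun s => C (w p s) * X s)
  have h1 := h (fun p => rename E.symm (g p))
    (fun p => (hg p).rename_isHomogeneous) (by
      have h2 := congrArg (rename E.symm) hsum
      rw [map_sum, map_zero] at h2
      rw [← h2]
      refine Finset.sum_congr rfl fun p _ => ?_
      rw [map_mul, map_pow, hlin]) p
  have h3 : Function.Injective (rename E.symm : MvPolynomial τ ℂ → MvPolynomial σ ℂ) :=
    rename_injective _ E.symm.injective
  apply h3
  rw [map_zero]
  exact h1

end Pool.Agent.H21.HD
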