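import Mathlib

/-!
Numerical estimate.
-/

namespace Pool.Agent.H21.HD

open scoped Classical

/-- Numerical estimate: the load of a set of `d` blocks. -/
theorem load_estimate (d h : ℕ) (hd : 1 ≤ d) (hh : 1 ≤ h) (ε : ℝ) (hε : 0 < ε) :
    ∃ r₀ : ℕ, ∀ r : ℕ, r₀ ≤ r → ∀ N : ℕ, r + 1 < (N + 1) * h + h ^ d → 
      d ≤ N ∧ ∀ e : ℕ, 1 ≤ e → e ≤ d →
        (d.choose e : ℝ) / ((N.choose e : ℝ) * (h : ℝ) ^ e) ≤
          (1 + ε) * ((r + (d - e)).choose r : ℝ) / ((r + d).choose r : ℝ) := by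
  -- the limit
  set K : ℕ := d + h ^ d + d * h with hK
  have hlim : Filter.Tendsto (fun x : ℕ => (1 + (K : ℝ) / (x : ℝ)) ^ d) Filter.atTop (nhds 1) := by
    have h1 : Filter.Tendsto (fun x : ℕ => (K : ℝ) / (x : ℝ)) Filter.atTop (nhds 0) :=
      tendsto_const_div_atTop_nhds_zero_nat _
    have h2 := (h1.const_add 1).pow d
    simpa using h2
  have hev := hlim.eventually (gt_mem_nhds (show (1 : ℝ) < 1 + ε by linarith))
  obtain ⟨x₀, hx₀⟩ := Filter.eventually_atTop.1 hev
  refine ⟨x₀ + (d + 1) * h + h ^ d + d * h + d, fun r hr N hN => ?_⟩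
  have hdN : d ≤ N := by
    by_contra hcon
    push Not at hcon
    have h1 : (N + 1) * h ≤ d * h := Nat.mul_le_mul_right h hcon
    have h2 : (d + 1) * h = d * h + h := by ring
    omega
  refine ⟨hdN, fun e he1 hed => ?_⟩
  -- set x = r + 1 - h ^ d - d * h
  obtain ⟨x, hx⟩ : ∃ x, r + 1 = x + (h ^ d + d * h) := ⟨r + 1 - (h ^ d + d * h), by omega⟩
  have hxx : x₀ ≤ x := by
    have h2 : (d + 1) * h = d * h + h := by ring
    omega
  have hx1 : 1 ≤ x := by
    have h2 : (d + 1) * h = d * h + h := by ring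
    omega
  have hxpos : (0 : ℝ) < x := by exact_mod_cast hx1
  have hlt := hx₀ x hxx
  -- (N - e + 1) * h ≥ x
  obtain ⟨M, hM⟩ : ∃ M, N = M + e := ⟨N - e, by omega⟩
  have hMx : x ≤ (M + 1) * h := by
    have h1 : (N + 1) * h = (M + 1) * h + e * h := by rw [hM]; ring
    have h2 : e * h ≤ d * h := Nat.mul_le_mul_right h hed
    omega
  -- lower bound for N.choose e
  have hchoose : ((M + 1 : ℕ) : ℝ) ^ e ≤ (N.choose e : ℝ) * (e.factorial : ℝ) := by
    have h1 : (M + 1) ^ e ≤ N.descFactorial e := by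
      have h2 := Nat.pow_sub_le_descFactorial N e
      have h3 : N + 1 - e = M + 1 := by omega
      rw [h3] at h2
      exact h2
    have h2 : N.descFactorial e = N.choose e * e.factorial := by
      rw [Nat.descFactorial_eq_factorial_mul_choose]; ring
    rw [h2] at h1
    exact_mod_cast h1
  have hNpos : (0 : ℝ) < (N.choose e : ℝ) := by
    have : 0 < N.choose e := Nat.choose_pos (by omega)
    exact_mod_cast this
  have hhpos : (0 : ℝ) < (h : ℝ) := by exact_mod_cast hh
  have hefpos : (0 : ℝ) < (e.factorial : ℝ) := by exact_mod_cast e.factorial_pos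
  -- binomial ratio
  obtain ⟨f, hf⟩ : ∃ f, d = f + e := ⟨d - e, by omega⟩
  have hde : d - e = f := by omega
  rw [hde]
  have hrpos : (0 : ℝ) < ((r + d).choose r : ℝ) := by
    have : 0 < (r + d).choose r := Nat.choose_pos (by omega)
    exact_mod_cast this
  -- (r+d).choose r * d! = (r+d)! / r!
  have e1 : ((r + d).choose r : ℝ) * (r.factorial : ℝ) * (d.factorial : ℝ) =
      ((r + d).factorial : ℝ) := by
    have h1 := Nat.choose_mul_factorial_mul_factorial (show r ≤ r + d by omega)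
    have h2 : r + d - r = d := by omega
    rw [h2] at h1
    exact_mod_cast h1
  have e2 : ((r + f).choose r : ℝ) * (r.factorial : ℝ) * (f.factorial : ℝ) =
      ((r + f).factorial : ℝ) := by
    have h1 := Nat.choose_mul_factorial_mul_factorial (show r ≤ r + f by omega)
    have h2 : r + f - r = f := by omega
    rw [h2] at h1
    exact_mod_cast h1
  have e3 : ((r + d).factorial : ℝ) ≤ ((r + f).factorial : ℝ) * ((r + d : ℕ) : ℝ) ^ e := by
    have h1 := Nat.factorial_mul_pow_le_factorial (m := r + f) (n := e)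
    have h2 : (r + d).descFactorial e ≤ (r + d) ^ e := Nat.descFactorial_le_pow _ _
    have h3 := Nat.factorial_mul_descFactorial (show e ≤ r + d by omega)
    have h4 : r + d - e = r + f := by omega
    rw [h4] at h3
    have h5 : (r + d).factorial ≤ (r + f).factorial * (r + d) ^ e := by
      rw [← h3]
      exact Nat.mul_le_mul_left _ h2
    exact_mod_cast h5
  have e4 : (d.choose e : ℝ) * (e.factorial : ℝ) * (f.factorial : ℝ) = (d.factorial : ℝ) := by
    have h1 := Nat.choose_mul_factorial_mul_factorial hed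
    rw [hde] at h1
    exact_mod_cast h1
  have hffpos : (0 : ℝ) < (f.factorial : ℝ) := by exact_mod_cast f.factorial_pos
  have hrfpos : (0 : ℝ) < (r.factorial : ℝ) := by exact_mod_cast r.factorial_pos
  have hdfpos : (0 : ℝ) < (d.factorial : ℝ) := by exact_mod_cast d.factorial_pos
  -- (r + d) ^ e ≤ (1 + ε) * x ^ e
  have e5 : ((r + d : ℕ) : ℝ) ^ e ≤ (1 + ε) * (x : ℝ) ^ e := by
    have h1 : ((r + d : ℕ) : ℝ) ≤ (x : ℝ) + K := by
      have : r + d ≤ x + K := by omega
      exact_mod_cast this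
    have h2 : ((r + d : ℕ) : ℝ) ≤ (x : ℝ) * (1 + (K : ℝ) / (x : ℝ)) := by
      have : (x : ℝ) * (1 + (K : ℝ) / (x : ℝ)) = (x : ℝ) + K := by
        field_simp
      rw [this]; exact h1
    have h3 : ((r + d : ℕ) : ℝ) ^ e ≤ ((x : ℝ) * (1 + (K : ℝ) / (x : ℝ))) ^ e :=
      pow_le_pow_left₀ (Nat.cast_nonneg _) h2 e
    rw [mul_pow] at h3
    have h4 : (1 + (K : ℝ) / (x : ℝ)) ^ e ≤ (1 + (K : ℝ) / (x : ℝ)) ^ d := by
      apply pow_le_pow_right₀ _ hed
      have : (0 : ℝ) ≤ (K : ℝ) / (x : ℝ) := by positivity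
      linarith
    have h5 : (0 : ℝ) < (x : ℝ) ^ e := by positivity
    calc ((r + d : ℕ) : ℝ) ^ e ≤ (x : ℝ) ^ e * (1 + (K : ℝ) / (x : ℝ)) ^ e := h3
      _ ≤ (x : ℝ) ^ e * (1 + ε) := by
          apply mul_le_mul_of_nonneg_left _ h5.le
          linarith
      _ = (1 + ε) * (x : ℝ) ^ e := by ring
  have e6 : (x : ℝ) ^ e ≤ ((M + 1 : ℕ) : ℝ) ^ e * (h : ℝ) ^ e := by
    rw [← mul_pow]
    apply pow_le_pow_left₀ hxpos.le
    exact_mod_cast hMx
  -- conclusion
  rw [div_le_div_iff₀ (by positivity) hrpos]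
  -- d.choose e * (r+d).choose r ≤ (1+ε) * (r+f).choose r * (N.choose e * h^e)
  have key : (d.choose e : ℝ) * ((r + d).choose r : ℝ) *
      ((e.factorial : ℝ) * (f.factorial : ℝ) * (r.factorial : ℝ) * (d.factorial : ℝ)) ≤
      (1 + ε) * ((r + f).choose r : ℝ) * ((N.choose e : ℝ) * (h : ℝ) ^ e) *
      ((e.factorial : ℝ) * (f.factorial : ℝ) * (r.factorial : ℝ) * (d.factorial : ℝ)) := by
    have l1 : (d.choose e : ℝ) * ((r + d).choose r : ℝ) *
      ((e.factorial : ℝ) * (f.factorial : ℝ) * (r.factorial : ℝ) * (d.factorial : ℝ)) =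
      ((d.choose e : ℝ) * (e.factorial : ℝ) * (f.factorial : ℝ)) *
        (((r + d).choose r : ℝ) * (r.factorial : ℝ) * (d.factorial : ℝ)) := by ring
    have l2 : (1 + ε) * ((r + f).choose r : ℝ) * ((N.choose e : ℝ) * (h : ℝ) ^ e) *
      ((e.factorial : ℝ) * (f.factorial : ℝ) * (r.factorial : ℝ) * (d.factorial : ℝ)) =
      (1 + ε) * (((r + f).choose r : ℝ) * (r.factorial : ℝ) * (f.factorial : ℝ)) *
        (((N.choose e : ℝ) * (e.factorial : ℝ)) * (h : ℝ) ^ e) * (d.factorial : ℝ) := by ring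
    rw [l1, l2, e1, e2, e4]
    have hrf : (0 : ℝ) < ((r + f).factorial : ℝ) := by exact_mod_cast (r + f).factorial_pos
    have m1 : ((r + d).factorial : ℝ) ≤
        (1 + ε) * ((r + f).factorial : ℝ) * (((N.choose e : ℝ) * (e.factorial : ℝ)) * (h : ℝ) ^ e) := by
      calc ((r + d).factorial : ℝ) ≤ ((r + f).factorial : ℝ) * ((r + d : ℕ) : ℝ) ^ e := e3
        _ ≤ ((r + f).factorial : ℝ) * ((1 + ε) * (x : ℝ) ^ e) :=
            mul_le_mul_of_nonneg_left e5 hrf.le
        _ ≤ ((r + f).factorial : ℝ) * ((1 + ε) * (((M + 1 : ℕ) : ℝ) ^ e * (h : ℝ) ^ e)) := by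
            apply mul_le_mul_of_nonneg_left _ hrf.le
            apply mul_le_mul_of_nonneg_left e6
            linarith
        _ ≤ ((r + f).factorial : ℝ) * ((1 + ε) *
              (((N.choose e : ℝ) * (e.factorial : ℝ)) * (h : ℝ) ^ e)) := by
            apply mul_le_mul_of_nonneg_left _ hrf.le
            apply mul_le_mul_of_nonneg_left _ (by linarith)
            exact mul_le_mul_of_nonneg_right hchoose (by positivity)
        _ = _ := by ring
    calc (d.factorial : ℝ) * ((r + d).factorial : ℝ) = ((r + d).factorial : ℝ) * (d.factorial : ℝ) := by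
          ring
      _ ≤ _ := mul_le_mul_of_nonneg_right m1 hdfpos.le
  have hpos : (0 : ℝ) < (e.factorial : ℝ) * (f.factorial : ℝ) * (r.factorial : ℝ) *
      (d.factorial : ℝ) := by positivity
  exact le_of_mul_le_mul_right key hpos

end Pool.Agent.H21.HD
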