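import Pool.Agent.H21.HD.Defs3
import Pool.Agent.H21.HD.BlockA

/-!
From Good to ColInj.
-/

namespace Pool.Agent.H21.HD

open MvPolynomial
open scoped Classical

variable {N : ℕ} {A Λ P : Type} [Fintype A] [Fintype Λ] [Fintype P]

namespace ColGoodX

/-- The exponent vector with blocks `β` and label exponents `μ`. -/
noncomputable def Gam (β : Fin N → A → ℕ) (μ : Λ → ℕ) : Sg N A Λ →₀ ℕ :=
  Finsupp.equivFunOnFinite.symm (Sum.elim (fun x => β x.1 x.2) μ)

theorem Gam_inl (β : Fin N → A → ℕ) (μ : Λ → ℕ) (i : Fin N) (a : A) :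
    Gam β μ (Sum.inl (i, a)) = β i a := rfl

theorem Gam_inr (β : Fin N → A → ℕ) (μ : Λ → ℕ) (l : Λ) :
    Gam β μ (Sum.inr l) = μ l := rfl

theorem Gam_self (γ : Sg N A Λ →₀ ℕ) :
    Gam (fun i a => γ (Sum.inl (i, a))) (fun l => γ (Sum.inr l)) = γ := by
  ext s
  rcases s with ⟨i, a⟩ | l
  · rfl
  · rfl

theorem Gam_inj (β β' : Fin N → A → ℕ) (μ μ' : Λ → ℕ) :
    Gam β μ = Gam β' μ' ↔ β = β' ∧ μ = μ' := by
  constructor
  · intro h
    constructor
    · funext i a
      have := DFunLike.congr_fun h (Sum.inl (i, a))
      simpa [Gam_inl] using this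
    · funext l
      have := DFunLike.congr_fun h (Sum.inr l)
      simpa [Gam_inr] using this
  · rintro ⟨rfl, rfl⟩
    rfl

theorem monomial_Gam (β : Fin N → A → ℕ) (μ : Λ → ℕ) :
    (monomial (Gam β μ) (1 : ℂ)) =
      (∏ i : Fin N, ∏ a : A, X (Sum.inl (i, a)) ^ β i a) * ∏ l : Λ, X (Sum.inr l) ^ μ l := by
  rw [monomial_eq, C_1, one_mul, Finsupp.prod_fintype _ _ (fun _ => pow_zero _),
    Fintype.prod_sum_type, Fintype.prod_prod_type]
  rfl

theorem block_factor (v : A → ℂ) (i : Fin N) (n : ℕ) :
    (∑ a, C (v a) * X (Sum.inl (i, a)) : MvPolynomial (Sg N A Λ) ℂ) ^ n =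
      ∑ k ∈ Finset.piAntidiag Finset.univ n,
        C ((Nat.multinomial Finset.univ k : ℂ) * ∏ a, v a ^ k a) *
          ∏ a, X (Sum.inl (i, a)) ^ k a := by
  rw [Finset.sum_pow_eq_sum_piAntidiag]
  apply Finset.sum_congr rfl
  intro k _
  simp only [mul_pow, Finset.prod_mul_distrib, map_mul, map_prod, map_pow, map_natCast]
  ring

theorem coeff_sbt_monomial (c : Finset (Fin N)) (ref : Fin N → A) (v : Fin N → A → ℂ)
    (γ : Sg N A Λ →₀ ℕ) (hpure : ∀ i ∈ c, ∀ a, a ≠ ref i → γ (Sum.inl (i, a)) = 0)
    (y : Fin N → A → ℕ) (μ : Λ → ℕ) (hy : ∀ i ∈ c, ∑ a, y i a = bdeg γ i) (r : ℂ) :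
    coeff (Gam y μ) (sbt c ref v (monomial γ r)) =
      if (∀ i, i ∉ c → y i = fun a => γ (Sum.inl (i, a))) ∧ (fun l => γ (Sum.inr l)) = μ then
        r * ∏ i ∈ c, ((Nat.multinomial Finset.univ (y i) : ℂ) * ∏ a, v i a ^ y i a)
      else 0 := by
  let T : Fin N → Finset (A → ℕ) := fun i =>
    if i ∈ c then Finset.piAntidiag Finset.univ (bdeg γ i) else {fun a => γ (Sum.inl (i, a))}
  let w : Fin N → (A → ℕ) → ℂ := fun i k =>
    if i ∈ c then (Nat.multinomial Finset.univ k : ℂ) * ∏ a, v i a ^ k a else 1
  have hblock : ∀ i : Fin N,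
      (∏ a : A, (if i ∈ c ∧ a = ref i then ∑ a', C (v i a') * X (Sum.inl (i, a'))
        else X (Sum.inl (i, a)) : MvPolynomial (Sg N A Λ) ℂ) ^ γ (Sum.inl (i, a))) =
      ∑ k ∈ T i, C (w i k) * ∏ a, X (Sum.inl (i, a)) ^ k a := by
    intro i
    by_cases hi : i ∈ c
    · simp only [T, w, hi, if_true, true_and]
      rw [← block_factor]
      have h1 : bdeg γ i = γ (Sum.inl (i, ref i)) := by
        unfold bdeg
        rw [Finset.sum_eq_single (ref i)]
        · intro b _ hb
          exact hpure i hi b hb
        · intro h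
          exact absurd (Finset.mem_univ _) h
      rw [h1, Finset.prod_eq_single (ref i)]
      · rw [if_pos rfl]
      · intro b _ hb
        rw [if_neg hb, hpure i hi b hb, pow_zero]
      · intro h
        exact absurd (Finset.mem_univ _) h
    · simp only [T, w, hi, if_false, false_and, Finset.sum_singleton, C_1, one_mul]
  have hexp : sbt c ref v (monomial γ r) =
      ∑ β ∈ Fintype.piFinset T, monomial (Gam β (fun l => γ (Sum.inr l)))
        (r * ∏ i, w i (β i)) := by
    unfold sbt
    rw [aeval_monomial, Finsupp.prod_fintype _ _ (fun _ => pow_zero _), Fintype.prod_sum_type,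
      Fintype.prod_prod_type]
    simp only [Sum.elim_inl, Sum.elim_inr]
    rw [Finset.prod_congr rfl (fun i _ => hblock i), Finset.prod_univ_sum, Finset.sum_mul,
      Finset.mul_sum]
    apply Finset.sum_congr rfl
    intro β _
    have h2 : monomial (Gam β (fun l => γ (Sum.inr l))) (r * ∏ i, w i (β i)) =
        C (r * ∏ i, w i (β i)) * monomial (Gam β (fun l => γ (Sum.inr l))) (1 : ℂ) := by
      rw [C_mul_monomial, mul_one]
    rw [h2, monomial_Gam, Finset.prod_mul_distrib, map_mul, map_prod]
    rw [MvPolynomial.algebraMap_eq]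
    ring
  rw [hexp, coeff_sum]
  simp only [coeff_monomial, Gam_inj]
  by_cases hμ : (fun l => γ (Sum.inr l)) = μ
  · simp only [hμ, and_true]
    rw [Finset.sum_ite_eq' ]
    have hmem : y ∈ Fintype.piFinset T ↔ ∀ i, i ∉ c → y i = fun a => γ (Sum.inl (i, a)) := by
      rw [Fintype.mem_piFinset]
      constructor
      · intro h i hi
        have := h i
        simp only [T, hi, if_false, Finset.mem_singleton] at this
        exact this
      · intro h i
        by_cases hi : i ∈ c
        · simp only [T, hi, if_true, Finset.mem_piAntidiag]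
          exact ⟨hy i hi, fun _ _ => Finset.mem_univ _⟩
        · simp only [T, hi, if_false, Finset.mem_singleton]
          exact h i hi
    by_cases h3 : ∀ i, i ∉ c → y i = fun a => γ (Sum.inl (i, a))
    · rw [if_pos (hmem.2 h3), if_pos h3]
      congr 1
      simp only [w]
      rw [Finset.prod_ite_mem, Finset.univ_inter]
    · rw [if_neg (fun h => h3 (hmem.1 h)), if_neg h3]
  · simp only [hμ, and_false, if_false, Finset.sum_const_zero]

theorem eval_multinomial (v : A → ℂ) (β : A →₀ ℕ) :
    eval v (monomial β (Nat.multinomial Finset.univ β : ℂ)) =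
      (Nat.multinomial Finset.univ β : ℂ) * ∏ a, v a ^ β a := by
  rw [eval_monomial, Finsupp.prod_fintype _ _ (fun _ => pow_zero _)]

end ColGoodX

open ColGoodX

/-- From the tensor statement to the column: exponent vectors of degree `a i` in the block `i`. -/
theorem colInj_of_good [Nonempty A] (c : P → Finset (Fin N)) (lab : P → Λ)
    (ref : P → Fin N → A) (a : Fin N → ℕ)
    (μ : Λ → ℕ) (hc : ∀ p, ∀ i ∈ c p, a i ≠ 0) (v : P → Fin N → A → ℂ)
    (hv : ∀ p, μ (lab p) ≠ 0 → ∀ i ∈ c p, v p i = Pi.single (ref p i) 1)
    (h : Good (B := fun i => {β : A →₀ ℕ // β.degree = a i})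
      (fun i s => ⟨Finsupp.single s (a i), by simp⟩)
      (fun i β => monomial β.1 (Nat.multinomial Finset.univ β.1 : ℂ))
      (Finset.univ.filter (fun i => a i ≠ 0))
      (Finset.univ.filter (fun p => μ (lab p) = 0)) (Finset.univ.filter (fun p => μ (lab p) ≠ 0))
      c (fun p => (c p).card - μ (lab p)) ref v) :
    ColInj c lab ref a μ v := by
  intro ft hadm hsum
  let B : Fin N → Type := fun i => {β : A →₀ ℕ // β.degree = a i}
  let pt : ∀ i, A → B i := fun i s => ⟨Finsupp.single s (a i), by simp⟩
  let G : (∀ i, B i) → (Sg N A Λ →₀ ℕ) := fun y => Gam (fun i s => (y i).1 s) μ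
  let pur : P → (∀ i, B i) → (∀ i, B i) := fun p y i => if i ∈ c p then pt i (ref p i) else y i
  let κ : P → (∀ i, B i) → ℂ := fun p y =>
    if μ (lab p) = 0 then coeff (G (pur p y)) (ft p) else coeff (G y) (ft p)
  -- blocks of degree zero
  have hB0 : ∀ i, a i = 0 → ∀ x y : B i, x = y := by
    intro i hi x y
    have h1 : x.1 = 0 := (Finsupp.degree_eq_zero_iff _).1 (x.2.trans hi)
    have h2 : y.1 = 0 := (Finsupp.degree_eq_zero_iff _).1 (y.2.trans hi)
    exact Subtype.ext (h1.trans h2.symm)
  have hsumB : ∀ (i : Fin N) (x : B i), ∑ s, x.1 s = a i :=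
    fun i x => (Finsupp.degree_eq_sum x.1).symm.trans x.2
  have hdeg : ∀ (y : ∀ i, B i) (i : Fin N), ∑ s, (y i).1 s = a i :=
    fun y i => hsumB i (y i)
  have hbG : ∀ y : ∀ i, B i, bdeg (G y) = a := by
    intro y
    funext i
    exact hdeg y i
  -- pure blocks
  have hpureB : ∀ (i : Fin N) (x : B i) (s : A), (∀ t, t ≠ s → x.1 t = 0) → x = pt i s := by
    intro i x s hx
    apply Subtype.ext
    ext t
    show x.1 t = Finsupp.single s (a i) t
    rw [Finsupp.single_apply]
    split_ifs with h1
    · subst h1
      have h2 : ∑ u, x.1 u = a i := hsumB i x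
      rw [Finset.sum_eq_single s] at h2
      · exact h2
      · intro b _ hb
        exact hx b hb
      · intro h3
        exact absurd (Finset.mem_univ _) h3
    · exact hx t (fun h2 => h1 h2.symm)
  have hres := h κ ?_ ?_ ?_ ?_
  · -- conclusion
    intro p
    by_contra hp
    obtain ⟨γ, hγ⟩ := MvPolynomial.ne_zero_iff.1 hp
    obtain ⟨hb, hl, hcard⟩ := hadm p γ hγ
    let y : ∀ i, B i := fun i => ⟨Finsupp.equivFunOnFinite.symm (fun s => γ (Sum.inl (i, s))), by
      rw [Finsupp.degree_eq_sum]
      exact congrFun hb i⟩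
    have hGy : G y = γ := by
      show Gam _ μ = γ
      rw [← hl]
      exact Gam_self γ
    by_cases hμ : μ (lab p) = 0
    · have h1 := congrFun (hres.1 p (by simp [hμ])) y
      simp only [κ, hμ, if_true, Pi.zero_apply] at h1
      have h2 : pur p y = y := by
        funext i
        simp only [pur]
        split_ifs with hi
        · symm
          apply hpureB
          intro t ht
          have h3 : (c p).card ≤ pureCount (c p) (ref p) γ := by omega
          unfold pureCount at h3
          have h4 := Finset.filter_card_eq (le_antisymm (Finset.card_filter_le _ _) h3) i hi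
          exact h4 t ht
        · rfl
      rw [h2, hGy] at h1
      exact hγ h1
    · have h1 := congrFun (hres.2 p (by simp [hμ])) y
      simp only [κ, hμ, if_false, Pi.zero_apply] at h1
      rw [hGy] at h1
      exact hγ h1
  · -- ordinary points
    intro p hp x y hxy
    have hμ : μ (lab p) = 0 := by simpa using hp
    simp only [κ, hμ, if_true]
    have h1 : pur p x = pur p y := by
      funext i
      simp only [pur]
      split_ifs with hi
      · rfl
      · by_cases hi0 : a i = 0
        · exact hB0 i hi0 _ _
        · exact hxy i (by simp [hi, hi0])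
    rw [h1]
  · -- special points
    intro q hq x y hxy
    have hμ : μ (lab q) ≠ 0 := by simpa using hq
    simp only [κ, hμ, if_false]
    have h1 : x = y := by
      funext i
      by_cases hi0 : a i = 0
      · exact hB0 i hi0 _ _
      · exact hxy i (by simp [hi0])
    rw [h1]
  · intro q hq y hy
    have hμ : μ (lab q) ≠ 0 := by simpa using hq
    simp only [κ, hμ, if_false] at hy
    obtain ⟨_, _, hcard⟩ := hadm q _ hy
    have h1 : pureCount (c q) (ref q) (G y) ≤
        ((c q).filter (fun i => y i = pt i (ref q i))).card := by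
      unfold pureCount
      apply Finset.card_le_card
      intro i hi
      rw [Finset.mem_filter] at hi ⊢
      refine ⟨hi.1, ?_⟩
      apply hpureB
      intro t ht
      exact hi.2 t ht
    have h2 : (c q).card - μ (lab q) ≤ pureCount (c q) (ref q) (G y) := by omega
    refine h2.trans (h1.trans (le_of_eq ?_))
    congr 1
    ext i
    simp only [Finset.mem_filter]
    rfl
  · intro y
    have h1 : coeff (G y) (∑ p, sbt (c p) (ref p) (v p) (ft p)) = 0 := by
      rw [hsum, coeff_zero]
    rw [coeff_sum, ← Finset.sum_filter_add_sum_filter_not Finset.univ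
      (fun p => μ (lab p) = 0)] at h1
    rw [← h1]
    congr 1
    · apply Finset.sum_congr rfl
      intro p hp
      have hμ : μ (lab p) = 0 := by simpa using hp
      simp only [κ, hμ, if_true]
      -- expand ft p
      have h2 : ft p = ∑ γ ∈ (ft p).support, monomial γ (coeff γ (ft p)) :=
        (ft p).as_sum
      conv_rhs => rw [h2]
      rw [map_sum, coeff_sum]
      have h3 : ∀ γ ∈ (ft p).support,
          coeff (G y) (sbt (c p) (ref p) (v p) (monomial γ (coeff γ (ft p)))) =
          if γ = G (pur p y) then coeff γ (ft p) *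
            ∏ i ∈ c p, ((Nat.multinomial Finset.univ (y i).1 : ℂ) * ∏ s, v p i s ^ (y i).1 s)
          else 0 := by
        intro γ hγ
        obtain ⟨hb, hl, hcard⟩ := hadm p γ (mem_support_iff.1 hγ)
        have h4 : (c p).card ≤ pureCount (c p) (ref p) γ := by omega
        unfold pureCount at h4
        have h5 := Finset.filter_card_eq (le_antisymm (Finset.card_filter_le _ _) h4)
        rw [show G y = Gam (fun i s => (y i).1 s) μ from rfl,
          coeff_sbt_monomial (c p) (ref p) (v p) γ (fun i hi t ht => h5 i hi t ht) _ μ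
            (fun i hi => (hdeg y i).trans (congrFun hb i).symm)]
        have h6 : ((∀ i, i ∉ c p → (fun s => (y i).1 s) = fun s => γ (Sum.inl (i, s))) ∧
            (fun l => γ (Sum.inr l)) = μ) ↔ γ = G (pur p y) := by
          constructor
          · rintro ⟨h7, _⟩
            rw [← Gam_self γ, hl]
            show Gam _ μ = Gam _ μ
            congr 1
            funext i s
            simp only [pur]
            split_ifs with hi
            · show γ (Sum.inl (i, s)) = Finsupp.single (ref p i) (a i) s
              rw [Finsupp.single_apply]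
              split_ifs with h8
              · subst h8
                rw [← congrFun hb i]
                unfold bdeg
                rw [Finset.sum_eq_single (ref p i)]
                · intro b _ hb'
                  exact h5 i hi b hb'
                · intro h9
                  exact absurd (Finset.mem_univ _) h9
              · exact h5 i hi s (fun h9 => h8 h9.symm)
            · exact (congrFun (h7 i hi) s).symm
          · intro h7
            refine ⟨?_, hl⟩
            intro i hi
            funext s
            rw [h7]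
            show (y i).1 s = (pur p y i).1 s
            simp only [pur, hi, if_false]
        simp only [h6]
      rw [Finset.sum_congr rfl h3, Finset.sum_ite_eq']
      have h8 : ∏ i ∈ c p, eval (v p i) (monomial (y i).1
          (Nat.multinomial Finset.univ (y i).1 : ℂ)) =
          ∏ i ∈ c p, ((Nat.multinomial Finset.univ (y i).1 : ℂ) * ∏ s, v p i s ^ (y i).1 s) := by
        apply Finset.prod_congr rfl
        intro i _
        exact eval_multinomial _ _
      rw [h8]
      split_ifs with h9
      · ring
      · rw [notMem_support_iff.1 h9, mul_zero]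
    · apply Finset.sum_congr
      · ext q
        simp
      · intro q hq
        have hμ : μ (lab q) ≠ 0 := by simpa using hq
        simp only [κ, hμ, if_false]
        rw [sbt_single (c q) (ref q) (v q) (hv q hμ)]

end Pool.Agent.H21.HD
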