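import Pool.Agent.H21.HD.Defs

/-!
Openness of injectivity and surjectivity.
-/

namespace Pool.Agent.H21.HD

open MvPolynomial

/-- The determinant of a matrix of polynomial functions. -/
theorem OpenX.det_poly {σ n : Type*} [Fintype n] [DecidableEq n] (M : (σ → ℂ) → Matrix n n ℂ)
    (hM : ∀ i j, PolyFun (fun x => M x i j)) :
    ∃ G : MvPolynomial σ ℂ, ∀ x, eval x G = (M x).det := by
  choose N hN using hM
  refine ⟨(Matrix.of fun i j => N i j).det, fun x => ?_⟩
  rw [RingHom.map_det]
  congr 1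
  ext i j
  simp only [RingHom.mapMatrix_apply, Matrix.map_apply, Matrix.of_apply]
  exact (hN i j x).symm

/-- Injectivity is an open condition in a polynomial family of linear maps. -/
theorem open_inj {σ V Y : Type*} [Finite Y] [AddCommGroup V] [Module ℂ V]
    [FiniteDimensional ℂ V] (T : (σ → ℂ) → V →ₗ[ℂ] (Y → ℂ))
    (hT : ∀ v y, PolyFun (fun x => T x v y)) (x₀ : σ → ℂ)
    (h : Function.Injective (T x₀)) :
    ∃ G : MvPolynomial σ ℂ, eval x₀ G ≠ 0 ∧ ∀ x, eval x G ≠ 0 → Function.Injective (T x) := by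
  classical
  cases nonempty_fintype Y
  obtain ⟨B, hB⟩ := LinearMap.exists_leftInverse_of_injective (T x₀) (LinearMap.ker_eq_bot.mpr h)
  let b := Module.finBasis ℂ V
  obtain ⟨G, hG⟩ := OpenX.det_poly (fun x => LinearMap.toMatrix b b (B ∘ₗ T x)) (by
    intro i j
    have h1 : (fun x => LinearMap.toMatrix b b (B ∘ₗ T x) i j) =
        fun x => ∑ y : Y, T x (b j) y * b.repr (B (Pi.single y 1)) i := by
      funext x
      rw [LinearMap.toMatrix_apply, LinearMap.comp_apply]
      have h2 : T x (b j) = ∑ y : Y, T x (b j) y • (Pi.single y (1 : ℂ) : Y → ℂ) := by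
        ext z
        simp [Finset.sum_apply, Pi.single_apply]
      conv_lhs => rw [h2]
      simp only [map_sum, map_smul, Finsupp.coe_finsetSum, Finset.sum_apply,
        Finsupp.coe_smul, Pi.smul_apply, smul_eq_mul]
    rw [h1]
    exact PolyFun.sum _ _ fun y _ => (hT (b j) y).mul (PolyFun.const _))
  refine ⟨G, ?_, fun x hx => ?_⟩
  · rw [hG, hB, LinearMap.toMatrix_id, Matrix.det_one]
    exact one_ne_zero
  · rw [hG, LinearMap.det_toMatrix] at hx
    have h3 : Function.Injective (B ∘ₗ T x) := by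
      have h4 := (LinearMap.equivOfDetNeZero _ hx).injective
      exact h4
    intro u v huv
    apply h3
    simp only [LinearMap.comp_apply, huv]

/-- Surjectivity is an open condition in a polynomial family of linear maps. -/
theorem open_surj {σ V Y : Type*} [Finite Y] [AddCommGroup V] [Module ℂ V]
    [FiniteDimensional ℂ V] (T : (σ → ℂ) → V →ₗ[ℂ] (Y → ℂ))
    (hT : ∀ v y, PolyFun (fun x => T x v y)) (x₀ : σ → ℂ)
    (h : Function.Surjective (T x₀)) :
    ∃ G : MvPolynomial σ ℂ, eval x₀ G ≠ 0 ∧ ∀ x, eval x G ≠ 0 → Function.Surjective (T x) := by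
  classical
  cases nonempty_fintype Y
  obtain ⟨B, hB⟩ := LinearMap.exists_rightInverse_of_surjective (T x₀)
    (LinearMap.range_eq_top.mpr h)
  obtain ⟨G, hG⟩ := OpenX.det_poly (fun x => LinearMap.toMatrix (Pi.basisFun ℂ Y)
    (Pi.basisFun ℂ Y) (T x ∘ₗ B)) (by
    intro i j
    have h1 : (fun x => LinearMap.toMatrix (Pi.basisFun ℂ Y) (Pi.basisFun ℂ Y) (T x ∘ₗ B) i j) =
        fun x => T x (B (Pi.single j 1)) i := by
      funext x
      rw [LinearMap.toMatrix_apply, LinearMap.comp_apply, Pi.basisFun_apply, Pi.basisFun_repr]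
    rw [h1]
    exact hT _ _)
  refine ⟨G, ?_, fun x hx => ?_⟩
  · rw [hG, hB, LinearMap.toMatrix_id, Matrix.det_one]
    exact one_ne_zero
  · rw [hG, LinearMap.det_toMatrix] at hx
    intro z
    obtain ⟨w, hw⟩ := (LinearMap.equivOfDetNeZero _ hx).surjective z
    exact ⟨B w, hw⟩

end Pool.Agent.H21.HD
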