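import Pool.Agent.H21.HD.Defs3
import Pool.Agent.H21.HD.Open
import Pool.Agent.H21.HD.BlockA

/-!
ColInj is open.
-/

namespace Pool.Agent.H21.HD

open MvPolynomial
open scoped Classical

variable {N : ℕ} {A Λ P : Type} [Fintype A] [Fintype Λ] [Fintype P]

namespace ColOpenX

/-- the exponent vectors of the column -/
def Gam (N : ℕ) (A Λ : Type) [Fintype A] [Fintype Λ] (a : Fin N → ℕ) (μ : Λ → ℕ) :
    Set (Sg N A Λ →₀ ℕ) :=
  {γ | bdeg γ = a ∧ (fun l => γ (Sum.inr l)) = μ}

theorem gam_finite (a : Fin N → ℕ) (μ : Λ → ℕ) : (Gam N A Λ a μ).Finite := by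
  let b : Sg N A Λ →₀ ℕ := Finsupp.equivFunOnFinite.symm (Sum.elim (fun x => a x.1) μ)
  refine (Set.finite_Iic b).subset ?_
  rintro γ ⟨h1, h2⟩
  rw [Set.mem_Iic]
  intro s
  rcases s with ⟨i, t⟩ | l
  · have h3 : γ (Sum.inl (i, t)) ≤ bdeg γ i := by
      unfold bdeg
      exact Finset.single_le_sum (f := fun t => γ (Sum.inl (i, t))) (fun _ _ => Nat.zero_le _)
        (Finset.mem_univ t)
    rw [h1] at h3
    simpa [b] using h3
  · have h3 : γ (Sum.inr l) = μ l := congrFun h2 l
    simp [b, h3]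

/-- the space of the admissible families -/
noncomputable def VV (c : P → Finset (Fin N)) (lab : P → Λ) (ref : P → Fin N → A) (a : Fin N → ℕ)
    (μ : Λ → ℕ) : Submodule ℂ (P → MvPolynomial (Sg N A Λ) ℂ) where
  carrier := {ft | Adm c lab ref a μ ft}
  zero_mem' := by
    intro p γ h
    simp at h
  add_mem' := by
    intro f g hf hg p γ h
    rw [Pi.add_apply, coeff_add] at h
    by_cases h1 : coeff γ (f p) = 0
    · rw [h1, zero_add] at h
      exact hg p γ h
    · exact hf p γ h1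
  smul_mem' := by
    intro z f hf p γ h
    rw [Pi.smul_apply, coeff_smul] at h
    exact hf p γ (right_ne_zero_of_mul (by simpa using h))

theorem mem_VV {c : P → Finset (Fin N)} {lab : P → Λ} {ref : P → Fin N → A} {a : Fin N → ℕ}
    {μ : Λ → ℕ} {ft : P → MvPolynomial (Sg N A Λ) ℂ} :
    ft ∈ VV c lab ref a μ ↔ Adm c lab ref a μ ft := Iff.rfl

theorem finiteDimensional_VV (c : P → Finset (Fin N)) (lab : P → Λ) (ref : P → Fin N → A)
    (a : Fin N → ℕ) (μ : Λ → ℕ) : FiniteDimensional ℂ (VV c lab ref a μ) := by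
  have : Finite (Gam N A Λ a μ) := gam_finite a μ
  let f : VV c lab ref a μ →ₗ[ℂ] (P × Gam N A Λ a μ → ℂ) :=
    { toFun := fun ft q => coeff q.2.1 (ft.1 q.1)
      map_add' := by
        intro x y
        funext q
        simp
      map_smul' := by
        intro z x
        funext q
        simp }
  refine FiniteDimensional.of_injective f ?_
  rw [injective_iff_map_eq_zero]
  intro ft h
  apply Subtype.ext
  funext p
  apply MvPolynomial.ext
  intro γ
  rw [Submodule.coe_zero, Pi.zero_apply, coeff_zero]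
  by_contra hne
  have h1 := ft.2 p γ hne
  have h2 : f ft (p, ⟨γ, h1.1, h1.2.1⟩) = 0 := by
    rw [h]; rfl
  exact hne h2

/-- the linear map of the column -/
noncomputable def TT (c : P → Finset (Fin N)) (lab : P → Λ) (ref : P → Fin N → A) (a : Fin N → ℕ)
    (μ : Λ → ℕ) (x : P × Fin N × A → ℂ) : VV c lab ref a μ →ₗ[ℂ] (Gam N A Λ a μ → ℂ) where
  toFun := fun ft γ => coeff γ.1 (∑ p, sbt (c p) (ref p) (fun i t => x (p, i, t)) (ft.1 p))
  map_add' := by
    intro f g
    funext γ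
    simp only [Submodule.coe_add, Pi.add_apply, map_add, Finset.sum_add_distrib, coeff_add]
  map_smul' := by
    intro z f
    funext γ
    simp only [Submodule.coe_smul, Pi.smul_apply, map_smul, RingHom.id_apply]
    rw [← Finset.smul_sum, coeff_smul]

theorem TT_apply (c : P → Finset (Fin N)) (lab : P → Λ) (ref : P → Fin N → A) (a : Fin N → ℕ)
    (μ : Λ → ℕ) (x : P × Fin N × A → ℂ) (ft : VV c lab ref a μ) (γ : Gam N A Λ a μ) :
    TT c lab ref a μ x ft γ
      = coeff γ.1 (∑ p, sbt (c p) (ref p) (fun i t => x (p, i, t)) (ft.1 p)) := rfl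

theorem TT_poly (c : P → Finset (Fin N)) (lab : P → Λ) (ref : P → Fin N → A) (a : Fin N → ℕ)
    (μ : Λ → ℕ) (ft : VV c lab ref a μ) (γ : Gam N A Λ a μ) :
    PolyFun (fun x => TT c lab ref a μ x ft γ) := by
  have h1 : (fun x => TT c lab ref a μ x ft γ)
      = fun x => ∑ p ∈ Finset.univ, coeff γ.1 (sbt (c p) (ref p) (fun i t => x (p, i, t)) (ft.1 p)) := by
    funext x
    rw [TT_apply, coeff_sum]
  rw [h1]
  apply PolyFun.sum
  intro p _
  obtain ⟨M, hM⟩ := sbt_poly (Λ := Λ) (c p) (ref p) (ft.1 p) γ.1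
  refine ⟨rename (fun q : Fin N × A => (p, q.1, q.2)) M, fun x => ?_⟩
  rw [eval_rename]
  exact hM (fun q => x (p, q.1, q.2))

/-- a family with vanishing image -/
theorem sum_eq_zero_iff (c : P → Finset (Fin N)) (lab : P → Λ) (ref : P → Fin N → A) (a : Fin N → ℕ)
    (μ : Λ → ℕ) (v : P → Fin N → A → ℂ) (ft : P → MvPolynomial (Sg N A Λ) ℂ)
    (hft : Adm c lab ref a μ ft)
    (h : ∀ γ ∈ Gam N A Λ a μ, coeff γ (∑ p, sbt (c p) (ref p) (v p) (ft p)) = 0) :
    ∑ p, sbt (c p) (ref p) (v p) (ft p) = 0 := by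
  have h1 : ∀ p, comp a μ (ft p) = ft p := by
    intro p
    apply MvPolynomial.ext
    intro γ
    rw [coeff_comp]
    split_ifs with h2
    · rfl
    · by_contra h3
      have h4 := hft p γ (Ne.symm h3)
      exact h2 ⟨h4.1, h4.2.1⟩
  have h5 : comp a μ (∑ p, sbt (c p) (ref p) (v p) (ft p)) = ∑ p, sbt (c p) (ref p) (v p) (ft p) := by
    rw [map_sum]
    apply Finset.sum_congr rfl
    intro p _
    rw [comp_sbt, h1]
  apply MvPolynomial.ext
  intro γ
  rw [coeff_zero]
  by_cases h6 : γ ∈ Gam N A Λ a μ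
  · exact h γ h6
  · rw [← h5, coeff_comp]
    exact if_neg h6

end ColOpenX

open ColOpenX

/-- `ColInj` is an open condition. -/
theorem colInj_open (c : P → Finset (Fin N)) (lab : P → Λ) (ref : P → Fin N → A) (a : Fin N → ℕ)
    (μ : Λ → ℕ) (v₀ : P → Fin N → A → ℂ) (h : ColInj c lab ref a μ v₀) :
    ∃ G : MvPolynomial (P × Fin N × A) ℂ, G ≠ 0 ∧ ∀ v : P → Fin N → A → ℂ,
      eval (fun x => v x.1 x.2.1 x.2.2) G ≠ 0 → ColInj c lab ref a μ v := by
  have : Finite (Gam N A Λ a μ) := gam_finite a μ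
  have := finiteDimensional_VV c lab ref a μ
  obtain ⟨G, hG1, hG2⟩ := open_inj (TT c lab ref a μ) (TT_poly c lab ref a μ)
    (fun x => v₀ x.1 x.2.1 x.2.2) (by
      rw [injective_iff_map_eq_zero]
      intro ft h1
      have h2 : ∑ p, sbt (c p) (ref p) (v₀ p) (ft.1 p) = 0 := by
        apply sum_eq_zero_iff c lab ref a μ v₀ ft.1 ft.2
        intro γ hγ
        have h3 := congrFun h1 ⟨γ, hγ⟩
        rw [TT_apply] at h3
        exact h3
      have h4 := h ft.1 ft.2 h2
      apply Subtype.ext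
      funext p
      exact h4 p)
  refine ⟨G, ?_, ?_⟩
  · rintro rfl
    simp at hG1
  · intro v hv ft hft h1
    have h2 := (injective_iff_map_eq_zero _).1 (hG2 _ hv) ⟨ft, hft⟩ (by
      funext γ
      rw [TT_apply]
      have h3 := congrArg (coeff γ.1) h1
      rw [coeff_zero] at h3
      exact h3)
    intro p
    have h3 := congrArg Subtype.val h2
    exact congrFun h3 p

end Pool.Agent.H21.HD
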