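import Pool.Agent.H21.HD.Defs2

/-!
Distribution of points to slices.
-/

namespace Pool.Agent.H21.HD

open MvPolynomial
open scoped Classical

namespace DistributeX

/-- An enumeration of a finset. -/
theorem exists_index {α : Type} (S : Finset α) :
    ∃ f : α → ℕ, (∀ p ∈ S, f p < S.card) ∧ Set.InjOn f S := by
  refine ⟨fun p => if h : p ∈ S then (S.equivFin ⟨p, h⟩ : ℕ) else 0, ?_, ?_⟩
  · intro p hp
    simp only [hp, dite_true]
    exact (S.equivFin ⟨p, hp⟩).2
  · intro p hp q hq hpq
    have hp' : p ∈ S := hp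
    have hq' : q ∈ S := hq
    simp only [hp', hq', dite_true] at hpq
    have h1 := S.equivFin.injective (Fin.ext hpq)
    exact congrArg Subtype.val h1

/-- The number of points with given quotient index is at most the capacity. -/
theorem card_group {α : Type} (S : Finset α) (f : α → ℕ) (hf : Set.InjOn f S) (C g : ℕ)
    (hC : 0 < C) (hS : ∀ p ∈ S, f p / C = g) : S.card ≤ C := by
  have h1 : S.card ≤ (Finset.Ico (g * C) ((g + 1) * C)).card := by
    refine Finset.card_le_card_of_injOn f ?_ hf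
    intro p hp
    have h2 := hS p hp
    rw [Finset.mem_coe, Finset.mem_Ico]
    constructor
    · rw [← h2]
      exact Nat.div_mul_le_self _ _
    · rw [← h2]
      exact Nat.lt_mul_of_div_lt (Nat.lt_succ_self _) hC
  rw [Nat.card_Ico] at h1
  have h3 : (g + 1) * C - g * C = C := by
    rw [Nat.add_mul, Nat.one_mul, Nat.add_sub_cancel_left]
  omega

end DistributeX

open DistributeX

/-- Distribution of the points whose type contains `i` to the slices. -/
theorem distribute (j s : ℕ) (ε : ℝ) (hε : 0 < ε) : ∃ W : ℕ, ∀ (ι A α : Type) [Fintype A],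
    W ≤ Fintype.card A → ∀ (J : Finset ι), J.card = j → ∀ i ∈ J, ∀ (P : Finset α)
    (c : α → Finset ι), (∀ p ∈ P, c p ⊆ J) → ∀ (R : Finset A), R.card ≤ s →
    ∑ p ∈ P, (1 : ℝ) / (Fintype.card A : ℝ) ^ (c p).card ≤ 1 - ε →
    ∃ t : α → A, (∀ p ∈ P, i ∈ c p → t p ∉ R) ∧
      (∀ p ∈ P, ∀ p' ∈ P, i ∈ c p → i ∈ c p' → t p = t p' → c p = c p') ∧
      (∀ p ∈ P, ∀ p' ∈ P, i ∈ c p → i ∈ c p' → t p = t p' → c p = {i} → p = p') ∧
      (∀ a : A, (∀ p ∈ P, i ∈ c p → t p = a → c p ≠ {i}) →
        ∑ p ∈ P.filter (fun p => i ∈ c p → t p = a),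
          (1 : ℝ) / (Fintype.card A : ℝ) ^ ((c p).erase i).card ≤ 1 - ε / 2) := by
  refine ⟨⌈8 / ε ^ 2⌉₊ + ⌈4 * (s + 2 ^ j) / ε⌉₊ + ⌈2 / ε⌉₊ + 1, ?_⟩
  intro ι A α _ hW J hJ i hi P c hc R hR hload
  -- the number of slices
  set w : ℝ := (Fintype.card A : ℝ) with hw
  have hwW : ((⌈8 / ε ^ 2⌉₊ + ⌈4 * (s + 2 ^ j) / ε⌉₊ + ⌈2 / ε⌉₊ + 1 : ℕ) : ℝ) ≤ w := by
    rw [hw]
    exact_mod_cast hW
  push_cast at hwW
  have hc1 : 8 / ε ^ 2 ≤ (⌈8 / ε ^ 2⌉₊ : ℝ) := Nat.le_ceil _
  have hc2 : 4 * (s + 2 ^ j) / ε ≤ (⌈4 * (s + 2 ^ j) / ε⌉₊ : ℝ) := Nat.le_ceil _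
  have hc3 : 2 / ε ≤ (⌈2 / ε⌉₊ : ℝ) := Nat.le_ceil _
  have hp1 : 0 < 8 / ε ^ 2 := by positivity
  have hp2 : 0 < 4 * ((s : ℝ) + 2 ^ j) / ε := by positivity
  have hp3 : 0 < 2 / ε := by positivity
  have hw1 : 1 ≤ w := by linarith
  have hw8 : 8 / ε ^ 2 ≤ w := by linarith
  have hw4 : 4 * (s + 2 ^ j) / ε ≤ w := by linarith
  have hw2 : 2 / ε ≤ w := by linarith
  have hw0 : 0 < w := by linarith
  have hcardA : 0 < Fintype.card A := by
    have : (0 : ℝ) < (Fintype.card A : ℝ) := hw0
    exact_mod_cast this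
  have hne : Nonempty A := Fintype.card_pos_iff.mp hcardA
  -- split the load
  set L0 : ℝ := ∑ p ∈ P.filter (fun p => i ∉ c p), (1 : ℝ) / w ^ (c p).card with hL0
  have hL0nn : 0 ≤ L0 := Finset.sum_nonneg (fun p _ => by positivity)
  set P1 : Finset α := P.filter (fun p => i ∈ c p) with hP1
  have hsplit : L0 + ∑ p ∈ P1, (1 : ℝ) / w ^ (c p).card ≤ 1 - ε := by
    rw [add_comm, hL0, hP1, Finset.sum_filter_add_sum_filter_not]
    exact hload
  have hP1nn : 0 ≤ ∑ p ∈ P1, (1 : ℝ) / w ^ (c p).card :=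
    Finset.sum_nonneg (fun p _ => by positivity)
  set x : ℝ := 1 - ε / 2 - L0 with hx
  have hε1 : ε ≤ 1 := by linarith
  have hxlo : ε / 2 ≤ x := by linarith
  have hxhi : x ≤ 1 := by linarith
  have hx0 : 0 < x := by linarith
  -- types
  set TT : Finset (Finset ι) := J.powerset.filter (fun T => i ∈ T) with hTT
  have hTTcard : (TT.card : ℝ) ≤ 2 ^ j := by
    have h1 : TT.card ≤ J.powerset.card := Finset.card_filter_le _ _
    rw [Finset.card_powerset, hJ] at h1
    exact_mod_cast h1
  set PT : Finset ι → Finset α := fun T => P1.filter (fun p => c p = T) with hPT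
  set Cap : Finset ι → ℕ := fun T => if T = {i} then 1 else ⌊x * w ^ (T.card - 1)⌋₊ with hCap
  have hcard1 : ∀ T ∈ TT, T ≠ {i} → 1 ≤ T.card - 1 := by
    intro T hT hne'
    rw [hTT, Finset.mem_filter] at hT
    have h1 : 1 < T.card := by
      by_contra hcon
      push Not at hcon
      apply hne'
      have h2 : T.card = 1 := le_antisymm hcon (Finset.card_pos.mpr ⟨i, hT.2⟩)
      obtain ⟨b, hb⟩ := Finset.card_eq_one.mp h2
      have h3 : i ∈ T := hT.2
      rw [hb, Finset.mem_singleton] at h3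
      rw [hb, h3]
    omega
  have hbig : ∀ T ∈ TT, T ≠ {i} → 1 ≤ x * w ^ (T.card - 1) := by
    intro T hT hne'
    have h1 := hcard1 T hT hne'
    have h2 : w ≤ w ^ (T.card - 1) := by
      calc w = w ^ 1 := (pow_one w).symm
        _ ≤ w ^ (T.card - 1) := pow_le_pow_right₀ hw1 h1
    calc (1 : ℝ) = ε / 2 * (2 / ε) := by field_simp
      _ ≤ x * w ^ (T.card - 1) := by
        apply mul_le_mul hxlo (le_trans hw2 h2) (by positivity) hx0.le
  have hCappos : ∀ T ∈ TT, 0 < Cap T := by
    intro T hT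
    by_cases h : T = {i}
    · simp only [hCap, h, if_true]
      norm_num
    · simp only [hCap, h, if_false]
      exact Nat.floor_pos.mpr (hbig T hT h)
  have hCaphi : ∀ T ∈ TT, T ≠ {i} → (Cap T : ℝ) ≤ x * w ^ (T.card - 1) := by
    intro T hT h
    simp only [hCap, h, if_false]
    exact Nat.floor_le (by positivity)
  -- δ
  have hδ : ∀ T ∈ TT, x * (1 - ε / 4) * w ^ (T.card - 1) ≤ (Cap T : ℝ) := by
    intro T hT
    by_cases h : T = {i}
    · simp only [hCap, h, if_true, Finset.card_singleton, Nat.sub_self, pow_zero, mul_one,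
        Nat.cast_one]
      nlinarith
    · have h1 := hcard1 T hT h
      have h2 : w ≤ w ^ (T.card - 1) := by
        calc w = w ^ 1 := (pow_one w).symm
          _ ≤ w ^ (T.card - 1) := pow_le_pow_right₀ hw1 h1
      have h3 : x * w ^ (T.card - 1) - 1 ≤ (Cap T : ℝ) := by
        simp only [hCap, h, if_false]
        exact (Nat.sub_one_lt_floor _).le
      have h4 : 1 ≤ x * (ε / 4) * w ^ (T.card - 1) := by
        calc (1 : ℝ) = (ε / 2) * (ε / 4) * (8 / ε ^ 2) := by field_simp; norm_num
          _ ≤ x * (ε / 4) * w ^ (T.card - 1) := by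
            apply mul_le_mul _ (le_trans hw8 h2) (by positivity) (by positivity)
            apply mul_le_mul_of_nonneg_right hxlo (by positivity)
      nlinarith
  -- labels
  choose idx hidx1 hidx2 using fun T : Finset ι => exists_index (PT T)
  set nT : Finset ι → ℕ := fun T => (PT T).card / Cap T + 1 with hnT
  set Lab : Finset (Σ _ : Finset ι, ℕ) := TT.sigma (fun T => Finset.range (nT T)) with hLab
  have hsumPT : ∑ T ∈ TT, ((PT T).card : ℝ) / w ^ T.card = ∑ p ∈ P1, (1 : ℝ) / w ^ (c p).card := by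
    have hmaps : ∀ p ∈ P1, c p ∈ TT := by
      intro p hp
      rw [hP1, Finset.mem_filter] at hp
      rw [hTT, Finset.mem_filter, Finset.mem_powerset]
      exact ⟨hc p hp.1, hp.2⟩
    rw [← Finset.sum_fiberwise_of_maps_to hmaps]
    apply Finset.sum_congr rfl
    intro T _
    rw [Finset.sum_congr rfl (g := fun _ => (1 : ℝ) / w ^ T.card)]
    · rw [Finset.sum_const, nsmul_eq_mul]
      simp only [hPT]
      ring
    · intro p hp
      rw [(Finset.mem_filter.mp hp).2]
  have hLabcard : (Lab.card : ℝ) ≤ w - s := by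
    have h1 : (Lab.card : ℝ) = ∑ T ∈ TT, (nT T : ℝ) := by
      rw [hLab, Finset.card_sigma]
      push_cast
      apply Finset.sum_congr rfl
      intro T _
      rw [Finset.card_range]
    have hq : 0 < x * (1 - ε / 4) := by
      apply mul_pos hx0
      linarith
    have h2 : ∀ T ∈ TT, (nT T : ℝ) ≤ w / (x * (1 - ε / 4)) * (((PT T).card : ℝ) / w ^ T.card) + 1 := by
      intro T hT
      have hcp : (0 : ℝ) < Cap T := by exact_mod_cast hCappos T hT
      have h3 : (((PT T).card / Cap T : ℕ) : ℝ) ≤ ((PT T).card : ℝ) / (Cap T : ℝ) := Nat.cast_div_le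
      have h4 : ((PT T).card : ℝ) / (Cap T : ℝ) ≤
          w / (x * (1 - ε / 4)) * (((PT T).card : ℝ) / w ^ T.card) := by
        have h5 : 1 ≤ T.card := by
          rw [hTT, Finset.mem_filter] at hT
          exact Finset.card_pos.mpr ⟨i, hT.2⟩
        have h6 : w ^ T.card = w * w ^ (T.card - 1) := by
          conv_lhs => rw [← Nat.sub_add_cancel h5]
          rw [pow_succ]
          ring
        have h7 : w / (x * (1 - ε / 4)) * (((PT T).card : ℝ) / w ^ T.card) =
            ((PT T).card : ℝ) / (x * (1 - ε / 4) * w ^ (T.card - 1)) := by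
          rw [h6]
          field_simp
        rw [h7]
        apply div_le_div_of_nonneg_left (by positivity) (by positivity) (hδ T hT)
      simp only [hnT]
      push_cast
      linarith
    have h3 : (Lab.card : ℝ) ≤ w / (x * (1 - ε / 4)) * (x - ε / 2) + 2 ^ j := by
      rw [h1]
      calc ∑ T ∈ TT, (nT T : ℝ)
          ≤ ∑ T ∈ TT, (w / (x * (1 - ε / 4)) * (((PT T).card : ℝ) / w ^ T.card) + 1) :=
            Finset.sum_le_sum h2
        _ = w / (x * (1 - ε / 4)) * (∑ T ∈ TT, ((PT T).card : ℝ) / w ^ T.card) + TT.card := by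
            rw [Finset.sum_add_distrib, Finset.mul_sum]
            simp
        _ ≤ _ := by
            apply add_le_add _ hTTcard
            apply mul_le_mul_of_nonneg_left _ (by positivity)
            rw [hsumPT]
            linarith
    have h4 : w / (x * (1 - ε / 4)) * (x - ε / 2) ≤ w * (1 - ε / 4) := by
      rw [div_mul_eq_mul_div, div_le_iff₀ hq]
      have h5 : x - ε / 2 ≤ (1 - ε / 4) * (x * (1 - ε / 4)) := by nlinarith
      calc w * (x - ε / 2) ≤ w * ((1 - ε / 4) * (x * (1 - ε / 4))) :=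
            mul_le_mul_of_nonneg_left h5 hw0.le
        _ = w * (1 - ε / 4) * (x * (1 - ε / 4)) := by ring
    have h5 : (s : ℝ) + 2 ^ j ≤ w * (ε / 4) := by
      have h6 : 4 * ((s : ℝ) + 2 ^ j) / ε * (ε / 4) = s + 2 ^ j := by
        field_simp
      rw [← h6]
      exact mul_le_mul_of_nonneg_right hw4 (by positivity)
    nlinarith
  have hemb : Nonempty (Lab ↪ (Rᶜ : Finset A)) := by
    apply Function.Embedding.nonempty_of_card_le
    rw [Fintype.card_coe, Fintype.card_coe, Finset.card_compl]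
    have h1 : (Lab.card : ℝ) ≤ (Fintype.card A : ℝ) - s := hLabcard
    have h2 : Lab.card + s ≤ Fintype.card A := by
      have : ((Lab.card + s : ℕ) : ℝ) ≤ (Fintype.card A : ℝ) := by
        push_cast
        linarith
      exact_mod_cast this
    omega
  obtain ⟨φ⟩ := hemb
  have hlab : ∀ p ∈ P, i ∈ c p →
      (⟨c p, idx (c p) p / Cap (c p)⟩ : Σ _ : Finset ι, ℕ) ∈ Lab := by
    intro p hp hip
    rw [hLab, Finset.mem_sigma]
    refine ⟨?_, ?_⟩
    · rw [hTT, Finset.mem_filter, Finset.mem_powerset]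
      exact ⟨hc p hp, hip⟩
    · rw [Finset.mem_range]
      have h1 : p ∈ PT (c p) := by
        simp only [hPT, hP1, Finset.mem_filter]
        exact ⟨⟨hp, hip⟩, trivial⟩
      have h2 := hidx1 (c p) p h1
      have h3 : idx (c p) p / Cap (c p) ≤ (PT (c p)).card / Cap (c p) := Nat.div_le_div_right h2.le
      simp only [hnT]
      omega
  set t : α → A := fun p => if h : p ∈ P ∧ i ∈ c p then (φ ⟨_, hlab p h.1 h.2⟩ : A)
    else Classical.choice hne with ht
  have htval : ∀ p (hp : p ∈ P) (hip : i ∈ c p), t p = (φ ⟨_, hlab p hp hip⟩ : A) := by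
    intro p hp hip
    have h : p ∈ P ∧ i ∈ c p := ⟨hp, hip⟩
    simp only [ht]
    rw [dif_pos h]
  have htinj : ∀ p ∈ P, ∀ p' ∈ P, i ∈ c p → i ∈ c p' → t p = t p' →
      c p = c p' ∧ idx (c p) p / Cap (c p) = idx (c p') p' / Cap (c p') := by
    intro p hp p' hp' hip hip' htt
    rw [htval p hp hip, htval p' hp' hip'] at htt
    have h1 := φ.injective (Subtype.ext htt)
    have h2 := congrArg Subtype.val h1
    simp only [Sigma.mk.injEq, heq_eq_eq] at h2
    exact h2
  refine ⟨t, ?_, ?_, ?_, ?_⟩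
  · intro p hp hip
    rw [htval p hp hip]
    have h1 := (φ ⟨_, hlab p hp hip⟩).2
    exact Finset.mem_compl.mp h1
  · intro p hp p' hp' hip hip' htt
    exact (htinj p hp p' hp' hip hip' htt).1
  · intro p hp p' hp' hip hip' htt hci
    obtain ⟨h1, h2⟩ := htinj p hp p' hp' hip hip' htt
    rw [← h1] at h2
    have hcap : Cap (c p) = 1 := by
      simp only [hCap, hci, if_true]
    rw [hcap, Nat.div_one, Nat.div_one] at h2
    apply hidx2 (c p) _ _ h2
    · simp only [hPT, hP1, Finset.mem_coe, Finset.mem_filter]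
      exact ⟨⟨hp, hip⟩, trivial⟩
    · simp only [hPT, hP1, Finset.mem_coe, Finset.mem_filter]
      exact ⟨⟨hp', hip'⟩, h1.symm⟩
  · intro a ha
    -- split the points of the slice
    set Q : Finset α := P.filter (fun p => i ∈ c p ∧ t p = a) with hQ
    have hsum : ∑ p ∈ P.filter (fun p => i ∈ c p → t p = a),
        (1 : ℝ) / w ^ ((c p).erase i).card = L0 + ∑ p ∈ Q, (1 : ℝ) / w ^ ((c p).card - 1) := by
      have h1 : P.filter (fun p => i ∈ c p → t p = a) =
          P.filter (fun p => i ∉ c p) ∪ Q := by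
        ext p
        simp only [hQ, Finset.mem_filter, Finset.mem_union]
        tauto
      have h2 : Disjoint (P.filter (fun p => i ∉ c p)) Q := by
        rw [Finset.disjoint_left]
        intro p hp hq
        simp only [hQ, Finset.mem_filter] at hp hq
        exact hp.2 hq.2.1
      rw [h1, Finset.sum_union h2]
      congr 1
      · rw [hL0]
        apply Finset.sum_congr rfl
        intro p hp
        rw [Finset.erase_eq_of_notMem (Finset.mem_filter.mp hp).2]
      · apply Finset.sum_congr rfl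
        intro p hp
        rw [Finset.card_erase_of_mem (Finset.mem_filter.mp hp).2.1]
    rw [hsum]
    rcases Q.eq_empty_or_nonempty with hQe | ⟨p0, hp0⟩
    · rw [hQe, Finset.sum_empty]
      linarith
    · have hp0' : p0 ∈ P ∧ i ∈ c p0 ∧ t p0 = a := by
        simpa only [hQ, Finset.mem_filter] using hp0
      have hT : c p0 ∈ TT := by
        rw [hTT, Finset.mem_filter, Finset.mem_powerset]
        exact ⟨hc p0 hp0'.1, hp0'.2.1⟩
      have hTne : c p0 ≠ {i} := ha p0 hp0'.1 hp0'.2.1 hp0'.2.2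
      have hsame : ∀ p ∈ Q, c p = c p0 ∧
          idx (c p0) p / Cap (c p0) = idx (c p0) p0 / Cap (c p0) := by
        intro p hp
        simp only [hQ, Finset.mem_filter] at hp
        obtain ⟨h1, h2⟩ := htinj p hp.1 p0 hp0'.1 hp.2.1 hp0'.2.1 (hp.2.2.trans hp0'.2.2.symm)
        refine ⟨h1, ?_⟩
        rw [h1] at h2
        exact h2
      have hQcard : Q.card ≤ Cap (c p0) := by
        apply card_group Q (idx (c p0)) _ (Cap (c p0)) (idx (c p0) p0 / Cap (c p0))
          (hCappos _ hT) (fun p hp => (hsame p hp).2)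
        intro p hp q hq hpq
        apply hidx2 (c p0) _ _ hpq
        · have hp' := Finset.mem_coe.mp hp
          have h1 := (hsame p hp').1
          simp only [hQ, Finset.mem_filter] at hp'
          simp only [hPT, hP1, Finset.mem_coe, Finset.mem_filter]
          exact ⟨⟨hp'.1, hp'.2.1⟩, h1⟩
        · have hq' := Finset.mem_coe.mp hq
          have h1 := (hsame q hq').1
          simp only [hQ, Finset.mem_filter] at hq'
          simp only [hPT, hP1, Finset.mem_coe, Finset.mem_filter]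
          exact ⟨⟨hq'.1, hq'.2.1⟩, h1⟩
      have h1 : ∑ p ∈ Q, (1 : ℝ) / w ^ ((c p).card - 1) ≤ x := by
        calc ∑ p ∈ Q, (1 : ℝ) / w ^ ((c p).card - 1)
            = ∑ p ∈ Q, (1 : ℝ) / w ^ ((c p0).card - 1) := by
              apply Finset.sum_congr rfl
              intro p hp
              rw [(hsame p hp).1]
          _ = (Q.card : ℝ) * (1 / w ^ ((c p0).card - 1)) := by
              rw [Finset.sum_const, nsmul_eq_mul]
          _ ≤ (x * w ^ ((c p0).card - 1)) * (1 / w ^ ((c p0).card - 1)) := by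
              apply mul_le_mul_of_nonneg_right _ (by positivity)
              calc (Q.card : ℝ) ≤ (Cap (c p0) : ℝ) := by exact_mod_cast hQcard
                _ ≤ _ := hCaphi _ hT hTne
          _ = x := by
              have : w ^ ((c p0).card - 1) ≠ 0 := by positivity
              field_simp
      linarith

end Pool.Agent.H21.HD
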