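import Pool.Agent.H21.HD.Defs2
import Pool.Agent.H21.HD.Open

/-!
Good is open.
-/

namespace Pool.Agent.H21.HD

open MvPolynomial
open scoped Classical

namespace GoodOpenX

/-- The functions that depend only on the coordinates in `T`. -/
noncomputable def depSub {ι : Type*} (B : ι → Type*) (T : Finset ι) :
    Submodule ℂ ((∀ i, B i) → ℂ) where
  carrier := {f | DepOn T f}
  add_mem' := by
    intro f g hf hg x y hxy
    simp only [Pi.add_apply]
    rw [hf x y hxy, hg x y hxy]
  zero_mem' := by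
    intro x y _
    rfl
  smul_mem' := by
    intro c f hf x y hxy
    simp only [Pi.smul_apply]
    rw [hf x y hxy]

/-- The functions that depend only on the coordinates in `J`, supported on `S`. -/
noncomputable def supSub {ι : Type*} (B : ι → Type*) (J : Finset ι) (S : (∀ i, B i) → Prop) :
    Submodule ℂ ((∀ i, B i) → ℂ) where
  carrier := {f | DepOn J f ∧ ∀ y, f y ≠ 0 → S y}
  add_mem' := by
    rintro f g ⟨hf, hf'⟩ ⟨hg, hg'⟩
    refine ⟨?_, ?_⟩
    · intro x y hxy
      simp only [Pi.add_apply]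
      rw [hf x y hxy, hg x y hxy]
    · intro y hy
      by_cases h0 : f y = 0
      · refine hg' y fun h1 => hy ?_
        simp only [Pi.add_apply]
        rw [h0, h1, add_zero]
      · exact hf' y h0
  zero_mem' := by
    refine ⟨fun x y _ => rfl, ?_⟩
    intro y hy
    exact absurd rfl hy
  smul_mem' := by
    rintro c f ⟨hf, hf'⟩
    refine ⟨?_, ?_⟩
    · intro x y hxy
      simp only [Pi.smul_apply]
      rw [hf x y hxy]
    · intro y hy
      refine hf' y fun h0 => hy ?_
      simp only [Pi.smul_apply]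
      rw [h0, smul_zero]

/-- The linear map attached to the parameters `x`. -/
noncomputable def goodMap {ι A α : Type} {B : ι → Type} [Fintype ι] [∀ i, Fintype (B i)]
    (N : ∀ i, B i → MvPolynomial A ℂ) (J : Finset ι) (P Q : Finset α) (c : α → Finset ι)
    (S : α → (∀ i, B i) → Prop) (x : α × ι × A → ℂ) :
    ((∀ p : P, depSub B (J \ c p)) × (∀ q : Q, supSub B J (S q))) →ₗ[ℂ] ((∀ i, B i) → ℂ) where
  toFun κ := fun y => ∑ p : P, (∏ i ∈ c p, eval (fun a => x (p.1, i, a)) (N i (y i))) *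
      (κ.1 p).1 y + ∑ q : Q, (κ.2 q).1 y
  map_add' := by
    intro κ κ'
    funext y
    simp only [Prod.fst_add, Prod.snd_add, Pi.add_apply, Submodule.coe_add, mul_add,
      Finset.sum_add_distrib]
    ring
  map_smul' := by
    intro r κ
    funext y
    simp only [Prod.smul_fst, Prod.smul_snd, Pi.smul_apply, Submodule.coe_smul, smul_eq_mul,
      RingHom.id_apply, mul_add, Finset.mul_sum]
    congr 1
    refine Finset.sum_congr rfl fun p _ => ?_
    ring

theorem goodMap_apply {ι A α : Type} {B : ι → Type} [Fintype ι] [∀ i, Fintype (B i)]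
    (N : ∀ i, B i → MvPolynomial A ℂ) (J : Finset ι) (P Q : Finset α) (c : α → Finset ι)
    (S : α → (∀ i, B i) → Prop) (x : α × ι × A → ℂ)
    (κ : (∀ p : P, depSub B (J \ c p)) × (∀ q : Q, supSub B J (S q))) (y : ∀ i, B i) :
    goodMap N J P Q c S x κ y =
      ∑ p : P, (∏ i ∈ c p, eval (fun a => x (p.1, i, a)) (N i (y i))) *
        (κ.1 p).1 y + ∑ q : Q, (κ.2 q).1 y := rfl

theorem polyFun_eval {ι A α : Type} (M : MvPolynomial A ℂ) (p : α) (i : ι) :
    PolyFun (fun x : α × ι × A → ℂ => eval (fun a => x (p, i, a)) M) := by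
  refine ⟨rename (fun a => (p, i, a)) M, fun x => ?_⟩
  rw [eval_rename]
  rfl

end GoodOpenX

open GoodOpenX in
/-- `Good` is an open condition. -/
theorem good_open {ι A α : Type} {B : ι → Type} [Fintype ι] [∀ i, Fintype (B i)]
    [∀ i, Nonempty (B i)] (pt : ∀ i, A → B i) (N : ∀ i, B i → MvPolynomial A ℂ)
    (J : Finset ι) (P Q : Finset α) (c : α → Finset ι) (f : α → ℕ) (ref : α → ι → A)
    (hPQ : Disjoint P Q) (v₀ : α → ι → A → ℂ) (h : Good pt N J P Q c f ref v₀) :
    ∃ G : MvPolynomial (α × ι × A) ℂ, G ≠ 0 ∧ ∀ v : α → ι → A → ℂ,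
      eval (fun x => v x.1 x.2.1 x.2.2) G ≠ 0 → Good pt N J P Q c f ref v := by
  set S : α → (∀ i, B i) → Prop := fun q y =>
    f q ≤ ((c q).filter (fun i => y i = pt i (ref q i))).card with hS
  have hT : ∀ (κ : (∀ p : P, depSub B (J \ c p)) × (∀ q : Q, supSub B J (S q)))
      (y : ∀ i, B i), PolyFun (fun x => goodMap N J P Q c S x κ y) := by
    intro κ y
    simp only [goodMap_apply]
    refine PolyFun.add ?_ (PolyFun.const _)
    refine PolyFun.sum _ _ fun p _ => ?_
    refine PolyFun.mul ?_ (PolyFun.const _)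
    exact PolyFun.prod _ (fun i x => eval (fun a => x (p.1, i, a)) (N i (y i)))
      fun i _ => polyFun_eval _ _ _
  have hinj : Function.Injective (goodMap N J P Q c S (fun x => v₀ x.1 x.2.1 x.2.2)) := by
    rw [injective_iff_map_eq_zero]
    intro κ hκ
    have hQP : ∀ q ∈ Q, q ∉ P := fun q hq hp => Finset.disjoint_left.1 hPQ hp hq
    let κ' : α → (∀ i, B i) → ℂ := fun p =>
      if hp : p ∈ P then (κ.1 ⟨p, hp⟩).1 else if hq : p ∈ Q then (κ.2 ⟨p, hq⟩).1 else 0
    have hP' : ∀ p (hp : p ∈ P), κ' p = (κ.1 ⟨p, hp⟩).1 := by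
      intro p hp
      simp only [κ', dif_pos hp]
    have hQ' : ∀ q (hq : q ∈ Q), κ' q = (κ.2 ⟨q, hq⟩).1 := by
      intro q hq
      simp only [κ', dif_neg (hQP q hq), dif_pos hq]
    have h1 := h κ' ?_ ?_ ?_ ?_
    · obtain ⟨h2, h3⟩ := h1
      apply Prod.ext
      · funext p
        apply Subtype.ext
        have := h2 p.1 p.2
        rw [hP' p.1 p.2] at this
        exact this
      · funext q
        apply Subtype.ext
        have := h3 q.1 q.2
        rw [hQ' q.1 q.2] at this
        exact this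
    · intro p hp
      rw [hP' p hp]
      exact (κ.1 ⟨p, hp⟩).2
    · intro q hq
      rw [hQ' q hq]
      exact (κ.2 ⟨q, hq⟩).2.1
    · intro q hq y hy
      rw [hQ' q hq] at hy
      exact (κ.2 ⟨q, hq⟩).2.2 y hy
    · intro y
      have h2 := congrFun hκ y
      rw [goodMap_apply] at h2
      rw [← Finset.sum_coe_sort P
        (fun p => (∏ i ∈ c p, eval (v₀ p i) (N i (y i))) * κ' p y),
        ← Finset.sum_coe_sort Q (fun q => κ' q y)]
      refine Eq.trans ?_ h2
      congr 1
      · refine Finset.sum_congr rfl fun p _ => ?_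
        rw [hP' p.1 p.2]
      · refine Finset.sum_congr rfl fun q _ => ?_
        rw [hQ' q.1 q.2]
  obtain ⟨G, hG0, hG⟩ := open_inj (goodMap N J P Q c S) hT _ hinj
  refine ⟨G, ?_, ?_⟩
  · rintro rfl
    simp at hG0
  · intro v hv κ hκ1 hκ2 hκ3 hκ4
    have h1 := hG _ hv
    rw [injective_iff_map_eq_zero] at h1
    have h2 := h1 (⟨fun p => ⟨κ p.1, hκ1 p.1 p.2⟩, fun q => ⟨κ q.1, hκ2 q.1 q.2, hκ3 q.1 q.2⟩⟩) ?_
    · refine ⟨fun p hp => ?_, fun q hq => ?_⟩
      · have h3 := congrFun (congrArg Prod.fst h2) ⟨p, hp⟩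
        exact congrArg Subtype.val h3
      · have h3 := congrFun (congrArg Prod.snd h2) ⟨q, hq⟩
        exact congrArg Subtype.val h3
    · funext y
      rw [goodMap_apply]
      have h3 := hκ4 y
      rw [← Finset.sum_coe_sort P
        (fun p => (∏ i ∈ c p, eval (v p i) (N i (y i))) * κ p y),
        ← Finset.sum_coe_sort Q (fun q => κ q y)] at h3
      exact h3

end Pool.Agent.H21.HD
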