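import Pool.Agent.H21.HD.Defs2
import Pool.Agent.H21.HD.GoodOpen

/-!
The slicing step for injectivity.
-/

namespace Pool.Agent.H21.HD

open MvPolynomial
open scoped Classical

/-- `Good` only involves the values `v p k` with `k ∈ c p`. -/
private theorem good_congr {ι A α : Type} {B : ι → Type} (pt : ∀ i, A → B i)
    (N : ∀ i, B i → MvPolynomial A ℂ) (J : Finset ι) (P Q : Finset α) (c : α → Finset ι)
    (f : α → ℕ) (ref : α → ι → A) (v v' : α → ι → A → ℂ) (hv : ∀ p ∈ P, ∀ k ∈ c p, v p k = v' p k)
    (h : Good pt N J P Q c f ref v) : Good pt N J P Q c f ref v' := by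
  intro κ h1 h2 h3 h4
  refine h κ h1 h2 h3 fun y => ?_
  rw [← h4 y]
  congr 1
  refine Finset.sum_congr rfl fun p hp => ?_
  congr 1
  exact Finset.prod_congr rfl fun k hk => by rw [hv p hp k hk]

/-- One slicing step. The slice `y i = b` contains the ordinary points `p` with `i ∉ c p` or
`b = pt i (t p)`. -/
theorem inj_step {ι A α : Type} {B : ι → Type} [Fintype ι] [Fintype A] [∀ i, Fintype (B i)]
    [∀ i, Nonempty (B i)] (pt : ∀ i, A → B i) (N : ∀ i, B i → MvPolynomial A ℂ)
    (J : Finset ι) (i : ι) (hi : i ∈ J)
    (hN : ∀ (a : A) (b : B i), eval (Pi.single a 1) (N i b) = if b = pt i a then 1 else 0)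
    (P Q : Finset α) (c : α → Finset ι) (f : α → ℕ) (ref : α → ι → A)
    (hPQ : Disjoint P Q) (hP : ∀ p ∈ P, c p ⊆ J) (hQ : ∀ q ∈ Q, c q ⊆ J) (t : α → A)
    (h : ∀ b : B i, ∃ v : α → ι → A → ℂ,
      Good pt N (J.erase i) (P.filter (fun p => i ∈ c p → b = pt i (t p))) Q
        (fun p => (c p).erase i)
        (fun q => if i ∈ c q ∧ b = pt i (ref q i) then f q - 1 else f q) ref v) :
    ∃ v : α → ι → A → ℂ, Good pt N J P Q c f ref v := by
  -- a common choice in the directions `k ≠ i`
  have h1 : ∀ b : B i, ∃ G : MvPolynomial (α × ι × A) ℂ, G ≠ 0 ∧ ∀ v : α → ι → A → ℂ,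
      eval (fun x => v x.1 x.2.1 x.2.2) G ≠ 0 →
        Good pt N (J.erase i) (P.filter (fun p => i ∈ c p → b = pt i (t p))) Q
          (fun p => (c p).erase i)
          (fun q => if i ∈ c q ∧ b = pt i (ref q i) then f q - 1 else f q) ref v := by
    intro b
    obtain ⟨v, hv⟩ := h b
    exact good_open pt N _ _ Q _ _ ref (hPQ.mono_left (Finset.filter_subset _ _)) v hv
  choose G hG0 hG using h1
  obtain ⟨x, hx⟩ := exists_common Finset.univ G fun b _ => hG0 b
  set v₀ : α → ι → A → ℂ := fun p k a => x (p, k, a) with hv₀
  set v : α → ι → A → ℂ := fun p k => if k = i then Pi.single (t p) 1 else v₀ p k with hv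
  have h2 : ∀ b : B i, Good pt N (J.erase i) (P.filter (fun p => i ∈ c p → b = pt i (t p))) Q
      (fun p => (c p).erase i)
      (fun q => if i ∈ c q ∧ b = pt i (ref q i) then f q - 1 else f q) ref v := by
    intro b
    refine good_congr pt N _ _ Q _ _ ref v₀ v (fun p _ k hk => ?_) (hG b v₀ (hx b (Finset.mem_univ b)))
    have hk' : k ≠ i := (Finset.mem_erase.1 hk).1
    simp only [hv, if_neg hk']
  refine ⟨v, fun κ k1 k2 k3 k4 => ?_⟩
  -- the slices
  have h3 : ∀ b : B i,
      (∀ p ∈ P.filter (fun p => i ∈ c p → b = pt i (t p)),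
        (fun y => κ p (Function.update y i b)) = 0) ∧
      ∀ q ∈ Q, (fun y => κ q (Function.update y i b)) = 0 := by
    intro b
    refine h2 b (fun p y => κ p (Function.update y i b)) ?_ ?_ ?_ ?_
    · intro p hp y y' hy
      have hp' := (Finset.mem_filter.1 hp).1
      refine k1 p hp' _ _ fun k hk => ?_
      obtain ⟨hk1, hk2⟩ := Finset.mem_sdiff.1 hk
      by_cases hki : k = i
      · subst hki; simp
      · rw [Function.update_of_ne hki, Function.update_of_ne hki]
        exact hy k (Finset.mem_sdiff.2 ⟨Finset.mem_erase.2 ⟨hki, hk1⟩,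
          fun h => hk2 (Finset.mem_erase.1 h).2⟩)
    · intro q hq y y' hy
      refine k2 q hq _ _ fun k hk => ?_
      by_cases hki : k = i
      · subst hki; simp
      · rw [Function.update_of_ne hki, Function.update_of_ne hki]
        exact hy k (Finset.mem_erase.2 ⟨hki, hk⟩)
    · intro q hq y hne
      have h4 := k3 q hq _ hne
      have h5 : ((c q).filter (fun k => Function.update y i b k = pt k (ref q k))).card ≤
          (((c q).erase i).filter (fun k => y k = pt k (ref q k))).card +
            (if i ∈ c q ∧ b = pt i (ref q i) then 1 else 0) := by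
        by_cases h6 : i ∈ c q ∧ b = pt i (ref q i)
        · rw [if_pos h6]
          have : (c q).filter (fun k => Function.update y i b k = pt k (ref q k)) ⊆
              insert i (((c q).erase i).filter (fun k => y k = pt k (ref q k))) := by
            intro k hk
            obtain ⟨hk1, hk2⟩ := Finset.mem_filter.1 hk
            by_cases hki : k = i
            · subst hki; exact Finset.mem_insert_self _ _
            · rw [Function.update_of_ne hki] at hk2
              exact Finset.mem_insert_of_mem
                (Finset.mem_filter.2 ⟨Finset.mem_erase.2 ⟨hki, hk1⟩, hk2⟩)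
          exact (Finset.card_le_card this).trans (Finset.card_insert_le _ _)
        · rw [if_neg h6, add_zero]
          refine Finset.card_le_card ?_
          intro k hk
          obtain ⟨hk1, hk2⟩ := Finset.mem_filter.1 hk
          by_cases hki : k = i
          · subst hki
            rw [Function.update_self] at hk2
            exact absurd ⟨hk1, hk2⟩ h6
          · rw [Function.update_of_ne hki] at hk2
            exact Finset.mem_filter.2 ⟨Finset.mem_erase.2 ⟨hki, hk1⟩, hk2⟩
      show (if i ∈ c q ∧ b = pt i (ref q i) then f q - 1 else f q) ≤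
        (((c q).erase i).filter (fun k => y k = pt k (ref q k))).card
      split_ifs at h5 ⊢ <;> omega
    · intro y
      rw [← k4 (Function.update y i b)]
      congr 1
      rw [Finset.sum_filter]
      refine Finset.sum_congr rfl fun p _ => ?_
      have hrest : ∀ k ∈ (c p).erase i, eval (v p k) (N k (Function.update y i b k)) =
          eval (v p k) (N k (y k)) := by
        intro k hk
        rw [Function.update_of_ne (Finset.mem_erase.1 hk).1]
      by_cases hip : i ∈ c p
      · have h7 : ∏ k ∈ c p, eval (v p k) (N k (Function.update y i b k)) =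
            (if b = pt i (t p) then 1 else 0) * ∏ k ∈ (c p).erase i, eval (v p k) (N k (y k)) := by
          rw [← Finset.mul_prod_erase _ _ hip, Finset.prod_congr rfl hrest, Function.update_self]
          congr 1
          rw [← hN (t p) b]
          simp only [hv, if_true]
        rw [h7]
        by_cases hb : b = pt i (t p)
        · rw [if_pos (fun _ => hb), if_pos hb, one_mul]
        · rw [if_neg (fun h => hb (h hip)), if_neg hb, zero_mul, zero_mul]
      · rw [if_pos (fun h => absurd h hip)]
        rw [← Finset.prod_congr rfl hrest, Finset.erase_eq_of_notMem hip]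
  constructor
  · intro p hp
    funext y
    by_cases hip : i ∈ c p
    · have h4 := (h3 (pt i (t p))).1 p (Finset.mem_filter.2 ⟨hp, fun _ => rfl⟩)
      have h5 := congrFun h4 y
      simp only [Pi.zero_apply] at h5 ⊢
      rw [← h5]
      refine k1 p hp _ _ fun k hk => ?_
      have hki : k ≠ i := by
        rintro rfl
        exact (Finset.mem_sdiff.1 hk).2 hip
      rw [Function.update_of_ne hki]
    · have h4 := (h3 (y i)).1 p (Finset.mem_filter.2 ⟨hp, fun h => absurd h hip⟩)
      have h5 := congrFun h4 y
      simpa using h5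
  · intro q hq
    funext y
    have h5 := congrFun ((h3 (y i)).2 q hq) y
    simpa using h5

end Pool.Agent.H21.HD
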