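import Pool.Agent.H21.HD.Defs2
import Pool.Agent.H21.HD.Distribute
import Pool.Agent.H21.HD.InjStep

/-!
Injectivity for product functions.
-/

namespace Pool.Agent.H21.HD

open MvPolynomial
open scoped Classical

/-- The case of an ordinary point of empty type. -/
private theorem injT_empty {ι A α : Type} {B : ι → Type} (pt : ∀ i, A → B i)
    (N : ∀ i, B i → MvPolynomial A ℂ) (J : Finset ι) (P Q : Finset α) (c : α → Finset ι)
    (f : α → ℕ) (ref : α → ι → A)
    (hPP : ∀ p ∈ P, ∀ p' ∈ P, p ≠ p' → (c p ∩ c p').Nonempty)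
    (hPQ : ∀ p ∈ P, ∀ q ∈ Q, (c p ∪ c q).card + 1 ≤ (c p).card + f q)
    (p₀ : α) (hp₀ : p₀ ∈ P) (h0 : c p₀ = ∅) (v : α → ι → A → ℂ) : Good pt N J P Q c f ref v := by
  intro κ _ _ k3 k4
  have hQ : ∀ q ∈ Q, κ q = 0 := by
    intro q hq
    funext y
    by_contra hne
    have h1 := k3 q hq y hne
    have h2 := hPQ p₀ hp₀ q hq
    rw [h0, Finset.empty_union, Finset.card_empty] at h2
    have h3 := Finset.card_filter_le (c q) (fun i => y i = pt i (ref q i))
    omega
  have hP : P = {p₀} := by
    ext p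
    rw [Finset.mem_singleton]
    constructor
    · intro hp
      by_contra hne
      have h1 := hPP p hp p₀ hp₀ hne
      rw [h0, Finset.inter_empty] at h1
      exact Finset.not_nonempty_empty h1
    · rintro rfl; exact hp₀
  refine ⟨fun p hp => ?_, hQ⟩
  have hp' : p = p₀ := by rw [hP] at hp; exact Finset.mem_singleton.1 hp
  subst hp'
  funext y
  have h1 := k4 y
  rw [Finset.sum_eq_zero (s := Q) (fun q hq => by rw [hQ q hq]; rfl), add_zero, hP,
    Finset.sum_singleton, h0, Finset.prod_empty, one_mul] at h1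
  exact h1

/-- The case of no coordinates. -/
private theorem injT_zero {ι A α : Type} {B : ι → Type} (pt : ∀ i, A → B i)
    (N : ∀ i, B i → MvPolynomial A ℂ) (P Q : Finset α) (c : α → Finset ι)
    (f : α → ℕ) (ref : α → ι → A) (hP : P = ∅) (hc : ∀ q ∈ Q, c q = ∅)
    (hQQ : ∀ q ∈ Q, ∀ q' ∈ Q, q ≠ q' → (c q ∪ c q').card + 1 ≤ f q + f q')
    (v : α → ι → A → ℂ) : Good pt N ∅ P Q c f ref v := by
  intro κ _ _ k3 k4
  subst hP
  refine ⟨fun p hp => absurd hp (Finset.notMem_empty p), fun q hq => ?_⟩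
  have h0 : ∀ q ∈ Q, ∀ y, κ q y ≠ 0 → f q = 0 := by
    intro q hq y hne
    have h1 := k3 q hq y hne
    rw [hc q hq, Finset.filter_empty, Finset.card_empty] at h1
    omega
  funext y
  by_contra hne
  have hf := h0 q hq y hne
  have h2 : ∀ q' ∈ Q, q' ≠ q → κ q' y = 0 := by
    intro q' hq' hne'
    by_contra hne2
    have hf' := h0 q' hq' y hne2
    have := hQQ q' hq' q hq hne'
    omega
  have h1 := k4 y
  rw [Finset.sum_empty, zero_add, Finset.sum_eq_single_of_mem q hq h2] at h1
  exact hne h1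

/-- Injectivity below the critical load. -/
theorem tensor_inj (s j : ℕ) : ∀ ε : ℝ, 0 < ε → ∃ W : ℕ, ∀ (ι A α : Type) (B : ι → Type)
    [Fintype ι] [Fintype A] [∀ i, Fintype (B i)] [∀ i, Nonempty (B i)],
    W ≤ Fintype.card A → ∀ (pt : ∀ i, A → B i) (N : ∀ i, B i → MvPolynomial A ℂ)
    (J : Finset ι), J.card = j → (∀ i ∈ J, Function.Injective (pt i)) →
    (∀ i ∈ J, ∀ (a : A) (b : B i),
      eval (Pi.single a 1) (N i b) = if b = pt i a then 1 else 0) →
    ∀ (P Q : Finset α) (c : α → Finset ι) (f : α → ℕ) (ref : α → ι → A),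
    Disjoint P Q → (∀ p ∈ P, c p ⊆ J) → (∀ q ∈ Q, c q ⊆ J) →
    (∀ p ∈ P, ∀ p' ∈ P, p ≠ p' → (c p ∩ c p').Nonempty) →
    (∀ p ∈ P, ∀ q ∈ Q, (c p ∪ c q).card + 1 ≤ (c p).card + f q) →
    (∀ q ∈ Q, ∀ q' ∈ Q, q ≠ q' → (c q ∪ c q').card + 1 ≤ f q + f q') →
    (∀ i ∈ J, Set.InjOn (fun q => ref q i) (Q : Set α)) → Q.card ≤ s →
    ((∃ p ∈ P, c p = ∅) ∨
      ∑ p ∈ P, (1 : ℝ) / (Fintype.card A : ℝ) ^ (c p).card ≤ 1 - ε) →
    ∃ v : α → ι → A → ℂ, Good pt N J P Q c f ref v := by
  induction j with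
  | zero =>
    intro ε _
    refine ⟨0, ?_⟩
    intro ι A α B _ _ _ _ _ pt N J hJ _ _ P Q c f ref _ hP hQ hPP hPQ hQQ _ _ hload
    rw [Finset.card_eq_zero] at hJ
    subst hJ
    by_cases hemp : ∃ p ∈ P, c p = ∅
    · obtain ⟨p₀, hp₀, h0⟩ := hemp
      exact ⟨0, injT_empty pt N ∅ P Q c f ref hPP hPQ p₀ hp₀ h0 0⟩
    · push Not at hemp
      have hP0 : P = ∅ := by
        rw [Finset.eq_empty_iff_forall_notMem]
        exact fun p hp => (hemp p hp).ne_empty (Finset.subset_empty.1 (hP p hp))
      exact ⟨0, injT_zero pt N P Q c f ref hP0 (fun q hq => Finset.subset_empty.1 (hQ q hq)) hQQ 0⟩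
  | succ j ih =>
    intro ε hε
    obtain ⟨W₁, hW₁⟩ := distribute (j + 1) s ε hε
    obtain ⟨W₂, hW₂⟩ := ih (ε / 2) (by positivity)
    refine ⟨max W₁ W₂, ?_⟩
    intro ι A α B _ _ _ _ hW pt N J hJ hpt hN P Q c f ref hdis hP hQ hPP hPQ hQQ href hs hload
    by_cases hemp : ∃ p ∈ P, c p = ∅
    · obtain ⟨p₀, hp₀, h0⟩ := hemp
      exact ⟨0, injT_empty pt N J P Q c f ref hPP hPQ p₀ hp₀ h0 0⟩
    have hload' : ∑ p ∈ P, (1 : ℝ) / (Fintype.card A : ℝ) ^ (c p).card ≤ 1 - ε :=
      hload.resolve_left hemp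
    obtain ⟨i, hi⟩ : J.Nonempty := by
      rw [← Finset.card_pos, hJ]; omega
    obtain ⟨t, ht1, ht2, ht3, ht4⟩ := hW₁ ι A α ((le_max_left _ _).trans hW) J hJ i hi P c hP
      (Q.image fun q => ref q i) (Finset.card_image_le.trans hs) hload'
    have hinj := hpt i hi
    refine inj_step pt N J i hi (hN i hi) P Q c f ref hdis hP hQ t fun b => ?_
    have hcardJ : (J.erase i).card = j := by
      rw [Finset.card_erase_of_mem hi, hJ]; rfl
    refine hW₂ ι A α B ((le_max_right _ _).trans hW) pt N (J.erase i) hcardJ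
      (fun k hk => hpt k (Finset.mem_erase.1 hk).2) (fun k hk => hN k (Finset.mem_erase.1 hk).2)
      (P.filter (fun p => i ∈ c p → b = pt i (t p))) Q (fun p => (c p).erase i)
      (fun q => if i ∈ c q ∧ b = pt i (ref q i) then f q - 1 else f q) ref
      (hdis.mono_left (Finset.filter_subset _ _)) ?_ ?_ ?_ ?_ ?_ ?_ hs ?_
    · intro p hp
      exact Finset.erase_subset_erase i (hP p (Finset.mem_filter.1 hp).1)
    · intro q hq
      exact Finset.erase_subset_erase i (hQ q hq)
    · -- two ordinary points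
      intro p hp p' hp' hne
      obtain ⟨hp1, hp2⟩ := Finset.mem_filter.1 hp
      obtain ⟨hp1', hp2'⟩ := Finset.mem_filter.1 hp'
      by_cases h1 : i ∈ c p ∧ i ∈ c p'
      · have htt : t p = t p' := hinj ((hp2 h1.1).symm.trans (hp2' h1.2))
        have hcc := ht2 p hp1 p' hp1' h1.1 h1.2 htt
        have hns : c p ≠ {i} := fun h => hne (ht3 p hp1 p' hp1' h1.1 h1.2 htt h)
        obtain ⟨k, hk, hki⟩ : ∃ k ∈ c p, k ≠ i := by
          by_contra hcon
          push Not at hcon
          apply hns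
          ext k
          rw [Finset.mem_singleton]
          exact ⟨fun h => hcon k h, fun h => h ▸ h1.1⟩
        exact ⟨k, Finset.mem_inter.2 ⟨Finset.mem_erase.2 ⟨hki, hk⟩,
          Finset.mem_erase.2 ⟨hki, hcc ▸ hk⟩⟩⟩
      · obtain ⟨k, hk⟩ := hPP p hp1 p' hp1' hne
        obtain ⟨hk1, hk2⟩ := Finset.mem_inter.1 hk
        have hki : k ≠ i := by
          rintro rfl
          exact h1 ⟨hk1, hk2⟩
        exact ⟨k, Finset.mem_inter.2 ⟨Finset.mem_erase.2 ⟨hki, hk1⟩,
          Finset.mem_erase.2 ⟨hki, hk2⟩⟩⟩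
    · -- an ordinary and a special point
      intro p hp q hq
      obtain ⟨hp1, hp2⟩ := Finset.mem_filter.1 hp
      have h1 := hPQ p hp1 q hq
      show ((c p).erase i ∪ (c q).erase i).card + 1 ≤ ((c p).erase i).card +
        (if i ∈ c q ∧ b = pt i (ref q i) then f q - 1 else f q)
      rw [← Finset.erase_union_distrib]
      by_cases hip : i ∈ c p
      · have hb := hp2 hip
        have hne : ¬ (i ∈ c q ∧ b = pt i (ref q i)) := by
          rintro ⟨-, h2⟩
          exact ht1 p hp1 hip (Finset.mem_image.2 ⟨q, hq, (hinj (hb.symm.trans h2)).symm⟩)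
        rw [if_neg hne, Finset.card_erase_of_mem (Finset.mem_union_left _ hip),
          Finset.card_erase_of_mem hip]
        have h3 : 0 < (c p).card := Finset.card_pos.2 ⟨i, hip⟩
        have h4 : 0 < (c p ∪ c q).card := Finset.card_pos.2 ⟨i, Finset.mem_union_left _ hip⟩
        omega
      · rw [Finset.erase_eq_of_notMem hip]
        by_cases hiq : i ∈ c q
        · rw [Finset.card_erase_of_mem (Finset.mem_union_right _ hiq)]
          have h3 : (c p).card < (c p ∪ c q).card := by
            refine Finset.card_lt_card ⟨Finset.subset_union_left, fun h => hip ?_⟩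
            exact h (Finset.mem_union_right _ hiq)
          split_ifs <;> omega
        · have h2 : i ∉ c p ∪ c q := by
            rw [Finset.mem_union]; tauto
          rw [Finset.erase_eq_of_notMem h2, if_neg fun h => hiq h.1]
          exact h1
    · -- two special points
      intro q hq q' hq' hne
      have h1 := hQQ q hq q' hq' hne
      show ((c q).erase i ∪ (c q').erase i).card + 1 ≤
        (if i ∈ c q ∧ b = pt i (ref q i) then f q - 1 else f q) +
          (if i ∈ c q' ∧ b = pt i (ref q' i) then f q' - 1 else f q')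
      rw [← Finset.erase_union_distrib]
      by_cases h2 : i ∈ c q ∧ b = pt i (ref q i)
      · have h3 : ¬ (i ∈ c q' ∧ b = pt i (ref q' i)) := by
          rintro ⟨-, h4⟩
          exact hne (href i hi hq hq' (hinj (h2.2.symm.trans h4)))
        rw [if_pos h2, if_neg h3, Finset.card_erase_of_mem (Finset.mem_union_left _ h2.1)]
        have h4 : 0 < (c q ∪ c q').card := Finset.card_pos.2 ⟨i, Finset.mem_union_left _ h2.1⟩
        omega
      · rw [if_neg h2]
        by_cases h3 : i ∈ c q' ∧ b = pt i (ref q' i)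
        · rw [if_pos h3, Finset.card_erase_of_mem (Finset.mem_union_right _ h3.1)]
          have h4 : 0 < (c q ∪ c q').card := Finset.card_pos.2 ⟨i, Finset.mem_union_right _ h3.1⟩
          omega
        · rw [if_neg h3]
          have h4 := Finset.card_le_card (Finset.erase_subset i (c q ∪ c q'))
          omega
    · exact fun k hk => href k (Finset.mem_erase.1 hk).2
    · -- the load of the slice
      by_cases hb : ∃ a, b = pt i a
      · obtain ⟨a, rfl⟩ := hb
        by_cases h1 : ∃ p ∈ P, i ∈ c p ∧ t p = a ∧ c p = {i}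
        · left
          obtain ⟨p, hp, hip, htp, hcp⟩ := h1
          refine ⟨p, Finset.mem_filter.2 ⟨hp, fun _ => by rw [htp]⟩, ?_⟩
          rw [hcp]
          simp
        · right
          push Not at h1
          have h2 := ht4 a fun p hp hip htp => h1 p hp hip htp
          have h3 : P.filter (fun p => i ∈ c p → pt i a = pt i (t p)) =
              P.filter (fun p => i ∈ c p → t p = a) := by
            refine Finset.filter_congr fun p _ => ?_
            exact ⟨fun h hip => (hinj (h hip)).symm, fun h hip => by rw [h hip]⟩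
          rw [h3]
          exact h2
      · right
        have h3 : P.filter (fun p => i ∈ c p → b = pt i (t p)) = P.filter (fun p => i ∉ c p) := by
          refine Finset.filter_congr fun p _ => ?_
          exact ⟨fun h hip => hb ⟨_, h hip⟩, fun h hip => absurd hip h⟩
        rw [h3]
        calc ∑ p ∈ P.filter (fun p => i ∉ c p),
              (1 : ℝ) / (Fintype.card A : ℝ) ^ ((c p).erase i).card
            = ∑ p ∈ P.filter (fun p => i ∉ c p), (1 : ℝ) / (Fintype.card A : ℝ) ^ (c p).card := by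
              refine Finset.sum_congr rfl fun p hp => ?_
              rw [Finset.erase_eq_of_notMem (Finset.mem_filter.1 hp).2]
          _ ≤ ∑ p ∈ P, (1 : ℝ) / (Fintype.card A : ℝ) ^ (c p).card :=
              Finset.sum_le_sum_of_subset_of_nonneg (Finset.filter_subset _ _)
                fun _ _ _ => by positivity
          _ ≤ 1 - ε / 2 := by linarith

end Pool.Agent.H21.HD
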