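import Pool.Agent.H21.HD.Defs3
import Pool.Agent.H21.HD.InjT
import Pool.Agent.H21.HD.ColOpen
import Pool.Agent.H21.HD.ColGood

/-!
The column lemma.
-/

namespace Pool.Agent.H21.HD

open MvPolynomial
open scoped Classical

variable {N : ℕ} {A Λ P : Type} [Fintype A] [Fintype Λ] [Fintype P]

/-- `Good` does not depend on the values of `v` at the special points. -/
theorem ColMX.good_congr {ι A α : Type} {B : ι → Type} {pt : ∀ i, A → B i}
    {N : ∀ i, B i → MvPolynomial A ℂ} {J : Finset ι} {P Q : Finset α} {c : α → Finset ι}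
    {f : α → ℕ} {ref : α → ι → A} {v v' : α → ι → A → ℂ} (hv : ∀ p ∈ P, v p = v' p)
    (h : Good pt N J P Q c f ref v) : Good pt N J P Q c f ref v' := by
  intro κ h1 h2 h3 h4
  refine h κ h1 h2 h3 fun y => ?_
  rw [← h4 y]
  congr 1
  refine Finset.sum_congr rfl fun p hp => ?_
  rw [hv p hp]

/-- The value of a monomial with multinomial coefficient at a unit vector. -/
theorem ColMX.eval_unit (k : ℕ) (a : A) (β : A →₀ ℕ) (hβ : β.degree = k) :
    eval (Pi.single a (1 : ℂ)) (monomial β (Nat.multinomial Finset.univ β : ℂ)) =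
      if β = Finsupp.single a k then 1 else 0 := by
  rw [eval_monomial]
  by_cases h : β = Finsupp.single a k
  · rw [if_pos h, h]
    have h1 : Nat.multinomial Finset.univ (Finsupp.single a k : A →₀ ℕ) = 1 := by
      rw [Nat.multinomial]
      have e1 : ∑ i : A, (Finsupp.single a k : A →₀ ℕ) i = k := by
        simp [Finsupp.single_apply]
      have e2 : ∏ i : A, ((Finsupp.single a k : A →₀ ℕ) i).factorial = k.factorial := by
        rw [Finset.prod_eq_single a]
        · simp
        · intro b _ hb
          rw [Finsupp.single_apply, if_neg (Ne.symm hb)]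
          rfl
        · simp
      rw [e1, e2]
      exact Nat.div_self (Nat.factorial_pos k)
    rw [h1, Finsupp.prod_single_index]
    · simp
    · simp
  · rw [if_neg h]
    have h2 : ∃ b ∈ β.support, b ≠ a := by
      by_contra hcon
      push Not at hcon
      apply h
      have h3 : β.support ⊆ {a} := fun b hb => Finset.mem_singleton.mpr (hcon b hb)
      have h4 := Finsupp.support_subset_singleton.mp h3
      rw [h4] at hβ
      rw [h4]
      congr 1
      rw [← hβ]
      simp
    obtain ⟨b, hb, hba⟩ := h2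
    have h5 : (β.prod fun n e => (Pi.single a (1 : ℂ) : A → ℂ) n ^ e) = 0 := by
      rw [Finsupp.prod]
      apply Finset.prod_eq_zero hb
      rw [Pi.single_apply, if_neg hba, zero_pow (Finsupp.mem_support_iff.mp hb)]
    rw [h5, mul_zero]

theorem ColMX.union_le {ι : Type} {inst : DecidableEq ι} {s t u : Finset ι} (hs : s ⊆ u)
    (ht : t ⊆ u) : (@Union.union _ (@Finset.instUnion _ inst) s t).card ≤ u.card :=
  Finset.card_le_card (@Finset.union_subset _ inst _ _ _ hs ht)

theorem ColMX.inter_ne {ι : Type} {inst : DecidableEq ι} {s t u : Finset ι} (hs : s ⊆ u)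
    (ht : t ⊆ u) (h : u.card < s.card + t.card) :
    (@Inter.inter _ (@Finset.instInter _ inst) s t).Nonempty := by
  rw [← Finset.card_pos]
  have h1 := @Finset.card_union_add_card_inter _ inst s t
  have h2 : (@Union.union _ (@Finset.instUnion _ inst) s t).card ≤ u.card :=
    ColMX.union_le hs ht
  omega

/-- Finitely many exponent vectors of given degree. -/
theorem ColMX.finite_deg (k : ℕ) : Finite {β : A →₀ ℕ // β.degree = k} := by
  have h : Function.Injective (fun β : {β : A →₀ ℕ // β.degree = k} =>
      (fun a : A => (⟨β.1 a, Nat.lt_succ_of_le (by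
        have := β.2
        calc β.1 a ≤ β.1.degree := Finsupp.le_degree a β.1
          _ = k := this)⟩ : Fin (k + 1)))) := by
    intro β γ hβγ
    apply Subtype.ext
    ext a
    have := congrFun hβγ a
    simpa using this
  exact Finite.of_injective _ h

/-- The column lemma. -/
theorem col_inj (d : ℕ) (ε : ℝ) (hε : 0 < ε) : ∃ W : ℕ, ∀ (N : ℕ) (A Λ P : Type) [Fintype A]
    [Fintype Λ] [Fintype P], W ≤ Fintype.card A → ∀ (c : P → Finset (Fin N)) (lab : P → Λ)
    (a : Fin N → ℕ) (μ : Λ → ℕ), Function.Injective lab →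
    (∀ p, ∀ i ∈ c p, a i ≠ 0) → (∀ p q, p ≠ q → d + 1 ≤ (c p).card + (c q).card) →
    (∀ p, (c p).Nonempty) →
    ∑ i, a i + ∑ l, μ l = d →
    ∑ p, (1 : ℝ) / (Fintype.card A : ℝ) ^ (c p).card ≤ 1 - ε →
    ∃ ref : P → Fin N → A, ∃ G : MvPolynomial (P × Fin N × A) ℂ, G ≠ 0 ∧
      ∀ v : P → Fin N → A → ℂ, eval (fun x => v x.1 x.2.1 x.2.2) G ≠ 0 →
        ColInj c lab ref a μ v := by
  choose W hW using fun j => tensor_inj d j ε hε
  refine ⟨(∑ j ∈ Finset.range (d + 1), W j) + d + 1, ?_⟩
  intro N A Λ P _ _ _ hA c lab a μ hlab hca hpair hne hsum hload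
  have hAd : d < Fintype.card A := by omega
  have hAne : Nonempty A := Fintype.card_pos_iff.mp (by omega)
  -- the set of blocks
  set J : Finset (Fin N) := Finset.univ.filter (fun i => a i ≠ 0) with hJ
  have hJcard : J.card ≤ ∑ i, a i := by
    calc J.card = ∑ i ∈ J, 1 := by simp
      _ ≤ ∑ i ∈ J, a i := by
          apply Finset.sum_le_sum
          intro i hi
          rw [hJ, Finset.mem_filter] at hi
          omega
      _ ≤ ∑ i, a i := Finset.sum_le_sum_of_subset (Finset.subset_univ _)
  have hcJ : ∀ p, c p ⊆ J := fun p i hi => by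
    rw [hJ, Finset.mem_filter]
    exact ⟨Finset.mem_univ _, hca p i hi⟩
  set Ps : Finset P := Finset.univ.filter (fun p => μ (lab p) = 0) with hPs
  set Qs : Finset P := Finset.univ.filter (fun p => μ (lab p) ≠ 0) with hQs
  have hQmu : ∑ q ∈ Qs, μ (lab q) ≤ ∑ l, μ l := by
    rw [← Finset.sum_image (f := μ) (g := lab) (fun x _ y _ h => hlab h)]
    exact Finset.sum_le_sum_of_subset (Finset.subset_univ _)
  have hQcard : Qs.card ≤ d := by
    calc Qs.card = ∑ q ∈ Qs, 1 := by simp
      _ ≤ ∑ q ∈ Qs, μ (lab q) := by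
          apply Finset.sum_le_sum
          intro q hq
          rw [hQs, Finset.mem_filter] at hq
          omega
      _ ≤ ∑ l, μ l := hQmu
      _ ≤ d := by omega
  have hmu1 : ∀ q, μ (lab q) ≤ ∑ l, μ l := fun q =>
    Finset.single_le_sum (f := μ) (fun _ _ => Nat.zero_le _) (Finset.mem_univ _)
  have hmu2 : ∀ q q', q ≠ q' → μ (lab q) + μ (lab q') ≤ ∑ l, μ l := by
    intro q q' hqq
    have h1 : lab q ≠ lab q' := fun h => hqq (hlab h)
    rw [← Finset.sum_pair (f := μ) h1]
    exact Finset.sum_le_sum_of_subset (Finset.subset_univ _)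
  -- reference values
  have hemb : Nonempty (Qs ↪ A) := by
    apply Function.Embedding.nonempty_of_card_le
    rw [Fintype.card_coe]
    omega
  obtain ⟨emb⟩ := hemb
  let ref : P → Fin N → A := fun p _ => if h : p ∈ Qs then emb ⟨p, h⟩ else Classical.arbitrary A
  have hrefinj : ∀ i ∈ J, Set.InjOn (fun q => ref q i) (Qs : Set P) := by
    intro i _ q hq q' hq' h
    have hq1 : q ∈ Qs := hq
    have hq2 : q' ∈ Qs := hq'
    simp only [ref, dif_pos hq1, dif_pos hq2] at h
    have := emb.injective h
    exact congrArg Subtype.val this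
  haveI : ∀ i : Fin N, Fintype {β : A →₀ ℕ // β.degree = a i} := fun i =>
    @Fintype.ofFinite _ (ColMX.finite_deg (a i))
  haveI : ∀ i : Fin N, Nonempty {β : A →₀ ℕ // β.degree = a i} := fun i =>
    ⟨⟨Finsupp.single (Classical.arbitrary A) (a i), by simp⟩⟩
  have hWj : W J.card ≤ Fintype.card A := by
    have h1 : W J.card ≤ ∑ j ∈ Finset.range (d + 1), W j :=
      Finset.single_le_sum (f := W) (fun _ _ => Nat.zero_le _)
        (Finset.mem_range.mpr (by omega))
    omega
  obtain ⟨v, hv⟩ := hW J.card (Fin N) A P (fun i => {β : A →₀ ℕ // β.degree = a i}) hWj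
    (fun i s => ⟨Finsupp.single s (a i), by simp⟩)
    (fun i β => monomial β.1 (Nat.multinomial Finset.univ β.1 : ℂ)) J rfl
    (by
      intro i hi s t hst
      rw [hJ, Finset.mem_filter] at hi
      have h1 : Finsupp.single s (a i) = Finsupp.single t (a i) := congrArg Subtype.val hst
      rw [Finsupp.single_eq_single_iff] at h1
      rcases h1 with h1 | h1
      · exact h1.1
      · exact absurd h1.1 hi.2)
    (by
      intro i _ s β
      rw [ColMX.eval_unit (a i) s β.1 β.2]
      by_cases h : β.1 = Finsupp.single s (a i)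
      · rw [if_pos h, if_pos (Subtype.ext h)]
      · rw [if_neg h, if_neg fun h' => h (congrArg Subtype.val h')])
    Ps Qs c (fun p => (c p).card - μ (lab p)) ref
    (by
      rw [Finset.disjoint_left]
      intro p hp hq
      rw [hPs, Finset.mem_filter] at hp
      rw [hQs, Finset.mem_filter] at hq
      exact hq.2 hp.2)
    (fun p _ => hcJ p) (fun q _ => hcJ q)
    (by
      intro p _ p' _ hpp
      have h2 := hpair p p' hpp
      exact ColMX.inter_ne (hcJ p) (hcJ p') (by omega))
    (by
      intro p hp q hq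
      have hpq : p ≠ q := by
        rintro rfl
        rw [hPs, Finset.mem_filter] at hp
        rw [hQs, Finset.mem_filter] at hq
        exact hq.2 hp.2
      have h2 := hpair p q hpq
      have h4 := hmu1 q
      refine le_trans (Nat.add_le_add_right (ColMX.union_le (hcJ p) (hcJ q)) 1) ?_
      show J.card + 1 ≤ (c p).card + ((c q).card - μ (lab q))
      omega)
    (by
      intro q _ q' _ hqq
      have h2 := hpair q q' hqq
      have h4 := hmu2 q q' hqq
      refine le_trans (Nat.add_le_add_right (ColMX.union_le (hcJ q) (hcJ q')) 1) ?_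
      show J.card + 1 ≤ ((c q).card - μ (lab q)) + ((c q').card - μ (lab q'))
      omega)
    hrefinj hQcard
    (by
      right
      refine le_trans ?_ hload
      apply Finset.sum_le_sum_of_subset_of_nonneg (Finset.subset_univ _)
      intro p _ _
      positivity)
  let v' : P → Fin N → A → ℂ := fun p i =>
    if μ (lab p) = 0 then v p i else Pi.single (ref p i) 1
  have hv' : Good (B := fun i => {β : A →₀ ℕ // β.degree = a i})
      (fun i s => ⟨Finsupp.single s (a i), by simp⟩)
      (fun i β => monomial β.1 (Nat.multinomial Finset.univ β.1 : ℂ)) J Ps Qs c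
      (fun p => (c p).card - μ (lab p)) ref v' := by
    refine ColMX.good_congr (fun p hp => ?_) hv
    rw [hPs, Finset.mem_filter] at hp
    funext i
    simp only [v', if_pos hp.2]
  have hcol : ColInj c lab ref a μ v' :=
    colInj_of_good c lab ref a μ hca v' (fun p hp i _ => by simp only [v', if_neg hp]) hv'
  obtain ⟨G, hG, hGv⟩ := colInj_open c lab ref a μ v' hcol
  exact ⟨ref, G, hG, hGv⟩

end Pool.Agent.H21.HD
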