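import Pool.Agent.H21.HD.Defs3

/-!
One-variable lemmas.
-/

namespace Pool.Agent.H21.HD

namespace OneVarX

open Polynomial in
theorem coeff_zero_of {S : Type} [CommRing S] [IsDomain S] (x : S) (hx : x ≠ 0) (E : ℕ)
    (M : Polynomial S) (r : ℕ)
    (h : ∀ t, t < r → ((Polynomial.X + Polynomial.C x) ^ E * M).coeff t = 0) :
    (∀ t, t < r → M.coeff t = 0) ∧
      ((Polynomial.X + Polynomial.C x) ^ E * M).coeff r = x ^ E * M.coeff r := by
  have key : ∀ t, (∀ s, s < t → M.coeff s = 0) →
      ((Polynomial.X + Polynomial.C x) ^ E * M).coeff t = x ^ E * M.coeff t := by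
    intro t ht
    rw [Polynomial.coeff_mul, Finset.sum_eq_single (0, t)]
    · congr 1
      rw [Polynomial.coeff_zero_eq_eval_zero]
      simp
    · rintro ⟨i, j⟩ hij hne
      rw [Finset.HasAntidiagonal.mem_antidiagonal] at hij
      simp only at hij
      have hj : j < t := by
        rcases Nat.eq_zero_or_pos i with hi | hi
        · exfalso
          apply hne
          subst hi
          simp only [zero_add] at hij
          rw [hij]
        · omega
      simp only [ht j hj, mul_zero]
    · intro hn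
      exfalso
      apply hn
      rw [Finset.HasAntidiagonal.mem_antidiagonal]
      simp
  have h1 : ∀ t, t < r → M.coeff t = 0 := by
    intro t
    induction t using Nat.strong_induction_on with
    | _ t ih =>
      intro htr
      have h2 := key t (fun s hs => ih s hs (by omega))
      rw [h t htr] at h2
      have h3 : x ^ E ≠ 0 := pow_ne_zero _ hx
      rcases mul_eq_zero.1 h2.symm with h4 | h4
      · exact absurd h4 h3
      · exact h4
  exact ⟨h1, key r h1⟩

end OneVarX

/-- If `(x + T)^E` divides `Q` and the coefficients below `r` of `Q` vanish then `x^E` divides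
the coefficient `r`. -/
theorem one_var' {S : Type} [CommRing S] [IsDomain S] (x : S) (hx : x ≠ 0) (E : ℕ)
    (Q : Polynomial S) (hQ : (Polynomial.X + Polynomial.C x) ^ E ∣ Q) (r : ℕ)
    (h : ∀ t, t < r → Q.coeff t = 0) : x ^ E ∣ Q.coeff r := by
  obtain ⟨M, rfl⟩ := hQ
  rw [(OneVarX.coeff_zero_of x hx E M r h).2]
  exact dvd_mul_right _ _

/-- The one-variable lemma: if `(x + T)^E` divides `Q` and the coefficients `1, …, r - 1` of `Q`
vanish then `x^(E-1)` divides the coefficient `r`. -/
theorem one_var {S : Type} [CommRing S] [IsDomain S] [Algebra ℚ S] (x : S) (hx : x ≠ 0) (E : ℕ)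
    (Q : Polynomial S) (hQ : (Polynomial.X + Polynomial.C x) ^ E ∣ Q) (r : ℕ) (hr : 1 ≤ r)
    (h : ∀ t, 1 ≤ t → t < r → Q.coeff t = 0) : x ^ (E - 1) ∣ Q.coeff r := by
  have h1 := Polynomial.pow_sub_one_dvd_derivative_of_pow_dvd hQ
  have h2 := one_var' x hx (E - 1) _ h1 (r - 1) (by
    intro t ht
    rw [Polynomial.coeff_derivative, h (t + 1) (by omega) (by omega), zero_mul])
  rw [Polynomial.coeff_derivative] at h2
  have h3 : r - 1 + 1 = r := by omega
  rw [h3] at h2
  have h4 : ((r - 1 : ℕ) : S) + 1 = algebraMap ℚ S (r : ℚ) := by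
    rw [map_natCast]
    have h5 : ((r - 1 : ℕ) : S) + 1 = ((r - 1 + 1 : ℕ) : S) := by push_cast; ring
    rw [h5, h3]
  rw [h4] at h2
  have h5 : IsUnit (algebraMap ℚ S (r : ℚ)) := by
    apply IsUnit.map
    apply IsUnit.mk0
    exact_mod_cast (by omega : r ≠ 0)
  exact (h5.dvd_mul_right).1 h2

end Pool.Agent.H21.HD
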