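import Pool.Agent.H21.HD.Defs3
import Pool.Agent.H21.HD.OneVar

/-!
The leading coefficient lemma.
-/

namespace Pool.Agent.H21.HD

namespace LeadLX

open MvPolynomial

theorem key_lt_iff {N : ℕ} (a b : Fin N → ℕ) : key a < key b ↔
    ∃ i, (∀ j, j < i → rk0 (a j) = rk0 (b j)) ∧ rk0 (a i) < rk0 (b i) := Iff.rfl

theorem key_lt_head {N : ℕ} (a b : Fin (N + 1) → ℕ) (h : rk0 (a 0) < rk0 (b 0)) :
    key a < key b := by
  rw [key_lt_iff]
  exact ⟨0, fun j hj => absurd hj (Fin.not_lt_zero j), h⟩

theorem key_lt_tail {N : ℕ} (a b : Fin (N + 1) → ℕ) (h0 : a 0 = b 0)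
    (h : key (fun i => a i.succ) < key (fun i => b i.succ)) : key a < key b := by
  rw [key_lt_iff] at h ⊢
  obtain ⟨i, h1, h2⟩ := h
  refine ⟨i.succ, fun j hj => ?_, h2⟩
  refine Fin.cases ?_ (fun j' => ?_) j hj
  · intro _
    rw [h0]
  · intro hj'
    exact h1 j' (Fin.succ_lt_succ_iff.1 hj')

theorem rk0_lt_of {a b : ℕ} (ha : a ≠ 0) (h : a < b) : rk0 a < rk0 b := by
  unfold rk0
  rw [if_neg ha, if_neg (by omega)]
  exact_mod_cast h

theorem rk0_lt_zero {a : ℕ} (ha : a ≠ 0) : rk0 a < rk0 0 := by
  unfold rk0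
  rw [if_neg ha, if_pos rfl]
  exact ENat.natCast_lt_top a

/-- The remaining coordinates. -/
def tl {N : ℕ} (c : Finset (Fin (N + 1))) : Finset (Fin N) :=
  Finset.univ.filter (fun i : Fin N => i.succ ∈ c)

theorem form_split {R : Type} [CommRing R] {N : ℕ} (c : Finset (Fin (N + 1))) (y : R) :
    finSuccEquiv R N ((∑ i ∈ c, X i) + C y) =
      (if (0 : Fin (N + 1)) ∈ c then Polynomial.X else 0) +
        Polynomial.C ((∑ i ∈ tl c, X i) + C y) := by
  have h1 : (∑ i ∈ c, X i : MvPolynomial (Fin (N + 1)) R) =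
      ∑ i, if i ∈ c then X i else 0 := by
    rw [Finset.sum_ite_mem, Finset.univ_inter]
  have h2 : finSuccEquiv R N (C y) = Polynomial.C (C y) := by
    simp [finSuccEquiv_apply]
  have h3 : finSuccEquiv R N (if (0 : Fin (N + 1)) ∈ c then X 0 else 0) =
      (if (0 : Fin (N + 1)) ∈ c then Polynomial.X else 0) := by
    split_ifs
    · exact finSuccEquiv_X_zero
    · exact map_zero _
  have h4 : finSuccEquiv R N (∑ i : Fin N, if i.succ ∈ c then X i.succ else 0) =
      Polynomial.C (∑ i ∈ tl c, X i) := by
    unfold tl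
    rw [map_sum, Finset.sum_filter, map_sum]
    refine Finset.sum_congr rfl fun i _ => ?_
    split_ifs
    · exact finSuccEquiv_X_succ
    · rw [map_zero, map_zero]
  rw [h1, Fin.sum_univ_succ, map_add, map_add, h2, h3, h4, map_add, add_assoc]

theorem card_split {N : ℕ} (c : Finset (Fin (N + 1))) (ω : Fin (N + 1) → ℕ) :
    (c.filter (fun i => ω i = 0)).card =
      (if (0 : Fin (N + 1)) ∈ c ∧ ω 0 = 0 then 1 else 0) +
        ((tl c).filter (fun i => ω i.succ = 0)).card := by
  have h1 : (c.filter (fun i => ω i = 0)).card =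
      ∑ i : Fin (N + 1), if i ∈ c ∧ ω i = 0 then 1 else 0 := by
    rw [Finset.card_filter, ← Finset.sum_filter, ← Finset.sum_filter]
    congr 1
    ext i
    simp
  have h2 : ((tl c).filter (fun i => ω i.succ = 0)).card =
      ∑ i : Fin N, if i.succ ∈ c ∧ ω i.succ = 0 then 1 else 0 := by
    rw [Finset.card_filter, ← Finset.sum_filter, ← Finset.sum_filter]
    congr 1
    ext i
    simp [tl]
  rw [h1, h2, Fin.sum_univ_succ]

theorem form_ne {R : Type} [CommRing R] {N : ℕ} (c : Finset (Fin N)) (y : R) (hy : y ≠ 0) :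
    ((∑ i ∈ c, X i) + C y : MvPolynomial (Fin N) R) ≠ 0 := by
  intro h
  have h1 := congrArg (MvPolynomial.constantCoeff) h
  simp at h1
  exact hy h1

end LeadLX

open LeadLX MvPolynomial in
/-- The leading coefficient lemma. -/
theorem lead_lemma {R : Type} [CommRing R] [IsDomain R] [Algebra ℚ R] (N : ℕ)
    (c : Finset (Fin N)) (ω : Fin N → ℕ) (y : R) (hy : y ≠ 0) (E : ℕ)
    (hE : (c.filter (fun i => ω i = 0)).card ≤ E) (Q : MvPolynomial (Fin N) R)
    (hdiv : ((∑ i ∈ c, X i) + C y) ^ E ∣ Q) (b : Fin N →₀ ℕ) (hb : coeff b Q ≠ 0)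
    (hlow : ∀ b' : Fin N →₀ ℕ, key (fun i => b' i + ω i) < key (fun i => b i + ω i) →
      coeff b' Q = 0) :
    (∀ i ∈ c, b i + ω i ≠ 0) ∧ y ^ (E - (c.filter (fun i => ω i = 0)).card) ∣ coeff b Q := by
  induction N generalizing E with
  | zero =>
    have hc : c = ∅ := Finset.eq_empty_of_isEmpty c
    subst hc
    refine ⟨fun i hi => absurd hi (Finset.notMem_empty i), ?_⟩
    simp only [Finset.sum_empty, zero_add, Finset.filter_empty, Finset.card_empty,
      Nat.sub_zero] at hdiv ⊢
    obtain ⟨M, rfl⟩ := hdiv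
    rw [← map_pow, coeff_C_mul]
    exact dvd_mul_right _ _
  | succ N ih =>
    -- the slices
    set Qh : Polynomial (MvPolynomial (Fin N) R) := finSuccEquiv R N Q with hQh
    have hbc : b = Finsupp.cons (b 0) b.tail := (Finsupp.cons_tail b).symm
    have hcb : coeff b Q = coeff b.tail (Qh.coeff (b 0)) := by
      rw [hQh, finSuccEquiv_coeff_coeff, ← hbc]
    have hdiv' : ((if (0 : Fin (N + 1)) ∈ c then Polynomial.X else 0) +
        Polynomial.C ((∑ i ∈ tl c, X i) + C y : MvPolynomial (Fin N) R)) ^ E ∣ Qh := by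
      have h1 := map_dvd (finSuccEquiv R N) hdiv
      rwa [map_pow, form_split] at h1
    have htail : ∀ b'' : Fin N →₀ ℕ,
        key (fun i => b'' i + ω i.succ) < key (fun i => b.tail i + ω i.succ) →
        coeff b'' (Qh.coeff (b 0)) = 0 := by
      intro b'' hk
      rw [hQh, finSuccEquiv_coeff_coeff]
      apply hlow
      apply key_lt_tail
      · simp
      · simpa [Finsupp.tail_apply] using hk
    have hhead : ∀ t, rk0 (t + ω 0) < rk0 (b 0 + ω 0) → Qh.coeff t = 0 := by
      intro t ht
      ext b''
      rw [hQh, finSuccEquiv_coeff_coeff, coeff_zero]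
      apply hlow
      apply key_lt_head
      simpa using ht
    have hx := form_ne (tl c) y hy
    have hcard := card_split c ω
    have hb' : coeff b.tail (Qh.coeff (b 0)) ≠ 0 := by
      rw [← hcb]
      exact hb
    -- the last step
    have fin : ∀ E', ((tl c).filter (fun i => ω i.succ = 0)).card ≤ E' →
        ((∑ i ∈ tl c, X i) + C y : MvPolynomial (Fin N) R) ^ E' ∣ Qh.coeff (b 0) →
        ((0 : Fin (N + 1)) ∈ c → b 0 + ω 0 ≠ 0) →
        E' - ((tl c).filter (fun i => ω i.succ = 0)).card =
          E - (c.filter (fun i => ω i = 0)).card →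
        (∀ i ∈ c, b i + ω i ≠ 0) ∧
          y ^ (E - (c.filter (fun i => ω i = 0)).card) ∣ coeff b Q := by
      intro E' hE' hd h0 hEE
      have h1 := ih (tl c) (fun i => ω i.succ) E' hE' (Qh.coeff (b 0)) hd b.tail hb' htail
      refine ⟨?_, ?_⟩
      · intro i
        refine Fin.cases ?_ (fun j => ?_) i
        · exact h0
        · intro hj
          have h2 := h1.1 j (by simp [tl, hj])
          simpa [Finsupp.tail_apply] using h2
      · rw [← hEE, hcb]
        exact h1.2
    by_cases h0 : (0 : Fin (N + 1)) ∈ c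
    · rw [if_pos h0] at hdiv'
      by_cases hω : ω 0 = 0
      · rw [if_pos ⟨h0, hω⟩] at hcard
        -- the first degree is not zero
        have hb0 : b 0 ≠ 0 := by
          intro hb0
          have h1 : ∀ t, t ≠ 0 → Qh.coeff t = 0 := by
            intro t ht
            apply hhead
            rw [hω, hb0]
            simpa using rk0_lt_zero ht
          have h2 : Qh = Polynomial.C (Qh.coeff 0) := by
            ext1 t
            by_cases ht : t = 0
            · subst ht
              simp
            · rw [h1 t ht, Polynomial.coeff_C, if_neg ht]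
          have h3 : (Polynomial.X + Polynomial.C ((∑ i ∈ tl c, X i) + C y :
              MvPolynomial (Fin N) R)) ∣ Qh :=
            dvd_trans (dvd_pow_self _ (by omega)) hdiv'
          obtain ⟨M, hM⟩ := h3
          have h4 := congrArg (Polynomial.eval (-((∑ i ∈ tl c, X i) + C y :
              MvPolynomial (Fin N) R))) hM
          rw [Polynomial.eval_mul, Polynomial.eval_add, Polynomial.eval_X, Polynomial.eval_C,
            neg_add_cancel, zero_mul, h2, Polynomial.eval_C] at h4
          apply hb'
          rw [hb0, h4, coeff_zero]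
        apply fin (E - 1) (by omega)
        · apply one_var _ hx E Qh hdiv' (b 0) (by omega)
          intro t ht1 ht2
          apply hhead
          rw [hω]
          exact rk0_lt_of (by omega) (by omega)
        · intro _
          omega
        · omega
      · rw [if_neg (fun h => hω h.2)] at hcard
        apply fin E (by omega)
        · apply one_var' _ hx E Qh hdiv' (b 0)
          intro t ht
          apply hhead
          exact rk0_lt_of (by omega) (by omega)
        · intro _
          omega
        · omega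
    · rw [if_neg h0, zero_add, ← map_pow] at hdiv'
      rw [if_neg (fun h => h0 h.1)] at hcard
      apply fin E (by omega)
      · exact (Polynomial.C_dvd_iff_dvd_coeff _ _).1 hdiv' (b 0)
      · intro h
        exact absurd h h0
      · omega

end Pool.Agent.H21.HD
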