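import Pool.Agent.H21.HD.Defs3
import Pool.Agent.H21.HD.LeadL
import Pool.Agent.H21.HD.BlockA

/-!
The leading structure.
-/

namespace Pool.Agent.H21.HD

open MvPolynomial
open scoped Classical

set_option linter.unusedSectionVars false

variable {N : ℕ} {A Λ : Type} [Fintype A] [Fintype Λ]

namespace LeadSX

/-- The spectator variables. -/
def IsSpec (c : Finset (Fin N)) (ref : Fin N → A) (lam : Λ) : Sg N A Λ → Prop :=
  Sum.elim (fun x => ¬ (x.1 ∈ c ∧ x.2 = ref x.1)) (fun l => l ≠ lam)

/-- The spectator part of an exponent vector. -/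
noncomputable def spec (c : Finset (Fin N)) (ref : Fin N → A) (lam : Λ) (γ : Sg N A Λ →₀ ℕ) :
    Sg N A Λ →₀ ℕ :=
  Finsupp.equivFunOnFinite.symm (fun s => if IsSpec c ref lam s then γ s else 0)

/-- The reference part. -/
noncomputable def refp (c : Finset (Fin N)) (ref : Fin N → A) (γ : Sg N A Λ →₀ ℕ) :
    Fin N →₀ ℕ :=
  Finsupp.equivFunOnFinite.symm (fun i => if i ∈ c then γ (Sum.inl (i, ref i)) else 0)

theorem spec_apply (c : Finset (Fin N)) (ref : Fin N → A) (lam : Λ) (γ : Sg N A Λ →₀ ℕ)
    (s : Sg N A Λ) : spec c ref lam γ s = if IsSpec c ref lam s then γ s else 0 := rfl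

theorem refp_apply (c : Finset (Fin N)) (ref : Fin N → A) (γ : Sg N A Λ →₀ ℕ)
    (i : Fin N) : refp c ref γ i = if i ∈ c then γ (Sum.inl (i, ref i)) else 0 := rfl

theorem spec_add (c : Finset (Fin N)) (ref : Fin N → A) (lam : Λ) (γ δ : Sg N A Λ →₀ ℕ) :
    spec c ref lam (γ + δ) = spec c ref lam γ + spec c ref lam δ := by
  ext s
  rw [Finsupp.add_apply, spec_apply, spec_apply, spec_apply, Finsupp.add_apply]
  split_ifs <;> simp

theorem refp_add (c : Finset (Fin N)) (ref : Fin N → A) (γ δ : Sg N A Λ →₀ ℕ) :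
    refp c ref (γ + δ) = refp c ref γ + refp c ref δ := by
  ext s
  rw [Finsupp.add_apply, refp_apply, refp_apply, refp_apply, Finsupp.add_apply]
  split_ifs <;> simp

theorem spec_zero (c : Finset (Fin N)) (ref : Fin N → A) (lam : Λ) :
    spec c ref lam (0 : Sg N A Λ →₀ ℕ) = 0 := by
  ext s
  rw [spec_apply]
  simp

theorem refp_zero (c : Finset (Fin N)) (ref : Fin N → A) :
    refp c ref (0 : Sg N A Λ →₀ ℕ) = 0 := by
  ext s
  rw [refp_apply]
  simp

/-- The image of a monomial. -/
noncomputable def TT (c : Finset (Fin N)) (ref : Fin N → A) (lam : Λ) (δ : Sg N A Λ →₀ ℕ) (r : ℂ) :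
    MvPolynomial (Sg N A Λ) (MvPolynomial (Fin N) (Polynomial ℂ)) :=
  monomial (spec c ref lam δ) (monomial (refp c ref δ)
    (Polynomial.monomial (δ (Sum.inr lam)) r))

theorem TT_mul (c : Finset (Fin N)) (ref : Fin N → A) (lam : Λ) (γ δ : Sg N A Λ →₀ ℕ) (r s : ℂ) :
    TT c ref lam γ r * TT c ref lam δ s = TT c ref lam (γ + δ) (r * s) := by
  unfold TT
  rw [monomial_mul, monomial_mul, Polynomial.monomial_mul_monomial, spec_add, refp_add,
    Finsupp.add_apply]

theorem TT_zero (c : Finset (Fin N)) (ref : Fin N → A) (lam : Λ) (r : ℂ) :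
    TT c ref lam (0 : Sg N A Λ →₀ ℕ) r = C (C (Polynomial.C r)) := by
  unfold TT
  rw [spec_zero, refp_zero, Finsupp.zero_apply, Polynomial.monomial_zero_left]
  rfl

/-- The separation of the variables. -/
noncomputable def Psi (c : Finset (Fin N)) (ref : Fin N → A) (lam : Λ) :
    MvPolynomial (Sg N A Λ) ℂ →+*
      MvPolynomial (Sg N A Λ) (MvPolynomial (Fin N) (Polynomial ℂ)) :=
  eval₂Hom ((C.comp C).comp Polynomial.C)
    (Sum.elim (fun x => if x.1 ∈ c ∧ x.2 = ref x.1 then C (X x.1) else X (Sum.inl x))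
      (fun l => if l = lam then C (C Polynomial.X) else X (Sum.inr l)))

theorem Psi_C (c : Finset (Fin N)) (ref : Fin N → A) (lam : Λ) (r : ℂ) :
    Psi c ref lam (C r) = C (C (Polynomial.C r)) := by
  unfold Psi
  rw [coe_eval₂Hom, eval₂_C]
  rfl

theorem Psi_X (c : Finset (Fin N)) (ref : Fin N → A) (lam : Λ) (s : Sg N A Λ) :
    Psi c ref lam (X s) = Sum.elim
      (fun x => if x.1 ∈ c ∧ x.2 = ref x.1 then C (X x.1) else X (Sum.inl x))
      (fun l => if l = lam then C (C Polynomial.X) else X (Sum.inr l)) s := by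
  unfold Psi
  rw [coe_eval₂Hom, eval₂_X]

theorem Psi_X' (c : Finset (Fin N)) (ref : Fin N → A) (lam : Λ) (s : Sg N A Λ) :
    Psi c ref lam (X s) = TT c ref lam (Finsupp.single s 1) 1 := by
  rw [Psi_X]
  unfold TT
  rcases s with ⟨i, x⟩ | l
  · simp only [Sum.elim_inl]
    have h0 : (Finsupp.single (Sum.inl (i, x)) 1 : Sg N A Λ →₀ ℕ) (Sum.inr lam) = 0 := by
      rw [Finsupp.single_apply, if_neg]
      intro h; cases h
    rw [h0]
    split_ifs with h
    · obtain ⟨hi, rfl⟩ := h
      have h1 : spec c ref lam (Finsupp.single (Sum.inl (i, ref i)) 1) = 0 := by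
        ext s
        rw [spec_apply]
        split_ifs with hs
        · rw [Finsupp.single_apply, if_neg, Finsupp.zero_apply]
          intro h
          subst h
          exact hs ⟨hi, rfl⟩
        · rfl
      have h2 : refp c ref (Finsupp.single (Sum.inl (i, ref i) : Sg N A Λ) 1)
          = Finsupp.single i 1 := by
        ext j
        rw [refp_apply]
        by_cases hj : j = i
        · subst hj
          rw [if_pos hi]
          simp
        · have e1 : (Finsupp.single i 1 : Fin N →₀ ℕ) j = 0 := by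
            rw [Finsupp.single_apply, if_neg (fun h => hj h.symm)]
          have e2 : (Finsupp.single (Sum.inl (i, ref i)) 1 : Sg N A Λ →₀ ℕ)
              (Sum.inl (j, ref j)) = 0 := by
            rw [Finsupp.single_apply, if_neg]
            intro h
            apply hj
            exact (Prod.mk.inj (Sum.inl.inj h)).1.symm
          rw [e1, e2, ite_self]
      rw [h1, h2]
      rfl
    · have h1 : spec c ref lam (Finsupp.single (Sum.inl (i, x)) 1)
          = Finsupp.single (Sum.inl (i, x)) 1 := by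
        ext s
        rw [spec_apply]
        split_ifs with hs
        · rfl
        · rw [Finsupp.single_apply, if_neg]
          intro h'
          subst h'
          exact hs h
      have h2 : refp c ref (Finsupp.single (Sum.inl (i, x) : Sg N A Λ) 1) = 0 := by
        ext j
        rw [refp_apply]
        split_ifs with hj
        · rw [Finsupp.single_apply, if_neg, Finsupp.zero_apply]
          intro h'
          have := Prod.mk.inj (Sum.inl.inj h')
          obtain ⟨rfl, rfl⟩ := this
          exact h ⟨hj, rfl⟩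
        · rfl
      rw [h1, h2]
      rfl
  · simp only [Sum.elim_inr]
    have h2 : refp c ref (Finsupp.single (Sum.inr l : Sg N A Λ) 1) = 0 := by
      ext j
      rw [refp_apply]
      split_ifs with hj
      · rw [Finsupp.single_apply, if_neg, Finsupp.zero_apply]
        intro h'
        cases h'
      · rfl
    rw [h2]
    split_ifs with h
    · subst h
      have h1 : spec c ref l (Finsupp.single (Sum.inr l) 1) = 0 := by
        ext s
        rw [spec_apply]
        split_ifs with hs
        · rw [Finsupp.single_apply, if_neg, Finsupp.zero_apply]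
          intro h
          subst h
          exact hs rfl
        · rfl
      rw [h1, Finsupp.single_eq_same]
      rfl
    · have h1 : spec c ref lam (Finsupp.single (Sum.inr l) 1) = Finsupp.single (Sum.inr l) 1 := by
        ext s
        rw [spec_apply]
        split_ifs with hs
        · rfl
        · rw [Finsupp.single_apply, if_neg]
          intro h'
          subst h'
          exact hs h
      have h3 : (Finsupp.single (Sum.inr l) 1 : Sg N A Λ →₀ ℕ) (Sum.inr lam) = 0 := by
        rw [Finsupp.single_apply, if_neg]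
        intro h'
        exact h (Sum.inr.inj h')
      rw [h1, h3]
      rfl

theorem Psi_monomial (c : Finset (Fin N)) (ref : Fin N → A) (lam : Λ) (δ : Sg N A Λ →₀ ℕ) (r : ℂ) :
    Psi c ref lam (monomial δ r) = TT c ref lam δ r := by
  have key1 : ∀ δ : Sg N A Λ →₀ ℕ, Psi c ref lam (monomial δ 1) = TT c ref lam δ 1 := by
    intro δ
    induction δ using Finsupp.induction_linear with
    | zero =>
      rw [TT_zero]
      have h : (monomial (0 : Sg N A Λ →₀ ℕ) (1 : ℂ)) = C 1 := rfl
      rw [h, Psi_C]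
    | add f g hf hg =>
      have h : (monomial (f + g) (1 : ℂ) : MvPolynomial (Sg N A Λ) ℂ)
          = monomial f 1 * monomial g 1 := by
        rw [monomial_mul, one_mul]
      rw [h, map_mul, hf, hg, TT_mul, one_mul]
    | single s n =>
      induction n with
      | zero =>
        rw [Finsupp.single_zero, TT_zero]
        have h : (monomial (0 : Sg N A Λ →₀ ℕ) (1 : ℂ)) = C 1 := rfl
        rw [h, Psi_C]
      | succ n ih =>
        have h : (monomial (Finsupp.single s (n + 1)) (1 : ℂ) : MvPolynomial (Sg N A Λ) ℂ)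
            = monomial (Finsupp.single s n) 1 * MvPolynomial.X s := by
          rw [MvPolynomial.X, monomial_mul, one_mul, Finsupp.single_add]
        rw [h, map_mul, ih, Psi_X', TT_mul, one_mul, Finsupp.single_add]
  have h : (monomial δ r : MvPolynomial (Sg N A Λ) ℂ) = C r * monomial δ 1 := by
    rw [C_mul_monomial, mul_one]
  rw [h, map_mul, key1, Psi_C, ← TT_zero c ref lam, TT_mul, zero_add, mul_one]

theorem sep_inj (c : Finset (Fin N)) (ref : Fin N → A) (lam : Λ) (γ δ : Sg N A Λ →₀ ℕ)
    (h1 : spec c ref lam γ = spec c ref lam δ) (h2 : refp c ref γ = refp c ref δ)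
    (h3 : γ (Sum.inr lam) = δ (Sum.inr lam)) : γ = δ := by
  ext s
  by_cases hs : IsSpec c ref lam s
  · have h := DFunLike.congr_fun h1 s
    rwa [spec_apply, spec_apply, if_pos hs, if_pos hs] at h
  · rcases s with ⟨i, x⟩ | l
    · have h : i ∈ c ∧ x = ref i := by
        by_contra h
        exact hs h
      obtain ⟨hi, rfl⟩ := h
      have h := DFunLike.congr_fun h2 i
      rwa [refp_apply, refp_apply, if_pos hi, if_pos hi] at h
    · have h : l = lam := by
        by_contra h
        exact hs h
      rw [h, h3]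

theorem coeff_Psi (c : Finset (Fin N)) (ref : Fin N → A) (lam : Λ)
    (F : MvPolynomial (Sg N A Λ) ℂ) (γ : Sg N A Λ →₀ ℕ) :
    (coeff (refp c ref γ) (coeff (spec c ref lam γ) (Psi c ref lam F))).coeff (γ (Sum.inr lam))
      = coeff γ F := by
  induction F using MvPolynomial.induction_on' with
  | monomial δ r =>
    rw [Psi_monomial, TT, coeff_monomial]
    by_cases h : δ = γ
    · subst h
      rw [if_pos rfl, coeff_monomial, if_pos rfl, Polynomial.coeff_monomial, if_pos rfl,
        coeff_monomial, if_pos rfl]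
    · rw [coeff_monomial, if_neg h]
      split_ifs with h1
      · rw [coeff_monomial]
        split_ifs with h2
        · rw [Polynomial.coeff_monomial]
          split_ifs with h3
          · exact absurd (sep_inj c ref lam δ γ h1 h2 h3) h
          · rfl
        · rfl
      · rw [coeff_zero]; rfl
  | add p q hp hq =>
    rw [map_add, coeff_add, coeff_add, Polynomial.coeff_add, hp, hq, coeff_add]

theorem coeff_Psi_zero (c : Finset (Fin N)) (ref : Fin N → A) (lam : Λ)
    (F : MvPolynomial (Sg N A Λ) ℂ) (σ : Sg N A Λ →₀ ℕ) (b : Fin N →₀ ℕ)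
    (i : Fin N) (hi : i ∉ c) (hb : b i ≠ 0) :
    coeff b (coeff σ (Psi c ref lam F)) = 0 := by
  induction F using MvPolynomial.induction_on' with
  | monomial δ r =>
    rw [Psi_monomial, TT, coeff_monomial]
    split_ifs with h1
    · rw [coeff_monomial, if_neg]
      intro h
      apply hb
      rw [← h, refp_apply, if_neg hi]
    · rfl
  | add p q hp hq =>
    rw [map_add, coeff_add, coeff_add, hp, hq, add_zero]

/-- The exponent vector with given parts. -/
noncomputable def mk (c : Finset (Fin N)) (ref : Fin N → A) (lam : Λ)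
    (σ : Sg N A Λ →₀ ℕ) (b : Fin N →₀ ℕ) (j : ℕ) : Sg N A Λ →₀ ℕ :=
  Finsupp.equivFunOnFinite.symm (Sum.elim
    (fun x => if x.1 ∈ c ∧ x.2 = ref x.1 then b x.1 else σ (Sum.inl x))
    (fun l => if l = lam then j else σ (Sum.inr l)))

theorem mk_inl (c : Finset (Fin N)) (ref : Fin N → A) (lam : Λ)
    (σ : Sg N A Λ →₀ ℕ) (b : Fin N →₀ ℕ) (j : ℕ) (x : Fin N × A) :
    mk c ref lam σ b j (Sum.inl x) = if x.1 ∈ c ∧ x.2 = ref x.1 then b x.1 else σ (Sum.inl x) :=
  rfl

theorem mk_inr (c : Finset (Fin N)) (ref : Fin N → A) (lam : Λ)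
    (σ : Sg N A Λ →₀ ℕ) (b : Fin N →₀ ℕ) (j : ℕ) (l : Λ) :
    mk c ref lam σ b j (Sum.inr l) = if l = lam then j else σ (Sum.inr l) :=
  rfl

theorem spec_mk (c : Finset (Fin N)) (ref : Fin N → A) (lam : Λ)
    (γ : Sg N A Λ →₀ ℕ) (b : Fin N →₀ ℕ) (j : ℕ) :
    spec c ref lam (mk c ref lam (spec c ref lam γ) b j) = spec c ref lam γ := by
  ext s
  rw [spec_apply]
  rcases s with ⟨i, x⟩ | l
  · rw [mk_inl]
    by_cases h : i ∈ c ∧ x = ref i
    · rw [if_pos h, if_neg (show ¬ IsSpec c ref lam (Sum.inl (i, x)) from fun h' => h' h),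
        spec_apply, if_neg (show ¬ IsSpec c ref lam (Sum.inl (i, x)) from fun h' => h' h)]
    · rw [if_neg h, if_pos (show IsSpec c ref lam (Sum.inl (i, x)) from h)]
  · rw [mk_inr]
    by_cases h : l = lam
    · rw [if_pos h, if_neg (show ¬ IsSpec c ref lam (Sum.inr l) from fun h' => h' h),
        spec_apply, if_neg (show ¬ IsSpec c ref lam (Sum.inr l) from fun h' => h' h)]
    · rw [if_neg h, if_pos (show IsSpec c ref lam (Sum.inr l) from h)]

theorem refp_mk (c : Finset (Fin N)) (ref : Fin N → A) (lam : Λ)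
    (σ : Sg N A Λ →₀ ℕ) (b : Fin N →₀ ℕ) (j : ℕ) (hb : ∀ i, i ∉ c → b i = 0) :
    refp c ref (mk c ref lam σ b j) = b := by
  ext i
  rw [refp_apply]
  by_cases hi : i ∈ c
  · rw [if_pos hi, mk_inl, if_pos ⟨hi, rfl⟩]
  · rw [if_neg hi, hb i hi]

/-- The degree of the spectators in a block. -/
noncomputable def om (c : Finset (Fin N)) (ref : Fin N → A) (lam : Λ) (γ : Sg N A Λ →₀ ℕ)
    (i : Fin N) : ℕ := ∑ a, spec c ref lam γ (Sum.inl (i, a))

theorem bdeg_mk (c : Finset (Fin N)) (ref : Fin N → A) (lam : Λ)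
    (γ : Sg N A Λ →₀ ℕ) (b : Fin N →₀ ℕ) (j : ℕ) (hb : ∀ i, i ∉ c → b i = 0) (i : Fin N) :
    bdeg (mk c ref lam (spec c ref lam γ) b j) i = b i + om c ref lam γ i := by
  unfold bdeg om
  by_cases hi : i ∈ c
  · rw [← Finset.add_sum_erase _ _ (Finset.mem_univ (ref i)),
      ← Finset.add_sum_erase _ (fun a => spec c ref lam γ (Sum.inl (i, a)))
        (Finset.mem_univ (ref i)), mk_inl, if_pos ⟨hi, rfl⟩, spec_apply,
      if_neg (show ¬ IsSpec c ref lam (Sum.inl (i, ref i)) from fun h' => h' ⟨hi, rfl⟩), zero_add]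
    congr 1
    apply Finset.sum_congr rfl
    intro a ha
    rw [mk_inl, if_neg]
    intro h
    exact Finset.ne_of_mem_erase ha h.2
  · rw [hb i hi, zero_add]
    apply Finset.sum_congr rfl
    intro a _
    rw [mk_inl, if_neg]
    intro h
    exact hi h.1

theorem mk_self (c : Finset (Fin N)) (ref : Fin N → A) (lam : Λ)
    (γ : Sg N A Λ →₀ ℕ) :
    mk c ref lam (spec c ref lam γ) (refp c ref γ) (γ (Sum.inr lam)) = γ := by
  have hb : ∀ i, i ∉ c → refp c ref γ i = 0 := by
    intro i hi
    rw [refp_apply, if_neg hi]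
  apply sep_inj c ref lam
  · exact spec_mk c ref lam γ _ _
  · exact refp_mk c ref lam _ _ _ hb
  · rw [mk_inr, if_pos rfl]

theorem bdeg_eq (c : Finset (Fin N)) (ref : Fin N → A) (lam : Λ)
    (γ : Sg N A Λ →₀ ℕ) (i : Fin N) :
    bdeg γ i = refp c ref γ i + om c ref lam γ i := by
  have hb : ∀ i, i ∉ c → refp c ref γ i = 0 := by
    intro i hi
    rw [refp_apply, if_neg hi]
  have h := bdeg_mk c ref lam γ (refp c ref γ) (γ (Sum.inr lam)) hb i
  rwa [mk_self] at h

theorem om_zero_card (c : Finset (Fin N)) (ref : Fin N → A) (lam : Λ)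
    (γ : Sg N A Λ →₀ ℕ) :
    (c.filter (fun i => om c ref lam γ i = 0)).card = pureCount c ref γ := by
  unfold pureCount
  congr 1
  apply Finset.filter_congr
  intro i hi
  unfold om
  rw [Finset.sum_eq_zero_iff]
  constructor
  · intro h a ha
    have := h a (Finset.mem_univ a)
    rwa [spec_apply, if_pos] at this
    intro h'
    exact ha h'.2
  · intro h a _
    rw [spec_apply]
    split_ifs with h1
    · apply h
      intro h2
      exact h1 ⟨hi, h2⟩
    · rfl

theorem lin_vec (c : Finset (Fin N)) (ref : Fin N → A) (v : Fin N → A → ℂ) (lam : Λ) :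
    lin (vec c v (Pi.single lam 1)) =
      sbt c ref v (∑ i ∈ c, X (Sum.inl (i, ref i)) + X (Sum.inr lam)) := by
  unfold lin
  rw [map_add, map_sum, BlockAX.sbt_X_inr, Fintype.sum_sum_type]
  congr 1
  · rw [Fintype.sum_prod_type, ← Finset.sum_subset (Finset.subset_univ c)]
    · apply Finset.sum_congr rfl
      intro i hi
      rw [BlockAX.sbt_X_inl_of c ref v i hi]
      apply Finset.sum_congr rfl
      intro a _
      simp only [vec, Sum.elim_inl, if_pos hi]
    · intro i _ hi
      apply Finset.sum_eq_zero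
      intro a _
      simp only [vec, Sum.elim_inl, if_neg hi, C_0, zero_mul]
  · rw [Finset.sum_eq_single lam]
    · simp only [vec, Sum.elim_inr, Pi.single_eq_same, C_1, one_mul]
    · intro l _ hl
      simp only [vec, Sum.elim_inr, Pi.single_eq_of_ne hl, C_0, zero_mul]
    · intro h
      exact absurd (Finset.mem_univ _) h

theorem Psi_L (c : Finset (Fin N)) (ref : Fin N → A) (lam : Λ) :
    Psi c ref lam (∑ i ∈ c, X (Sum.inl (i, ref i)) + X (Sum.inr lam)) =
      C ((∑ i ∈ c, X i) + C Polynomial.X) := by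
  rw [map_add, map_sum, map_add, map_sum, Psi_X, Sum.elim_inr, if_pos rfl]
  congr 1
  apply Finset.sum_congr rfl
  intro i hi
  rw [Psi_X, Sum.elim_inl, if_pos ⟨hi, rfl⟩]

end LeadSX

open LeadSX

/-- The leading structure of a multiple of the power of the linear form of a point. -/
theorem lead_struct (c : Finset (Fin N)) (ref : Fin N → A) (v : Fin N → A → ℂ)
    (hv : ∀ i ∈ c, v i (ref i) ≠ 0) (lam : Λ) (g : MvPolynomial (Sg N A Λ) ℂ) (a : Fin N → ℕ)
    (hlow : ∀ γ, key (bdeg γ) < key a →
      coeff γ (g * lin (vec c v (Pi.single lam 1)) ^ c.card) = 0) :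
    ∃ ft : MvPolynomial (Sg N A Λ) ℂ,
      sbt c ref v ft = g * lin (vec c v (Pi.single lam 1)) ^ c.card ∧
      ∀ γ, bdeg γ = a → coeff γ ft ≠ 0 →
        (∀ i ∈ c, a i ≠ 0) ∧ c.card ≤ γ (Sum.inr lam) + pureCount c ref γ := by
  set f := g * lin (vec c v (Pi.single lam 1)) ^ c.card with hf
  set ft := BlockAX.theta c ref v f with hft
  have hsbt : sbt c ref v ft = f := BlockAX.sbt_theta c ref v hv f
  refine ⟨ft, hsbt, ?_⟩
  have hft2 : ft = BlockAX.theta c ref v g *
      (∑ i ∈ c, X (Sum.inl (i, ref i)) + X (Sum.inr lam)) ^ c.card := by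
    rw [hft, hf, map_mul, map_pow, lin_vec c ref v lam, BlockAX.theta_sbt c ref v hv]
  -- low coefficients of `ft`
  have hlow' : ∀ γ, key (bdeg γ) < key a → coeff γ ft = 0 := by
    intro γ hγ
    have h1 : comp (bdeg γ) (fun l => γ (Sum.inr l)) f = 0 := by
      ext δ
      rw [coeff_comp, coeff_zero]
      split_ifs with h
      · apply hlow
        rw [h.1]
        exact hγ
      · rfl
    rw [← hsbt, comp_sbt] at h1
    have h2 : comp (bdeg γ) (fun l => γ (Sum.inr l)) ft = 0 := by
      apply sbt_injective c ref v hv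
      rw [h1, map_zero]
    have h3 := coeff_comp (bdeg γ) (fun l => γ (Sum.inr l)) ft γ
    rw [h2, coeff_zero, if_pos ⟨rfl, rfl⟩] at h3
    exact h3.symm
  intro γ hγa hγ
  set Q : MvPolynomial (Fin N) (Polynomial ℂ) :=
    coeff (spec c ref lam γ) (Psi c ref lam ft) with hQ
  have hdiv : ((∑ i ∈ c, X i) + C Polynomial.X) ^ c.card ∣ Q := by
    rw [hQ, hft2, map_mul, map_pow, Psi_L, ← map_pow, mul_comm, coeff_C_mul]
    exact dvd_mul_right _ _
  have hb : coeff (refp c ref γ) Q ≠ 0 := by
    intro h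
    apply hγ
    rw [← coeff_Psi c ref lam ft γ, ← hQ, h, Polynomial.coeff_zero]
  have hkey : (fun i => refp c ref γ i + om c ref lam γ i) = a := by
    rw [← hγa]
    funext i
    rw [bdeg_eq c ref lam γ i]
  obtain ⟨h1, h2⟩ := lead_lemma (R := Polynomial ℂ) N c (om c ref lam γ) Polynomial.X
    Polynomial.X_ne_zero c.card (Finset.card_filter_le _ _) Q hdiv (refp c ref γ) hb (by
      intro b' hb'
      rw [hkey] at hb'
      by_cases hsupp : ∀ i, i ∉ c → b' i = 0
      · ext j
        rw [Polynomial.coeff_zero]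
        have h3 := coeff_Psi c ref lam ft (mk c ref lam (spec c ref lam γ) b' j)
        rw [spec_mk, refp_mk _ _ _ _ _ _ hsupp, mk_inr, if_pos rfl] at h3
        rw [hQ, h3]
        apply hlow'
        have h4 : bdeg (mk c ref lam (spec c ref lam γ) b' j)
            = fun i => b' i + om c ref lam γ i := by
          funext i
          exact bdeg_mk c ref lam γ b' j hsupp i
        rw [h4]
        exact hb'
      · push Not at hsupp
        obtain ⟨i, hi, hbi⟩ := hsupp
        exact coeff_Psi_zero c ref lam ft _ b' i hi hbi)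
  refine ⟨?_, ?_⟩
  · intro i hi
    have := h1 i hi
    rwa [congrFun hkey i] at this
  · rw [om_zero_card] at h2
    by_contra hlt
    push Not at hlt
    apply hγ
    rw [← coeff_Psi c ref lam ft γ, ← hQ]
    obtain ⟨q, hq⟩ := h2
    rw [hq, Polynomial.coeff_X_pow_mul']
    rw [if_neg]
    omega

end Pool.Agent.H21.HD
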