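import Pool.Agent.H21.HD.Defs3
import Pool.Agent.H21.HD.LeadS

/-!
From columns to PhiInj.
-/

namespace Pool.Agent.H21.HD

open MvPolynomial
open scoped Classical

variable {N : ℕ} {A Λ P : Type} [Fintype A] [Fintype Λ] [Fintype P]

private theorem PhiColX_coeff_lin {σ : Type} [Fintype σ] (v : σ → ℂ) (γ : σ →₀ ℕ)
    (h : coeff γ (lin v) ≠ 0) : ∃ s, v s ≠ 0 ∧ γ = Finsupp.single s 1 := by
  unfold lin at h
  rw [coeff_sum] at h
  obtain ⟨s, -, hs⟩ := Finset.exists_ne_zero_of_sum_ne_zero h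
  rw [coeff_C_mul, coeff_X] at hs
  refine ⟨s, left_ne_zero_of_mul hs, ?_⟩
  by_contra hne
  apply right_ne_zero_of_mul hs
  rw [if_neg (fun h' => hne h'.symm)]

private theorem PhiColX_lin_single {σ : Type} [Fintype σ] (v : σ → ℂ) (s : σ) :
    coeff (Finsupp.single s 1) (lin v) = v s := by
  unfold lin
  rw [coeff_sum, Finset.sum_eq_single s]
  · rw [coeff_C_mul, coeff_X, if_pos rfl, mul_one]
  · intro t _ hts
    rw [coeff_C_mul, coeff_X, if_neg, mul_zero]
    intro h'
    exact hts ((Finsupp.single_left_injective one_ne_zero) h')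
  · intro h'
    exact absurd (Finset.mem_univ s) h'

private theorem PhiColX_lin_hom {σ : Type} [Fintype σ] (v : σ → ℂ) :
    (lin v).IsHomogeneous 1 := by
  unfold lin
  apply IsHomogeneous.sum
  intro s _
  have := (isHomogeneous_C σ (v s)).mul (isHomogeneous_X ℂ s)
  rwa [zero_add] at this

private theorem PhiColX_pow_supp {σ : Type} [Fintype σ] (v : σ → ℂ) (e : ℕ) (γ : σ →₀ ℕ)
    (h : coeff γ (lin v ^ e) ≠ 0) (s : σ) (hs : γ s ≠ 0) : v s ≠ 0 := by
  induction e generalizing γ with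
  | zero =>
    rw [pow_zero, coeff_one] at h
    have : (0 : σ →₀ ℕ) = γ := by
      by_contra hne
      exact h (if_neg hne)
    rw [← this] at hs
    exact absurd rfl hs
  | succ n ih =>
    rw [pow_succ, coeff_mul] at h
    obtain ⟨x, hx, hxn⟩ := Finset.exists_ne_zero_of_sum_ne_zero h
    replace hx := Finset.HasAntidiagonal.mem_antidiagonal.1 hx
    have h1 := left_ne_zero_of_mul hxn
    have h2 := right_ne_zero_of_mul hxn
    obtain ⟨t, ht, hxt⟩ := PhiColX_coeff_lin v x.2 h2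
    by_cases hst : x.1 s ≠ 0
    · exact ih x.1 h1 hst
    · push Not at hst
      rw [← hx, Finsupp.add_apply, hst, zero_add, hxt] at hs
      have : t = s := by
        by_contra hne
        exact hs (Finsupp.single_eq_of_ne (fun h' => hne h'.symm))
      rw [← this]
      exact ht

private theorem PhiColX_bdeg_degree (γ : Sg N A Λ →₀ ℕ) :
    ∑ i, bdeg γ i + ∑ l, γ (Sum.inr l) = γ.degree := by
  unfold bdeg
  rw [Finsupp.degree_eq_sum, Fintype.sum_sum_type, Fintype.sum_prod_type]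

omit [Fintype Λ] in
private theorem PhiColX_bsupp (γ : Sg N A Λ →₀ ℕ) (i : Fin N) :
    i ∈ bsupp γ ↔ ∃ a, γ (Sum.inl (i, a)) ≠ 0 := by
  unfold bsupp bdeg
  rw [Finset.mem_filter]
  simp only [Finset.mem_univ, true_and]
  constructor
  · intro h
    by_contra hcon
    push Not at hcon
    exact h (Finset.sum_eq_zero fun a _ => hcon a)
  · rintro ⟨a, ha⟩ h
    rw [Finset.sum_eq_zero_iff] at h
    exact ha (h a (Finset.mem_univ a))

/-- `PhiInj` from the injectivity in all columns, for points with distinct labels; here all the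
sets `c p` are contained in `J`. -/
theorem phiInj_of_col (d : ℕ) (J : Finset (Fin N)) (c : P → Finset (Fin N)) (hc : ∀ p, c p ⊆ J)
    (hcd : ∀ p, (c p).card ≤ d) (lab : P → Λ) (v : P → Fin N → A → ℂ)
    (hv : ∀ p i a, v p i a ≠ 0)
    (h : ∀ (a : Fin N → ℕ) (μ : Λ → ℕ), Finset.univ.filter (fun i => a i ≠ 0) = J →
      ∑ i, a i + ∑ l, μ l = d → ∃ ref : P → Fin N → A, ColInj c lab ref a μ v) :
    PhiInj d J c v (fun p => Pi.single (lab p) 1) := by
  intro g hg hgJ hsum
  by_contra hcon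
  push Not at hcon
  obtain ⟨p₁, hp₁⟩ := hcon
  -- the products
  set L : P → MvPolynomial (Sg N A Λ) ℂ :=
    fun p => lin (vec (c p) (v p) (Pi.single (lab p) 1)) with hL
  set f : P → MvPolynomial (Sg N A Λ) ℂ := fun p => g p * L p ^ (c p).card with hf
  have hL0 : ∀ p, L p ≠ 0 := by
    intro p h0
    have h1 := PhiColX_lin_single (vec (c p) (v p) (Pi.single (lab p) 1)) (Sum.inr (lab p))
    have h2 : lin (vec (c p) (v p) (Pi.single (lab p) 1)) = 0 := h0
    rw [h2, coeff_zero] at h1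
    simp [vec] at h1
  have hf1 : f p₁ ≠ 0 := mul_ne_zero hp₁ (pow_ne_zero _ (hL0 p₁))
  -- the supports
  have hfhom : ∀ p, (f p).IsHomogeneous d := by
    intro p
    have h1 := (hg p).mul ((PhiColX_lin_hom
      (vec (c p) (v p) (Pi.single (lab p) 1))).pow (c p).card)
    rw [one_mul, Nat.sub_add_cancel (hcd p)] at h1
    exact h1
  -- minimal key
  obtain ⟨x₀, hx₀, hmin⟩ : ∃ x₀ : (p : P) × (Sg N A Λ →₀ ℕ),
      coeff x₀.2 (f x₀.1) ≠ 0 ∧ ∀ p γ, key (bdeg γ) < key (bdeg x₀.2) → coeff γ (f p) = 0 := by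
    let S : Finset ((p : P) × (Sg N A Λ →₀ ℕ)) := Finset.univ.sigma (fun p => (f p).support)
    have hS : S.Nonempty := by
      obtain ⟨γ, hγ⟩ := MvPolynomial.ne_zero_iff.1 hf1
      exact ⟨⟨p₁, γ⟩, by
        rw [Finset.mem_sigma]
        exact ⟨Finset.mem_univ _, MvPolynomial.mem_support_iff.2 hγ⟩⟩
    obtain ⟨x₀, hx₀, hmin⟩ := S.exists_min_image (fun x => key (bdeg x.2)) hS
    refine ⟨x₀, MvPolynomial.mem_support_iff.1 (Finset.mem_sigma.1 hx₀).2, ?_⟩
    intro p γ hlt
    by_contra hne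
    have h1 := hmin ⟨p, γ⟩ (by
      rw [Finset.mem_sigma]
      exact ⟨Finset.mem_univ _, MvPolynomial.mem_support_iff.2 hne⟩)
    exact absurd hlt (not_lt.2 h1)
  obtain ⟨p₀, γ₀⟩ := x₀
  simp only at hx₀ hmin
  set a : Fin N → ℕ := bdeg γ₀ with ha
  set μ : Λ → ℕ := fun l => γ₀ (Sum.inr l) with hμ
  -- decomposition of γ₀
  obtain ⟨γ₁, γ₂, hγ12, hγ1, hγ2⟩ : ∃ γ₁ γ₂, γ₁ + γ₂ = γ₀ ∧ coeff γ₁ (g p₀) ≠ 0 ∧
      coeff γ₂ (L p₀ ^ (c p₀).card) ≠ 0 := by
    have h1 := hx₀
    rw [hf] at h1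
    simp only at h1
    rw [coeff_mul] at h1
    obtain ⟨x, hx, hxn⟩ := Finset.exists_ne_zero_of_sum_ne_zero h1
    replace hx := Finset.HasAntidiagonal.mem_antidiagonal.1 hx
    exact ⟨x.1, x.2, hx, left_ne_zero_of_mul hxn, right_ne_zero_of_mul hxn⟩
  have hJ1 := hgJ p₀ γ₁ hγ1
  have hb2 : bsupp γ₂ ⊆ c p₀ := by
    intro i hi
    rw [PhiColX_bsupp] at hi
    obtain ⟨b, hb⟩ := hi
    have h1 := PhiColX_pow_supp _ _ γ₂ hγ2 (Sum.inl (i, b)) hb
    by_contra hic
    apply h1
    simp [vec, hic]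
  have hb0 : bsupp γ₀ = bsupp γ₁ ∪ bsupp γ₂ := by
    ext i
    rw [Finset.mem_union, PhiColX_bsupp, PhiColX_bsupp, PhiColX_bsupp, ← exists_or]
    apply exists_congr
    intro b
    rw [← hγ12, Finsupp.add_apply]
    omega
  have hdeg0 : γ₀.degree = d := by
    have h1 := hfhom p₀ hx₀
    rwa [Finsupp.degree_eq_weight_one]
  -- a first reference function
  obtain ⟨ref₀, -⟩ : ∃ ref : P → Fin N → A, ColInj c lab ref
      (fun i => if i ∈ J then 1 else 0) (fun l => if l = lab p₀ then d - J.card else 0) v := by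
    apply h
    · ext i
      rw [Finset.mem_filter]
      simp
    · have hcard : J.card ≤ d := by
        have h1 : γ₁.degree = d - (c p₀).card := by
          have h2 := hg p₀ hγ1
          rwa [Finsupp.degree_eq_weight_one]
        have h3 : (bsupp γ₁).card ≤ γ₁.degree := by
          rw [← PhiColX_bdeg_degree γ₁]
          calc (bsupp γ₁).card = ∑ i ∈ bsupp γ₁, 1 := by simp
            _ ≤ ∑ i ∈ bsupp γ₁, bdeg γ₁ i := by
              apply Finset.sum_le_sum
              intro i hi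
              unfold bsupp at hi
              rw [Finset.mem_filter] at hi
              omega
            _ ≤ ∑ i, bdeg γ₁ i := Finset.sum_le_sum_of_subset (Finset.subset_univ _)
            _ ≤ _ := Nat.le_add_right _ _
        have h4 := hcd p₀
        have h5 : J.card ≤ (bsupp γ₁).card + (c p₀).card := by
          rw [← hJ1]
          exact Finset.card_union_le _ _
        omega
      rw [Finset.sum_ite_mem, Finset.univ_inter, Finset.sum_ite_eq' Finset.univ (lab p₀)]
      simp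
      omega
  -- the first claim
  have hne_comp : comp a μ (f p₀) ≠ 0 := by
    intro h0
    have h1 := coeff_comp a μ (f p₀) γ₀
    rw [h0, coeff_zero, if_pos ⟨ha.symm, hμ.symm⟩] at h1
    exact hx₀ h1.symm
  have hc0 : ∀ i ∈ c p₀, a i ≠ 0 := by
    obtain ⟨ft, hft, hst⟩ := lead_struct (c p₀) (ref₀ p₀) (v p₀) (fun i _ => hv p₀ i _) (lab p₀)
      (g p₀) a (fun γ hγ => hmin p₀ γ hγ)
    have h1 : comp a μ ft ≠ 0 := by
      intro h0
      apply hne_comp
      have h2 : f p₀ = sbt (c p₀) (ref₀ p₀) (v p₀) ft := hft.symm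
      rw [h2, comp_sbt, h0, map_zero]
    obtain ⟨γ, hγ⟩ := MvPolynomial.ne_zero_iff.1 h1
    rw [coeff_comp] at hγ
    have h2 : bdeg γ = a ∧ (fun l => γ (Sum.inr l)) = μ := by
      by_contra hne
      exact hγ (if_neg hne)
    rw [if_pos h2] at hγ
    exact (hst γ h2.1 hγ).1
  have haJ : Finset.univ.filter (fun i => a i ≠ 0) = J := by
    have h1 : Finset.univ.filter (fun i => a i ≠ 0) = bsupp γ₀ := rfl
    rw [h1]
    apply Finset.Subset.antisymm
    · rw [hb0, ← hJ1]
      exact Finset.union_subset_union_right hb2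
    · rw [← hJ1]
      apply Finset.union_subset
      · rw [hb0]
        exact Finset.subset_union_left
      · intro i hi
        rw [← h1, Finset.mem_filter]
        exact ⟨Finset.mem_univ i, hc0 i hi⟩
  have hsumd : ∑ i, a i + ∑ l, μ l = d := by
    rw [← hdeg0, ← PhiColX_bdeg_degree γ₀]
  obtain ⟨ref, hcol⟩ := h a μ haJ hsumd
  -- leading structures for all points
  have hex : ∀ p, ∃ ft : MvPolynomial (Sg N A Λ) ℂ, sbt (c p) (ref p) (v p) ft = f p ∧
      ∀ γ, bdeg γ = a → coeff γ ft ≠ 0 →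
        (∀ i ∈ c p, a i ≠ 0) ∧
          (c p).card ≤ γ (Sum.inr (lab p)) + pureCount (c p) (ref p) γ := fun p =>
    lead_struct (c p) (ref p) (v p) (fun i _ => hv p i _) (lab p) (g p) a
      (fun γ hγ => hmin p γ hγ)
  choose ft hft hst using hex
  have hAdm : Adm c lab ref a μ (fun p => comp a μ (ft p)) := by
    intro p γ hγ
    rw [coeff_comp] at hγ
    have h2 : bdeg γ = a ∧ (fun l => γ (Sum.inr l)) = μ := by
      by_contra hne
      exact hγ (if_neg hne)
    rw [if_pos h2] at hγ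
    refine ⟨h2.1, h2.2, ?_⟩
    have h3 := (hst p γ h2.1 hγ).2
    have h4 : γ (Sum.inr (lab p)) = μ (lab p) := congrFun h2.2 (lab p)
    rwa [h4] at h3
  have hzero : ∑ p, sbt (c p) (ref p) (v p) (comp a μ (ft p)) = 0 := by
    have h1 : ∀ p, sbt (c p) (ref p) (v p) (comp a μ (ft p)) = comp a μ (f p) := by
      intro p
      rw [← comp_sbt, hft p]
    rw [Finset.sum_congr rfl (fun p _ => h1 p), ← map_sum]
    ext γ
    rw [coeff_comp, coeff_zero]
    split_ifs with h2
    · apply hsum γ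
      rw [← haJ, ← h2.1]
      rfl
    · rfl
  have hfin := hcol _ hAdm hzero p₀
  apply hne_comp
  rw [← hft p₀, comp_sbt]
  rw [hfin, map_zero]

end Pool.Agent.H21.HD
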