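import Pool.Agent.H21.HD.Defs3

/-!
From PhiInj to independence.
-/

namespace Pool.Agent.H21.HD

open MvPolynomial
open scoped Classical

variable {N : ℕ} {A Λ P : Type} [Fintype A] [Fintype Λ] [Fintype P]

private theorem bdeg_add' (γ δ : Sg N A Λ →₀ ℕ) (i : Fin N) :
    bdeg (γ + δ) i = bdeg γ i + bdeg δ i := by
  unfold bdeg
  rw [← Finset.sum_add_distrib]
  rfl

private theorem bsupp_add' (γ δ : Sg N A Λ →₀ ℕ) :
    bsupp (γ + δ) = bsupp γ ∪ bsupp δ := by
  ext i
  simp only [bsupp, Finset.mem_filter, Finset.mem_univ, true_and, Finset.mem_union, bdeg_add']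
  omega

private theorem bsupp_lin (c : Finset (Fin N)) (v : Fin N → A → ℂ) (y : Λ → ℂ)
    (δ : Sg N A Λ →₀ ℕ) (h : coeff δ (lin (vec c v y)) ≠ 0) : bsupp δ ⊆ c := by
  unfold lin at h
  rw [coeff_sum] at h
  obtain ⟨s, _, hs⟩ := Finset.exists_ne_zero_of_sum_ne_zero h
  rw [coeff_C_mul, coeff_X] at hs
  split_ifs at hs with h1
  · intro i hi
    simp only [bsupp, Finset.mem_filter, Finset.mem_univ, true_and] at hi
    unfold bdeg at hi
    obtain ⟨a, _, ha⟩ := Finset.exists_ne_zero_of_sum_ne_zero hi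
    rw [← h1, Finsupp.single_apply] at ha
    split_ifs at ha with h2
    · rw [h2] at hs
      by_contra hic
      apply hs
      simp [vec, hic]
    · exact absurd rfl ha
  · simp at hs

private theorem bsupp_lin_pow (c : Finset (Fin N)) (v : Fin N → A → ℂ) (y : Λ → ℂ) (e : ℕ)
    (δ : Sg N A Λ →₀ ℕ) (h : coeff δ (lin (vec c v y) ^ e) ≠ 0) : bsupp δ ⊆ c := by
  induction e generalizing δ with
  | zero =>
    rw [pow_zero, coeff_one] at h
    split_ifs at h with h1
    · rw [← h1]
      intro i hi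
      simp [bsupp, bdeg] at hi
    · exact absurd rfl h
  | succ e ih =>
    rw [pow_succ, coeff_mul] at h
    obtain ⟨x, hx, hx2⟩ := Finset.exists_ne_zero_of_sum_ne_zero h
    have hx := Finset.HasAntidiagonal.mem_antidiagonal.1 hx
    rw [← hx, bsupp_add']
    exact Finset.union_subset (ih _ (left_ne_zero_of_mul hx2))
      (bsupp_lin c v y _ (right_ne_zero_of_mul hx2))

private theorem card_bsupp_le (γ : Sg N A Λ →₀ ℕ) : (bsupp γ).card ≤ γ.degree := by
  have h1 : γ.degree = ∑ s, γ s := by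
    rw [Finsupp.degree_eq_sum]
  rw [h1, Fintype.sum_sum_type, Fintype.sum_prod_type]
  have h2 : (bsupp γ).card ≤ ∑ i : Fin N, ∑ a : A, γ (Sum.inl (i, a)) := by
    rw [Finset.card_eq_sum_ones]
    unfold bsupp
    rw [Finset.sum_filter]
    apply Finset.sum_le_sum
    intro i _
    split_ifs with h3
    · unfold bdeg at h3
      omega
    · exact Nat.zero_le _
  omega

/-- The powers are independent if `PhiInj` holds for all sets of at most `d` blocks. -/
theorem indep_of_phiInj (d : ℕ) (c : P → Finset (Fin N)) (hc : ∀ p, (c p).card ≤ d)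
    (v : P → Fin N → A → ℂ) (y : P → Λ → ℂ)
    (h : ∀ J : Finset (Fin N), J.card ≤ d → PhiInj d J c v y) :
    Indep d (fun p => vec (c p) (v p) (y p)) (fun p => (c p).card) := by
  intro g hg hsum
  by_contra hcon
  push Not at hcon
  obtain ⟨p1, hp1⟩ := hcon
  obtain ⟨γ1, hγ1⟩ := (MvPolynomial.ne_zero_iff).1 hp1
  -- a pair with the largest set of blocks
  let S : Finset (Σ _ : P, (Sg N A Λ →₀ ℕ)) := Finset.univ.sigma (fun p => (g p).support)
  have hS : S.Nonempty := ⟨⟨p1, γ1⟩, by simp [S, hγ1]⟩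
  obtain ⟨⟨p0, γ0⟩, hmem, hmax⟩ := Finset.exists_max_image S
    (fun x => (bsupp x.2 ∪ c x.1).card) hS
  have hγ0 : coeff γ0 (g p0) ≠ 0 := by
    have := (Finset.mem_sigma.1 hmem).2
    exact mem_support_iff.1 this
  have hmax' : ∀ p γ, coeff γ (g p) ≠ 0 → (bsupp γ ∪ c p).card ≤ (bsupp γ0 ∪ c p0).card := by
    intro p γ hγ
    have h0 : (⟨p, γ⟩ : Σ _ : P, (Sg N A Λ →₀ ℕ)) ∈ S :=
      Finset.mem_sigma.2 ⟨Finset.mem_univ _, mem_support_iff.2 hγ⟩
    exact hmax ⟨p, γ⟩ h0
  set J : Finset (Fin N) := bsupp γ0 ∪ c p0 with hJ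
  have hJd : J.card ≤ d := by
    have h1 := Finset.card_union_le (bsupp γ0) (c p0)
    have h2 := card_bsupp_le γ0
    have h3 : γ0.degree = d - (c p0).card := by
      have := (hg p0) hγ0
      rw [← this]
      exact DFunLike.congr_fun (Finsupp.degree_eq_weight_one (σ := Sg N A Λ) (R := ℕ)) γ0
    have h4 := hc p0
    rw [← hJ] at h1
    omega
  let g' : P → MvPolynomial (Sg N A Λ) ℂ := fun p =>
    ∑ γ ∈ (g p).support.filter (fun γ => bsupp γ ∪ c p = J), monomial γ (coeff γ (g p))
  have hg'c : ∀ p γ, coeff γ (g' p) = if bsupp γ ∪ c p = J then coeff γ (g p) else 0 := by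
    intro p γ
    simp only [g']
    rw [coeff_sum]
    simp only [coeff_monomial]
    by_cases hb : bsupp γ ∪ c p = J
    · rw [if_pos hb]
      by_cases h0 : coeff γ (g p) = 0
      · rw [h0]
        apply Finset.sum_eq_zero
        intro δ _
        split_ifs with h5
        · rw [h5, h0]
        · rfl
      · rw [Finset.sum_ite_eq' , if_pos]
        rw [Finset.mem_filter, mem_support_iff]
        exact ⟨h0, hb⟩
    · rw [if_neg hb]
      apply Finset.sum_eq_zero
      intro δ hδ
      rw [Finset.mem_filter] at hδ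
      split_ifs with h5
      · rw [h5] at hδ
        exact absurd hδ.2 hb
      · rfl
  have hres := h J hJd g' ?_ ?_ ?_ p0
  · have h1 := hg'c p0 γ0
    rw [hres, if_pos rfl, coeff_zero] at h1
    exact hγ0 h1.symm
  · intro p γ hγ
    rw [hg'c] at hγ
    split_ifs at hγ with h1
    · exact hg p hγ
    · exact absurd rfl hγ
  · intro p γ hγ
    rw [hg'c] at hγ
    split_ifs at hγ with h1
    · exact h1
    · exact absurd rfl hγ
  · intro γ hγ
    have h1 : coeff γ (∑ p, g p * lin (vec (c p) (v p) (y p)) ^ (c p).card) = 0 := by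
      rw [hsum, coeff_zero]
    rw [← h1, coeff_sum, coeff_sum]
    apply Finset.sum_congr rfl
    intro p _
    rw [coeff_mul, coeff_mul]
    apply Finset.sum_congr rfl
    intro x hx
    have hx := Finset.HasAntidiagonal.mem_antidiagonal.1 hx
    by_cases h2 : coeff x.2 (lin (vec (c p) (v p) (y p)) ^ (c p).card) = 0
    · rw [h2, mul_zero, mul_zero]
    congr 1
    rw [hg'c]
    split_ifs with h3
    · rfl
    · by_contra h4
      have h5 : coeff x.1 (g p) ≠ 0 := fun h6 => h4 h6.symm
      apply h3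
      have h6 : bsupp x.2 ⊆ c p := bsupp_lin_pow _ _ _ _ _ h2
      have h7 : J ⊆ bsupp x.1 ∪ c p := by
        rw [← hγ, ← hx, bsupp_add']
        exact Finset.union_subset_union_right h6
      exact (Finset.eq_of_subset_of_card_le h7 (hmax' p x.1 h5)).symm

end Pool.Agent.H21.HD
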