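import Pool.Agent.H21.HD.Defs3
import Pool.Agent.H21.HD.Open

/-!
PhiInj is open.
-/

namespace Pool.Agent.H21.HD

open MvPolynomial
open scoped Classical

namespace PhiOpenX

/-- All coefficients are polynomial in the parameters. -/
def CP {σ τ : Type*} (F : (σ → ℂ) → MvPolynomial τ ℂ) : Prop :=
  ∀ γ, PolyFun (fun x => coeff γ (F x))

theorem CP.const {σ τ : Type*} (f : MvPolynomial τ ℂ) : CP (fun _ : σ → ℂ => f) :=
  fun _ => PolyFun.const _

theorem CP.mul {σ τ : Type*} {F G : (σ → ℂ) → MvPolynomial τ ℂ} (hF : CP F) (hG : CP G) :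
    CP (fun x => F x * G x) := by
  intro γ
  simp only [coeff_mul]
  exact PolyFun.sum _ _ fun k _ => (hF k.1).mul (hG k.2)

theorem CP.pow {σ τ : Type*} {F : (σ → ℂ) → MvPolynomial τ ℂ} (hF : CP F) (n : ℕ) :
    CP (fun x => F x ^ n) := by
  induction n with
  | zero => simpa using CP.const (σ := σ) (1 : MvPolynomial τ ℂ)
  | succ n ih =>
    simp only [pow_succ]
    exact ih.mul hF

theorem CP.sum {σ τ κ : Type*} (S : Finset κ) (F : κ → (σ → ℂ) → MvPolynomial τ ℂ)
    (hF : ∀ k ∈ S, CP (F k)) : CP (fun x => ∑ k ∈ S, F k x) := by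
  intro γ
  simp only [coeff_sum]
  exact PolyFun.sum _ _ fun k hk => hF k hk γ

theorem CP.C {σ τ : Type*} {F : (σ → ℂ) → ℂ} (hF : PolyFun F) :
    CP (fun x => (MvPolynomial.C (F x) : MvPolynomial τ ℂ)) := by
  intro γ
  simp only [coeff_C]
  by_cases h : (0 : τ →₀ ℕ) = γ
  · simpa [h] using hF
  · simpa [h] using PolyFun.const (σ := σ) 0

theorem CP.lin {σ τ : Type*} [Fintype τ] {w : (σ → ℂ) → τ → ℂ}
    (hw : ∀ s, PolyFun (fun x => w x s)) : CP (fun x => Pool.Agent.H21.HD.lin (w x)) := by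
  unfold Pool.Agent.H21.HD.lin
  exact CP.sum _ _ fun s _ => (CP.C (hw s)).mul (CP.const _)

theorem lin_homog {τ : Type*} [Fintype τ] (w : τ → ℂ) :
    (Pool.Agent.H21.HD.lin w).IsHomogeneous 1 := by
  unfold Pool.Agent.H21.HD.lin
  apply IsHomogeneous.sum
  intro s _
  simpa using (isHomogeneous_C τ (w s)).mul (isHomogeneous_X ℂ s)

end PhiOpenX

open PhiOpenX

variable {N : ℕ} {A Λ P : Type} [Fintype A] [Fintype Λ] [Fintype P]

namespace PhiOpenX

/-- The space of multipliers. -/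
def VV (N : ℕ) (A Λ : Type) {P : Type} [Fintype A] [Fintype Λ] (d : ℕ) (J : Finset (Fin N))
    (c : P → Finset (Fin N)) : Submodule ℂ (P → MvPolynomial (Sg N A Λ) ℂ) where
  carrier := {g | (∀ p, (g p).IsHomogeneous (d - (c p).card)) ∧
    ∀ p γ, coeff γ (g p) ≠ 0 → bsupp γ ∪ c p = J}
  add_mem' := by
    rintro g g' ⟨h1, h2⟩ ⟨h1', h2'⟩
    refine ⟨fun p => (h1 p).add (h1' p), fun p γ h => ?_⟩
    simp only [Pi.add_apply, coeff_add] at h
    by_cases h0 : coeff γ (g p) = 0
    · rw [h0, zero_add] at h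
      exact h2' p γ h
    · exact h2 p γ h0
  zero_mem' := ⟨fun p => isHomogeneous_zero _ _ _, fun p γ h => absurd (by simp) h⟩
  smul_mem' := by
    rintro a g ⟨h1, h2⟩
    refine ⟨fun p => ?_, fun p γ h => ?_⟩
    · have := (isHomogeneous_C (Sg N A Λ) a).mul (h1 p)
      simpa [MvPolynomial.smul_eq_C_mul] using this
    · simp only [Pi.smul_apply, coeff_smul, smul_eq_mul] at h
      exact h2 p γ (right_ne_zero_of_mul h)

theorem mem_VV {d : ℕ} {J : Finset (Fin N)} {c : P → Finset (Fin N)}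
    {g : P → MvPolynomial (Sg N A Λ) ℂ} :
    g ∈ VV N A Λ d J c ↔ (∀ p, (g p).IsHomogeneous (d - (c p).card)) ∧
    ∀ p γ, coeff γ (g p) ≠ 0 → bsupp γ ∪ c p = J := Iff.rfl

/-- The exponent vectors of degree at most `M`. -/
abbrev YY (N : ℕ) (A Λ : Type) (M : ℕ) : Type := {γ : Sg N A Λ →₀ ℕ // γ.degree ≤ M}

theorem finite_YY (M : ℕ) : Finite (YY N A Λ M) := by
  have : Set.Finite {γ : Sg N A Λ →₀ ℕ | γ.degree ≤ M} := by
    have h1 : {γ : Sg N A Λ →₀ ℕ | γ.degree ≤ M} ⊆
        Set.Iic (Finsupp.equivFunOnFinite.symm (fun _ => M)) := by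
      intro γ hγ s
      have : γ s ≤ γ.degree := Finsupp.le_degree s γ
      simp only [Finsupp.equivFunOnFinite_symm_apply_apply]
      exact this.trans hγ
    exact (Set.finite_Iic _).subset h1
  exact this.to_subtype

theorem finiteDimensional_VV (d : ℕ) (J : Finset (Fin N)) (c : P → Finset (Fin N)) :
    FiniteDimensional ℂ (VV N A Λ d J c) := by
  haveI := finite_YY (N := N) (A := A) (Λ := Λ) d
  let f : VV N A Λ d J c →ₗ[ℂ] (P × YY N A Λ d → ℂ) :=
    { toFun := fun g x => coeff x.2.1 (g.1 x.1)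
      map_add' := by intro g g'; funext x; simp
      map_smul' := by intro a g; funext x; simp }
  apply Module.Finite.of_injective f
  intro g g' h
  apply Subtype.ext
  funext p
  ext γ
  by_cases hγ : γ.degree ≤ d
  · exact congrFun h (p, ⟨γ, hγ⟩)
  · have h1 : coeff γ (g.1 p) = 0 := by
      apply (g.2.1 p).coeff_eq_zero
      omega
    have h2 : coeff γ (g'.1 p) = 0 := by
      apply (g'.2.1 p).coeff_eq_zero
      omega
    rw [h1, h2]

/-- The sum map. -/
noncomputable def TT (d : ℕ) (J : Finset (Fin N)) (c : P → Finset (Fin N))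
    (x : (P × Fin N × A) ⊕ (P × Λ) → ℂ) :
    VV N A Λ d J c →ₗ[ℂ] ({γ : YY N A Λ (d + N) // bsupp γ.1 = J} → ℂ) where
  toFun g γ := coeff γ.1.1 (∑ p, g.1 p *
    lin (vec (c p) (fun i a => x (Sum.inl (p, i, a))) (fun l => x (Sum.inr (p, l)))) ^ (c p).card)
  map_add' g g' := by
    funext γ
    simp only [Submodule.coe_add, Pi.add_apply, add_mul, Finset.sum_add_distrib, coeff_add]
  map_smul' a g := by
    funext γ
    simp only [SetLike.val_smul, Pi.smul_apply, smul_mul_assoc, ← Finset.smul_sum, coeff_smul,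
      RingHom.id_apply]

theorem TT_inj_iff (d : ℕ) (J : Finset (Fin N)) (c : P → Finset (Fin N))
    (v : P → Fin N → A → ℂ) (y : P → Λ → ℂ) :
    Function.Injective (TT d J c (Sum.elim (fun x => v x.1 x.2.1 x.2.2) (fun x => y x.1 x.2))) ↔
      PhiInj d J c v y := by
  constructor
  · intro h g hg1 hg2 hg3
    have h0 : (⟨g, hg1, hg2⟩ : VV N A Λ d J c) = 0 := by
      apply h
      rw [map_zero]
      funext γ
      exact hg3 γ.1.1 γ.2
    intro p
    have h1 := congrArg (fun z : VV N A Λ d J c => z.1 p) h0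
    simpa using h1
  · intro h
    rw [← LinearMap.ker_eq_bot, LinearMap.ker_eq_bot']
    intro g hg
    have h1 := h g.1 g.2.1 g.2.2 (fun γ hγ => by
      by_cases hd : γ.degree ≤ d + N
      · exact congrFun hg ⟨⟨γ, hd⟩, hγ⟩
      · rw [coeff_sum]
        apply Finset.sum_eq_zero
        intro p _
        have h2 : (g.1 p * lin (vec (c p) (v p) (y p)) ^ (c p).card).IsHomogeneous
            (d - (c p).card + 1 * (c p).card) :=
          (g.2.1 p).mul ((lin_homog _).pow _)
        apply h2.coeff_eq_zero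
        have h3 : (c p).card ≤ N := by
          simpa using Finset.card_le_univ (c p)
        omega)
    apply Subtype.ext
    funext p
    exact h1 p

end PhiOpenX

/-- `PhiInj` is an open condition. -/
theorem phiInj_open (d : ℕ) (J : Finset (Fin N)) (c : P → Finset (Fin N))
    (v₀ : P → Fin N → A → ℂ) (y₀ : P → Λ → ℂ) (h : PhiInj d J c v₀ y₀) :
    ∃ G : MvPolynomial ((P × Fin N × A) ⊕ (P × Λ)) ℂ, G ≠ 0 ∧
      ∀ (v : P → Fin N → A → ℂ) (y : P → Λ → ℂ),
        eval (Sum.elim (fun x => v x.1 x.2.1 x.2.2) (fun x => y x.1 x.2)) G ≠ 0 →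
        PhiInj d J c v y := by
  haveI := finite_YY (N := N) (A := A) (Λ := Λ) (d + N)
  haveI := finiteDimensional_VV (N := N) (A := A) (Λ := Λ) d J c
  obtain ⟨G, hG0, hG⟩ := open_inj (TT d J c) (fun g γ => by
      change PolyFun (fun x => coeff γ.1.1 (∑ p, g.1 p *
        lin (vec (c p) (fun i a => x (Sum.inl (p, i, a))) (fun l => x (Sum.inr (p, l)))) ^
          (c p).card))
      have h1 : CP (fun x : (P × Fin N × A) ⊕ (P × Λ) → ℂ => ∑ p, g.1 p *
        lin (vec (c p) (fun i a => x (Sum.inl (p, i, a))) (fun l => x (Sum.inr (p, l)))) ^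
          (c p).card) := by
        apply CP.sum
        intro p _
        refine (CP.const _).mul (CP.pow (CP.lin ?_) _)
        rintro (⟨i, a⟩ | l)
        · unfold vec
          by_cases hi : i ∈ c p
          · simpa [hi] using PolyFun.coord _
          · simpa [hi] using PolyFun.const _
        · simpa [vec] using PolyFun.coord _
      exact h1 γ.1.1)
    (Sum.elim (fun x => v₀ x.1 x.2.1 x.2.2) (fun x => y₀ x.1 x.2))
    ((TT_inj_iff d J c v₀ y₀).2 h)
  refine ⟨G, ?_, fun v y hvy => (TT_inj_iff d J c v y).1 (hG _ hvy)⟩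
  rintro rfl
  simp at hG0

end Pool.Agent.H21.HD
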