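import Pool.Agent.H21.HD.Defs3
import Pool.Agent.H21.HD.ColM
import Pool.Agent.H21.HD.PhiOpen
import Pool.Agent.H21.HD.PhiIndep
import Pool.Agent.H21.HD.PhiCol

/-!
Existence for PhiInj, independence in blocks.
-/

namespace Pool.Agent.H21.HD

open MvPolynomial
open scoped Classical

variable {N : ℕ} {A Λ P : Type} [Fintype A] [Fintype Λ] [Fintype P]

namespace PhiExX

omit [Fintype A] [Fintype Λ] in
/-- Extension of `PhiInj` from the points with `c p ⊆ J` to all points. -/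
theorem phiInj_extend [Fintype A] [Fintype Λ] (d : ℕ) (J : Finset (Fin N)) (c : P → Finset (Fin N))
    (v : {p : P // c p ⊆ J} → Fin N → A → ℂ) (y : {p : P // c p ⊆ J} → Λ → ℂ)
    (h : PhiInj d J (fun p : {p : P // c p ⊆ J} => c p.1) v y) :
    PhiInj d J c (fun p => if hp : c p ⊆ J then v ⟨p, hp⟩ else 0)
      (fun p => if hp : c p ⊆ J then y ⟨p, hp⟩ else 0) := by
  intro g hg1 hg2 hg3
  have h0 : ∀ p, ¬ c p ⊆ J → g p = 0 := by
    intro p hp
    ext γ
    rw [coeff_zero]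
    by_contra hne
    exact hp (hg2 p γ hne ▸ Finset.subset_union_right)
  have h1 := h (fun p => g p.1) (fun p => hg1 p.1) (fun p γ hne => hg2 p.1 γ hne) (by
    intro γ hγ
    rw [← hg3 γ hγ]
    congr 1
    have h2 : ∀ p : {p : P // c p ⊆ J},
        g p.1 * lin (vec (c p.1) (v p) (y p)) ^ (c p.1).card =
        g p.1 * lin (vec (c p.1) (if hp : c p.1 ⊆ J then v ⟨p.1, hp⟩ else 0)
          (if hp : c p.1 ⊆ J then y ⟨p.1, hp⟩ else 0)) ^ (c p.1).card := by
      intro p
      rw [dif_pos p.2, dif_pos p.2]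
    rw [Finset.sum_congr rfl fun p _ => h2 p]
    rw [← Finset.sum_filter_add_sum_filter_not Finset.univ (fun p => c p ⊆ J)
      (fun p => g p * lin (vec (c p) (if hp : c p ⊆ J then v ⟨p, hp⟩ else 0)
          (if hp : c p ⊆ J then y ⟨p, hp⟩ else 0)) ^ (c p).card)]
    rw [Finset.sum_eq_zero (s := Finset.univ.filter fun p => ¬ c p ⊆ J), add_zero]
    · exact (Finset.sum_subtype (Finset.univ.filter (fun p => c p ⊆ J)) (by simp)
        (fun p => g p * lin (vec (c p) (if hp : c p ⊆ J then v ⟨p, hp⟩ else 0)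
          (if hp : c p ⊆ J then y ⟨p, hp⟩ else 0)) ^ (c p).card)).symm
    · intro p hp
      rw [Finset.mem_filter] at hp
      rw [h0 p hp.2, zero_mul])
  intro p
  by_cases hp : c p ⊆ J
  · exact h1 ⟨p, hp⟩
  · exact h0 p hp

end PhiExX

/-- `PhiInj` holds for suitable parameters below the critical load. -/
theorem phiInj_exists (d : ℕ) (ε : ℝ) (hε : 0 < ε) : ∃ W : ℕ, ∀ (N : ℕ) (A Λ P : Type)
    [Fintype A] [Fintype Λ] [Fintype P], W ≤ Fintype.card A →
    ∀ (c : P → Finset (Fin N)) (J : Finset (Fin N)), J.card ≤ d →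
    (∀ p, (c p).card ≤ d) → (∀ p, (c p).Nonempty) →
    (∀ p q, p ≠ q → d + 1 ≤ (c p).card + (c q).card) →
    (Finset.univ.filter (fun p => c p ⊆ J)).card ≤ Fintype.card Λ →
    ∑ p ∈ Finset.univ.filter (fun p => c p ⊆ J),
      (1 : ℝ) / (Fintype.card A : ℝ) ^ (c p).card ≤ 1 - ε →
    ∃ (v : P → Fin N → A → ℂ) (y : P → Λ → ℂ), PhiInj d J c v y := by
  obtain ⟨W, hW⟩ := col_inj d ε hε
  refine ⟨W, ?_⟩
  intro N A Λ P _ _ _ hWA c J hJ hcd hne hpair hcard hload
  obtain ⟨lab, hlab⟩ : ∃ lab : {p : P // c p ⊆ J} → Λ, Function.Injective lab := by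
    have h1 : Fintype.card {p : P // c p ⊆ J} ≤ Fintype.card Λ := by
      rw [Fintype.card_subtype]
      exact hcard
    obtain ⟨f⟩ := Function.Embedding.nonempty_of_card_le h1
    exact ⟨f, f.injective⟩
  have hload' : ∑ p : {p : P // c p ⊆ J}, (1 : ℝ) / (Fintype.card A : ℝ) ^ (c p.1).card ≤ 1 - ε := by
    refine le_of_eq_of_le ?_ hload
    exact (Finset.sum_subtype (Finset.univ.filter (fun p => c p ⊆ J)) (by simp)
      (fun p => (1 : ℝ) / (Fintype.card A : ℝ) ^ (c p).card)).symm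
  have key : ∀ (a : Fin N → ℕ) (μ : Λ → ℕ), ∃ G : MvPolynomial ({p : P // c p ⊆ J} × Fin N × A) ℂ,
      G ≠ 0 ∧ (Finset.univ.filter (fun i => a i ≠ 0) = J → ∑ i, a i + ∑ l, μ l = d →
        ∀ v : {p : P // c p ⊆ J} → Fin N → A → ℂ, eval (fun x => v x.1 x.2.1 x.2.2) G ≠ 0 →
        ∃ ref : {p : P // c p ⊆ J} → Fin N → A,
          ColInj (fun p : {p : P // c p ⊆ J} => c p.1) lab ref a μ v) := by
    intro a μ
    by_cases hJa : Finset.univ.filter (fun i => a i ≠ 0) = J
    · by_cases hs : ∑ i, a i + ∑ l, μ l = d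
      · obtain ⟨ref, G, hG0, hG⟩ := hW N A Λ {p : P // c p ⊆ J} hWA
          (fun p : {p : P // c p ⊆ J} => c p.1) lab a μ hlab
          (by
            intro p i hi
            have h1 : i ∈ J := p.2 hi
            rw [← hJa] at h1
            simpa using h1)
          (by
            intro p q hpq
            exact hpair p.1 q.1 fun h => hpq (Subtype.ext h))
          (fun p => hne p.1) hs hload'
        exact ⟨G, hG0, fun _ _ v hv => ⟨ref, hG v hv⟩⟩
      · exact ⟨1, one_ne_zero, fun _ h => absurd h hs⟩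
    · exact ⟨1, one_ne_zero, fun h => absurd h hJa⟩
  choose G hG0 hG using key
  obtain ⟨x, hx⟩ := exists_common (σ := {p : P // c p ⊆ J} × Fin N × A)
    (Finset.univ : Finset (((Fin N → Fin (d + 1)) × (Λ → Fin (d + 1))) ⊕
      ({p : P // c p ⊆ J} × Fin N × A)))
    (Sum.elim (fun z => G (fun i => (z.1 i : ℕ)) (fun l => (z.2 l : ℕ))) (fun z => X z))
    (by
      rintro (z | z) _
      · exact hG0 _ _
      · exact X_ne_zero z)
  have hphi : PhiInj d J (fun p : {p : P // c p ⊆ J} => c p.1)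
      (fun p i a => x (p, i, a)) (fun p => Pi.single (lab p) 1) := by
    apply phiInj_of_col d J _ (fun p => p.2) (fun p => hcd p.1) lab
    · intro p i a
      simpa using hx (Sum.inr (p, i, a)) (Finset.mem_univ _)
    · intro a μ hJa hs
      have ha : ∀ i, a i < d + 1 := by
        intro i
        have : a i ≤ ∑ i, a i := Finset.single_le_sum (fun _ _ => Nat.zero_le _) (Finset.mem_univ i)
        omega
      have hμ : ∀ l, μ l < d + 1 := by
        intro l
        have : μ l ≤ ∑ l, μ l := Finset.single_le_sum (fun _ _ => Nat.zero_le _) (Finset.mem_univ l)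
        omega
      have h1 := hx (Sum.inl (fun i => ⟨a i, ha i⟩, fun l => ⟨μ l, hμ l⟩)) (Finset.mem_univ _)
      exact hG a μ hJa hs _ h1
  exact ⟨_, _, PhiExX.phiInj_extend d J c _ _ hphi⟩

/-- Independence of powers of suitable linear forms in `N * |A| + |Λ|` variables. -/
theorem ind_blocks (d : ℕ) (ε : ℝ) (hε : 0 < ε) : ∃ W : ℕ, ∀ (N : ℕ) (A Λ P : Type)
    [Fintype A] [Fintype Λ] [Fintype P], W ≤ Fintype.card A →
    ∀ (c : P → Finset (Fin N)), (∀ p, (c p).card ≤ d) → (∀ p, (c p).Nonempty) →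
    (∀ p q, p ≠ q → d + 1 ≤ (c p).card + (c q).card) →
    (∀ J : Finset (Fin N), J.card ≤ d →
      (Finset.univ.filter (fun p => c p ⊆ J)).card ≤ Fintype.card Λ ∧
      ∑ p ∈ Finset.univ.filter (fun p => c p ⊆ J),
        (1 : ℝ) / (Fintype.card A : ℝ) ^ (c p).card ≤ 1 - ε) →
    ∃ w : P → Sg N A Λ → ℂ, Indep d w (fun p => (c p).card) := by
  obtain ⟨W, hW⟩ := phiInj_exists d ε hε
  refine ⟨W, ?_⟩
  intro N A Λ P _ _ _ hWA c hcd hne hpair hJ
  have key : ∀ J : Finset (Fin N), ∃ G : MvPolynomial ((P × Fin N × A) ⊕ (P × Λ)) ℂ, G ≠ 0 ∧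
      (J.card ≤ d → ∀ (v : P → Fin N → A → ℂ) (y : P → Λ → ℂ),
        eval (Sum.elim (fun x => v x.1 x.2.1 x.2.2) (fun x => y x.1 x.2)) G ≠ 0 →
        PhiInj d J c v y) := by
    intro J
    by_cases hJd : J.card ≤ d
    · obtain ⟨v, y, hvy⟩ := hW N A Λ P hWA c J hJd hcd hne hpair (hJ J hJd).1 (hJ J hJd).2
      obtain ⟨G, hG0, hG⟩ := phiInj_open d J c v y hvy
      exact ⟨G, hG0, fun _ => hG⟩
    · exact ⟨1, one_ne_zero, fun h => absurd h hJd⟩
  choose G hG0 hG using key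
  obtain ⟨x, hx⟩ := exists_common (Finset.univ : Finset (Finset (Fin N))) G fun J _ => hG0 J
  refine ⟨fun p => vec (c p) (fun i a => x (Sum.inl (p, i, a))) (fun l => x (Sum.inr (p, l))), ?_⟩
  apply indep_of_phiInj d c hcd (fun p i a => x (Sum.inl (p, i, a))) (fun p l => x (Sum.inr (p, l)))
  intro J hJd
  apply hG J hJd
  have h1 := hx J (Finset.mem_univ J)
  have h2 : Sum.elim (fun z : P × Fin N × A => x (Sum.inl (z.1, z.2.1, z.2.2)))
      (fun z : P × Λ => x (Sum.inr (z.1, z.2))) = x := by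
    funext z
    rcases z with z | z <;> rfl
  rw [h2]
  exact h1

end Pool.Agent.H21.HD
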