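import Pool.Agent.H21.HD.Defs3
import Pool.Agent.H21.HD.PhiEx
import Pool.Agent.H21.HD.Balanced
import Pool.Agent.H21.HD.LoadEst
import Pool.Agent.H21.HD.IndTrans

/-!
The independence theorem.
-/

namespace Pool.Agent.H21.HD

open MvPolynomial
open scoped Classical

/-- balanced types -/
private lemma indMain_types {P : Type} [Fintype P] (d N : ℕ) (hN : d ≤ N) (e : P → ℕ)
    (he : ∀ p, 1 ≤ e p ∧ e p ≤ d) :
    ∃ c : P → Finset (Fin N), (∀ p, (c p).card = e p) ∧
      ∀ s : Finset (Fin N), s.card ≤ d → (Finset.univ.filter (fun p => c p = s)).card ≤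
        (Finset.univ.filter (fun p => e p = s.card)).card / N.choose s.card + 1 := by
  have h1 : ∀ i : ℕ, i ≤ d → ∃ f : {p // e p = i} → {s : Finset (Fin N) // s.card = i},
      ∀ y, (Finset.univ.filter (fun x => f x = y)).card ≤
        Fintype.card {p // e p = i} / Fintype.card {s : Finset (Fin N) // s.card = i} + 1 := by
    intro i hi
    have : Nonempty {s : Finset (Fin N) // s.card = i} := by
      obtain ⟨s, hs1, hs2⟩ := Finset.exists_subset_card_eq
        (s := (Finset.univ : Finset (Fin N))) (n := i) (by simp; omega)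
      exact ⟨⟨s, hs2⟩⟩
    obtain ⟨f, hf⟩ := exists_balanced (X := {p // e p = i}) (Y := {s : Finset (Fin N) // s.card = i})
    refine ⟨f, fun y => ?_⟩
    convert hf y
  choose f hf using h1
  refine ⟨fun p => (f (e p) (he p).2 ⟨p, rfl⟩).1, fun p => (f (e p) (he p).2 ⟨p, rfl⟩).2, ?_⟩
  intro s hs
  have h2 := hf s.card hs ⟨s, rfl⟩
  have h3 : Fintype.card {s' : Finset (Fin N) // s'.card = s.card} = N.choose s.card := by
    rw [Fintype.card_finset_len, Fintype.card_fin]
  have h4 : Fintype.card {p // e p = s.card} =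
      (Finset.univ.filter (fun p => e p = s.card)).card := by
    rw [Fintype.card_subtype]
  rw [h3, h4] at h2
  refine le_trans ?_ h2
  apply Finset.card_le_card_of_surjOn (fun x : {p // e p = s.card} => x.1)
  intro p hp
  simp only [Finset.coe_filter, Finset.mem_univ, true_and, Set.mem_ofPred_eq] at hp
  have h5 : e p = s.card := by
    rw [← hp]
    exact (f (e p) (he p).2 ⟨p, rfl⟩).2.symm
  refine ⟨⟨p, h5⟩, ?_, rfl⟩
  simp only [Finset.coe_filter, Finset.mem_univ, true_and, Set.mem_ofPred_eq]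
  apply Subtype.ext
  show (f s.card hs ⟨p, h5⟩).1 = s
  have key : ∀ (i : ℕ) (hi : i ≤ d) (hpi : e p = i),
      (f i hi ⟨p, hpi⟩).1 = (f (e p) (he p).2 ⟨p, rfl⟩).1 := by
    intro i hi hpi
    subst hpi
    rfl
  rw [key s.card hs h5, hp]

/-- the load of a set of blocks -/
private lemma indMain_load {P : Type} [Fintype P] (d N h r : ℕ) (hh : 1 ≤ h) (ε : ℝ)
    (hε : 0 < ε) (hh2 : 4 * (2 : ℝ) ^ d ≤ ε * h) (e : P → ℕ)
    (he : ∀ p, 1 ≤ e p ∧ e p ≤ d)
    (hsum : (∑ p, ((r + (d - e p)).choose r : ℝ)) ≤ (1 - ε) * ((r + d).choose r : ℝ))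
    (hest : ∀ e : ℕ, 1 ≤ e → e ≤ d →
        (d.choose e : ℝ) / ((N.choose e : ℝ) * (h : ℝ) ^ e) ≤
          (1 + ε / 2) * ((r + (d - e)).choose r : ℝ) / ((r + d).choose r : ℝ))
    (c : P → Finset (Fin N)) (hc : ∀ p, (c p).card = e p)
    (hc2 : ∀ s : Finset (Fin N), s.card ≤ d → (Finset.univ.filter (fun p => c p = s)).card ≤
        (Finset.univ.filter (fun p => e p = s.card)).card / N.choose s.card + 1)
    (J : Finset (Fin N)) (hJ : J.card ≤ d) :
    ∑ p ∈ Finset.univ.filter (fun p => c p ⊆ J), (1 : ℝ) / (h : ℝ) ^ (c p).card ≤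
      1 - ε / 4 := by
  have hh0 : (0 : ℝ) < h := by exact_mod_cast hh
  have hh1 : (1 : ℝ) ≤ h := by exact_mod_cast hh
  have hS : (0 : ℝ) < ((r + d).choose r : ℝ) := by
    exact_mod_cast Nat.choose_pos (Nat.le_add_right r d)
  set k : ℕ → ℕ := fun i => (Finset.univ.filter (fun p => e p = i)).card with hk
  set F : ℕ → ℝ := fun i => if i = 0 then 0 else ((k i : ℝ) / (N.choose i : ℝ) + 1) /
    (h : ℝ) ^ i with hF
  have hF0 : ∀ i, 0 ≤ F i := by
    intro i
    simp only [hF]
    split_ifs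
    · exact le_refl _
    · positivity
  have e1 : ∑ p ∈ Finset.univ.filter (fun p => c p ⊆ J), (1 : ℝ) / (h : ℝ) ^ (c p).card =
      ∑ s ∈ J.powerset, ∑ p ∈ (Finset.univ.filter (fun p => c p ⊆ J)).filter (fun p => c p = s),
        (1 : ℝ) / (h : ℝ) ^ (c p).card := by
    rw [Finset.sum_fiberwise_of_maps_to]
    intro p hp
    rw [Finset.mem_powerset]
    exact (Finset.mem_filter.mp hp).2
  have e2 : ∀ s ∈ J.powerset, ∑ p ∈ (Finset.univ.filter (fun p => c p ⊆ J)).filter
      (fun p => c p = s), (1 : ℝ) / (h : ℝ) ^ (c p).card ≤ F s.card := by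
    intro s hs
    rw [Finset.mem_powerset] at hs
    have hsd : s.card ≤ d := (Finset.card_le_card hs).trans hJ
    have h1 : ∑ p ∈ (Finset.univ.filter (fun p => c p ⊆ J)).filter
        (fun p => c p = s), (1 : ℝ) / (h : ℝ) ^ (c p).card =
        (((Finset.univ.filter (fun p => c p ⊆ J)).filter (fun p => c p = s)).card : ℝ) *
          (1 / (h : ℝ) ^ s.card) := by
      rw [← nsmul_eq_mul, ← Finset.sum_const]
      apply Finset.sum_congr rfl
      intro p hp
      rw [(Finset.mem_filter.mp hp).2]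
    rw [h1]
    by_cases hs0 : s.card = 0
    · have h2 : ((Finset.univ.filter (fun p => c p ⊆ J)).filter (fun p => c p = s)).card = 0 := by
        rw [Finset.card_eq_zero, Finset.filter_eq_empty_iff]
        intro p _ hps
        have h3 := hc p
        rw [hps, hs0] at h3
        have := (he p).1
        omega
      rw [h2]
      simp only [hF, hs0, if_true]
      simp
    · simp only [hF, hs0, if_false]
      have h2 : (((Finset.univ.filter (fun p => c p ⊆ J)).filter (fun p => c p = s)).card : ℝ) ≤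
          (k s.card : ℝ) / (N.choose s.card : ℝ) + 1 := by
        have h3 : ((Finset.univ.filter (fun p => c p ⊆ J)).filter (fun p => c p = s)).card ≤
            k s.card / N.choose s.card + 1 := by
          refine le_trans (Finset.card_le_card ?_) (hc2 s hsd)
          intro p hp
          rw [Finset.mem_filter] at hp ⊢
          exact ⟨Finset.mem_univ _, hp.2⟩
        have h4 : (((Finset.univ.filter (fun p => c p ⊆ J)).filter (fun p => c p = s)).card : ℝ) ≤
            ((k s.card / N.choose s.card + 1 : ℕ) : ℝ) := by exact_mod_cast h3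
        push_cast at h4
        have h5 : ((k s.card / N.choose s.card : ℕ) : ℝ) ≤
            (k s.card : ℝ) / (N.choose s.card : ℝ) := Nat.cast_div_le
        linarith
      rw [mul_one_div]
      apply div_le_div_of_nonneg_right h2 (by positivity)
  have e3 : ∑ s ∈ J.powerset, F s.card ≤ ∑ m ∈ Finset.range (d + 1), (d.choose m : ℝ) * F m := by
    rw [Finset.sum_powerset_apply_card]
    calc ∑ m ∈ Finset.range (J.card + 1), (J.card.choose m) • F m
        ≤ ∑ m ∈ Finset.range (J.card + 1), (d.choose m : ℝ) * F m := by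
          apply Finset.sum_le_sum
          intro m _
          rw [nsmul_eq_mul]
          apply mul_le_mul_of_nonneg_right _ (hF0 m)
          exact_mod_cast Nat.choose_le_choose m hJ
      _ ≤ ∑ m ∈ Finset.range (d + 1), (d.choose m : ℝ) * F m := by
          apply Finset.sum_le_sum_of_subset_of_nonneg
          · intro m hm
            rw [Finset.mem_range] at hm ⊢
            omega
          · intro m _ _
            exact mul_nonneg (Nat.cast_nonneg _) (hF0 m)
  have e4 : ∀ m ∈ Finset.range (d + 1), (d.choose m : ℝ) * F m ≤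
      (k m : ℝ) * ((1 + ε / 2) * ((r + (d - m)).choose r : ℝ) / ((r + d).choose r : ℝ)) +
        (d.choose m : ℝ) * (1 / h) := by
    intro m hm
    rw [Finset.mem_range] at hm
    by_cases hm0 : m = 0
    · have : F m = 0 := by simp only [hF, hm0, if_true]
      rw [this]
      have h1 : (0 : ℝ) ≤ 1 + ε / 2 := by linarith
      simp only [mul_zero]
      positivity
    · have h1 : F m = ((k m : ℝ) / (N.choose m : ℝ) + 1) / (h : ℝ) ^ m := by
        simp only [hF, hm0, if_false]
      rw [h1]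
      have h2 := hest m (by omega) (by omega)
      have h3 : (d.choose m : ℝ) * (((k m : ℝ) / (N.choose m : ℝ) + 1) / (h : ℝ) ^ m) =
          (k m : ℝ) * ((d.choose m : ℝ) / ((N.choose m : ℝ) * (h : ℝ) ^ m)) +
            (d.choose m : ℝ) * (1 / (h : ℝ) ^ m) := by
        rw [add_div, mul_add, div_div]
        ring
      rw [h3]
      apply add_le_add
      · exact mul_le_mul_of_nonneg_left h2 (Nat.cast_nonneg _)
      · apply mul_le_mul_of_nonneg_left _ (Nat.cast_nonneg _)
        apply one_div_le_one_div_of_le hh0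
        exact le_self_pow₀ hh1 hm0
  have e5 : ∑ m ∈ Finset.range (d + 1), (k m : ℝ) *
      ((1 + ε / 2) * ((r + (d - m)).choose r : ℝ) / ((r + d).choose r : ℝ)) =
      ∑ p, ((1 + ε / 2) * ((r + (d - e p)).choose r : ℝ) / ((r + d).choose r : ℝ)) := by
    rw [← Finset.sum_fiberwise_of_maps_to (s := (Finset.univ : Finset P))
      (t := Finset.range (d + 1)) (g := e)
      (fun p _ => Finset.mem_range.mpr (Nat.lt_succ_of_le (he p).2))]
    apply Finset.sum_congr rfl
    intro m _
    rw [hk, ← nsmul_eq_mul, ← Finset.sum_const]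
    apply Finset.sum_congr rfl
    intro p hp
    rw [(Finset.mem_filter.mp hp).2]
  have e6 : ∑ p, ((1 + ε / 2) * ((r + (d - e p)).choose r : ℝ) / ((r + d).choose r : ℝ)) ≤
      (1 + ε / 2) * (1 - ε) := by
    rw [← Finset.sum_div, ← Finset.mul_sum, div_le_iff₀ hS, mul_assoc]
    exact mul_le_mul_of_nonneg_left hsum (by linarith)
  have e7 : ∑ m ∈ Finset.range (d + 1), (d.choose m : ℝ) * (1 / h) ≤ ε / 4 := by
    rw [← Finset.sum_mul]
    have h1 : ∑ m ∈ Finset.range (d + 1), (d.choose m : ℝ) = (2 : ℝ) ^ d := by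
      exact_mod_cast Nat.sum_range_choose d
    rw [h1, mul_one_div, div_le_iff₀ hh0]
    linarith
  calc ∑ p ∈ Finset.univ.filter (fun p => c p ⊆ J), (1 : ℝ) / (h : ℝ) ^ (c p).card
      ≤ ∑ s ∈ J.powerset, F s.card := by
        rw [e1]; exact Finset.sum_le_sum e2
    _ ≤ ∑ m ∈ Finset.range (d + 1), (d.choose m : ℝ) * F m := e3
    _ ≤ ∑ m ∈ Finset.range (d + 1), ((k m : ℝ) *
        ((1 + ε / 2) * ((r + (d - m)).choose r : ℝ) / ((r + d).choose r : ℝ)) +
        (d.choose m : ℝ) * (1 / h)) := Finset.sum_le_sum e4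
    _ ≤ (1 + ε / 2) * (1 - ε) + ε / 4 := by
        rw [Finset.sum_add_distrib, e5]
        exact add_le_add e6 e7
    _ ≤ 1 - ε / 4 := by nlinarith

/-- The independence theorem. -/
theorem ind_main (d : ℕ) (hd : 1 ≤ d) (ε : ℝ) (hε : 0 < ε) : ∃ r₀ : ℕ, ∀ r : ℕ, r₀ ≤ r →
    ∀ (P : Type) [Fintype P] (e : P → ℕ), (∀ p, 1 ≤ e p ∧ e p ≤ d) →
    (∀ p q, p ≠ q → d + 1 ≤ e p + e q) →
    (∑ p, ((r + (d - e p)).choose r : ℝ)) ≤ (1 - ε) * ((r + d).choose r : ℝ) →
    ∃ w : P → Fin (r + 1) → ℂ, Indep d w e := by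
  obtain ⟨W, hW⟩ := ind_blocks d (ε / 4) (by positivity)
  set h : ℕ := max W (max 1 ⌈4 * (2 : ℝ) ^ d / ε⌉₊) with hh
  have hhW : W ≤ h := le_max_left _ _
  have hh1 : 1 ≤ h := (le_max_left _ _).trans (le_max_right _ _)
  have hh2 : 4 * (2 : ℝ) ^ d ≤ ε * h := by
    have h1 : ⌈4 * (2 : ℝ) ^ d / ε⌉₊ ≤ h := (le_max_right _ _).trans (le_max_right _ _)
    have h2 : 4 * (2 : ℝ) ^ d / ε ≤ h := (Nat.le_ceil _).trans (by exact_mod_cast h1)
    rw [div_le_iff₀ hε] at h2
    linarith
  have hh0 : (0 : ℝ) < h := by exact_mod_cast hh1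
  obtain ⟨r₁, hr₁⟩ := load_estimate d h hd hh1 (ε / 2) (by positivity)
  refine ⟨max r₁ (h ^ d), ?_⟩
  intro r hr P _ e he hpair hsum
  have hr1 : r₁ ≤ r := (le_max_left _ _).trans hr
  have hr2 : h ^ d ≤ r := (le_max_right _ _).trans hr
  set N : ℕ := (r + 1 - h ^ d) / h with hN
  have hN1 : N * h ≤ r + 1 - h ^ d := Nat.div_mul_le_self _ _
  have hN2 : r + 1 - h ^ d < (N + 1) * h := by
    have h1 := Nat.lt_mul_div_succ (r + 1 - h ^ d) hh1
    rw [hN, mul_comm]
    exact h1
  obtain ⟨hdN, hest⟩ := hr₁ r hr1 N (by omega)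
  obtain ⟨c, hc, hc2⟩ := indMain_types d N hdN e he
  have hload := fun J hJ => indMain_load d N h r hh1 ε hε hh2 e he hsum hest c hc hc2 J hJ
  obtain ⟨w, hw⟩ := hW N (Fin h) (Fin (r + 1 - N * h)) P (by simpa using hhW) c
    (fun p => by rw [hc p]; exact (he p).2)
    (fun p => by rw [← Finset.card_pos, hc p]; exact (he p).1)
    (fun p q hpq => by rw [hc p, hc q]; exact hpair p q hpq)
    (by
      intro J hJ
      have h1 := hload J hJ
      rw [Fintype.card_fin, Fintype.card_fin]
      refine ⟨?_, h1⟩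
      have h2 : ((Finset.univ.filter (fun p => c p ⊆ J)).card : ℝ) * (1 / (h : ℝ) ^ d) ≤
          ∑ p ∈ Finset.univ.filter (fun p => c p ⊆ J), (1 : ℝ) / (h : ℝ) ^ (c p).card := by
        rw [← nsmul_eq_mul, ← Finset.sum_const]
        apply Finset.sum_le_sum
        intro p _
        apply one_div_le_one_div_of_le (by positivity)
        apply pow_le_pow_right₀ (by exact_mod_cast hh1)
        rw [hc p]
        exact (he p).2
      have h3 : ((Finset.univ.filter (fun p => c p ⊆ J)).card : ℝ) ≤ (h : ℝ) ^ d := by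
        have h4 := h2.trans h1
        rw [mul_one_div, div_le_iff₀ (by positivity)] at h4
        have h5 : (0 : ℝ) < (h : ℝ) ^ d := by positivity
        nlinarith
      have h4 : (Finset.univ.filter (fun p => c p ⊆ J)).card ≤ h ^ d := by exact_mod_cast h3
      omega)
  have hcard : (fun p => (c p).card) = e := funext hc
  rw [hcard] at hw
  have hE : Fintype.card (Sg N (Fin h) (Fin (r + 1 - N * h))) = r + 1 := by
    simp only [Fintype.card_sum, Fintype.card_prod, Fintype.card_fin]
    omega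
  exact ⟨_, indep_transport (Fintype.equivFinOfCardEq hE) d w e hw⟩

end Pool.Agent.H21.HD
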