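import Pool.Agent.H21.HD.Defs
import Pool.Agent.H18.FatToric
import Pool.Agent.H21.HD.IndMain
import Pool.Agent.H21.HD.BridgeB

/-!
Independence for general points.
-/

namespace Pool.Agent.H21.HD

open MvPolynomial Pool.Agent.H18.Fat
open scoped Classical

/-- Independence in the absence of a pair with large multiplicities. -/
theorem indep_general (d : ℕ) (hd : 1 ≤ d) (ε : ℝ) (hε : 0 < ε) : ∃ r₀ : ℕ, ∀ r : ℕ, r₀ ≤ r →
    ∀ (k : ℕ) (m : Fin k → ℕ), (∀ i, 1 ≤ m i ∧ m i ≤ d) →
    (∀ i j, i ≠ j → m i + m j ≤ d + 1) →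
    (∑ i, ((m i + r - 1).choose r : ℝ)) ≤ (1 - ε) * ((d + r).choose r : ℝ) →
    ForGeneralPoints r k fun p => ImposesMaximalConditions r d p m := by
  obtain ⟨r₀, h⟩ := ind_main d hd ε hε
  refine ⟨max r₀ 1, fun r hr k m hm hpair hsum => ?_⟩
  have hr0 : r₀ ≤ r := (le_max_left _ _).trans hr
  have hr1 : 1 ≤ r := (le_max_right _ _).trans hr
  obtain ⟨w, hw⟩ := h r hr0 (Fin k) (fun i => d + 1 - m i)
    (fun i => by have := hm i; omega)
    (fun i j hij => by have := hpair i j hij; have := hm i; have := hm j; omega)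
    (by
      have h1 : ∀ i, ((r + (d - (d + 1 - m i))).choose r : ℝ) = ((m i + r - 1).choose r : ℝ) := by
        intro i
        have := hm i
        congr 2
        omega
      simp only [h1]
      rwa [add_comm r d])
  have h1 := finrank_fat_of_indep d w m hm hw
  refine ((general_finrank_le d w m).and (ForGeneralPoints.coord_ne_zero r k)).mono ?_
  rintro p ⟨hp1, hp2⟩
  have h2 := finrank_fatForms_ge (d := d) hr1 (fun i => hp2 i 0) m
  unfold ImposesMaximalConditions
  have h3 : (Module.finrank ℂ (fatForms r d p m) : ℤ) ≤ Module.finrank ℂ (fatForms r d w m) := by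
    exact_mod_cast hp1
  have h4 : (0 : ℤ) ≤ Module.finrank ℂ (fatForms r d p m) := by positivity
  rw [max_eq_right (by linarith)]
  linarith

end Pool.Agent.H21.HD
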