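import Pool.Agent.H21.HD.FroB
import Pool.Agent.H21.HD.BridgeC

/-!
Project HD: versions of some lemmas for arbitrary decidability instances.
-/

namespace Pool.Agent.H21.HD

open MvPolynomial Pool.Agent.H18.Fat

theorem fro_insert' {P : Type} [DecidableEq P] (r : ℕ) (e : P → ℕ) (I : Finset P) (i : P)
    (hi : i ∉ I) (j : ℕ) :
    fro r e (insert i I) j = fro r e I j - (if e i ≤ j then fro r e I (j - e i) else 0) := by
  have h0 : ∀ D : DecidableEq P, @insert P (Finset P) (@Finset.instInsert P D) i I =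
      Finset.cons i I hi := fun D => (Finset.cons_eq_insert i I hi).symm
  have h := fro_insert r e I i hi j
  rw [h0] at h ⊢
  exact h

theorem fro_simple' {P : Type} [DecidableEq P] (r d : ℕ) (e : P → ℕ) (I S : Finset P)
    (hd : Disjoint I S) (he : ∀ i ∈ I, 1 ≤ e i) (hd1 : 1 ≤ d) (hS : ∀ i ∈ S, e i = d) :
    fro r e (I ∪ S) d = fro r e I d - S.card := by
  have h0 : ∀ D : DecidableEq P, @Union.union (Finset P) (@Finset.instUnion P D) I S =
      Finset.disjUnion I S hd := fun D => (Finset.disjUnion_eq_union I S hd).symm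
  have h := fro_simple r d e I S hd he hd1 hS
  rw [h0] at h ⊢
  exact h

theorem finrank_fat_le_add' {r : ℕ} {ι : Type} [Fintype ι] [E : DecidableEq ι] (d : ℕ)
    (p : ι → Fin (r + 1) → ℂ) (m : ι → ℕ) (i₀ : ι) (e : ℕ) (he : e ≤ d) (hi₀ : m i₀ = 0) :
    Module.finrank ℂ (fatForms r d p m) ≤
      Module.finrank ℂ (fatForms r d p (Function.update m i₀ (d + 1 - e))) +
        Module.finrank ℂ (fatForms r (d - e) p (fun i => m i - e)) := by
  have h := finrank_fat_le_add (r := r) d p m i₀ e he hi₀
  have h1 : ∀ D : DecidableEq ι, @Function.update ι (fun _ => ℕ) D m i₀ (d + 1 - e) =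
      @Function.update ι (fun _ => ℕ) E m i₀ (d + 1 - e) := by
    intro D
    funext i
    by_cases hi : i = i₀
    · subst hi
      exact (@Function.update_self ι (fun _ => ℕ) D i (d + 1 - e) m).trans
        (@Function.update_self ι (fun _ => ℕ) E i (d + 1 - e) m).symm
    · exact (@Function.update_of_ne ι (fun _ => ℕ) D i i₀ hi (d + 1 - e) m).trans
        (@Function.update_of_ne ι (fun _ => ℕ) E i i₀ hi (d + 1 - e) m).symm
  rw [h1] at h
  exact h

end Pool.Agent.H21.HD
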