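import Pool.Agent.H21.HD.Defs

/-!
Recursions for fro.
-/

namespace Pool.Agent.H21.HD

open scoped Classical

/-- Adding a point. -/
theorem fro_insert {P : Type} (r : ℕ) (e : P → ℕ) (I : Finset P) (i : P) (hi : i ∉ I) (j : ℕ) :
    fro r e (insert i I) j = fro r e I j - (if e i ≤ j then fro r e I (j - e i) else 0) := by
  unfold fro
  rw [Finset.sum_powerset_insert hi, sub_eq_add_neg]
  congr 1
  by_cases hij : e i ≤ j
  · rw [if_pos hij, ← Finset.sum_neg_distrib]
    refine Finset.sum_congr rfl fun T hT => ?_
    have hiT : i ∉ T := fun h => hi (Finset.mem_powerset.1 hT h)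
    rw [Finset.card_insert_of_notMem hiT, Finset.sum_insert hiT, pow_succ]
    by_cases h2 : ∑ x ∈ T, e x ≤ j - e i
    · have h3 : e i + ∑ x ∈ T, e x ≤ j := by omega
      rw [if_pos h2, if_pos h3]
      have h4 : r + j - (e i + ∑ x ∈ T, e x) = r + (j - e i) - ∑ x ∈ T, e x := by omega
      rw [h4]
      ring
    · have h3 : ¬ (e i + ∑ x ∈ T, e x ≤ j) := by omega
      rw [if_neg h2, if_neg h3]
      ring
  · rw [if_neg hij, neg_zero]
    refine Finset.sum_eq_zero fun T hT => ?_
    have hiT : i ∉ T := fun h => hi (Finset.mem_powerset.1 hT h)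
    rw [Finset.sum_insert hiT, if_neg (by omega), mul_zero]

namespace FroAX

theorem fro_empty {P : Type} (r : ℕ) (e : P → ℕ) (j : ℕ) :
    fro r e (∅ : Finset P) j = ((r + j).choose r : ℤ) := by
  simp [fro]

/-- Hockey stick. -/
theorem hockey (r j : ℕ) :
    ∑ t ∈ Finset.range j, ((r + (j - 1 - t)).choose r : ℤ) = ((r + j).choose (r + 1) : ℤ) := by
  rw [Finset.sum_range_reflect (fun i => ((r + i).choose r : ℤ)) j]
  induction j with
  | zero => simp
  | succ n ih =>
    rw [Finset.sum_range_succ, ih]
    have := Nat.choose_succ_succ (r + n) r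
    push_cast [← Nat.add_assoc] at this ⊢
    rw [Nat.succ_eq_add_one] at this
    rw [this]
    push_cast
    ring

theorem base (r j : ℕ) :
    (j : ℤ) * ((r + j).choose r : ℤ) = ((r : ℤ) + 1) *
      ∑ t ∈ Finset.range j, ((r + (j - 1 - t)).choose r : ℤ) := by
  rw [hockey]
  have h := Nat.choose_succ_right_eq (r + j) r
  have h2 : r + j - r = j := by omega
  rw [h2] at h
  have h3 : (((r + j).choose (r + 1) * (r + 1) : ℕ) : ℤ) = (((r + j).choose r * j : ℕ) : ℤ) := by
    rw [h]
  push_cast at h3
  linarith

/-- Telescoping over the multiples of `c`. -/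
theorem tele (c : ℕ) (hc : 1 ≤ c) (F : ℕ → ℤ) (j : ℕ) :
    ∑ t ∈ Finset.range j, (if c ∣ t + 1 then
      (F (j - 1 - t) - (if c ≤ j - 1 - t then F (j - 1 - t - c) else 0)) else 0) =
      if c ≤ j then F (j - c) else 0 := by
  induction j using Nat.strong_induction_on with
  | _ j ih =>
    by_cases hcj : c ≤ j
    · obtain ⟨m, rfl⟩ := Nat.exists_eq_add_of_le hcj
      rw [if_pos hcj, Finset.sum_range_add]
      have h1 : ∑ x ∈ Finset.range c, (if c ∣ x + 1 then
          (F (c + m - 1 - x) - (if c ≤ c + m - 1 - x then F (c + m - 1 - x - c) else 0)) else 0)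
          = F m - (if c ≤ m then F (m - c) else 0) := by
        rw [Finset.sum_eq_single (c - 1)]
        · have h2 : c - 1 + 1 = c := by omega
          have h3 : c + m - 1 - (c - 1) = m := by omega
          rw [h2, if_pos (dvd_refl c), h3]
        · intro b hb hbc
          have hb' := Finset.mem_range.1 hb
          rw [if_neg]
          intro hd
          have := Nat.le_of_dvd (Nat.succ_pos b) hd
          omega
        · intro h
          exact absurd (Finset.mem_range.2 (by omega)) h
      rw [h1]
      have h4 : ∑ x ∈ Finset.range m, (if c ∣ c + x + 1 then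
          (F (c + m - 1 - (c + x)) - (if c ≤ c + m - 1 - (c + x) then
            F (c + m - 1 - (c + x) - c) else 0)) else 0)
          = if c ≤ m then F (m - c) else 0 := by
        rw [← ih m (by omega)]
        refine Finset.sum_congr rfl fun x hx => ?_
        have h5 : c + m - 1 - (c + x) = m - 1 - x := by omega
        have h6 : (c ∣ c + x + 1) ↔ (c ∣ x + 1) := by
          rw [Nat.add_assoc]
          exact Nat.dvd_add_right (dvd_refl c)
        rw [h5]
        simp only [h6]
      rw [h4]
      have h7 : c + m - c = m := by omega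
      rw [h7]
      ring
    · rw [if_neg hcj]
      refine Finset.sum_eq_zero fun t ht => ?_
      have ht' := Finset.mem_range.1 ht
      rw [if_neg]
      intro hd
      have := Nat.le_of_dvd (Nat.succ_pos t) hd
      omega

end FroAX

/-- The logarithmic derivative recursion. -/
theorem fro_rec {P : Type} (r : ℕ) (e : P → ℕ) (I : Finset P) (he : ∀ i ∈ I, 1 ≤ e i) (j : ℕ) :
    (j : ℤ) * fro r e I j = ∑ t ∈ Finset.range j,
      (((r : ℤ) + 1) - ∑ i ∈ I.filter (fun i => e i ∣ t + 1), (e i : ℤ)) *
        fro r e I (j - 1 - t) := by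
  induction I using Finset.induction_on generalizing j with
  | empty =>
    simp only [FroAX.fro_empty, Finset.filter_empty, Finset.sum_empty, sub_zero]
    rw [FroAX.base, Finset.mul_sum]
  | insert a s ha ih =>
    have he' : ∀ i ∈ s, 1 ≤ e i := fun i hi => he i (Finset.mem_insert_of_mem hi)
    have hea : 1 ≤ e a := he a (Finset.mem_insert_self a s)
    have ih' := ih he'
    set L : ℕ → ℤ := fun t => (((r : ℤ) + 1) - ∑ i ∈ s.filter (fun i => e i ∣ t + 1), (e i : ℤ))
      with hL
    have hfil : ∀ t, (((r : ℤ) + 1) - ∑ i ∈ (insert a s).filter (fun i => e i ∣ t + 1),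
        (e i : ℤ)) = L t - (if e a ∣ t + 1 then (e a : ℤ) else 0) := by
      intro t
      rw [Finset.filter_insert]
      by_cases hd : e a ∣ t + 1
      · rw [if_pos hd, if_pos hd, Finset.sum_insert]
        · simp only [hL]
          ring
        · intro h
          exact ha (Finset.mem_filter.1 h).1
      · rw [if_neg hd, if_neg hd, sub_zero]
    have hins : ∀ j, fro r e (insert a s) j =
        fro r e s j - (if e a ≤ j then fro r e s (j - e a) else 0) :=
      fun j => fro_insert r e s a ha j
    have hsum : ∑ t ∈ Finset.range j,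
        (((r : ℤ) + 1) - ∑ i ∈ (insert a s).filter (fun i => e i ∣ t + 1), (e i : ℤ)) *
          fro r e (insert a s) (j - 1 - t) =
        ∑ t ∈ Finset.range j, L t * fro r e s (j - 1 - t) -
        ∑ t ∈ Finset.range j, L t * (if e a ≤ j - 1 - t then fro r e s (j - 1 - t - e a) else 0) -
        (e a : ℤ) * ∑ t ∈ Finset.range j, (if e a ∣ t + 1 then
          (fro r e s (j - 1 - t) - (if e a ≤ j - 1 - t then fro r e s (j - 1 - t - e a) else 0))
            else 0) := by
      rw [Finset.mul_sum, ← Finset.sum_sub_distrib, ← Finset.sum_sub_distrib]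
      refine Finset.sum_congr rfl fun t _ => ?_
      rw [hfil, hins]
      by_cases hd : e a ∣ t + 1
      · rw [if_pos hd, if_pos hd]
        ring
      · rw [if_neg hd, if_neg hd]
        ring
    rw [hsum, FroAX.tele (e a) hea, ← ih' j, hins]
    have hmid : ∑ t ∈ Finset.range j,
        L t * (if e a ≤ j - 1 - t then fro r e s (j - 1 - t - e a) else 0) =
        if e a ≤ j then ((j - e a : ℕ) : ℤ) * fro r e s (j - e a) else 0 := by
      by_cases haj : e a ≤ j
      · rw [if_pos haj, ih' (j - e a)]
        obtain ⟨m, rfl⟩ := Nat.exists_eq_add_of_le haj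
        have h7 : e a + m - e a = m := by omega
        rw [h7, Nat.add_comm (e a) m, Finset.sum_range_add]
        have h8 : ∑ x ∈ Finset.range (e a), L (m + x) * (if e a ≤ m + e a - 1 - (m + x) then
            fro r e s (m + e a - 1 - (m + x) - e a) else 0) = 0 := by
          refine Finset.sum_eq_zero fun x hx => ?_
          rw [if_neg (by omega), mul_zero]
        rw [h8, add_zero]
        refine Finset.sum_congr rfl fun t ht => ?_
        have ht' := Finset.mem_range.1 ht
        have h9 : e a ≤ m + e a - 1 - t := by omega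
        have h10 : m + e a - 1 - t - e a = m - 1 - t := by omega
        rw [if_pos h9, h10]
      · rw [if_neg haj]
        refine Finset.sum_eq_zero fun t ht => ?_
        have ht' := Finset.mem_range.1 ht
        rw [if_neg (by omega), mul_zero]
    rw [hmid]
    by_cases haj : e a ≤ j
    · rw [if_pos haj, if_pos haj, Nat.cast_sub haj]
      ring
    · rw [if_neg haj, if_neg haj]
      ring

end Pool.Agent.H21.HD
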