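import Pool.Agent.H21.HD.Defs
import Pool.Agent.H21.HD.FroA

/-!
Further lemmas on `fro`.
-/

namespace Pool.Agent.H21.HD

open scoped Classical

lemma fro_zero {P : Type} (r : ℕ) (e : P → ℕ) (I : Finset P) (he : ∀ i ∈ I, 1 ≤ e i) :
    fro r e I 0 = 1 := by
  unfold fro
  rw [Finset.sum_eq_single ∅]
  · simp
  · intro T hT hne
    obtain ⟨i, hi⟩ := Finset.nonempty_iff_ne_empty.2 hne
    rw [if_neg, mul_zero]
    have h2 : e i ≤ ∑ i ∈ T, e i := Finset.single_le_sum (fun _ _ => Nat.zero_le _) hi
    have h3 := he i (Finset.mem_powerset.1 hT hi)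
    omega
  · intro h2
    exact absurd (Finset.empty_mem_powerset I) h2

lemma fro_map {P R : Type} (r : ℕ) (f : P ↪ R) (e : R → ℕ) (I : Finset P) (j : ℕ) :
    fro r e (I.map f) j = fro r (fun p => e (f p)) I j := by
  induction I using Finset.induction_on generalizing j with
  | empty => simp [fro]
  | insert a s ha ih =>
    rw [Finset.map_insert, fro_insert r e _ _ (by simpa using ha), fro_insert r _ s a ha, ih]
    simp only [ih]

/-- Adding simple points. -/
lemma fro_simple {P : Type} (r d : ℕ) (e : P → ℕ) (I S : Finset P) (hd : Disjoint I S)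
    (he : ∀ i ∈ I, 1 ≤ e i) (hd1 : 1 ≤ d) (hS : ∀ i ∈ S, e i = d) :
    fro r e (I ∪ S) d = fro r e I d - S.card := by
  induction S using Finset.induction_on with
  | empty => simp
  | insert a s ha ih =>
    have h1 : a ∉ I := fun h => (Finset.disjoint_left.1 hd h) (Finset.mem_insert_self a s)
    have h2 : a ∉ I ∪ s := by
      rw [Finset.mem_union]
      tauto
    have h3 : Disjoint I s := hd.mono_right (Finset.subset_insert a s)
    have h4 : ∀ i ∈ s, e i = d := fun i hi => hS i (Finset.mem_insert_of_mem hi)
    rw [Finset.union_insert, fro_insert r e _ a h2, ih h3 h4, hS a (Finset.mem_insert_self a s),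
      if_pos le_rfl, Nat.sub_self, fro_zero, Finset.card_insert_of_notMem ha]
    · push_cast
      ring
    · intro i hi
      rcases Finset.mem_union.1 hi with h5 | h5
      · exact he i h5
      · rw [h4 i h5]
        exact hd1

/-- Points with large exponents do not contribute. -/
lemma fro_union_large {P : Type} (r j : ℕ) (e : P → ℕ) (I S : Finset P) (hd : Disjoint I S)
    (hS : ∀ i ∈ S, j < e i) : fro r e (I ∪ S) j = fro r e I j := by
  induction S using Finset.induction_on with
  | empty => simp
  | insert a s ha ih =>
    have h1 : a ∉ I := fun h => (Finset.disjoint_left.1 hd h) (Finset.mem_insert_self a s)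
    have h2 : a ∉ I ∪ s := by
      rw [Finset.mem_union]
      tauto
    rw [Finset.union_insert, fro_insert r e _ a h2, ih (hd.mono_right (Finset.subset_insert a s))
      fun i hi => hS i (Finset.mem_insert_of_mem hi), if_neg, sub_zero]
    have := hS a (Finset.mem_insert_self a s)
    omega

end Pool.Agent.H21.HD
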