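import Pool.Agent.H21.HD.Defs

/-!
Facts on phi.
-/

namespace Pool.Agent.H21.HD

open scoped Classical

namespace PhiNumX

theorem phi_zero (κ : ℕ → ℝ) : phi κ 0 = 1 := by
  rw [phi]

theorem phi_succ (κ : ℕ → ℝ) (j : ℕ) : phi κ (j + 1) =
    phi κ j - ∑ e ∈ Finset.range (j + 1), κ (e + 1) * (j.choose e : ℝ) * phi κ (j - e) := by
  rw [phi, Finset.sum_range]

theorem phi_congr (d : ℕ) (κ κ' : ℕ → ℝ) (h : ∀ i, 1 ≤ i → i ≤ d → κ i = κ' i) :
    ∀ j ≤ d, phi κ j = phi κ' j := by
  intro j
  induction j using Nat.strong_induction_on with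
  | _ j ih =>
    intro hj
    cases j with
    | zero => rw [phi_zero, phi_zero]
    | succ j =>
      rw [phi_succ, phi_succ, ih j (by omega) (by omega)]
      congr 1
      refine Finset.sum_congr rfl fun e he => ?_
      have he' := Finset.mem_range.1 he
      rw [h (e + 1) (by omega) (by omega), ih (j - e) (by omega) (by omega)]

/-- With nonnegative loads and positive values, `phi` decreases. -/
theorem phi_le_sub (d : ℕ) (κ : ℕ → ℝ) (h0 : ∀ i, 0 ≤ κ i) (hpos : ∀ j ≤ d, 0 < phi κ j) (j : ℕ)
    (hj : j ≤ d) : phi κ (j + 1) ≤ phi κ j - κ (j + 1) := by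
  rw [phi_succ, Finset.sum_range_succ, Nat.choose_self, Nat.sub_self, phi_zero]
  have h1 : 0 ≤ ∑ e ∈ Finset.range j, κ (e + 1) * (j.choose e : ℝ) * phi κ (j - e) := by
    refine Finset.sum_nonneg fun e _ => ?_
    exact mul_nonneg (mul_nonneg (h0 _) (Nat.cast_nonneg _)) (hpos (j - e) (by omega)).le
  push_cast
  linarith

theorem phi_le_one (d : ℕ) (κ : ℕ → ℝ) (h0 : ∀ i, 0 ≤ κ i) (hpos : ∀ j ≤ d, 0 < phi κ j) :
    ∀ j ≤ d, phi κ j ≤ 1 := by
  intro j
  induction j with
  | zero => intro _; rw [phi_zero]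
  | succ j ih =>
    intro hj
    have h1 := phi_le_sub d κ h0 hpos j (by omega)
    have h2 := ih (by omega)
    have h3 := h0 (j + 1)
    linarith

end PhiNumX

open PhiNumX

/-- Monotonicity of `phi` inside the region. -/
theorem phi_anti (d : ℕ) (κ κ' : ℕ → ℝ) (h0 : ∀ i, 0 ≤ κ' i) (hle : ∀ i, κ' i ≤ κ i)
    (hpos : ∀ j ≤ d, 0 < phi κ j) : ∀ j ≤ d, phi κ j ≤ phi κ' j := by
  have key : ∀ j, j ≤ d → 0 < phi κ' j ∧ ∀ i ≤ j, phi κ j * phi κ' i ≤ phi κ' j * phi κ i := by
    intro j
    induction j using Nat.strong_induction_on with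
    | _ j ih =>
      intro hj
      cases j with
      | zero =>
        refine ⟨by rw [phi_zero]; norm_num, fun i hi => ?_⟩
        have : i = 0 := by omega
        subst this
        rw [phi_zero, phi_zero]
      | succ j =>
        obtain ⟨hp', hr⟩ := ih j (by omega) (by omega)
        have hp := hpos j (by omega)
        have h1 : phi κ (j + 1) * phi κ' j ≤ phi κ' (j + 1) * phi κ j := by
          rw [phi_succ κ, phi_succ κ', sub_mul, sub_mul, Finset.sum_mul, Finset.sum_mul]
          have h2 : ∑ e ∈ Finset.range (j + 1), κ' (e + 1) * (j.choose e : ℝ) *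
              phi κ' (j - e) * phi κ j ≤ ∑ e ∈ Finset.range (j + 1), κ (e + 1) *
              (j.choose e : ℝ) * phi κ (j - e) * phi κ' j := by
            refine Finset.sum_le_sum fun e _ => ?_
            have h3 := hr (j - e) (by omega)
            have h4 := hpos (j - e) (by omega)
            have hc : (0 : ℝ) ≤ (j.choose e : ℝ) := Nat.cast_nonneg _
            calc κ' (e + 1) * (j.choose e : ℝ) * phi κ' (j - e) * phi κ j
                = κ' (e + 1) * (j.choose e : ℝ) * (phi κ j * phi κ' (j - e)) := by ring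
              _ ≤ κ' (e + 1) * (j.choose e : ℝ) * (phi κ' j * phi κ (j - e)) :=
                mul_le_mul_of_nonneg_left h3 (mul_nonneg (h0 _) hc)
              _ = κ' (e + 1) * ((j.choose e : ℝ) * (phi κ' j * phi κ (j - e))) := by ring
              _ ≤ κ (e + 1) * ((j.choose e : ℝ) * (phi κ' j * phi κ (j - e))) :=
                mul_le_mul_of_nonneg_right (hle _)
                  (mul_nonneg hc (mul_nonneg hp'.le h4.le))
              _ = κ (e + 1) * (j.choose e : ℝ) * phi κ (j - e) * phi κ' j := by ring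
          linarith [mul_comm (phi κ j) (phi κ' j)]
        have hp1 := hpos (j + 1) hj
        have h5 : 0 < phi κ' (j + 1) * phi κ j := lt_of_lt_of_le (mul_pos hp1 hp') h1
        have h6 : 0 < phi κ' (j + 1) := by
          by_contra hcon
          push Not at hcon
          have := mul_nonpos_of_nonpos_of_nonneg hcon hp.le
          linarith
        refine ⟨h6, fun i hi => ?_⟩
        rcases Nat.lt_or_ge j i with h7 | h7
        · have : i = j + 1 := by omega
          subst this
          rw [mul_comm]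
        · have h8 := hr i h7
          have h9 : 0 < phi κ i := hpos i (by omega)
          have h10 : (phi κ (j + 1) * phi κ' i) * phi κ j ≤
              (phi κ' (j + 1) * phi κ i) * phi κ j := by
            calc (phi κ (j + 1) * phi κ' i) * phi κ j
                = phi κ (j + 1) * (phi κ j * phi κ' i) := by ring
              _ ≤ phi κ (j + 1) * (phi κ' j * phi κ i) := mul_le_mul_of_nonneg_left h8 hp1.le
              _ = (phi κ (j + 1) * phi κ' j) * phi κ i := by ring
              _ ≤ (phi κ' (j + 1) * phi κ j) * phi κ i := mul_le_mul_of_nonneg_right h1 h9.le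
              _ = (phi κ' (j + 1) * phi κ i) * phi κ j := by ring
          exact le_of_mul_le_mul_right h10 hp
  intro j hj
  have h := (key j hj).2 0 (Nat.zero_le j)
  rw [phi_zero, phi_zero, mul_one, mul_one] at h
  exact h

/-- Inside the region the loads are at most `1`. -/
theorem load_le_one (d : ℕ) (κ : ℕ → ℝ) (h0 : ∀ i, 0 ≤ κ i) (hpos : ∀ j ≤ d, 0 < phi κ j) :
    (∀ j ≤ d, phi κ j ≤ 1) ∧ ∀ i, 1 ≤ i → i ≤ d → κ i ≤ 1 := by
  refine ⟨phi_le_one d κ h0 hpos, fun i hi hid => ?_⟩
  obtain ⟨j, rfl⟩ := Nat.exists_eq_add_of_le' hi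
  have h1 := phi_le_sub d κ h0 hpos j (by omega)
  have h2 := phi_le_one d κ h0 hpos j (by omega)
  have h3 := hpos (j + 1) hid
  linarith

/-- Lipschitz estimate for `phi`. -/
theorem phi_lipschitz (j : ℕ) (C : ℝ) : ∃ L : ℝ, 0 ≤ L ∧ ∀ κ κ' : ℕ → ℝ,
    (∀ i, 0 ≤ κ i ∧ κ i ≤ C) → (∀ i, 0 ≤ κ' i ∧ κ' i ≤ C) → ∀ δ : ℝ,
    (∀ i, |κ i - κ' i| ≤ δ) → |phi κ j - phi κ' j| ≤ L * δ := by
  have key : ∀ j : ℕ, ∃ L : ℝ, 0 ≤ L ∧ ∀ i ≤ j, ∀ κ κ' : ℕ → ℝ,
      (∀ i, 0 ≤ κ i ∧ κ i ≤ C) → (∀ i, 0 ≤ κ' i ∧ κ' i ≤ C) →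
      |phi κ i| ≤ L ∧ ∀ δ : ℝ, (∀ i, |κ i - κ' i| ≤ δ) → |phi κ i - phi κ' i| ≤ L * δ := by
    intro j
    induction j with
    | zero =>
      refine ⟨1, zero_le_one, fun i hi κ κ' _ _ => ?_⟩
      have : i = 0 := by omega
      subst this
      refine ⟨by rw [phi_zero, abs_one], fun δ hδ => ?_⟩
      rw [phi_zero, phi_zero, sub_self, abs_zero, one_mul]
      exact le_trans (abs_nonneg _) (hδ 0)
    | succ j ih =>
      obtain ⟨L, hL0, hL⟩ := ih
      refine ⟨L + ∑ e ∈ Finset.range (j + 1), (|C| * (j.choose e : ℝ) * L +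
        (j.choose e : ℝ) * L), ?_, ?_⟩
      · refine add_nonneg hL0 (Finset.sum_nonneg fun e _ => ?_)
        positivity
      · intro i hi κ κ' hκ hκ'
        have hS : 0 ≤ ∑ e ∈ Finset.range (j + 1), (|C| * (j.choose e : ℝ) * L +
            (j.choose e : ℝ) * L) := Finset.sum_nonneg fun e _ => by positivity
        rcases Nat.lt_or_ge j i with hji | hji
        · have : i = j + 1 := by omega
          subst this
          have hC : ∀ i, |κ i| ≤ |C| := by
            intro i
            rw [abs_of_nonneg (hκ i).1]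
            exact le_trans (hκ i).2 (le_abs_self C)
          refine ⟨?_, fun δ hδ => ?_⟩
          · rw [phi_succ]
            refine le_trans (abs_sub _ _) (add_le_add ((hL j le_rfl κ κ' hκ hκ').1) ?_)
            refine le_trans (Finset.abs_sum_le_sum_abs _ _) (Finset.sum_le_sum fun e _ => ?_)
            rw [abs_mul, abs_mul, Nat.abs_cast]
            have h1 := (hL (j - e) (by omega) κ κ' hκ hκ').1
            have h2 : |κ (e + 1)| * (j.choose e : ℝ) * |phi κ (j - e)| ≤
                |C| * (j.choose e : ℝ) * L :=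
              mul_le_mul (mul_le_mul_of_nonneg_right (hC _) (Nat.cast_nonneg _)) h1
                (abs_nonneg _) (by positivity)
            have h3 : 0 ≤ (j.choose e : ℝ) * L := by positivity
            linarith
          · have hδ0 : 0 ≤ δ := le_trans (abs_nonneg _) (hδ 0)
            rw [phi_succ, phi_succ, sub_sub_sub_comm, ← Finset.sum_sub_distrib, add_mul,
              Finset.sum_mul]
            refine le_trans (abs_sub _ _) (add_le_add ((hL j le_rfl κ κ' hκ hκ').2 δ hδ) ?_)
            refine le_trans (Finset.abs_sum_le_sum_abs _ _) (Finset.sum_le_sum fun e _ => ?_)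
            have h1 := (hL (j - e) (by omega) κ κ' hκ hκ').2 δ hδ
            have h2 := (hL (j - e) (by omega) κ' κ hκ' hκ).1
            have h3 : κ (e + 1) * (j.choose e : ℝ) * phi κ (j - e) -
                κ' (e + 1) * (j.choose e : ℝ) * phi κ' (j - e) =
                κ (e + 1) * (j.choose e : ℝ) * (phi κ (j - e) - phi κ' (j - e)) +
                (j.choose e : ℝ) * ((κ (e + 1) - κ' (e + 1)) * phi κ' (j - e)) := by ring
            rw [h3]
            refine le_trans (abs_add_le _ _) ?_
            rw [abs_mul, abs_mul, abs_mul, abs_mul, Nat.abs_cast]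
            have h4 : |κ (e + 1)| * (j.choose e : ℝ) * |phi κ (j - e) - phi κ' (j - e)| ≤
                |C| * (j.choose e : ℝ) * (L * δ) :=
              mul_le_mul (mul_le_mul_of_nonneg_right (hC _) (Nat.cast_nonneg _)) h1
                (abs_nonneg _) (by positivity)
            have h5 : (j.choose e : ℝ) * (|κ (e + 1) - κ' (e + 1)| * |phi κ' (j - e)|) ≤
                (j.choose e : ℝ) * (δ * L) :=
              mul_le_mul_of_nonneg_left (mul_le_mul (hδ _) h2 (abs_nonneg _) hδ0)
                (Nat.cast_nonneg _)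
            calc _ ≤ |C| * (j.choose e : ℝ) * (L * δ) + (j.choose e : ℝ) * (δ * L) :=
                  add_le_add h4 h5
              _ = (|C| * (j.choose e : ℝ) * L + (j.choose e : ℝ) * L) * δ := by ring
        · obtain ⟨h1, h2⟩ := hL i hji κ κ' hκ hκ'
          refine ⟨by linarith, fun δ hδ => ?_⟩
          have hδ0 : 0 ≤ δ := le_trans (abs_nonneg _) (hδ 0)
          have h3 := h2 δ hδ
          have h4 := mul_nonneg hS hδ0
          rw [add_mul]
          linarith
  obtain ⟨L, hL0, hL⟩ := key j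
  exact ⟨L, hL0, fun κ κ' hκ hκ' δ hδ => (hL j le_rfl κ κ' hκ hκ').2 δ hδ⟩

/-- Capping the loads at `1`. -/
theorem phi_cap (d : ℕ) (κ : ℕ → ℝ) (h0 : ∀ i, 0 ≤ κ i) (h : ∃ j ≤ d, phi κ j ≤ 0) :
    ∃ j ≤ d, phi (fun i => min (κ i) 1) j ≤ 0 := by
  by_contra hcon
  push Not at hcon
  have h0' : ∀ i, 0 ≤ (fun i => min (κ i) 1) i := fun i => le_min (h0 i) zero_le_one
  by_cases hall : ∀ i, 1 ≤ i → i ≤ d → κ i ≤ 1
  · obtain ⟨j, hj, hneg⟩ := h
    have h1 := phi_congr d κ (fun i => min (κ i) 1)
      (fun i h1 h2 => (min_eq_left (hall i h1 h2)).symm) j hj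
    have h2 := hcon j hj
    rw [← h1] at h2
    linarith
  · push Not at hall
    obtain ⟨i, hi1, hid, hi⟩ := hall
    obtain ⟨j, rfl⟩ := Nat.exists_eq_add_of_le' hi1
    have h1 := phi_le_sub d _ h0' hcon j (by omega)
    have h2 := phi_le_one d _ h0' hcon j (by omega)
    have h3 := hcon (j + 1) hid
    have h4 : min (κ (j + 1)) 1 = 1 := min_eq_right hi.le
    simp only [h4] at h1
    linarith

/-- A single exponent with load at least `1`. -/
theorem phi_single (i : ℕ) (hi : 1 ≤ i) : phi (fun t => if t = i then 1 else 0) i = 0 := by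
  have h1 : ∀ j, j < i → phi (fun t => if t = i then (1 : ℝ) else 0) j = 1 := by
    intro j
    induction j using Nat.strong_induction_on with
    | _ j ih =>
      intro hj
      cases j with
      | zero => rw [phi_zero]
      | succ j =>
        rw [phi_succ, ih j (by omega) (by omega), Finset.sum_eq_zero, sub_zero]
        intro e he
        have he' := Finset.mem_range.1 he
        rw [if_neg (by omega), zero_mul, zero_mul]
  obtain ⟨j, rfl⟩ := Nat.exists_eq_add_of_le' hi
  rw [phi_succ, h1 j (by omega), Finset.sum_eq_single j]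
  · rw [if_pos rfl, Nat.choose_self, Nat.sub_self, phi_zero]
    norm_num
  · intro e he hej
    have he' := Finset.mem_range.1 he
    rw [if_neg (by omega), zero_mul, zero_mul]
  · intro h
    exact absurd (Finset.mem_range.2 (by omega)) h

end Pool.Agent.H21.HD
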