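import Pool.Agent.H21.HD.Defs
import Pool.Agent.H21.HD.FroB
import Pool.Agent.H21.HD.FroAsymp
import Pool.Agent.H21.HD.PhiNum

/-!
The region in terms of `fro`.
-/

namespace Pool.Agent.H21.HD

open scoped Classical

namespace RegionX

lemma phi_nonneg_le (j : ℕ) (κ : ℕ → ℝ) (h0 : ∀ i, 0 ≤ κ i) (hpos : ∀ i ≤ j, 0 ≤ phi κ i) :
    ∀ i ≤ j + 1, phi κ i ≤ 1 := by
  intro i
  induction i with
  | zero => intro _; rw [phi]
  | succ i ih =>
    intro hi
    rw [phi]
    have h1 := ih (by omega)
    have h2 : 0 ≤ ∑ e : Fin (i + 1), κ (e + 1) * (i.choose e : ℝ) * phi κ (i - e) := by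
      apply Finset.sum_nonneg
      intro e _
      have h3 := hpos (i - e) (by omega)
      have h4 := h0 (e + 1)
      positivity
    linarith

lemma phi_congr' {κ κ' : ℕ → ℝ} : ∀ j : ℕ, (∀ i, 1 ≤ i → i ≤ j → κ i = κ' i) →
    phi κ j = phi κ' j := by
  intro j
  induction j using Nat.strong_induction_on with
  | _ j ih =>
    intro h
    cases j with
    | zero => rw [phi, phi]
    | succ j =>
      rw [phi, phi, ih j (Nat.lt_succ_self j) fun i h1 h2 => h i h1 (by omega)]
      congr 1
      refine Finset.sum_congr rfl fun e _ => ?_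
      have he := e.2
      rw [h (e + 1) (by omega) (by omega), ih (j - e) (by omega) fun i h1 h2 => h i h1 (by omega)]

lemma load_nonneg' {P : Type} (r : ℕ) (e : P → ℕ) (I : Finset P) (i : ℕ) : 0 ≤ load r e I i := by
  unfold load
  positivity

/-- `j! binom(j + r, r) ≤ 2 (r + 1)^j` for large `r`. -/
lemma choose_le_two (j : ℕ) : ∃ r₀ : ℕ, ∀ r : ℕ, r₀ ≤ r →
    (j.factorial : ℝ) * ((j + r).choose r : ℝ) ≤ 2 * ((r : ℝ) + 1) ^ j := by
  have key : ∀ r : ℕ, (j.factorial : ℝ) * ((j + r).choose r : ℝ) ≤ ((r : ℝ) + j) ^ j := by
    intro r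
    have h1 : (j + r).choose r = (j + r).choose j := by
      rw [Nat.choose_symm_add]
    have h2 : j.factorial * (j + r).choose j ≤ (j + r) ^ j := by
      rw [← Nat.descFactorial_eq_factorial_mul_choose]
      exact Nat.descFactorial_le_pow _ _
    rw [h1]
    have h3 : ((j.factorial * (j + r).choose j : ℕ) : ℝ) ≤ (((j + r) ^ j : ℕ) : ℝ) := by
      exact_mod_cast h2
    push_cast at h3
    rw [add_comm (j : ℝ) (r : ℝ)] at h3
    exact h3
  -- `(r + j)^j ≤ 2 (r+1)^j`
  have hlim : Filter.Tendsto (fun r : ℕ => (((r : ℝ) + j) / ((r : ℝ) + 1)) ^ j) Filter.atTop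
      (nhds (1 ^ j)) := by
    apply Filter.Tendsto.pow
    have h1 : (fun r : ℕ => ((r : ℝ) + j) / ((r : ℝ) + 1)) =
        fun r : ℕ => 1 + ((j : ℝ) - 1) / ((r : ℝ) + 1) := by
      funext r
      have : (r : ℝ) + 1 ≠ 0 := by positivity
      field_simp
      ring
    rw [h1]
    have h2 : Filter.Tendsto (fun r : ℕ => ((j : ℝ) - 1) / ((r : ℝ) + 1)) Filter.atTop (nhds 0) := by
      apply Filter.Tendsto.div_atTop tendsto_const_nhds
      exact Filter.tendsto_atTop_add_const_right _ _ tendsto_natCast_atTop_atTop
    simpa using h2.const_add 1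
  rw [one_pow] at hlim
  have h1 := hlim.eventually (gt_mem_nhds (show (1 : ℝ) < 2 by norm_num))
  obtain ⟨r₀, hr₀⟩ := Filter.eventually_atTop.1 h1
  refine ⟨r₀, fun r hr => (key r).trans ?_⟩
  have h2 := (hr₀ r hr).le
  rw [div_pow, div_le_iff₀ (by positivity)] at h2
  exact h2

end RegionX

open RegionX

/-- If the Fröberg numbers are large then the loads are bounded and `phi` is large. -/
theorem region_of_fro (d : ℕ) (η : ℝ) (hη : 0 < η) : ∃ r₀ : ℕ, ∀ r : ℕ, r₀ ≤ r →
    ∀ (P : Type) (e : P → ℕ) (I : Finset P), (∀ i ∈ I, 1 ≤ e i) →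
    (∀ j ≤ d, η * ((j + r).choose r : ℝ) ≤ (fro r e I j : ℝ)) →
    (∀ i, 1 ≤ i → i ≤ d → load r e I i ≤ 2) ∧ ∀ j ≤ d, η / 2 ≤ phi (load r e I) j := by
  choose R hR using fun j : ℕ => fro_asymp j 2 (η / 2) (by linarith)
  choose S hS using fun j : ℕ => choose_le_two j
  refine ⟨(Finset.range (d + 1)).sup R + (Finset.range (d + 1)).sup S, fun r hr P e I he hfro => ?_⟩
  have hRr : ∀ j ≤ d, R j ≤ r := by
    intro j hj
    have h1 : R j ≤ (Finset.range (d + 1)).sup R :=
      Finset.le_sup (f := R) (Finset.mem_range.2 (Nat.lt_succ_of_le hj))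
    omega
  have hSr : ∀ j ≤ d, S j ≤ r := by
    intro j hj
    have h1 : S j ≤ (Finset.range (d + 1)).sup S :=
      Finset.le_sup (f := S) (Finset.mem_range.2 (Nat.lt_succ_of_le hj))
    omega
  have hs : ∀ j, (0 : ℝ) < ((j + r).choose r : ℝ) := by
    intro j
    exact_mod_cast Nat.choose_pos (by omega)
  have key : ∀ j ≤ d, (∀ i, 1 ≤ i → i ≤ j → load r e I i ≤ 2) ∧
      ∀ i ≤ j, η / 2 ≤ phi (load r e I) i := by
    intro j
    induction j with
    | zero =>
      intro _
      refine ⟨fun i h1 h2 => by omega, fun i hi => ?_⟩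
      have hi0 : i = 0 := by omega
      subst hi0
      have h1 := hfro 0 (Nat.zero_le _)
      rw [fro_zero r e I he] at h1
      have h2 : (0 + r).choose r = 1 := by simp
      rw [h2] at h1
      rw [phi]
      push_cast at h1
      linarith
    | succ j ih =>
      intro hj
      obtain ⟨ih1, ih2⟩ := ih (by omega)
      -- the load of `j + 1`
      have hload : load r e I (j + 1) ≤ 2 := by
        set I₁ := I.filter (fun p => e p < j + 1) with hI₁
        set I₂ := I.filter (fun p => e p = j + 1) with hI₂
        set I₃ := I.filter (fun p => j + 1 < e p) with hI₃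
        have hd12 : Disjoint I₁ I₂ := by
          rw [Finset.disjoint_left]
          intro x hx hx'
          rw [Finset.mem_filter] at hx hx'
          omega
        have hd3 : Disjoint (I₁ ∪ I₂) I₃ := by
          rw [Finset.disjoint_left]
          intro x hx hx'
          rw [Finset.mem_union, Finset.mem_filter, Finset.mem_filter] at hx
          rw [Finset.mem_filter] at hx'
          omega
        have hI : I = (I₁ ∪ I₂) ∪ I₃ := by
          ext x
          simp only [hI₁, hI₂, hI₃, Finset.mem_union, Finset.mem_filter]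
          constructor
          · intro hx
            rcases lt_trichotomy (e x) (j + 1) with h | h | h
            · exact Or.inl (Or.inl ⟨hx, h⟩)
            · exact Or.inl (Or.inr ⟨hx, h⟩)
            · exact Or.inr ⟨hx, h⟩
          · rintro ((h | h) | h) <;> exact h.1
        have h1 : fro r e I (j + 1) = fro r e I₁ (j + 1) - I₂.card := by
          conv_lhs => rw [hI]
          rw [fro_union_large r (j + 1) e _ _ hd3 (fun i hi => (Finset.mem_filter.1 hi).2),
            fro_simple r (j + 1) e I₁ I₂ hd12 (fun i hi => he i (Finset.mem_filter.1 hi).1)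
              (by omega) (fun i hi => (Finset.mem_filter.1 hi).2)]
        have hload₁ : ∀ i, 1 ≤ i → i ≤ j + 1 → load r e I₁ i =
            if i = j + 1 then 0 else load r e I i := by
          intro i h2 h3
          unfold load
          split_ifs with h4
          · have h5 : I₁.filter (fun p => e p = i) = ∅ := by
              rw [Finset.filter_eq_empty_iff]
              intro x hx hxi
              rw [hI₁, Finset.mem_filter] at hx
              omega
            rw [h5]
            simp
          · have h5 : I₁.filter (fun p => e p = i) = I.filter (fun p => e p = i) := by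
              ext x
              simp only [hI₁, Finset.mem_filter]
              constructor
              · rintro ⟨⟨h6, _⟩, h7⟩
                exact ⟨h6, h7⟩
              · rintro ⟨h6, h7⟩
                exact ⟨⟨h6, by omega⟩, h7⟩
            rw [h5]
        have h2 := hR (j + 1) r (hRr (j + 1) hj) P e I₁
          (fun i hi => he i (Finset.mem_filter.1 hi).1) (by
            intro i h3 h4
            rw [hload₁ i h3 h4]
            split_ifs with h5
            · norm_num
            · exact ih1 i h3 (by omega))
        have h3 : phi (load r e I₁) (j + 1) ≤ 1 := by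
          apply phi_nonneg_le j _ (load_nonneg' r e I₁) _ (j + 1) le_rfl
          intro i hi
          rw [phi_congr' (κ' := load r e I) i]
          · have := ih2 i hi
            linarith
          · intro t h4 h5
            rw [hload₁ t h4 (by omega), if_neg (by omega)]
        have h4 := (abs_le.1 h2).2
        have h5 := hfro (j + 1) hj
        have hsj := hs (j + 1)
        have h6 : (I₂.card : ℝ) ≤ ((j + 1 + r).choose r : ℝ) := by
          rw [h1] at h5
          push_cast at h5
          have h7 : phi (load r e I₁) (j + 1) * ((j + 1 + r).choose r : ℝ) ≤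
              1 * ((j + 1 + r).choose r : ℝ) := mul_le_mul_of_nonneg_right h3 hsj.le
          have h8 : 0 ≤ η / 2 * ((j + 1 + r).choose r : ℝ) := by positivity
          linarith
        unfold load
        rw [div_le_iff₀ (by positivity)]
        have h7 := hS (j + 1) r (hSr (j + 1) hj)
        have h8 : ((j + 1).factorial : ℝ) * (I₂.card : ℝ) ≤
            ((j + 1).factorial : ℝ) * ((j + 1 + r).choose r : ℝ) :=
          mul_le_mul_of_nonneg_left h6 (by positivity)
        exact h8.trans h7
      have hload' : ∀ i, 1 ≤ i → i ≤ j + 1 → load r e I i ≤ 2 := by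
        intro i h1 h2
        rcases Nat.lt_or_ge i (j + 1) with h3 | h3
        · exact ih1 i h1 (by omega)
        · have : i = j + 1 := by omega
          rw [this]
          exact hload
      refine ⟨hload', fun i hi => ?_⟩
      rcases Nat.lt_or_ge i (j + 1) with h3 | h3
      · exact ih2 i (by omega)
      · have hi' : i = j + 1 := by omega
        subst hi'
        have h4 := hR (j + 1) r (hRr (j + 1) hj) P e I he hload'
        have h5 := (abs_le.1 h4).2
        have h6 := hfro (j + 1) hj
        have h7 : η / 2 * ((j + 1 + r).choose r : ℝ) ≤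
            phi (load r e I) (j + 1) * ((j + 1 + r).choose r : ℝ) := by linarith
        exact le_of_mul_le_mul_right h7 (hs (j + 1))
  exact key d le_rfl

end Pool.Agent.H21.HD
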