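import Pool.Agent.H21.HD.Defs

/-!
Powers of linear forms span.
-/

namespace Pool.Agent.H21.HD

open MvPolynomial
open scoped Classical

namespace PowSpanLX

theorem coeff_lin_pow {τ : Type} [Fintype τ] (v : τ → ℂ) (s : τ →₀ ℕ) (e : ℕ) :
    coeff s (lin v ^ e) = if s.degree = e then (s.multinomial : ℂ) * ∏ t, v t ^ s t else 0 := by
  have h1 : lin v = (Finsupp.equivFunOnFinite.symm v).linearCombination ℂ
      (X : τ → MvPolynomial τ ℂ) := by
    rw [Finsupp.linearCombination_apply, Finsupp.sum_fintype _ _ (fun i => by rw [zero_smul])]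
    unfold lin
    refine Finset.sum_congr rfl fun t _ => ?_
    rw [smul_eq_C_mul]
    rfl
  rw [h1, coeff_linearCombination_X_pow]
  have h2 : s.sum (fun _ m => m) = s.degree := rfl
  rw [h2, Finsupp.prod_fintype _ _ (fun i => by rw [pow_zero])]
  rfl

theorem multinomial_ne_zero {τ : Type} (s : τ →₀ ℕ) : (s.multinomial : ℂ) ≠ 0 := by
  rw [Nat.cast_ne_zero]
  unfold Finsupp.multinomial
  exact (Nat.multinomial_pos _ _).ne'

theorem mem_anti {τ : Type} [Fintype τ] (e : ℕ) (s : τ →₀ ℕ) :
    s ∈ Finset.finsuppAntidiag (Finset.univ : Finset τ) e ↔ s.degree = e := by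
  rw [Finset.mem_finsuppAntidiag, Finsupp.degree_eq_sum]
  simp

/-- A homogeneous polynomial is the sum of its monomials. -/
theorem homog_eq {τ : Type} [Fintype τ] {e : ℕ} {F : MvPolynomial τ ℂ} (hF : F.IsHomogeneous e) :
    F = ∑ s ∈ Finset.finsuppAntidiag (Finset.univ : Finset τ) e, monomial s (coeff s F) := by
  ext s
  rw [coeff_sum]
  simp only [coeff_monomial]
  rw [Finset.sum_ite_eq']
  split_ifs with h
  · rfl
  · rw [mem_anti] at h
    exact hF.coeff_eq_zero h

theorem span_all (τ : Type) [Fintype τ] (e : ℕ) :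
    homogeneousSubmodule τ ℂ e = Submodule.span ℂ (Set.range fun v : τ → ℂ => lin v ^ e) := by
  apply le_antisymm
  · intro F hF
    by_contra hcon
    obtain ⟨f, hfF, hker⟩ := Submodule.exists_le_ker_of_notMem hcon
    apply hfF
    have h0 : ∀ v : τ → ℂ, f (lin v ^ e) = 0 := fun v =>
      hker (Submodule.subset_span ⟨v, rfl⟩)
    set S := Finset.finsuppAntidiag (Finset.univ : Finset τ) e with hS
    have hhom : ∀ v : τ → ℂ, (lin v ^ e).IsHomogeneous e := by
      intro v
      have h1 : (lin v).IsHomogeneous 1 := by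
        unfold lin
        apply IsHomogeneous.sum
        intro t _
        exact isHomogeneous_C_mul_X _ _
      have := h1.pow e
      rwa [one_mul] at this
    have hP : ∑ s ∈ S, monomial s ((s.multinomial : ℂ) * f (monomial s 1)) = 0 := by
      apply MvPolynomial.funext
      intro v
      rw [map_sum, map_zero, ← h0 v]
      conv_rhs => rw [homog_eq (hhom v), map_sum]
      refine Finset.sum_congr rfl fun s hs => ?_
      rw [coeff_lin_pow, if_pos ((mem_anti e s).1 hs), eval_monomial,
        Finsupp.prod_fintype _ _ (fun i => by rw [pow_zero])]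
      have : (monomial s) ((s.multinomial : ℂ) * ∏ t, v t ^ s t) =
          ((s.multinomial : ℂ) * ∏ t, v t ^ s t) • (monomial s (1 : ℂ)) := by
        rw [smul_monomial, smul_eq_mul, mul_one]
      rw [this, map_smul, smul_eq_mul]
      ring
    have hcoef : ∀ s ∈ S, f (monomial s 1) = 0 := by
      intro s hs
      have h1 : coeff s (∑ s ∈ S, monomial s ((s.multinomial : ℂ) * f (monomial s 1))) = 0 := by
        rw [hP, coeff_zero]
      rw [coeff_sum] at h1
      simp only [coeff_monomial] at h1
      rw [Finset.sum_ite_eq', if_pos hs] at h1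
      rcases mul_eq_zero.1 h1 with h | h
      · exact absurd h (multinomial_ne_zero s)
      · exact h
    rw [homog_eq hF, map_sum]
    refine Finset.sum_eq_zero fun s hs => ?_
    have : (monomial s) (coeff s F) = coeff s F • (monomial s (1 : ℂ)) := by
      rw [smul_monomial, smul_eq_mul, mul_one]
    rw [this, map_smul, hcoef s hs, smul_zero]
  · rw [Submodule.span_le]
    rintro _ ⟨v, rfl⟩
    have h1 : (lin v).IsHomogeneous 1 := by
      unfold lin
      apply IsHomogeneous.sum
      intro t _
      exact isHomogeneous_C_mul_X _ _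
    have := h1.pow e
    rw [one_mul] at this
    exact this

theorem finrank_le (τ : Type) [Fintype τ] (e : ℕ) :
    Module.finrank ℂ (homogeneousSubmodule τ ℂ e) ≤ (Fintype.card τ + e - 1).choose e := by
  set S := Finset.finsuppAntidiag (Finset.univ : Finset τ) e with hS
  have h1 : homogeneousSubmodule τ ℂ e ≤
      Submodule.span ℂ ((S.image fun s => monomial s (1 : ℂ) : Finset (MvPolynomial τ ℂ)) :
        Set (MvPolynomial τ ℂ)) := by
    intro F hF
    rw [homog_eq hF]
    refine Submodule.sum_mem _ fun s hs => ?_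
    have : (monomial s) (coeff s F) = coeff s F • (monomial s (1 : ℂ)) := by
      rw [smul_monomial, smul_eq_mul, mul_one]
    rw [this]
    refine Submodule.smul_mem _ _ (Submodule.subset_span ?_)
    exact Finset.mem_coe.2 (Finset.mem_image_of_mem _ hs)
  have h2 := Submodule.finrank_mono h1
  refine h2.trans ?_
  refine (finrank_span_finset_le_card _).trans ?_
  refine Finset.card_image_le.trans ?_
  rw [hS, Finset.card_finsuppAntidiag_nat_eq_choose, Finset.card_univ]

end PowSpanLX

open PowSpanLX in
/-- The powers of linear forms span: a family of `dim S_e` linear forms whose `e`-th powers span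
the forms of degree `e`. -/
theorem pow_span (τ : Type) [Fintype τ] [Nonempty τ] (e : ℕ) :
    ∃ w : Fin ((Fintype.card τ - 1 + e).choose e) → τ → ℂ,
      homogeneousSubmodule τ ℂ e ≤ Submodule.span ℂ (Set.range fun k => lin (w k) ^ e) := by
  have hcard : 1 ≤ Fintype.card τ := Fintype.card_pos
  have hle := finrank_le τ e
  rw [show Fintype.card τ + e - 1 = Fintype.card τ - 1 + e by omega] at hle
  have hfin : Module.Finite ℂ (homogeneousSubmodule τ ℂ e) :=
    Module.Finite.iff_fg.2 (homogeneousSubmodule_fg _ _ e)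
  rw [span_all] at hfin hle
  obtain ⟨f, hf1, hf2, -⟩ := Submodule.exists_fun_fin_finrank_span_eq ℂ
    (Set.range fun v : τ → ℂ => lin v ^ e)
  choose v hv using hf1
  refine ⟨fun k => if hk : (k : ℕ) < Module.finrank ℂ
    (Submodule.span ℂ (Set.range fun v : τ → ℂ => lin v ^ e)) then v ⟨k, hk⟩ else 0, ?_⟩
  refine ((span_all τ e).trans hf2.symm).le.trans ?_
  apply Submodule.span_mono
  rintro _ ⟨i, rfl⟩
  refine ⟨⟨i, lt_of_lt_of_le i.2 hle⟩, ?_⟩
  change lin (dite ((i : ℕ) < _) _ _) ^ e = f i
  rw [dif_pos i.2]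
  exact hv i

end Pool.Agent.H21.HD
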