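import Pool.Agent.H21.HD.Defs3
import Pool.Agent.H21.HD.PowSpanL

/-!
Powers spanning each set of blocks.
-/

namespace Pool.Agent.H21.HD

open MvPolynomial
open scoped Classical

namespace BlockPowX

/-- extension by zero -/
noncomputable def extv {N : ℕ} {A : Type} (b : Finset (Fin N)) (u : {x : Fin N × A // x.1 ∈ b} → ℂ) :
    Fin N × A → ℂ := fun x => if h : x.1 ∈ b then u ⟨x, h⟩ else 0

theorem rename_lin {N : ℕ} {A : Type} [Fintype A] (b : Finset (Fin N))
    (u : {x : Fin N × A // x.1 ∈ b} → ℂ) :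
    rename (Subtype.val : {x : Fin N × A // x.1 ∈ b} → Fin N × A) (lin u) = lin (extv b u) := by
  unfold lin
  rw [map_sum]
  apply Fintype.sum_of_injective Subtype.val Subtype.val_injective
  · intro x hx
    have h1 : x.1 ∉ b := by
      intro h
      exact hx ⟨⟨x, h⟩, rfl⟩
    simp [extv, h1]
  · intro x
    have h1 : extv b u x.1 = u x := by
      unfold extv
      rw [dif_pos x.2]
    rw [h1, map_mul, rename_C, rename_X]

theorem card_sub {N : ℕ} {A : Type} [Fintype A] (b : Finset (Fin N)) :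
    Fintype.card {x : Fin N × A // x.1 ∈ b} = b.card * Fintype.card A := by
  rw [Fintype.card_subtype]
  have h1 : Finset.univ.filter (fun x : Fin N × A => x.1 ∈ b) = b ×ˢ Finset.univ := by
    ext x
    simp
  rw [h1, Finset.card_product, Finset.card_univ]

end BlockPowX

open BlockPowX

/-- Linear forms whose `e₀`-th powers span the forms of degree `e₀` in every set of `e₀ - 1`
blocks. -/
theorem exists_block_powers {N : ℕ} {A : Type} [Fintype A] [Nonempty A] (e₀ : ℕ) (h2 : 2 ≤ e₀)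
    (X : Type) [Fintype X]
    (hX : N.choose (e₀ - 1) * ((e₀ - 1) * Fintype.card A - 1 + e₀).choose e₀ ≤ Fintype.card X) :
    ∃ w : X → Fin N × A → ℂ, ∀ b : Finset (Fin N), b.card = e₀ - 1 →
      ∀ F : MvPolynomial (Fin N × A) ℂ, F.IsHomogeneous e₀ →
        (∀ γ ∈ F.support, ∀ x, γ x ≠ 0 → x.1 ∈ b) →
        F ∈ powSpan e₀ w (fun _ => e₀) := by
  have h1 : ∀ b : {b : Finset (Fin N) // b.card = e₀ - 1},
      ∃ w : Fin (((e₀ - 1) * Fintype.card A - 1 + e₀).choose e₀) → {x : Fin N × A // x.1 ∈ b.1} → ℂ,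
      homogeneousSubmodule {x : Fin N × A // x.1 ∈ b.1} ℂ e₀
        ≤ Submodule.span ℂ (Set.range fun k => lin (w k) ^ e₀) := by
    intro b
    have hne : Nonempty {x : Fin N × A // x.1 ∈ b.1} := by
      have h3 : b.1.Nonempty := by
        rw [← Finset.card_pos, b.2]
        omega
      obtain ⟨i, hi⟩ := h3
      exact ⟨⟨(i, Classical.arbitrary A), hi⟩⟩
    have h4 := pow_span {x : Fin N × A // x.1 ∈ b.1} e₀
    rw [card_sub b.1, b.2] at h4
    exact h4
  choose W hW using h1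
  have h3 : Fintype.card ({b : Finset (Fin N) // b.card = e₀ - 1}
      × Fin (((e₀ - 1) * Fintype.card A - 1 + e₀).choose e₀)) ≤ Fintype.card X := by
    rw [Fintype.card_prod, Fintype.card_fin, Fintype.card_finset_len, Fintype.card_fin]
    exact hX
  obtain ⟨ι⟩ := Function.Embedding.nonempty_of_card_le h3
  refine ⟨fun x => if h : ∃ q, ι q = x then extv h.choose.1.1 (W h.choose.1 h.choose.2) else 0, ?_⟩
  intro b hb F hF hsupp
  have hvars : (F.vars : Set (Fin N × A)) ⊆ Set.range (Subtype.val : {x : Fin N × A // x.1 ∈ b} → _) := by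
    intro x hx
    rw [Finset.mem_coe, mem_vars] at hx
    obtain ⟨γ, hγ, hxγ⟩ := hx
    exact ⟨⟨x, hsupp γ hγ x (Finsupp.mem_support_iff.1 hxγ)⟩, rfl⟩
  obtain ⟨F', hF'⟩ := exists_rename_eq_of_vars_subset_range F Subtype.val Subtype.val_injective hvars
  have hhom : F'.IsHomogeneous e₀ := by
    rw [← IsHomogeneous.rename_isHomogeneous_iff (f := (Subtype.val : {x : Fin N × A // x.1 ∈ b} → _))
      Subtype.val_injective, hF']
    exact hF
  have h5 := hW ⟨b, hb⟩ ((mem_homogeneousSubmodule _ _).2 hhom)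
  have h6 : rename (Subtype.val : {x : Fin N × A // x.1 ∈ b} → _) F' ∈
      (Submodule.span ℂ (Set.range fun k => lin (W ⟨b, hb⟩ k) ^ e₀)).map
        (rename (R := ℂ) (Subtype.val : {x : Fin N × A // x.1 ∈ b} → _)).toLinearMap :=
    ⟨F', h5, rfl⟩
  rw [hF', Submodule.map_span] at h6
  refine Submodule.span_le.2 ?_ h6
  rintro _ ⟨_, ⟨k, rfl⟩, rfl⟩
  apply Submodule.subset_span
  refine ⟨ι (⟨b, hb⟩, k), 1, le_rfl, ?_, ?_⟩
  · rw [Nat.sub_self]
    exact isHomogeneous_one _ _
  · have h7 : ∃ q, ι q = ι (⟨b, hb⟩, k) := ⟨_, rfl⟩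
    have h8 : h7.choose = (⟨b, hb⟩, k) := ι.injective h7.choose_spec
    simp only
    rw [dif_pos h7, one_mul, AlgHom.toLinearMap_apply, map_pow, rename_lin, h8]

end Pool.Agent.H21.HD
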