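import Pool.Agent.H21.HD.Defs3

/-!
Monomials that are not squarefree in the blocks.
-/

namespace Pool.Agent.H21.HD

open MvPolynomial
open scoped Classical

private theorem NonSqX_interp {σ : Type} (β γ : σ →₀ ℕ) (hβ : β ≤ γ) (k : ℕ)
    (h1 : β.degree ≤ k) (h2 : k ≤ γ.degree) : ∃ δ, β ≤ δ ∧ δ ≤ γ ∧ δ.degree = k := by
  induction k, h1 using Nat.le_induction with
  | base => exact ⟨β, le_refl β, hβ, rfl⟩
  | succ k hk ih =>
    obtain ⟨δ, hδ1, hδ2, hδ3⟩ := ih (by omega)
    have hne : ∃ s, δ s < γ s := by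
      by_contra hcon
      push Not at hcon
      have h3 : γ ≤ δ := hcon
      have h4 : γ = δ := le_antisymm h3 hδ2
      rw [h4, hδ3] at h2
      omega
    obtain ⟨s, hs⟩ := hne
    refine ⟨δ + Finsupp.single s 1, ?_, ?_, ?_⟩
    · exact hδ1.trans (le_add_of_nonneg_right (zero_le))
    · intro t
      rw [Finsupp.add_apply]
      by_cases hts : t = s
      · rw [hts, Finsupp.single_eq_same]
        omega
      · rw [Finsupp.single_eq_of_ne hts, add_zero]
        exact hδ2 t
    · rw [map_add, hδ3, Finsupp.degree_single]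

private theorem NonSqX_deg {N : ℕ} {A : Type} [Fintype A] (γ : Fin N × A →₀ ℕ) :
    ∑ i, bdegB γ i = γ.degree := by
  unfold bdegB
  rw [Finsupp.degree_eq_sum, Fintype.sum_prod_type]

/-- The monomials that are not squarefree in the blocks, from the powers spanning the forms of
degree `e₀` in each set of `e₀ - 1` blocks. -/
theorem nonsquarefree_of_blocks {N : ℕ} {A R : Type} [Fintype A] (d e₀ : ℕ) (h2 : 2 ≤ e₀)
    (hd : e₀ ≤ d) (hN : e₀ ≤ N) (w : R → Fin N × A → ℂ) (e : R → ℕ)
    (h : ∀ b : Finset (Fin N), b.card = e₀ - 1 → ∀ F : MvPolynomial (Fin N × A) ℂ,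
      F.IsHomogeneous e₀ → (∀ γ ∈ F.support, ∀ x, γ x ≠ 0 → x.1 ∈ b) → F ∈ powSpan e₀ w e)
    (γ : Fin N × A →₀ ℕ) (hγ : γ.degree = d) (hi : ∃ i, 2 ≤ bdegB γ i) :
    monomial γ (1 : ℂ) ∈ powSpan d w e := by
  obtain ⟨i, hi⟩ := hi
  -- the part of `γ` in the block `i`
  set γi : Fin N × A →₀ ℕ := γ.filter (fun x => x.1 = i) with hγi
  have hγile : γi ≤ γ := by
    intro x
    rw [hγi, Finsupp.filter_apply]
    split_ifs
    · exact le_refl _
    · exact Nat.zero_le _
  have hγideg : 2 ≤ γi.degree := by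
    rw [← NonSqX_deg]
    calc 2 ≤ bdegB γ i := hi
      _ = bdegB γi i := by
        unfold bdegB
        apply Finset.sum_congr rfl
        intro a _
        rw [hγi, Finsupp.filter_apply, if_pos rfl]
      _ ≤ _ := Finset.single_le_sum (f := fun j => bdegB γi j) (fun _ _ => Nat.zero_le _)
        (Finset.mem_univ i)
  obtain ⟨β₀, -, hβ₀le, hβ₀deg⟩ := NonSqX_interp 0 γi (zero_le) 2 (by simp) hγideg
  have hβ₀i : bdegB β₀ i = 2 := by
    rw [← hβ₀deg, ← NonSqX_deg]
    symm
    apply Finset.sum_eq_single i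
    · intro j _ hji
      unfold bdegB
      apply Finset.sum_eq_zero
      intro a _
      have h3 := hβ₀le (j, a)
      rw [hγi, Finsupp.filter_apply, if_neg (by exact hji)] at h3
      exact Nat.le_zero.1 h3
    · intro h3
      exact absurd (Finset.mem_univ i) h3
  obtain ⟨β, hβ1, hβ2, hβ3⟩ := NonSqX_interp β₀ γ (hβ₀le.trans hγile) e₀ (by omega) (by omega)
  have hβi : 2 ≤ bdegB β i := by
    rw [← hβ₀i]
    exact Finset.sum_le_sum fun a _ => hβ1 (i, a)
  -- the blocks that `β` meets
  set b₀ : Finset (Fin N) := Finset.univ.filter (fun j => bdegB β j ≠ 0) with hb₀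
  have hib₀ : i ∈ b₀ := by
    rw [hb₀, Finset.mem_filter]
    exact ⟨Finset.mem_univ i, by omega⟩
  have hb₀card : b₀.card ≤ e₀ - 1 := by
    have h3 : ∑ j ∈ b₀, bdegB β j ≤ e₀ := by
      rw [← hβ3, ← NonSqX_deg]
      exact Finset.sum_le_sum_of_subset (Finset.subset_univ _)
    rw [← Finset.add_sum_erase _ _ hib₀] at h3
    have h4 : (b₀.erase i).card ≤ ∑ j ∈ b₀.erase i, bdegB β j := by
      calc (b₀.erase i).card = ∑ j ∈ b₀.erase i, 1 := by simp
        _ ≤ _ := by
          apply Finset.sum_le_sum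
          intro j hj
          have h5 := Finset.mem_of_mem_erase hj
          rw [hb₀, Finset.mem_filter] at h5
          omega
    rw [Finset.card_erase_of_mem hib₀] at h4
    omega
  obtain ⟨b, hb₀b, hbcard⟩ := Finset.exists_superset_card_eq hb₀card
    (by rw [Fintype.card_fin]; omega)
  have hmem : monomial β (1 : ℂ) ∈ powSpan e₀ w e := by
    apply h b hbcard
    · exact isHomogeneous_monomial _ hβ3
    · intro γ' hγ' x hx
      have h3 := support_monomial_subset hγ'
      rw [Finset.mem_singleton] at h3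
      rw [h3] at hx
      apply hb₀b
      rw [hb₀, Finset.mem_filter]
      refine ⟨Finset.mem_univ _, fun h4 => ?_⟩
      unfold bdegB at h4
      rw [Finset.sum_eq_zero_iff] at h4
      exact hx (h4 x.2 (Finset.mem_univ _))
  have hmul : monomial γ (1 : ℂ) = monomial (γ - β) 1 * monomial β 1 := by
    rw [monomial_mul, one_mul, tsub_add_cancel_of_le hβ2]
  have hdeg : (γ - β).degree = d - e₀ := by
    have h3 : (γ - β + β).degree = γ.degree := by rw [tsub_add_cancel_of_le hβ2]
    rw [map_add, hβ3, hγ] at h3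
    omega
  rw [hmul]
  have hhom : (monomial (γ - β) (1 : ℂ)).IsHomogeneous (d - e₀) :=
    isHomogeneous_monomial _ hdeg
  generalize monomial (γ - β) (1 : ℂ) = G at hhom ⊢
  generalize monomial β (1 : ℂ) = F at hmem ⊢
  unfold powSpan at hmem
  induction hmem using Submodule.span_induction with
  | mem x hx =>
    obtain ⟨p, g, hp, hg, rfl⟩ := hx
    apply Submodule.subset_span
    refine ⟨p, G * g, hp.trans hd, ?_, by ring⟩
    have h3 := hhom.mul hg
    have h4 : d - e₀ + (e₀ - e p) = d - e p := by omega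
    rwa [h4] at h3
  | zero =>
    rw [mul_zero]
    exact Submodule.zero_mem _
  | add x y _ _ hx hy =>
    rw [mul_add]
    exact Submodule.add_mem _ hx hy
  | smul t x _ hx =>
    rw [mul_smul_comm]
    exact Submodule.smul_mem _ _ hx

end Pool.Agent.H21.HD
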