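import Pool.Agent.H21.HD.Defs3

/-!
Spanning from the squarefree columns.
-/

namespace Pool.Agent.H21.HD

open MvPolynomial
open scoped Classical

namespace SpanColsX

variable {N : ℕ} {A : Type} [Fintype A]

/-- The linear form in the block `i`. -/
noncomputable def blk (v : Fin N → A → ℂ) (i : Fin N) : MvPolynomial (Fin N × A) ℂ :=
  ∑ a, C (v i a) * X (i, a)

lemma blk_homog (v : Fin N → A → ℂ) (i : Fin N) : (blk v i).IsHomogeneous 1 := by
  unfold blk
  apply IsHomogeneous.sum
  intro a _
  have h1 : (C (v i a) : MvPolynomial (Fin N × A) ℂ).IsHomogeneous 0 := isHomogeneous_C _ _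
  have h2 : (X (i, a) : MvPolynomial (Fin N × A) ℂ).IsHomogeneous 1 := isHomogeneous_X _ _
  simpa using h1.mul h2

lemma lin_vecB (c : Finset (Fin N)) (v : Fin N → A → ℂ) :
    lin (vecB c v) = ∑ i ∈ c, blk v i := by
  unfold lin vecB blk
  rw [Fintype.sum_prod_type]
  rw [← Finset.sum_filter_add_sum_filter_not Finset.univ (fun i => i ∈ c)]
  have h0 : ∑ x ∈ Finset.univ.filter (fun i : Fin N => ¬ i ∈ c), ∑ y : A,
      (C (if (x, y).1 ∈ c then v (x, y).1 (x, y).2 else 0) * X (x, y) :
        MvPolynomial (Fin N × A) ℂ) = 0 := by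
    apply Finset.sum_eq_zero
    intro i hi
    rw [Finset.mem_filter] at hi
    apply Finset.sum_eq_zero
    intro a _
    simp [hi.2]
  rw [h0, add_zero]
  have h1 : Finset.univ.filter (fun i : Fin N => i ∈ c) = c := by
    ext i; simp
  rw [h1]
  apply Finset.sum_congr rfl
  intro i hi
  apply Finset.sum_congr rfl
  intro a _
  simp [hi]

lemma bdegB_add (γ δ : Fin N × A →₀ ℕ) (i : Fin N) :
    bdegB (γ + δ) i = bdegB γ i + bdegB δ i := by
  unfold bdegB
  rw [← Finset.sum_add_distrib]
  rfl

lemma bdegB_single (i : Fin N) (a : A) (j : Fin N) :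
    bdegB (Finsupp.single (i, a) 1) j = if i = j then 1 else 0 := by
  unfold bdegB
  by_cases h : i = j
  · subst h
    rw [if_pos rfl]
    rw [Finset.sum_eq_single a]
    · simp
    · intro b _ hb
      rw [Finsupp.single_apply, if_neg]
      intro h
      exact hb (Prod.ext_iff.1 h).2.symm
    · intro h
      exact absurd (Finset.mem_univ a) h
  · rw [if_neg h]
    apply Finset.sum_eq_zero
    intro b _
    rw [Finsupp.single_apply, if_neg]
    intro h'
    exact h (Prod.ext_iff.1 h').1

/-- Twice a variable of a block. -/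
lemma sq_mem {M : Submodule ℂ (MvPolynomial (Fin N × A) ℂ)} {d : ℕ}
    (hns : ∀ γ : Fin N × A →₀ ℕ, γ.degree = d → (∃ i, 2 ≤ bdegB γ i) →
      monomial γ (1 : ℂ) ∈ M) (d' : ℕ) (hd : d' + 2 = d)
    (G : MvPolynomial (Fin N × A) ℂ) (hG : G.IsHomogeneous d') (i : Fin N) (a b : A) :
    X (i, a) * X (i, b) * G ∈ M := by
  rw [G.as_sum, Finset.mul_sum]
  apply Submodule.sum_mem
  intro δ hδ
  have hdeg : δ.degree = d' := by
    have := hG (mem_support_iff.1 hδ)
    rw [← this, Finsupp.degree_eq_weight_one]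
    rfl
  have h1 : (X (i, a) * X (i, b) * monomial δ (coeff δ G) : MvPolynomial (Fin N × A) ℂ)
      = (coeff δ G) • monomial (Finsupp.single (i, a) 1 + Finsupp.single (i, b) 1 + δ) (1 : ℂ) := by
    rw [smul_monomial, X, X, monomial_mul, monomial_mul]
    simp
  rw [h1]
  apply Submodule.smul_mem
  apply hns
  · simp [hdeg]
    omega
  · refine ⟨i, ?_⟩
    rw [bdegB_add, bdegB_add, bdegB_single, bdegB_single]
    simp

lemma blk_sq_mem {M : Submodule ℂ (MvPolynomial (Fin N × A) ℂ)} {d : ℕ}
    (hns : ∀ γ : Fin N × A →₀ ℕ, γ.degree = d → (∃ i, 2 ≤ bdegB γ i) →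
      monomial γ (1 : ℂ) ∈ M) (v : Fin N → A → ℂ) (d' : ℕ) (hd : d' + 2 = d)
    (G : MvPolynomial (Fin N × A) ℂ) (hG : G.IsHomogeneous d') (i : Fin N) :
    blk v i ^ 2 * G ∈ M := by
  have h1 : blk v i ^ 2 * G = ∑ a, ∑ b, (v i a * v i b) • (X (i, a) * X (i, b) * G) := by
    rw [pow_two]
    unfold blk
    rw [Finset.sum_mul_sum, Finset.sum_mul]
    apply Finset.sum_congr rfl
    intro a _
    rw [Finset.sum_mul]
    apply Finset.sum_congr rfl
    intro b _
    rw [smul_eq_C_mul, C_mul]
    ring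
  rw [h1]
  apply Submodule.sum_mem
  intro a _
  apply Submodule.sum_mem
  intro b _
  exact Submodule.smul_mem _ _ (sq_mem hns d' hd G hG i a b)

/-- The product of the block forms times a multiplier. -/
lemma prod_mem {R : Type} {d : ℕ} {w : R → Fin N × A → ℂ} {e : R → ℕ}
    (hns : ∀ γ : Fin N × A →₀ ℕ, γ.degree = d → (∃ i, 2 ≤ bdegB γ i) →
      monomial γ (1 : ℂ) ∈ powSpan d w e) (v : Fin N → A → ℂ) (c : Finset (Fin N))
    (hc : c.card ≤ d) (p : R) (hw : w p = vecB c v) (he : e p = c.card)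
    (g : MvPolynomial (Fin N × A) ℂ) (hg : g.IsHomogeneous (d - c.card)) :
    g * ∏ i ∈ c, blk v i ∈ powSpan d w e := by
  have h1 : g * lin (w p) ^ e p ∈ powSpan d w e := by
    apply Submodule.subset_span
    exact ⟨p, g, by rw [he]; exact hc, by rw [he]; exact hg, rfl⟩
  rw [hw, he, lin_vecB, Finset.sum_pow_eq_sum_piAntidiag, Finset.mul_sum] at h1
  -- the indicator of `c`
  set k0 : Fin N → ℕ := fun i => if i ∈ c then 1 else 0 with hk0
  have hk0mem : k0 ∈ Finset.piAntidiag c c.card := by
    rw [Finset.mem_piAntidiag]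
    refine ⟨?_, ?_⟩
    · rw [hk0]
      simp
    · intro i hi
      by_contra hcon
      apply hi
      simp [hk0, hcon]
  rw [← Finset.add_sum_erase _ _ hk0mem] at h1
  have h2 : ∑ k ∈ (Finset.piAntidiag c c.card).erase k0,
      g * (((Nat.multinomial c k : ℕ) : MvPolynomial (Fin N × A) ℂ) * ∏ i ∈ c, blk v i ^ k i)
      ∈ powSpan d w e := by
    apply Submodule.sum_mem
    intro k hk
    rw [Finset.mem_erase, Finset.mem_piAntidiag] at hk
    obtain ⟨hne, hsum, hsupp⟩ := hk
    -- some exponent is at least two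
    have h3 : ∃ i ∈ c, 2 ≤ k i := by
      by_contra hcon
      push Not at hcon
      apply hne
      have h4 : ∀ i ∈ c, k i = 1 := by
        have h5 : ∑ i ∈ c, k i = ∑ i ∈ c, 1 := by
          rw [hsum]; simp
        have h6 : ∀ i ∈ c, k i ≤ 1 := fun i hi => by
          have := hcon i hi
          omega
        exact (Finset.sum_eq_sum_iff_of_le h6).1 h5
      funext i
      by_cases hi : i ∈ c
      · rw [h4 i hi, hk0]
        simp [hi]
      · have : k i = 0 := by
          by_contra h
          exact hi (hsupp i h)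
        rw [this, hk0]
        simp [hi]
    obtain ⟨i0, hi0, h2i⟩ := h3
    have hsum' : k i0 + ∑ i ∈ c.erase i0, k i = c.card := by
      rw [Finset.add_sum_erase _ _ hi0, hsum]
    have h7 : g * (((Nat.multinomial c k : ℕ) : MvPolynomial (Fin N × A) ℂ) *
        ∏ i ∈ c, blk v i ^ k i)
        = ((Nat.multinomial c k : ℕ) : ℂ) • (blk v i0 ^ 2 * (g * (blk v i0 ^ (k i0 - 2) *
          ∏ i ∈ c.erase i0, blk v i ^ k i))) := by
      rw [← Finset.mul_prod_erase _ _ hi0, smul_eq_C_mul]
      have h8 : blk v i0 ^ k i0 = blk v i0 ^ 2 * blk v i0 ^ (k i0 - 2) := by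
        rw [← pow_add]
        congr 1
        omega
      rw [h8, map_natCast]
      ring
    rw [h7]
    apply Submodule.smul_mem
    apply blk_sq_mem hns v (d - 2)
    · have : k i0 ≤ c.card := by omega
      omega
    · have h9 : (blk v i0 ^ (k i0 - 2)).IsHomogeneous (1 * (k i0 - 2)) :=
        (blk_homog v i0).pow _
      have h10 : (∏ i ∈ c.erase i0, blk v i ^ k i).IsHomogeneous
          (∑ i ∈ c.erase i0, 1 * k i) := by
        apply IsHomogeneous.prod
        intro i _
        exact (blk_homog v i).pow _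
      have h11 := hg.mul (h9.mul h10)
      have h12 : d - c.card + (1 * (k i0 - 2) + ∑ i ∈ c.erase i0, 1 * k i) = d - 2 := by
        simp only [one_mul]
        omega
      rw [h12] at h11
      exact h11
  have h3 : g * (((Nat.multinomial c k0 : ℕ) : MvPolynomial (Fin N × A) ℂ) *
      ∏ i ∈ c, blk v i ^ k0 i) ∈ powSpan d w e := by
    have := Submodule.sub_mem _ h1 h2
    simpa using this
  have h4 : ∏ i ∈ c, blk v i ^ k0 i = ∏ i ∈ c, blk v i := by
    apply Finset.prod_congr rfl
    intro i hi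
    simp [hk0, hi]
  have h5 : (Nat.multinomial c k0 : ℂ) ≠ 0 := by
    exact_mod_cast (Nat.multinomial_pos c k0).ne'
  rw [h4] at h3
  have h6 : g * ∏ i ∈ c, blk v i = (Nat.multinomial c k0 : ℂ)⁻¹ •
      (g * (((Nat.multinomial c k0 : ℕ) : MvPolynomial (Fin N × A) ℂ) * ∏ i ∈ c, blk v i)) := by
    rw [smul_eq_C_mul]
    have h7 : (C ((Nat.multinomial c k0 : ℂ)⁻¹) : MvPolynomial (Fin N × A) ℂ) *
        ((Nat.multinomial c k0 : ℕ) : MvPolynomial (Fin N × A) ℂ) = 1 := by
      rw [← map_natCast (C : ℂ →+* MvPolynomial (Fin N × A) ℂ), ← C_mul, inv_mul_cancel₀ h5, C_1]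
    calc g * ∏ i ∈ c, blk v i = 1 * (g * ∏ i ∈ c, blk v i) := by rw [one_mul]
      _ = _ := by rw [← h7]; ring
  rw [h6]
  exact Submodule.smul_mem _ _ h3

/-- The squarefree monomial. -/
noncomputable def mon (J : Finset (Fin N)) (y : Fin N → A) : MvPolynomial (Fin N × A) ℂ :=
  ∏ i ∈ J, X (i, y i)

omit [Fintype A] in
lemma mon_homog (J : Finset (Fin N)) (y : Fin N → A) : (mon J y).IsHomogeneous J.card := by
  unfold mon
  have := IsHomogeneous.prod J (fun i => (X (i, y i) : MvPolynomial (Fin N × A) ℂ)) (fun _ => 1)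
    (fun i _ => isHomogeneous_X _ _)
  simpa using this

/-- The exchange of coordinates. -/
noncomputable def exch (c : Finset (Fin N)) :
    ((Fin N → A) × (Fin N → A)) ≃ ((Fin N → A) × (Fin N → A)) where
  toFun q := (c.piecewise q.2 q.1, c.piecewise q.1 q.2)
  invFun q := (c.piecewise q.2 q.1, c.piecewise q.1 q.2)
  left_inv q := by
    apply Prod.ext
    · funext i
      by_cases hi : i ∈ c <;> simp [Finset.piecewise, hi]
    · funext i
      by_cases hi : i ∈ c <;> simp [Finset.piecewise, hi]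
  right_inv q := by
    apply Prod.ext
    · funext i
      by_cases hi : i ∈ c <;> simp [Finset.piecewise, hi]
    · funext i
      by_cases hi : i ∈ c <;> simp [Finset.piecewise, hi]

lemma sum_exch (c : Finset (Fin N)) (F : (Fin N → A) → MvPolynomial (Fin N × A) ℂ) :
    ((Fintype.card (Fin N → A) : ℕ) : ℂ) • ∑ y, F y = ∑ y, ∑ z, F (c.piecewise z y) := by
  have h1 : ∑ y : Fin N → A, ∑ z : Fin N → A, F (c.piecewise z y)
      = ∑ q : (Fin N → A) × (Fin N → A), F (exch c q).1 := by
    rw [Fintype.sum_prod_type]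
    rfl
  rw [h1, Equiv.sum_comp (exch c) (fun q => F q.1), Fintype.sum_prod_type]
  simp only [Finset.sum_const, Finset.card_univ, Finset.smul_sum]
  apply Finset.sum_congr rfl
  intro y _
  rw [smul_eq_C_mul, nsmul_eq_mul]
  simp

lemma sum_prod_blk (c : Finset (Fin N)) (v : Fin N → A → ℂ) :
    ∃ t : ℂ, ∑ z : Fin N → A, ∏ i ∈ c, (C (v i (z i)) * X (i, z i) : MvPolynomial (Fin N × A) ℂ)
      = t • ∏ i ∈ c, blk v i := by
  have h1 : ∀ z : Fin N → A, ∏ i ∈ c, (C (v i (z i)) * X (i, z i) : MvPolynomial (Fin N × A) ℂ)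
      = ∏ i, (if i ∈ c then C (v i (z i)) * X (i, z i) else 1) := by
    intro z
    rw [Finset.prod_ite_mem, Finset.univ_inter]
  simp only [h1]
  have h2 := Finset.prod_univ_sum (fun _ : Fin N => (Finset.univ : Finset A))
    (fun i a => (if i ∈ c then C (v i a) * X (i, a) else 1 : MvPolynomial (Fin N × A) ℂ))
  rw [Fintype.piFinset_univ] at h2
  rw [← h2]
  have h3 : ∀ i : Fin N, ∑ a : A, (if i ∈ c then C (v i a) * X (i, a) else 1 :
      MvPolynomial (Fin N × A) ℂ) = (if i ∈ c then blk v i else 1) *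
        (if i ∈ c then 1 else C ((Fintype.card A : ℕ) : ℂ)) := by
    intro i
    by_cases hi : i ∈ c
    · simp [hi, blk]
    · simp [hi]
  simp only [h3]
  rw [Finset.prod_mul_distrib]
  have h4 : ∏ i : Fin N, (if i ∈ c then blk v i else 1) = ∏ i ∈ c, blk v i := by
    rw [Finset.prod_ite_mem, Finset.univ_inter]
  rw [h4]
  refine ⟨∏ i : Fin N, (if i ∈ c then 1 else ((Fintype.card A : ℕ) : ℂ)), ?_⟩
  rw [smul_eq_C_mul, map_prod, mul_comm]
  congr 1
  apply Finset.prod_congr rfl
  intro i _
  by_cases hi : i ∈ c <;> simp [hi]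

omit [Fintype A] in
lemma mon_piecewise {c J : Finset (Fin N)} (hc : c ⊆ J) (y z : Fin N → A) :
    mon J (c.piecewise z y) = (∏ i ∈ c, X (i, z i)) * mon (J \ c) y := by
  unfold mon
  rw [← Finset.prod_sdiff hc, mul_comm]
  congr 1
  · apply Finset.prod_congr rfl
    intro i hi
    simp [Finset.piecewise, hi]
  · apply Finset.prod_congr rfl
    intro i hi
    have : i ∉ c := (Finset.mem_sdiff.1 hi).2
    simp [Finset.piecewise, this]

/-- The exponent vector of a squarefree monomial. -/
lemma exists_y [Nonempty A] {d : ℕ} (γ : Fin N × A →₀ ℕ) (hd : γ.degree = d)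
    (h : ∀ i, bdegB γ i < 2) :
    ∃ J : Finset (Fin N), J.card = d ∧ ∃ y : Fin N → A, monomial γ (1 : ℂ) = mon J y := by
  set J : Finset (Fin N) := Finset.univ.filter (fun i => bdegB γ i = 1) with hJ
  have h01 : ∀ i, bdegB γ i = if i ∈ J then 1 else 0 := by
    intro i
    have := h i
    by_cases hi : bdegB γ i = 1
    · simp [hJ, hi]
    · simp only [hJ, Finset.mem_filter, Finset.mem_univ, true_and, hi, if_false]
      omega
  have hex : ∀ i, ∃ a, i ∈ J → ∀ b, γ (i, b) = if b = a then 1 else 0 := by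
    intro i
    by_cases hi : i ∈ J
    · have h1 : ∑ a, γ (i, a) = 1 := by
        have := h01 i
        rw [if_pos hi] at this
        exact this
      have h2 : ∃ a, γ (i, a) ≠ 0 := by
        by_contra hcon
        push Not at hcon
        rw [Finset.sum_eq_zero (fun a _ => hcon a)] at h1
        exact absurd h1 (by norm_num)
      obtain ⟨a, ha⟩ := h2
      refine ⟨a, fun _ b => ?_⟩
      have h3 : γ (i, a) + ∑ b ∈ Finset.univ.erase a, γ (i, b) = 1 := by
        rw [Finset.add_sum_erase Finset.univ (fun b => γ (i, b)) (Finset.mem_univ a), h1]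
      by_cases hb : b = a
      · subst hb
        rw [if_pos rfl]
        omega
      · rw [if_neg hb]
        have h4 : γ (i, b) ≤ ∑ b ∈ Finset.univ.erase a, γ (i, b) :=
          Finset.single_le_sum (f := fun b => γ (i, b)) (fun _ _ => Nat.zero_le _)
            (Finset.mem_erase.2 ⟨hb, Finset.mem_univ b⟩)
        omega
    · exact ⟨Classical.arbitrary A, fun h => absurd h hi⟩
  choose y hy using hex
  have hγ : γ = ∑ i ∈ J, Finsupp.single (i, y i) 1 := by
    ext ⟨i, a⟩
    rw [Finsupp.finsetSum_apply]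
    by_cases hi : i ∈ J
    · rw [hy i hi a, Finset.sum_eq_single i]
      · rw [Finsupp.single_apply]
        by_cases ha : a = y i
        · simp [ha]
        · rw [if_neg ha, if_neg]
          intro h
          exact ha (Prod.ext_iff.1 h).2.symm
      · intro j _ hj
        rw [Finsupp.single_apply, if_neg]
        intro h
        exact hj (Prod.ext_iff.1 h).1
      · intro h
        exact absurd hi h
    · have h1 : ∑ a, γ (i, a) = 0 := by
        have := h01 i
        rw [if_neg hi] at this
        exact this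
      have h2 : γ (i, a) = 0 := by
        have h3 : γ (i, a) ≤ ∑ a, γ (i, a) :=
          Finset.single_le_sum (f := fun b => γ (i, b)) (fun _ _ => Nat.zero_le _)
            (Finset.mem_univ a)
        omega
      rw [h2]
      symm
      apply Finset.sum_eq_zero
      intro j hj
      rw [Finsupp.single_apply, if_neg]
      intro h
      have : j = i := (Prod.ext_iff.1 h).1
      exact hi (this ▸ hj)
  refine ⟨J, ?_, y, ?_⟩
  · rw [← hd, hγ, map_sum]
    simp
  · rw [hγ]
    unfold mon
    rw [monomial_sum_one]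
    rfl

end SpanColsX

open SpanColsX in
/-- Spanning from the squarefree columns: every monomial of degree `d` that is not squarefree in
the blocks lies in `M`, and the squarefree columns are spanned by products. -/
theorem span_of_columns {N : ℕ} {A R α : Type} [Fintype A] [Nonempty A] (d : ℕ)
    (w : R → Fin N × A → ℂ) (e : R → ℕ)
    (hns : ∀ γ : Fin N × A →₀ ℕ, γ.degree = d → (∃ i, 2 ≤ bdegB γ i) →
      monomial γ (1 : ℂ) ∈ powSpan d w e)
    (c : α → Finset (Fin N)) (v : α → Fin N → A → ℂ) (emb : α → R)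
    (hemb : ∀ p, w (emb p) = vecB (c p) (v p) ∧ e (emb p) = (c p).card)
    (hcol : ∀ J : Finset (Fin N), J.card = d → ∃ P : Finset α, (∀ p ∈ P, c p ⊆ J) ∧
      SpanGood J P c v) :
    homogeneousSubmodule (Fin N × A) ℂ d ≤ powSpan d w e := by
  intro F hF
  rw [mem_homogeneousSubmodule] at hF
  rw [F.as_sum]
  apply Submodule.sum_mem
  intro γ hγ
  have hdeg : γ.degree = d := by
    have := hF (mem_support_iff.1 hγ)
    rw [← this, Finsupp.degree_eq_weight_one]
    rfl
  have h1 : monomial γ (coeff γ F) = (coeff γ F) • monomial γ (1 : ℂ) := by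
    rw [smul_monomial]; simp
  rw [h1]
  apply Submodule.smul_mem
  by_cases hsq : ∃ i, 2 ≤ bdegB γ i
  · exact hns γ hdeg hsq
  push Not at hsq
  obtain ⟨J, hJ, y0, hy0⟩ := exists_y γ hdeg hsq
  rw [hy0]
  obtain ⟨P, hP, hgood⟩ := hcol J hJ
  obtain ⟨κ, hκ, hf⟩ := hgood (fun y => if ∀ i ∈ J, y i = y0 i then 1 else 0) (by
    intro x y hxy
    have : (∀ i ∈ J, x i = y0 i) ↔ (∀ i ∈ J, y i = y0 i) := by
      constructor
      · intro h i hi
        rw [← hxy i hi]
        exact h i hi
      · intro h i hi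
        rw [hxy i hi]
        exact h i hi
    simp only [this])
  -- the sum over all `y`
  have h2 : ∑ y : Fin N → A, (C (if ∀ i ∈ J, y i = y0 i then (1 : ℂ) else 0) * mon J y :
      MvPolynomial (Fin N × A) ℂ)
      = (((Finset.univ.filter (fun y : Fin N → A => ∀ i ∈ J, y i = y0 i)).card : ℕ) : ℂ) •
        mon J y0 := by
    have h3 : ∀ y : Fin N → A, (C (if ∀ i ∈ J, y i = y0 i then (1 : ℂ) else 0) * mon J y :
        MvPolynomial (Fin N × A) ℂ) = if ∀ i ∈ J, y i = y0 i then mon J y0 else 0 := by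
      intro y
      by_cases hy : ∀ i ∈ J, y i = y0 i
      · rw [if_pos hy, if_pos hy, C_1, one_mul]
        unfold mon
        apply Finset.prod_congr rfl
        intro i hi
        rw [hy i hi]
      · rw [if_neg hy, if_neg hy, C_0, zero_mul]
    simp only [h3]
    rw [← Finset.sum_filter, Finset.sum_const, smul_eq_C_mul, nsmul_eq_mul]
    simp
  have hcne : (((Finset.univ.filter (fun y : Fin N → A => ∀ i ∈ J, y i = y0 i)).card : ℕ) : ℂ)
      ≠ 0 := by
    have : 0 < (Finset.univ.filter (fun y : Fin N → A => ∀ i ∈ J, y i = y0 i)).card := by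
      apply Finset.card_pos.2
      exact ⟨y0, by simp⟩
    exact_mod_cast this.ne'
  have hmem : ∑ y : Fin N → A, (C (if ∀ i ∈ J, y i = y0 i then (1 : ℂ) else 0) * mon J y :
      MvPolynomial (Fin N × A) ℂ) ∈ powSpan d w e := by
    have h4 : ∑ y : Fin N → A, (C (if ∀ i ∈ J, y i = y0 i then (1 : ℂ) else 0) * mon J y :
        MvPolynomial (Fin N × A) ℂ)
        = ∑ p ∈ P, ∑ y : Fin N → A, C ((∏ i ∈ c p, v p i (y i)) * κ p y) * mon J y := by
      rw [Finset.sum_comm]
      apply Finset.sum_congr rfl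
      intro y _
      rw [← Finset.sum_mul, ← map_sum]
      congr 2
      exact hf y
    rw [h4]
    apply Submodule.sum_mem
    intro p hp
    have hcJ := hP p hp
    have hcard : ((Fintype.card (Fin N → A) : ℕ) : ℂ) ≠ 0 := by
      have : 0 < Fintype.card (Fin N → A) := Fintype.card_pos
      exact_mod_cast this.ne'
    have h5 := sum_exch (c p) (fun y : Fin N → A =>
      (C ((∏ i ∈ c p, v p i (y i)) * κ p y) * mon J y : MvPolynomial (Fin N × A) ℂ))
    obtain ⟨t, ht⟩ := sum_prod_blk (c p) (v p)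
    have h6 : ∑ y : Fin N → A, ∑ z : Fin N → A,
        (C ((∏ i ∈ c p, v p i ((c p).piecewise z y i)) * κ p ((c p).piecewise z y)) *
          mon J ((c p).piecewise z y) : MvPolynomial (Fin N × A) ℂ)
        = t • ((∑ y : Fin N → A, C (κ p y) * mon (J \ c p) y) * ∏ i ∈ c p, blk (v p) i) := by
      rw [← mul_smul_comm, ← ht, Finset.sum_mul_sum]
      apply Finset.sum_congr rfl
      intro y _
      apply Finset.sum_congr rfl
      intro z _
      rw [mon_piecewise hcJ]
      have h7 : κ p ((c p).piecewise z y) = κ p y := by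
        apply hκ p hp
        intro i hi
        have : i ∉ c p :=
          ((@Finset.mem_sdiff _ (fun a b => Classical.propDecidable (a = b)) _ _ _).1 hi).2
        simp [Finset.piecewise, this]
      have h8 : ∏ i ∈ c p, v p i ((c p).piecewise z y i) = ∏ i ∈ c p, v p i (z i) := by
        apply Finset.prod_congr rfl
        intro i hi
        simp [Finset.piecewise, hi]
      rw [h7, h8, Finset.prod_mul_distrib, C_mul, map_prod]
      ring
    rw [h6] at h5
    have h9 : ∑ y : Fin N → A, (C ((∏ i ∈ c p, v p i (y i)) * κ p y) * mon J y :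
        MvPolynomial (Fin N × A) ℂ) = (((Fintype.card (Fin N → A) : ℕ) : ℂ)⁻¹ * t) •
          ((∑ y : Fin N → A, C (κ p y) * mon (J \ c p) y) * ∏ i ∈ c p, blk (v p) i) := by
      rw [mul_smul, ← h5, smul_smul, inv_mul_cancel₀ hcard, one_smul]
    rw [h9]
    apply Submodule.smul_mem
    have hcd : (c p).card ≤ d := by
      rw [← hJ]
      exact Finset.card_le_card hcJ
    apply prod_mem hns (v p) (c p) hcd (emb p) (hemb p).1 (hemb p).2
    apply IsHomogeneous.sum
    intro y _
    have h10 : (C (κ p y) : MvPolynomial (Fin N × A) ℂ).IsHomogeneous 0 := isHomogeneous_C _ _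
    have h11 := h10.mul (mon_homog (J \ c p) y)
    have h12 : 0 + (J \ c p).card = d - (c p).card := by
      rw [Finset.card_sdiff_of_subset hcJ, hJ, zero_add]
    rw [h12] at h11
    exact h11
  rw [h2] at hmem
  have h13 : mon J y0 = ((((Finset.univ.filter
      (fun y : Fin N → A => ∀ i ∈ J, y i = y0 i)).card : ℕ) : ℂ))⁻¹ •
      ((((Finset.univ.filter (fun y : Fin N → A => ∀ i ∈ J, y i = y0 i)).card : ℕ) : ℂ) •
        mon J y0) := by
    rw [smul_smul, inv_mul_cancel₀ hcne, one_smul]
  rw [h13]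
  exact Submodule.smul_mem _ _ hmem

end Pool.Agent.H21.HD
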