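import Pool.Agent.H21.HD.Defs2
import Pool.Agent.H21.HD.Open

/-!
SpanGood is open.
-/

namespace Pool.Agent.H21.HD

open MvPolynomial
open scoped Classical

namespace SpanOpenX

/-- The functions that depend only on the coordinates in `T`. -/
noncomputable def depSub {ι : Type*} (B : ι → Type*) (T : Finset ι) :
    Submodule ℂ ((∀ i, B i) → ℂ) where
  carrier := {f | DepOn T f}
  add_mem' := by
    intro f g hf hg x y hxy
    simp only [Pi.add_apply]
    rw [hf x y hxy, hg x y hxy]
  zero_mem' := by
    intro x y _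
    rfl
  smul_mem' := by
    intro c f hf x y hxy
    simp only [Pi.smul_apply]
    rw [hf x y hxy]

theorem mem_depSub {ι : Type*} {B : ι → Type*} {T : Finset ι} {f : (∀ i, B i) → ℂ} :
    f ∈ depSub B T ↔ DepOn T f := Iff.rfl

/-- The linear map attached to the parameters `x`. -/
noncomputable def spanMap {ι A α : Type} [Fintype ι] [Fintype A] (base : A)
    (J : Finset ι) (P : Finset α) (c : α → Finset ι) (x : α × ι × A → ℂ) :
    (∀ p : P, depSub (fun _ : ι => A) (J \ c p)) →ₗ[ℂ]
      ({y : ι → A // ∀ i, i ∉ J → y i = base} → ℂ) where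
  toFun κ := fun y => ∑ p : P, (∏ i ∈ c p, x (p.1, i, y.1 i)) * (κ p).1 y.1
  map_add' := by
    intro κ κ'
    funext y
    simp only [Pi.add_apply, Submodule.coe_add, mul_add, Finset.sum_add_distrib]
  map_smul' := by
    intro r κ
    funext y
    simp only [Pi.smul_apply, Submodule.coe_smul, smul_eq_mul, RingHom.id_apply, Finset.mul_sum]
    refine Finset.sum_congr rfl fun p _ => ?_
    ring

theorem spanMap_apply {ι A α : Type} [Fintype ι] [Fintype A] (base : A)
    (J : Finset ι) (P : Finset α) (c : α → Finset ι) (x : α × ι × A → ℂ)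
    (κ : ∀ p : P, depSub (fun _ : ι => A) (J \ c p))
    (y : {y : ι → A // ∀ i, i ∉ J → y i = base}) :
    spanMap base J P c x κ y = ∑ p : P, (∏ i ∈ c p, x (p.1, i, y.1 i)) * (κ p).1 y.1 := rfl

end SpanOpenX

open SpanOpenX in
/-- `SpanGood` is an open condition. -/
theorem spanGood_open {ι A α : Type} [Fintype ι] [Fintype A] [Nonempty A]
    (J : Finset ι) (P : Finset α) (c : α → Finset ι) (hc : ∀ p ∈ P, c p ⊆ J)
    (v₀ : α → ι → A → ℂ) (h : SpanGood J P c v₀) :
    ∃ G : MvPolynomial (α × ι × A) ℂ, G ≠ 0 ∧ ∀ v : α → ι → A → ℂ,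
      eval (fun x => v x.1 x.2.1 x.2.2) G ≠ 0 → SpanGood J P c v := by
  obtain ⟨base⟩ := ‹Nonempty A›
  have hT : ∀ (κ : ∀ p : P, depSub (fun _ : ι => A) (J \ c p))
      (y : {y : ι → A // ∀ i, i ∉ J → y i = base}),
      PolyFun (fun x => spanMap base J P c x κ y) := by
    intro κ y
    simp only [spanMap_apply]
    refine PolyFun.sum _ _ fun p _ => ?_
    refine PolyFun.mul ?_ (PolyFun.const _)
    exact PolyFun.prod _ (fun i x => x (p.1, i, y.1 i)) fun i _ => PolyFun.coord _
  have hsurj : Function.Surjective (spanMap base J P c (fun x => v₀ x.1 x.2.1 x.2.2)) := by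
    intro f
    let F : (ι → A) → ℂ := fun y => f ⟨fun i => if i ∈ J then y i else base, by
      intro i hi
      simp [hi]⟩
    have hF : DepOn J F := by
      intro x y hxy
      have : (fun i => if i ∈ J then x i else base) = fun i => if i ∈ J then y i else base := by
        funext i
        by_cases hi : i ∈ J
        · simp [hi, hxy i hi]
        · simp [hi]
      simp only [F, this]
    obtain ⟨κ, hκ1, hκ2⟩ := h F hF
    refine ⟨fun p => ⟨κ p.1, hκ1 p.1 p.2⟩, ?_⟩
    funext y
    rw [spanMap_apply]
    have h1 : f y = F y.1 := by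
      simp only [F]
      congr 1
      apply Subtype.ext
      funext i
      by_cases hi : i ∈ J
      · simp [hi]
      · simp [hi, y.2 i hi]
    rw [h1, hκ2 y.1, ← Finset.sum_coe_sort P
      (fun p => (∏ i ∈ c p, v₀ p i (y.1 i)) * κ p y.1)]
  obtain ⟨G, hG0, hG⟩ := open_surj (spanMap base J P c) hT _ hsurj
  refine ⟨G, ?_, ?_⟩
  · rintro rfl
    simp at hG0
  · intro v hv f hf
    obtain ⟨κ, hκ⟩ := hG _ hv (fun y => f y.1)
    refine ⟨fun p => if hp : p ∈ P then (κ ⟨p, hp⟩).1 else 0, ?_, ?_⟩
    · intro p hp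
      simp only [dif_pos hp]
      exact (κ ⟨p, hp⟩).2
    · intro y
      have hz : ∀ i, i ∉ J → (fun i => if i ∈ J then y i else base) i = base := by
        intro i hi
        simp [hi]
      have h1 := congrFun hκ ⟨fun i => if i ∈ J then y i else base, hz⟩
      rw [spanMap_apply] at h1
      have h2 : f (fun i => if i ∈ J then y i else base) = f y := by
        apply hf
        intro i hi
        simp [hi]
      simp only [h2] at h1
      rw [← h1, ← Finset.sum_coe_sort P
        (fun p => (∏ i ∈ c p, v p i (y i)) *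
          (if hp : p ∈ P then (κ ⟨p, hp⟩).1 else 0) y)]
      refine Finset.sum_congr rfl fun p _ => ?_
      rw [dif_pos p.2]
      congr 1
      · refine Finset.prod_congr rfl fun i hi => ?_
        simp [hc p.1 p.2 hi]
      · apply (κ p).2
        intro i hi
        simp [(Finset.mem_sdiff.1 hi).1]

end Pool.Agent.H21.HD
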