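import Pool.Agent.H21.HD.Defs2

/-!
The functional FF.
-/

namespace Pool.Agent.H21.HD

open scoped Classical

variable {ι : Type*}

lemma FFlX.EEr_empty (W : Finset ι → ℝ) : EEr W ∅ = 1 := by
  rw [EEr]
  simp

lemma FFlX.EEr_choose (W : Finset ι → ℝ) (Q : Finset ι) (h : Q.Nonempty) :
    EEr W Q = ∑ T ∈ subs Q h.choose, W T * EEr W (Q \ T) := by
  rw [EEr, dif_pos h]
  exact Finset.sum_coe_sort (subs Q h.choose) (fun T => W T * EEr W (Q \ T))

/-- The recursion holds for every element. -/
lemma FFlX.EEr_rec (W : Finset ι → ℝ) : ∀ (n : ℕ) (Q : Finset ι), Q.card = n → ∀ p ∈ Q,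
    EEr W Q = ∑ T ∈ subs Q p, W T * EEr W (Q \ T) := by
  intro n
  induction n using Nat.strong_induction_on with
  | _ n ih =>
    intro Q hQ p hp
    have hne : Q.Nonempty := ⟨p, hp⟩
    rw [FFlX.EEr_choose W Q hne]
    set q := hne.choose with hq
    have hqQ : q ∈ Q := hne.choose_spec
    have key : ∀ a ∈ Q, ∀ b ∈ Q, ∑ T ∈ subs Q a, W T * EEr W (Q \ T) =
        ∑ T ∈ (subs Q a).filter (fun T => b ∈ T), W T * EEr W (Q \ T) +
        ∑ T ∈ (subs Q a).filter (fun T => b ∉ T), ∑ T' ∈ subs (Q \ T) b,
          W T * (W T' * EEr W ((Q \ T) \ T')) := by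
      intro a ha b hb
      rw [← Finset.sum_filter_add_sum_filter_not (subs Q a) (fun T => b ∈ T)]
      congr 1
      refine Finset.sum_congr rfl fun T hT => ?_
      rw [Finset.mem_filter, mem_subs] at hT
      rw [ih _ (by rw [← hQ]; exact card_sdiff_lt' hT.1.1 hT.1.2) (Q \ T) rfl b
        (Finset.mem_sdiff.mpr ⟨hb, hT.2⟩), Finset.mul_sum]
    rw [key q hqQ p hp, key p hp q hqQ]
    congr 1
    · refine Finset.sum_congr ?_ fun _ _ => rfl
      ext T
      rw [Finset.mem_filter, Finset.mem_filter, mem_subs, mem_subs]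
      tauto
    · rw [Finset.sum_sigma', Finset.sum_sigma']
      refine Finset.sum_nbij' (fun x => ⟨x.2, x.1⟩) (fun x => ⟨x.2, x.1⟩) ?_ ?_ ?_ ?_ ?_
      · rintro ⟨T, T'⟩ hx
        rw [Finset.mem_sigma, Finset.mem_filter, mem_subs, mem_subs] at hx
        obtain ⟨⟨⟨h1, h2⟩, h3⟩, h4, h5⟩ := hx
        simp only at h1 h2 h3 h4 h5
        rw [Finset.mem_sigma, Finset.mem_filter, mem_subs, mem_subs]
        have hdisj : Disjoint T T' := by
          rw [Finset.disjoint_right]
          intro y hy hyT
          exact (Finset.mem_sdiff.mp (h4 hy)).2 hyT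
        refine ⟨⟨⟨h4.trans Finset.sdiff_subset, h5⟩, ?_⟩, ?_, h2⟩
        · intro hqT'
          exact (Finset.disjoint_left.mp hdisj h2) hqT'
        · intro y hy
          exact Finset.mem_sdiff.mpr ⟨h1 hy, fun h => (Finset.disjoint_left.mp hdisj hy) h⟩
      · rintro ⟨T, T'⟩ hx
        rw [Finset.mem_sigma, Finset.mem_filter, mem_subs, mem_subs] at hx
        obtain ⟨⟨⟨h1, h2⟩, h3⟩, h4, h5⟩ := hx
        simp only at h1 h2 h3 h4 h5
        rw [Finset.mem_sigma, Finset.mem_filter, mem_subs, mem_subs]
        have hdisj : Disjoint T T' := by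
          rw [Finset.disjoint_right]
          intro y hy hyT
          exact (Finset.mem_sdiff.mp (h4 hy)).2 hyT
        refine ⟨⟨⟨h4.trans Finset.sdiff_subset, h5⟩, ?_⟩, ?_, h2⟩
        · intro hqT'
          exact (Finset.disjoint_left.mp hdisj h2) hqT'
        · intro y hy
          exact Finset.mem_sdiff.mpr ⟨h1 hy, fun h => (Finset.disjoint_left.mp hdisj hy) h⟩
      · rintro ⟨T, T'⟩ _; rfl
      · rintro ⟨T, T'⟩ _; rfl
      · rintro ⟨T, T'⟩ _
        simp only
        rw [sdiff_sdiff_comm]
        ring

lemma FFlX.EEr_rec' (W : Finset ι → ℝ) (Q : Finset ι) (p : ι) (hp : p ∈ Q) :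
    EEr W Q = ∑ T ∈ subs Q p, W T * EEr W (Q \ T) :=
  FFlX.EEr_rec W _ Q rfl p hp

lemma FFlX.EEr_congr {W W' : Finset ι → ℝ} : ∀ (n : ℕ) (Q : Finset ι), Q.card = n →
    (∀ T ⊆ Q, T.Nonempty → W T = W' T) → EEr W Q = EEr W' Q := by
  intro n
  induction n using Nat.strong_induction_on with
  | _ n ih =>
    intro Q hQ h
    by_cases hne : Q.Nonempty
    · obtain ⟨p, hp⟩ := hne
      rw [FFlX.EEr_rec' W Q p hp, FFlX.EEr_rec' W' Q p hp]
      refine Finset.sum_congr rfl fun T hT => ?_
      rw [mem_subs] at hT
      rw [h T hT.1 ⟨p, hT.2⟩, ih _ (by rw [← hQ]; exact card_sdiff_lt' hT.1 hT.2) (Q \ T) rfl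
        (fun T' hT' => h T' (hT'.trans Finset.sdiff_subset))]
    · rw [Finset.not_nonempty_iff_eq_empty] at hne
      rw [hne, FFlX.EEr_empty, FFlX.EEr_empty]

lemma FF_empty (lam : Finset ι → ℝ) : FF lam ∅ = 1 := by
  unfold FF
  exact FFlX.EEr_empty _

/-- The recursion, for every element `i` of `J`. -/
lemma FF_rec (lam : Finset ι → ℝ) (J : Finset ι) (i : ι) (hi : i ∈ J) :
    FF lam J = FF lam (J.erase i) - ∑ T ∈ subs J i, lam T * FF lam (J \ T) := by
  have h1 : FF lam J = ∑ T ∈ subs J i, ((if T.card = 1 then 1 else 0) - lam T) *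
      FF lam (J \ T) := by
    unfold FF
    exact FFlX.EEr_rec' _ J i hi
  rw [h1]
  simp only [sub_mul, Finset.sum_sub_distrib]
  congr 1
  have h2 : ∑ T ∈ subs J i, (if T.card = 1 then (1 : ℝ) else 0) * FF lam (J \ T) =
      ∑ T ∈ subs J i, if T = {i} then FF lam (J \ {i}) else 0 := by
    refine Finset.sum_congr rfl fun T hT => ?_
    rw [mem_subs] at hT
    by_cases hc : T.card = 1
    · obtain ⟨j, rfl⟩ := Finset.card_eq_one.mp hc
      have hij : i = j := Finset.mem_singleton.mp hT.2
      subst hij
      simp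
    · have hne : T ≠ {i} := by
        rintro rfl
        exact hc (Finset.card_singleton i)
      rw [if_neg hc, if_neg hne, zero_mul]
  rw [h2, Finset.sum_ite_eq', if_pos]
  · rw [Finset.sdiff_singleton_eq_erase]
  · rw [mem_subs]
    exact ⟨Finset.singleton_subset_iff.mpr hi, Finset.mem_singleton_self i⟩

lemma FF_congr {lam lam' : Finset ι → ℝ} (J : Finset ι)
    (h : ∀ T ⊆ J, T.Nonempty → lam T = lam' T) : FF lam J = FF lam' J := by
  unfold FF
  exact FFlX.EEr_congr _ J rfl fun T hT hne => by rw [h T hT hne]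

/-- `FF` is affine in each of its arguments. -/
lemma FF_add {lam lam' : Finset ι → ℝ} (J T₀ : Finset ι) (hT₀ : T₀.Nonempty) (hJ : T₀ ⊆ J)
    (μ : ℝ) (h1 : lam' T₀ = lam T₀ + μ) (h2 : ∀ T, T ≠ T₀ → lam' T = lam T) :
    FF lam' J = FF lam J - μ * FF lam (J \ T₀) := by
  obtain ⟨p, hp⟩ := hT₀
  rw [FF_rec lam' J p (hJ hp), FF_rec lam J p (hJ hp)]
  have e1 : FF lam' (J.erase p) = FF lam (J.erase p) := by
    refine FF_congr _ fun T hT _ => h2 T ?_
    rintro rfl
    exact (Finset.notMem_erase p J) (hT hp)
  have e2 : ∑ T ∈ subs J p, lam' T * FF lam' (J \ T) =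
      ∑ T ∈ subs J p, (lam T * FF lam (J \ T) + if T = T₀ then μ * FF lam (J \ T₀) else 0) := by
    refine Finset.sum_congr rfl fun T hT => ?_
    rw [mem_subs] at hT
    have e3 : FF lam' (J \ T) = FF lam (J \ T) := by
      refine FF_congr _ fun T' hT' _ => h2 T' ?_
      rintro rfl
      exact (Finset.mem_sdiff.mp (hT' hp)).2 hT.2
    rw [e3]
    by_cases hc : T = T₀
    · rw [if_pos hc, hc, h1]
      ring
    · rw [if_neg hc, h2 T hc]
      ring
  rw [e1, e2, Finset.sum_add_distrib, Finset.sum_ite_eq', if_pos (mem_subs.mpr ⟨hJ, hp⟩)]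
  ring

/-- For loads that depend only on the cardinality the functional is `phi`. -/
lemma FF_card (κ : ℕ → ℝ) (J : Finset ι) (lam : Finset ι → ℝ)
    (h : ∀ T ⊆ J, T.Nonempty → lam T = κ T.card) : FF lam J = phi κ J.card := by
  have main : ∀ (n : ℕ) (J : Finset ι), J.card = n →
      (∀ T ⊆ J, T.Nonempty → lam T = κ T.card) → FF lam J = phi κ n := by
    intro n
    induction n using Nat.strong_induction_on with
    | _ n ih =>
      intro J hJ h
      by_cases hne : J.Nonempty
      · obtain ⟨i, hi⟩ := hne
        obtain ⟨m, rfl⟩ : ∃ m, n = m + 1 :=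
          Nat.exists_eq_succ_of_ne_zero (by rw [← hJ]; exact Finset.card_ne_zero_of_mem hi)
        have hce : (J.erase i).card = m := by
          rw [Finset.card_erase_of_mem hi, hJ]; rfl
        rw [FF_rec lam J i hi, phi]
        congr 1
        · exact ih m (Nat.lt_succ_self m) _ hce
            fun T hT hT' => h T (hT.trans (Finset.erase_subset i J)) hT'
        · have e1 : ∑ T ∈ subs J i, lam T * FF lam (J \ T) =
              ∑ U ∈ (J.erase i).powerset, κ (U.card + 1) * phi κ (m - U.card) := by
            symm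
            refine Finset.sum_bij' (fun U _ => insert i U) (fun T _ => T.erase i) ?_ ?_ ?_ ?_ ?_
            · intro U hU
              rw [Finset.mem_powerset] at hU
              rw [mem_subs]
              exact ⟨Finset.insert_subset hi (hU.trans (Finset.erase_subset i J)),
                Finset.mem_insert_self i U⟩
            · intro T hT
              rw [mem_subs] at hT
              rw [Finset.mem_powerset]
              exact Finset.erase_subset_erase i hT.1
            · intro U hU
              rw [Finset.mem_powerset] at hU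
              exact Finset.erase_insert fun hiU => Finset.notMem_erase i J (hU hiU)
            · intro T hT
              rw [mem_subs] at hT
              exact Finset.insert_erase hT.2
            · intro U hU
              rw [Finset.mem_powerset] at hU
              have hiU : i ∉ U := fun hiU => Finset.notMem_erase i J (hU hiU)
              have hsub : insert i U ⊆ J :=
                Finset.insert_subset hi (hU.trans (Finset.erase_subset i J))
              have hcU : (insert i U).card = U.card + 1 := Finset.card_insert_of_notMem hiU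
              have hcd : (J \ insert i U).card = m - U.card := by
                rw [Finset.card_sdiff_of_subset hsub, hJ, hcU]
                omega
              rw [h _ hsub ⟨i, Finset.mem_insert_self i U⟩, hcU]
              congr 1
              symm
              refine ih (m - U.card) (by omega) _ hcd fun T hT hT' =>
                h T (hT.trans Finset.sdiff_subset) hT'
          rw [e1, Finset.sum_powerset_apply_card (fun k => κ (k + 1) * phi κ (m - k)) , hce,
            Finset.sum_range]
          refine Finset.sum_congr rfl fun e _ => ?_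
          rw [nsmul_eq_mul]
          ring
      · rw [Finset.not_nonempty_iff_eq_empty] at hne
        rw [hne, FF_empty]
        rw [hne, Finset.card_empty] at hJ
        rw [← hJ, phi]
  exact main _ J rfl h

end Pool.Agent.H21.HD
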