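import Pool.Agent.H21.HD.Defs2
import Pool.Agent.H21.HD.FFl

/-!
The real-number part of the slicing step.
-/

namespace Pool.Agent.H21.HD

open MvPolynomial
open scoped Classical

/-- `FF` decreases when the set grows -/
private lemma spanSplit_anti {ι : Type} (J : Finset ι) (lam : Finset ι → ℝ)
    (h0 : ∀ T, 0 ≤ lam T) (hpos : ∀ J' ⊂ J, 0 < FF lam J') (K : Finset ι) (hK : K ⊂ J) :
    ∀ n : ℕ, ∀ L : Finset ι, L ⊆ K → (K \ L).card = n → FF lam K ≤ FF lam L := by
  intro n
  induction n with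
  | zero =>
    intro L hL hc
    have h1 : K \ L = ∅ := Finset.card_eq_zero.mp hc
    have h2 : K ⊆ L := Finset.sdiff_eq_empty_iff_subset.mp h1
    rw [Finset.Subset.antisymm hL h2]
  | succ n ih =>
    intro L hL hc
    have hne : (K \ L).Nonempty := by
      rw [← Finset.card_pos, hc]; exact Nat.succ_pos n
    obtain ⟨x, hx⟩ := hne
    have hxK : x ∈ K := (Finset.mem_sdiff.mp hx).1
    have hxL : x ∉ L := (Finset.mem_sdiff.mp hx).2
    have hins : insert x L ⊆ K := Finset.insert_subset hxK hL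
    have hcard : (K \ insert x L).card = n := by
      have e1 := Finset.card_sdiff_add_card_eq_card hL
      have e2 := Finset.card_sdiff_add_card_eq_card hins
      rw [Finset.card_insert_of_notMem hxL] at e2
      omega
    have h1 := ih (insert x L) hins hcard
    have h2 := FF_rec lam (insert x L) x (Finset.mem_insert_self x L)
    rw [Finset.erase_insert hxL] at h2
    have h3 : 0 ≤ ∑ T ∈ subs (insert x L) x, lam T * FF lam (insert x L \ T) := by
      apply Finset.sum_nonneg
      intro T _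
      apply mul_nonneg (h0 T)
      apply le_of_lt
      apply hpos
      exact lt_of_le_of_lt (Finset.sdiff_subset.trans hins) hK
    linarith

/-- Real-number part of the slicing step. If `FF lam` is positive on all proper subsets of `J`
and `FF lam J ≤ 0`, then the `w` slices can be distributed to the sets `T ∋ i`. -/
theorem span_split {ι : Type} (J : Finset ι) (i : ι) (hi : i ∈ J) (lam : Finset ι → ℝ)
    (h0 : ∀ T, 0 ≤ lam T) (hpos : ∀ J' ⊂ J, 0 < FF lam J') (hle : FF lam J ≤ 0)
    (η : ℝ) (hη : 0 < η) (w : ℕ) (hw : 4 / η ≤ w) :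
    ∃ (n : Finset ι → ℕ) (m : Finset ι → ℕ) (μ : Finset ι → ℝ),
      w ≤ ∑ T ∈ subs J i, n T ∧
      (∀ T ∈ subs J i, n T ≤ w) ∧
      (∀ T ∈ subs J i, 0 < n T → 0 < lam T) ∧
      (∀ T ∈ subs J i, 0 < μ T ∧ μ T ≤ 1) ∧
      (∀ T ∈ subs J i, FF lam (J.erase i) - μ T * FF lam (J \ T) ≤ 0) ∧
      (∀ T ∈ subs J i, (μ T + η / 2) * (w : ℝ) ^ (T.card - 1) ≤ m T) ∧
      (∀ T ∈ subs J i, 1 < T.card → (n T : ℝ) * m T ≤ (lam T + η) * (w : ℝ) ^ T.card) ∧
      (∀ T ∈ subs J i, T.card = 1 → (n T : ℝ) ≤ (lam T + η) * (w : ℝ)) := by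
  have hwη : 4 ≤ (w : ℝ) * η := by
    rw [div_le_iff₀ hη] at hw
    exact hw
  have hw0 : 0 < (w : ℝ) := by
    by_contra hcon
    push Not at hcon
    nlinarith
  have hw1 : (1 : ℝ) ≤ w := by
    have : 0 < w := by exact_mod_cast hw0
    exact_mod_cast this
  have hE : 0 < FF lam (J.erase i) := hpos _ (Finset.erase_ssubset hi)
  have hD : ∀ T ∈ subs J i, 0 < FF lam (J \ T) := by
    intro T hT
    rw [mem_subs] at hT
    exact hpos _ (Finset.sdiff_ssubset hT.1 ⟨i, hT.2⟩)
  have hmono : ∀ T ∈ subs J i, FF lam (J.erase i) ≤ FF lam (J \ T) := by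
    intro T hT
    rw [mem_subs] at hT
    refine spanSplit_anti J lam h0 hpos (J.erase i) (Finset.erase_ssubset hi) _ (J \ T) ?_ rfl
    intro x hx
    rw [Finset.mem_sdiff] at hx
    rw [Finset.mem_erase]
    refine ⟨?_, hx.1⟩
    rintro rfl
    exact hx.2 hT.2
  set μ : Finset ι → ℝ := fun T => FF lam (J.erase i) / FF lam (J \ T) with hμ
  have hμ0 : ∀ T ∈ subs J i, 0 < μ T := fun T hT => div_pos hE (hD T hT)
  have hμ1 : ∀ T ∈ subs J i, μ T ≤ 1 := fun T hT => (div_le_one (hD T hT)).mpr (hmono T hT)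
  set y : Finset ι → ℝ := fun T => lam T / μ T with hy
  have hy0 : ∀ T ∈ subs J i, 0 ≤ y T := fun T hT => div_nonneg (h0 T) (hμ0 T hT).le
  have hyμ : ∀ T ∈ subs J i, y T * μ T = lam T := fun T hT =>
    div_mul_cancel₀ _ (hμ0 T hT).ne'
  have hsum : 1 ≤ ∑ T ∈ subs J i, y T := by
    have h1 := FF_rec lam J i hi
    have h2 : FF lam (J.erase i) ≤ ∑ T ∈ subs J i, lam T * FF lam (J \ T) := by linarith
    have h3 : ∑ T ∈ subs J i, y T =
        (∑ T ∈ subs J i, lam T * FF lam (J \ T)) / FF lam (J.erase i) := by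
      rw [Finset.sum_div]
      apply Finset.sum_congr rfl
      intro T hT
      have hd := (hD T hT).ne'
      have he := hE.ne'
      simp only [hy, hμ]
      field_simp
    rw [h3, one_le_div hE]
    exact h2
  set n : Finset ι → ℕ := fun T => min ⌈y T * w⌉₊ w with hn
  set m : Finset ι → ℕ := fun T => ⌈(μ T + η / 2) * (w : ℝ) ^ (T.card - 1)⌉₊ with hm
  have hnlt : ∀ T ∈ subs J i, (n T : ℝ) ≤ y T * w + 1 := by
    intro T hT
    have h1 : (n T : ℝ) ≤ (⌈y T * w⌉₊ : ℝ) := by
      exact_mod_cast min_le_left _ _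
    have h2 := Nat.ceil_lt_add_one (mul_nonneg (hy0 T hT) hw0.le)
    linarith
  have hnw : ∀ T, (n T : ℝ) ≤ w := by
    intro T
    exact_mod_cast min_le_right _ _
  refine ⟨n, m, μ, ?_, ?_, ?_, ?_, ?_, ?_, ?_, ?_⟩
  · by_cases hex : ∃ T ∈ subs J i, n T = w
    · obtain ⟨T, hT, hTw⟩ := hex
      calc w = n T := hTw.symm
        _ ≤ ∑ T ∈ subs J i, n T := Finset.single_le_sum (fun _ _ => Nat.zero_le _) hT
    · push Not at hex
      have h1 : ∀ T ∈ subs J i, y T * w ≤ (n T : ℝ) := by
        intro T hT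
        have h2 : n T = ⌈y T * w⌉₊ := by
          rcases min_choice ⌈y T * (w : ℝ)⌉₊ w with h | h
          · exact h
          · exact absurd h (hex T hT)
        rw [h2]
        exact Nat.le_ceil _
      have h3 : (w : ℝ) ≤ ((∑ T ∈ subs J i, n T : ℕ) : ℝ) := by
        push_cast
        calc (w : ℝ) = 1 * w := (one_mul _).symm
          _ ≤ (∑ T ∈ subs J i, y T) * w := mul_le_mul_of_nonneg_right hsum hw0.le
          _ = ∑ T ∈ subs J i, y T * w := Finset.sum_mul _ _ _
          _ ≤ ∑ T ∈ subs J i, (n T : ℝ) := Finset.sum_le_sum h1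
      exact_mod_cast h3
  · intro T _
    exact min_le_right _ _
  · intro T hT hpos'
    rcases (h0 T).lt_or_eq with h | h
    · exact h
    · exfalso
      have h1 : y T = 0 := by simp only [hy]; rw [← h]; simp
      have h2 : n T = 0 := by
        simp only [hn, h1]; simp
      omega
  · intro T hT
    exact ⟨hμ0 T hT, hμ1 T hT⟩
  · intro T hT
    have : μ T * FF lam (J \ T) = FF lam (J.erase i) := div_mul_cancel₀ _ (hD T hT).ne'
    rw [this, sub_self]
  · intro T _
    exact Nat.le_ceil _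
  · intro T hT hc
    obtain ⟨s, hs⟩ : ∃ s, T.card = s + 2 := ⟨T.card - 2, by omega⟩
    have e1 : T.card - 1 = s + 1 := by omega
    have hm1 : (m T : ℝ) ≤ (μ T + η / 2) * (w : ℝ) ^ (s + 1) + 1 := by
      have hnn : 0 ≤ (μ T + η / 2) * (w : ℝ) ^ (s + 1) := by
        have := (hμ0 T hT).le
        positivity
      have h2 := Nat.ceil_lt_add_one hnn
      simp only [hm, e1]
      linarith
    have hn0 : (0 : ℝ) ≤ n T := Nat.cast_nonneg _
    have hP : (1 : ℝ) ≤ (w : ℝ) ^ s := one_le_pow₀ hw1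
    rw [hs]
    set P := (w : ℝ) ^ s with hPdef
    have eP1 : (w : ℝ) ^ (s + 1) = P * w := pow_succ _ _
    have eP2 : (w : ℝ) ^ (s + 2) = P * w * w := by rw [pow_succ, pow_succ]
    rw [eP1] at hm1
    rw [eP2]
    have hPw : 0 ≤ P * w := by positivity
    have hμnn := (hμ0 T hT).le
    have hstep1 : (n T : ℝ) * m T ≤ n T * ((μ T + η / 2) * (P * w) + 1) :=
      mul_le_mul_of_nonneg_left hm1 hn0
    have hstep2 : (n T : ℝ) * (μ T * (P * w)) ≤ (y T * w + 1) * (μ T * (P * w)) :=
      mul_le_mul_of_nonneg_right (hnlt T hT) (mul_nonneg hμnn hPw)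
    have hstep3 : (n T : ℝ) * (η / 2 * (P * w) + 1) ≤ w * (η / 2 * (P * w) + 1) :=
      mul_le_mul_of_nonneg_right (hnw T) (by positivity)
    have hstep4 : (y T * w + 1) * (μ T * (P * w)) = lam T * (P * w * w) + μ T * (P * w) := by
      rw [← hyμ T hT]; ring
    have hstep5 : μ T * (P * w) ≤ P * w := by
      have := mul_le_mul_of_nonneg_right (hμ1 T hT) hPw
      linarith
    have hstep6 : (w : ℝ) ≤ P * w := by nlinarith
    have hstep7 : 2 * (P * w) ≤ η / 2 * (P * w * w) := by
      have := mul_le_mul_of_nonneg_left hwη hPw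
      nlinarith
    nlinarith
  · intro T hT hc
    have hTi : T = {i} := by
      obtain ⟨a, ha⟩ := Finset.card_eq_one.mp hc
      rw [mem_subs] at hT
      have := hT.2
      rw [ha, Finset.mem_singleton] at this
      rw [ha, this]
    have hμT : μ T = 1 := by
      simp only [hμ]
      have : J \ T = J.erase i := by rw [hTi]; exact Finset.sdiff_singleton_eq_erase i J
      rw [this, div_self hE.ne']
    have hyT : y T = lam T := by
      have := hyμ T hT
      rw [hμT, mul_one] at this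
      exact this
    have h1 := hnlt T hT
    rw [hyT] at h1
    nlinarith

end Pool.Agent.H21.HD
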