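import Pool.Agent.H21.HD.Defs2
import Pool.Agent.H21.HD.SpanOpen

/-!
The slicing step for spanning.
-/

namespace Pool.Agent.H21.HD

open MvPolynomial
open scoped Classical

private lemma depOn_mono {ι : Type*} {B : ι → Type*} {T T' : Finset ι} {f : (∀ i, B i) → ℂ}
    (h : DepOn T f) (hT : T ⊆ T') : DepOn T' f :=
  fun x y hxy => h x y fun i hi => hxy i (hT hi)

private lemma depOn_update {ι A : Type*} {J : Finset ι} {i : ι} {f : (ι → A) → ℂ}
    (h : DepOn J f) (t : A) : DepOn (J.erase i) (fun y => f (Function.update y i t)) := by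
  intro x y hxy
  refine h _ _ fun k hk => ?_
  by_cases hki : k = i
  · subst hki; simp
  · rw [Function.update_of_ne hki, Function.update_of_ne hki]
    exact hxy k (Finset.mem_erase.2 ⟨hki, hk⟩)

/-- One slicing step. -/
theorem span_step {ι A α : Type} [Fintype ι] [Fintype A] [Nonempty A]
    (J : Finset ι) (i : ι) (hi : i ∈ J) (P : Finset α) (c : α → Finset ι)
    (hc : ∀ p ∈ P, c p ⊆ J) (s : α → A)
    (h : ∀ t : A, (∃ p ∈ P, c p = {i} ∧ s p = t) ∨
      ∃ v : α → ι → A → ℂ, SpanGood (J.erase i) (P.filter (fun p => i ∈ c p → s p = t))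
        (fun p => (c p).erase i) v) :
    ∃ v : α → ι → A → ℂ, SpanGood J P c v := by
  -- a polynomial for every slice
  have key : ∀ t : A, ∃ G : MvPolynomial (α × ι × A) ℂ, G ≠ 0 ∧ ∀ v : α → ι → A → ℂ,
      eval (fun x => v x.1 x.2.1 x.2.2) G ≠ 0 →
        SpanGood (J.erase i) (P.filter (fun p => i ∈ c p → s p = t)) (fun p => (c p).erase i) v := by
    intro t
    rcases h t with ⟨p₀, hp₀, hcp, hsp⟩ | ⟨v₀, hv₀⟩
    · refine ⟨1, one_ne_zero, fun v _ f hf => ?_⟩
      refine ⟨fun p y => if p = p₀ then f y else 0, ?_, ?_⟩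
      · intro p _
        by_cases hpp : p = p₀
        · subst hpp
          have h1 : J.erase i \ (c p).erase i = J.erase i := by
            rw [hcp]
            ext k
            simp
          simp only [if_true]
          show DepOn (J.erase i \ (c p).erase i) fun y => f y
          rw [h1]
          exact hf
        · intro x y _
          simp [hpp]
      · intro y
        rw [Finset.sum_eq_single p₀]
        · simp [hcp]
        · intro p _ hpp
          simp [hpp]
        · intro hno
          exact absurd (Finset.mem_filter.2 ⟨hp₀, fun _ => hsp⟩) hno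
    · exact spanGood_open (J.erase i) _ _ (by
        intro p hp
        exact Finset.erase_subset_erase i (hc p (Finset.mem_filter.1 hp).1)) v₀ hv₀
  choose G hG0 hG using key
  obtain ⟨x, hx⟩ := exists_common (Finset.univ : Finset A) G (fun t _ => hG0 t)
  set v0 : α → ι → A → ℂ := fun p k a => x (p, k, a) with hv0
  have hgood : ∀ t : A, SpanGood (J.erase i) (P.filter (fun p => i ∈ c p → s p = t))
      (fun p => (c p).erase i) v0 := by
    intro t
    refine hG t v0 ?_
    have h1 : (fun x : α × ι × A => v0 x.1 x.2.1 x.2.2) = x := by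
      funext z
      rfl
    rw [h1]
    exact hx t (Finset.mem_univ t)
  refine ⟨fun p k a => if k = i then (if a = s p then 1 else 0) else v0 p k a, ?_⟩
  intro f hf
  have hk : ∀ t : A, ∃ κ : α → (ι → A) → ℂ,
      (∀ p ∈ P.filter (fun p => i ∈ c p → s p = t), DepOn (J.erase i \ (c p).erase i) (κ p)) ∧
        ∀ y, f (Function.update y i t) = ∑ p ∈ P.filter (fun p => i ∈ c p → s p = t),
          (∏ k ∈ (c p).erase i, v0 p k (y k)) * κ p y :=
    fun t => hgood t _ (depOn_update hf t)
  choose κ hκ1 hκ2 using hk
  refine ⟨fun p y => if i ∈ c p then κ (s p) p y else κ (y i) p y, ?_, ?_⟩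
  · intro p hp
    have hsub : J.erase i \ (c p).erase i ⊆ J \ c p := by
      intro k hk
      simp only [Finset.mem_sdiff, Finset.mem_erase, not_and] at hk ⊢
      exact ⟨hk.1.2, fun hkc => hk.2 hk.1.1 hkc⟩
    by_cases hic : i ∈ c p
    · simp only [hic, if_true]
      exact depOn_mono (hκ1 (s p) p (Finset.mem_filter.2 ⟨hp, fun _ => rfl⟩)) hsub
    · simp only [hic, if_false]
      intro y z hyz
      have h1 : y i = z i := hyz i (Finset.mem_sdiff.2 ⟨hi, hic⟩)
      show κ (y i) p y = κ (z i) p z
      rw [h1]
      exact hκ1 (z i) p (Finset.mem_filter.2 ⟨hp, fun h => absurd h hic⟩) y z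
        fun k hk => hyz k (hsub hk)
  · intro y
    have h1 : f y = f (Function.update y i (y i)) := by rw [Function.update_eq_self]
    rw [h1, hκ2 (y i) y, Finset.sum_filter]
    refine Finset.sum_congr rfl fun p _ => ?_
    by_cases hic : i ∈ c p
    · have h2 : ∏ k ∈ c p, (if k = i then (if y k = s p then (1 : ℂ) else 0) else v0 p k (y k)) =
          (if y i = s p then 1 else 0) * ∏ k ∈ (c p).erase i, v0 p k (y k) := by
        rw [← Finset.mul_prod_erase (c p) _ hic]
        simp only [if_true]
        congr 1
        refine Finset.prod_congr rfl fun k hk => ?_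
        rw [if_neg (Finset.mem_erase.1 hk).1]
      rw [h2]
      by_cases hs : s p = y i
      · simp only [hic, hs, if_true, one_mul, forall_const]
      · have hs' : ¬ (y i = s p) := fun h => hs h.symm
        simp only [hic, hs, hs', if_false, zero_mul, forall_const]
    · have h2 : ∏ k ∈ c p, (if k = i then (if y k = s p then (1 : ℂ) else 0) else v0 p k (y k)) =
          ∏ k ∈ (c p).erase i, v0 p k (y k) := by
        rw [Finset.erase_eq_of_notMem hic]
        refine Finset.prod_congr rfl fun k hk => ?_
        rw [if_neg]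
        rintro rfl
        exact hic hk
      rw [h2]
      simp only [hic, false_imp_iff, if_true, if_false]

end Pool.Agent.H21.HD
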