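import Pool.Agent.H21.HD.Defs2
import Pool.Agent.H21.HD.FFl
import Pool.Agent.H21.HD.SpanSplit
import Pool.Agent.H21.HD.SpanStep

/-!
Spanning by product functions.
-/

namespace Pool.Agent.H21.HD

open MvPolynomial
open scoped Classical

private lemma spanT_depOn_mono {ι : Type*} {B : ι → Type*} {T T' : Finset ι}
    {f : (∀ i, B i) → ℂ} (h : DepOn T f) (hT : T ⊆ T') : DepOn T' f :=
  fun x y hxy => h x y fun i hi => hxy i (hT hi)

/-- The statement for fixed `j`, `η`, `W`. -/
private def SpanTQ (j : ℕ) (η : ℝ) (W : ℕ) : Prop :=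
  ∀ (ι A α : Type) [Fintype ι] [Fintype A],
    W ≤ Fintype.card A → ∀ (J : Finset ι), J.card = j → ∀ (lam : Finset ι → ℝ),
    (∀ T, 0 ≤ lam T) → (∃ J' ⊆ J, FF lam J' ≤ 0) →
    ∀ (P : Finset α) (c : α → Finset ι), (∀ p ∈ P, c p ⊆ J ∧ (c p).Nonempty) →
    (∀ T ⊆ J, T.Nonempty → 0 < lam T →
      (lam T + η) * (Fintype.card A : ℝ) ^ T.card ≤ (P.filter (fun p => c p = T)).card) →
    ∃ v : α → ι → A → ℂ, SpanGood J P c v

private lemma SpanTQ.mono {j : ℕ} {η : ℝ} {W W' : ℕ} (h : SpanTQ j η W) (hW : W ≤ W') :
    SpanTQ j η W' := fun ι A α _ _ h1 => h ι A α (hW.trans h1)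

/-- Enlarging the set of coordinates. -/
private lemma spanGood_enlarge {ι A α : Type} [Nonempty A] {J' J : Finset ι} (hJ : J' ⊆ J)
    {P : Finset α} {c : α → Finset ι} {v : α → ι → A → ℂ}
    (h : SpanGood J' (P.filter (fun p => c p ⊆ J')) c v) : SpanGood J P c v := by
  intro f hf
  obtain ⟨a₀⟩ := ‹Nonempty A›
  set r : (ι → A) → (ι → A) := fun y i => if i ∈ J \ J' then y i else a₀ with hr
  have hfy : ∀ z : ι → A, DepOn J' (fun x => f (fun i => if i ∈ J' then x i else z i)) := by
    intro z x x' hx
    show f (fun i => if i ∈ J' then x i else z i) = f (fun i => if i ∈ J' then x' i else z i)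
    congr 1
    funext i
    by_cases hi : i ∈ J'
    · simp only [hi, if_true]
      exact hx i hi
    · simp only [hi, if_false]
  choose κ hκ1 hκ2 using fun z : ι → A => h _ (hfy z)
  refine ⟨fun p y => if c p ⊆ J' then κ (r y) p y else 0, ?_, ?_⟩
  · intro p hp
    by_cases hcp : c p ⊆ J'
    · intro x y hxy
      have h1 : r x = r y := by
        funext i
        simp only [hr]
        by_cases hi : i ∈ J \ J'
        · simp only [hi, if_true]
          have h2 := Finset.mem_sdiff.1 hi
          exact hxy i (Finset.mem_sdiff.2 ⟨h2.1, fun h3 => h2.2 (hcp h3)⟩)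
        · simp only [hi, if_false]
      show (if c p ⊆ J' then κ (r x) p x else 0) = (if c p ⊆ J' then κ (r y) p y else 0)
      rw [if_pos hcp, if_pos hcp, h1]
      refine hκ1 (r y) p (Finset.mem_filter.2 ⟨hp, hcp⟩) x y fun i hi => hxy i ?_
      exact Finset.sdiff_subset_sdiff hJ le_rfl hi
    · intro x y _
      show (if c p ⊆ J' then κ (r x) p x else 0) = (if c p ⊆ J' then κ (r y) p y else 0)
      rw [if_neg hcp, if_neg hcp]
  · intro y
    have h1 : f y = f (fun i => if i ∈ J' then y i else r y i) := by
      refine hf _ _ fun i hi => ?_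
      by_cases hi' : i ∈ J'
      · simp only [hi', if_true]
      · have h2 : i ∈ J \ J' := Finset.mem_sdiff.2 ⟨hi, hi'⟩
        simp only [hi', if_false, hr, h2, if_true]
    rw [h1]
    have h3 := hκ2 (r y) y
    rw [h3, Finset.sum_filter]
    refine Finset.sum_congr rfl fun p _ => ?_
    by_cases hcp : c p ⊆ J'
    · simp only [hcp, if_true]
    · simp only [hcp, if_false, mul_zero]

/-- Distributing the slices to the types. -/
private lemma exists_tau {A T : Type*} [Fintype A] (S : Finset T) (n : T → ℕ)
    (h : Fintype.card A ≤ ∑ t ∈ S, n t) :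
    ∃ τ : A → T, (∀ a, τ a ∈ S) ∧
      ∀ t ∈ S, (Finset.univ.filter (fun a => τ a = t)).card ≤ n t := by
  classical
  set E : Finset ((_ : T) × ℕ) := S.sigma (fun t => Finset.range (n t)) with hE
  have hcard : Fintype.card A ≤ Fintype.card E := by
    rw [Fintype.card_coe, hE, Finset.card_sigma]
    simpa using h
  obtain ⟨e⟩ := Function.Embedding.nonempty_of_card_le hcard
  refine ⟨fun a => (e a).1.1, fun a => (Finset.mem_sigma.1 (e a).2).1, fun t _ => ?_⟩
  have h1 : (Finset.univ.filter (fun a => (e a).1.1 = t)).card ≤ (Finset.range (n t)).card := by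
    refine Finset.card_le_card_of_injOn (fun a => (e a).1.2) ?_ ?_
    · intro a ha
      have h2 := (Finset.mem_filter.1 (Finset.mem_coe.1 ha)).2
      have h3 := (Finset.mem_sigma.1 (e a).2).2
      rw [h2] at h3
      exact h3
    · intro a ha b hb hab
      have h2 := (Finset.mem_filter.1 (Finset.mem_coe.1 ha)).2
      have h3 := (Finset.mem_filter.1 (Finset.mem_coe.1 hb)).2
      apply e.injective
      apply Subtype.ext
      exact Sigma.ext (h2.trans h3.symm) (heq_of_eq hab)
  simpa using h1

/-- Distributing the points of one type to the slices. -/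
private lemma exists_fiber {α A : Type*} [Nonempty A] (m : ℕ) (F : Finset A) :
    ∀ Q : Finset α, F.card * m ≤ Q.card →
      ∃ s : α → A, ∀ t ∈ F, m ≤ (Q.filter (fun p => s p = t)).card := by
  classical
  induction F using Finset.induction_on with
  | empty =>
    intro Q _
    obtain ⟨a₀⟩ := ‹Nonempty A›
    exact ⟨fun _ => a₀, fun t ht => absurd ht (Finset.notMem_empty t)⟩
  | insert a F ha ih =>
    intro Q hQ
    rw [Finset.card_insert_of_notMem ha, add_mul, one_mul] at hQ
    obtain ⟨Q1, hQ1, hc⟩ := Finset.exists_subset_card_eq (show m ≤ Q.card by omega)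
    obtain ⟨s, hs⟩ := ih (Q \ Q1) (by
      rw [Finset.card_sdiff_of_subset hQ1, hc]
      omega)
    refine ⟨fun p => if p ∈ Q1 then a else s p, fun t ht => ?_⟩
    rcases Finset.mem_insert.1 ht with rfl | ht
    · rw [← hc]
      refine Finset.card_le_card fun p hp => ?_
      simp [hQ1 hp, hp]
    · refine (hs t ht).trans (Finset.card_le_card fun p hp => ?_)
      obtain ⟨h1, h2⟩ := Finset.mem_filter.1 hp
      obtain ⟨h3, h4⟩ := Finset.mem_sdiff.1 h1
      simp [h3, h4, h2]

private lemma spanT_main (j : ℕ) (ih : ∀ j' < j, ∀ η : ℝ, 0 < η → ∃ W, SpanTQ j' η W)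
    (η : ℝ) (hη : 0 < η) : ∃ W, SpanTQ j η W := by
  choose W hW using fun x : Fin j => ih x x.2 η hη
  obtain ⟨W2, hW2⟩ : ∃ W2, 0 < j → SpanTQ (j - 1) (η / 2) W2 := by
    by_cases hj : 0 < j
    · obtain ⟨W2, h⟩ := ih (j - 1) (by omega) (η / 2) (by positivity)
      exact ⟨W2, fun _ => h⟩
    · exact ⟨0, fun h => absurd h hj⟩
  refine ⟨Finset.univ.sup W + W2 + ⌈4 / η⌉₊ + 1, ?_⟩
  intro ι A α _ _ hA J hJ lam hlam hex P c hP hcount
  have hAne : Nonempty A := Fintype.card_pos_iff.1 (by omega)
  by_cases hprop : ∃ J' ⊂ J, FF lam J' ≤ 0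
  · -- a proper subset
    obtain ⟨J', hJ', hFF⟩ := hprop
    have hlt : J'.card < j := hJ ▸ Finset.card_lt_card hJ'
    have h1 : SpanTQ J'.card η (W ⟨J'.card, hlt⟩) := hW ⟨J'.card, hlt⟩
    have h2 : W ⟨J'.card, hlt⟩ ≤ Fintype.card A := by
      have := Finset.le_sup (f := W) (Finset.mem_univ (⟨J'.card, hlt⟩ : Fin j))
      omega
    obtain ⟨v, hv⟩ := h1 ι A α h2 J' rfl lam hlam ⟨J', le_rfl, hFF⟩
      (P.filter (fun p => c p ⊆ J')) c
      (by
        intro p hp
        obtain ⟨h3, h4⟩ := Finset.mem_filter.1 hp
        exact ⟨h4, (hP p h3).2⟩)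
      (by
        intro T hT hTne hTl
        refine (hcount T (hT.trans hJ'.1) hTne hTl).trans ?_
        norm_cast
        refine Finset.card_le_card fun p hp => ?_
        obtain ⟨h3, h4⟩ := Finset.mem_filter.1 hp
        exact Finset.mem_filter.2 ⟨Finset.mem_filter.2 ⟨h3, h4 ▸ hT⟩, h4⟩)
    exact ⟨v, spanGood_enlarge hJ'.1 hv⟩
  · push Not at hprop
    obtain ⟨J', hJ', hFF⟩ := hex
    have hJJ : J' = J := by
      by_contra hne
      exact absurd hFF (not_le.2 (hprop J' (Finset.ssubset_iff_subset_ne.2 ⟨hJ', hne⟩)))
    subst hJJ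
    have hJne : J'.Nonempty := by
      rw [Finset.nonempty_iff_ne_empty]
      rintro rfl
      rw [FF_empty] at hFF
      linarith
    obtain ⟨i, hi⟩ := hJne
    have hjpos : 0 < j := by
      rw [← hJ]
      exact Finset.card_pos.2 ⟨i, hi⟩
    have hw : 4 / η ≤ (Fintype.card A : ℝ) := by
      refine (Nat.le_ceil (4 / η)).trans ?_
      exact_mod_cast (show ⌈4 / η⌉₊ ≤ Fintype.card A by omega)
    obtain ⟨n, m, μ, hn1, hn2, hn3, hμ, hFFμ, hm, hnm, hn4⟩ :=
      span_split J' i hi lam hlam hprop hFF η hη (Fintype.card A) hw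
    obtain ⟨τ, hτ1, hτ2⟩ := exists_tau (subs J' i) n hn1
    -- the points of type `T`
    have hfib : ∀ T : Finset ι, ∃ s : α → A, ∀ t : A, τ t = T →
        (if T.card = 1 then 1 else m T) ≤
          ((P.filter (fun p => c p = T)).filter (fun p => s p = t)).card := by
      intro T
      by_cases hT : ∃ t, τ t = T
      · obtain ⟨t₀, ht₀⟩ := hT
        have hTs : T ∈ subs J' i := ht₀ ▸ hτ1 t₀
        have hTJ := (mem_subs.1 hTs).1
        have hiT := (mem_subs.1 hTs).2
        set F : Finset A := Finset.univ.filter (fun a => τ a = T) with hF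
        have hFn : F.card ≤ n T := by
          have h1 := hτ2 T hTs
          convert h1
        have hFpos : 0 < F.card := Finset.card_pos.2 ⟨t₀, by simp [hF, ht₀]⟩
        have hlT : 0 < lam T := hn3 T hTs (by omega)
        have hc := hcount T hTJ ⟨i, hiT⟩ hlT
        have hle : F.card * (if T.card = 1 then 1 else m T) ≤
            (P.filter (fun p => c p = T)).card := by
          by_cases hT1 : T.card = 1
          · simp only [hT1, if_true, mul_one]
            have h1 := hn4 T hTs hT1
            rw [hT1, pow_one] at hc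
            have h2 : (n T : ℝ) ≤ ((P.filter (fun p => c p = T)).card : ℝ) := h1.trans hc
            exact hFn.trans (by exact_mod_cast h2)
          · simp only [hT1, if_false]
            have hTc : 1 < T.card := by
              have := Finset.card_pos.2 ⟨i, hiT⟩
              omega
            have h1 := hnm T hTs hTc
            have h2 : (n T : ℝ) * m T ≤ ((P.filter (fun p => c p = T)).card : ℝ) := h1.trans hc
            refine (Nat.mul_le_mul_right (m T) hFn).trans ?_
            exact_mod_cast h2
        obtain ⟨s, hs⟩ := exists_fiber (if T.card = 1 then 1 else m T) F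
          (P.filter (fun p => c p = T)) hle
        exact ⟨s, fun t ht => hs t (by simp [hF, ht])⟩
      · obtain ⟨a₀⟩ := hAne
        exact ⟨fun _ => a₀, fun t ht => absurd ⟨t, ht⟩ hT⟩
    choose s hs using hfib
    refine span_step J' i hi P c (fun p hp => (hP p hp).1) (fun p => s (c p) p) ?_
    intro t
    by_cases hfirst : ∃ p ∈ P, c p = {i} ∧ s (c p) p = t
    · exact Or.inl hfirst
    · right
      set T := τ t with hT
      have hTs : T ∈ subs J' i := hτ1 t
      have hTJ := (mem_subs.1 hTs).1
      have hiT := (mem_subs.1 hTs).2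
      have hTc : T.card ≠ 1 := by
        intro hT1
        have h1 := hs T t rfl
        rw [if_pos hT1] at h1
        obtain ⟨p, hp⟩ := Finset.card_pos.1 (lt_of_lt_of_le one_pos h1)
        obtain ⟨h2, h3⟩ := Finset.mem_filter.1 hp
        obtain ⟨h4, h5⟩ := Finset.mem_filter.1 h2
        obtain ⟨k, hk⟩ := Finset.card_eq_one.1 hT1
        have hki : k = i := by
          rw [hk, Finset.mem_singleton] at hiT
          exact hiT.symm
        exact hfirst ⟨p, h4, by rw [h5, hk, hki], by rw [h5]; exact h3⟩
      have hTc' : 1 < T.card := by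
        have := Finset.card_pos.2 ⟨i, hiT⟩
        omega
      have hTe : (T.erase i).Nonempty := by
        rw [← Finset.card_pos, Finset.card_erase_of_mem hiT]
        omega
      set lam' : Finset ι → ℝ := fun S => if S = T.erase i then lam S + μ T else lam S with hlam'
      have hFF' : FF lam' (J'.erase i) = FF lam (J'.erase i) - μ T * FF lam (J' \ T) := by
        rw [FF_add (lam := lam) (lam' := lam') (J'.erase i) (T.erase i) hTe
          (Finset.erase_subset_erase i hTJ) (μ T) (by simp [hlam'])
          (fun S hS => by simp [hlam', hS])]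
        congr 3
        ext k
        simp only [Finset.mem_sdiff, Finset.mem_erase, not_and]
        constructor
        · rintro ⟨⟨h1, h2⟩, h3⟩
          exact ⟨h2, h3 h1⟩
        · rintro ⟨h1, h2⟩
          exact ⟨⟨fun h => h2 (h ▸ hiT), h1⟩, fun _ => h2⟩
      have hcJ : (J'.erase i).card = j - 1 := by rw [Finset.card_erase_of_mem hi, hJ]
      refine hW2 hjpos ι A α (by omega) (J'.erase i) hcJ lam' ?_
        ⟨J'.erase i, le_rfl, by rw [hFF']; exact hFFμ T hTs⟩ _ _ ?_ ?_
      · intro S
        simp only [hlam']
        split_ifs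
        · have := (hμ T hTs).1
          have := hlam S
          linarith
        · exact hlam S
      · intro p hp
        obtain ⟨h1, h2⟩ := Finset.mem_filter.1 hp
        refine ⟨Finset.erase_subset_erase i (hP p h1).1, ?_⟩
        by_cases hic : i ∈ c p
        · by_contra hne
          rw [Finset.not_nonempty_iff_eq_empty, Finset.erase_eq_empty_iff] at hne
          rcases hne with h3 | h3
          · rw [h3] at hic
            exact absurd hic (Finset.notMem_empty i)
          · exact hfirst ⟨p, h1, h3, h2 hic⟩
        · rw [Finset.erase_eq_of_notMem hic]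
          exact (hP p h1).2
      · intro S hS hSne hSl
        have hiS : i ∉ S := fun h => Finset.notMem_erase i J' (hS h)
        have hSJ : S ⊆ J' := hS.trans (Finset.erase_subset i J')
        have hApos : (0 : ℝ) ≤ (Fintype.card A : ℝ) ^ S.card := by positivity
        -- the two kinds of points
        have hA1 : P.filter (fun p => c p = S) ⊆
            (P.filter (fun p => i ∈ c p → s (c p) p = t)).filter
              (fun p => (c p).erase i = S) := by
          intro p hp
          obtain ⟨h1, h2⟩ := Finset.mem_filter.1 hp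
          refine Finset.mem_filter.2 ⟨Finset.mem_filter.2 ⟨h1, fun h => ?_⟩, ?_⟩
          · rw [h2] at h
            exact absurd h hiS
          · rw [h2, Finset.erase_eq_of_notMem hiS]
        have hcS : 0 < lam S → (lam S + η) * (Fintype.card A : ℝ) ^ S.card ≤
            ((P.filter (fun p => c p = S)).card : ℝ) := hcount S hSJ hSne
        have hcS' : lam S * (Fintype.card A : ℝ) ^ S.card ≤
            ((P.filter (fun p => c p = S)).card : ℝ) := by
          rcases eq_or_lt_of_le (hlam S) with h0 | h0
          · rw [← h0, zero_mul]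
            positivity
          · refine le_trans ?_ (hcS h0)
            exact mul_le_mul_of_nonneg_right (by linarith) hApos
        by_cases hST : S = T.erase i
        · have hl : lam' S = lam S + μ T := by simp [hlam', hST]
          rw [hl]
          have hins : insert i S = T := by rw [hST, Finset.insert_erase hiT]
          have hScard : T.card - 1 = S.card := by
            rw [hST, Finset.card_erase_of_mem hiT]
          have h1 := hs T t rfl
          rw [if_neg hTc] at h1
          have h2 := hm T hTs
          rw [hScard] at h2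
          have hB1 : (P.filter (fun p => c p = T)).filter (fun p => s T p = t) ⊆
              (P.filter (fun p => i ∈ c p → s (c p) p = t)).filter
                (fun p => (c p).erase i = S) := by
            intro p hp
            obtain ⟨h3, h4⟩ := Finset.mem_filter.1 hp
            obtain ⟨h5, h6⟩ := Finset.mem_filter.1 h3
            refine Finset.mem_filter.2 ⟨Finset.mem_filter.2 ⟨h5, fun _ => ?_⟩, ?_⟩
            · rw [h6]; exact h4
            · rw [h6, hST]
          have hdisj : Disjoint (P.filter (fun p => c p = S))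
              ((P.filter (fun p => c p = T)).filter (fun p => s T p = t)) := by
            rw [Finset.disjoint_left]
            intro p hp hp'
            have h3 := (Finset.mem_filter.1 hp).2
            have h4 := (Finset.mem_filter.1 (Finset.mem_filter.1 hp').1).2
            rw [h3] at h4
            rw [h4] at hiS
            exact hiS hiT
          have h3 := Finset.card_le_card (Finset.union_subset hA1 hB1)
          rw [Finset.card_union_of_disjoint hdisj] at h3
          have h4 : ((P.filter (fun p => c p = S)).card : ℝ) +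
              (((P.filter (fun p => c p = T)).filter (fun p => s T p = t)).card : ℝ) ≤
              (((P.filter (fun p => i ∈ c p → s (c p) p = t)).filter
                (fun p => (c p).erase i = S)).card : ℝ) := by exact_mod_cast h3
          have h5 : (m T : ℝ) ≤
              (((P.filter (fun p => c p = T)).filter (fun p => s T p = t)).card : ℝ) := by
            exact_mod_cast h1
          refine le_trans ?_ h4
          have h6 : (lam S + μ T + η / 2) * (Fintype.card A : ℝ) ^ S.card =
              lam S * (Fintype.card A : ℝ) ^ S.card +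
                (μ T + η / 2) * (Fintype.card A : ℝ) ^ S.card := by ring
          rw [h6]
          linarith
        · have hl : lam' S = lam S := by simp [hlam', hST]
          rw [hl] at hSl ⊢
          refine le_trans ?_ ((hcS hSl).trans ?_)
          · exact mul_le_mul_of_nonneg_right (by linarith) hApos
          · exact_mod_cast Finset.card_le_card hA1

/-- Spanning outside the region of convergence. -/
theorem tensor_span (j : ℕ) : ∀ η : ℝ, 0 < η → ∃ W : ℕ, ∀ (ι A α : Type) [Fintype ι] [Fintype A],
    W ≤ Fintype.card A → ∀ (J : Finset ι), J.card = j → ∀ (lam : Finset ι → ℝ),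
    (∀ T, 0 ≤ lam T) → (∃ J' ⊆ J, FF lam J' ≤ 0) →
    ∀ (P : Finset α) (c : α → Finset ι), (∀ p ∈ P, c p ⊆ J ∧ (c p).Nonempty) →
    (∀ T ⊆ J, T.Nonempty → 0 < lam T →
      (lam T + η) * (Fintype.card A : ℝ) ^ T.card ≤ (P.filter (fun p => c p = T)).card) →
    ∃ v : α → ι → A → ℂ, SpanGood J P c v := by
  induction j using Nat.strong_induction_on with
  | _ j ih =>
    intro η hη
    exact spanT_main j (fun j' hj' η' hη' => ih j' hj' η' hη') η hη

end Pool.Agent.H21.HD
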