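import Pool.Agent.H21.HD.Defs3
import Pool.Agent.H21.HD.SpanT
import Pool.Agent.H21.HD.SpanOpen
import Pool.Agent.H21.HD.SpanCols
import Pool.Agent.H21.HD.NonSq
import Pool.Agent.H21.HD.BlockPow

/-!
Spanning in blocks.
-/

namespace Pool.Agent.H21.HD

open MvPolynomial
open scoped Classical

/-- `powSpan` grows when the family is enlarged. -/
private lemma powSpan_inl {σ X α : Type*} [Fintype σ] (d : ℕ) (w₁ : X → σ → ℂ) (w₂ : α → σ → ℂ)
    (e₁ : X → ℕ) (e₂ : α → ℕ) :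
    powSpan d w₁ e₁ ≤ powSpan d (Sum.elim w₁ w₂) (Sum.elim e₁ e₂) := by
  apply Submodule.span_mono
  rintro F ⟨p, g, h1, h2, rfl⟩
  exact ⟨Sum.inl p, g, h1, h2, rfl⟩

/-- Spanning in `N * |A|` variables. -/
theorem span_blocks (d : ℕ) (η : ℝ) (hη : 0 < η) : ∃ W : ℕ, ∀ (A : Type) [Fintype A],
    W ≤ Fintype.card A → ∀ (N e₀ : ℕ), 2 ≤ e₀ → e₀ ≤ d → d ≤ N →
    ∀ (X : Type) [Fintype X],
    N.choose (e₀ - 1) * ((e₀ - 1) * Fintype.card A - 1 + e₀).choose e₀ ≤ Fintype.card X →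
    ∀ (α : Type) [Fintype α] (c : α → Finset (Fin N)), (∀ p, (c p).Nonempty) →
    ∀ lam : ℕ → ℝ, (∀ i, 0 ≤ lam i) → (∃ j ≤ d, phi lam j ≤ 0) →
    (∀ T : Finset (Fin N), T.Nonempty → T.card ≤ d → 0 < lam T.card →
      (lam T.card + η) * (Fintype.card A : ℝ) ^ T.card ≤
        (Finset.univ.filter (fun p => c p = T)).card) →
    ∃ (w : X ⊕ α → Fin N × A → ℂ),
      homogeneousSubmodule (Fin N × A) ℂ d ≤
        powSpan d w (Sum.elim (fun _ => e₀) (fun p => (c p).card)) := by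
  obtain ⟨W₀, hW₀⟩ := tensor_span d η hη
  refine ⟨max W₀ 1, ?_⟩
  intro A _ hA N e₀ h2 hed hdN X _ hX α _ c hc lam hlam hphi hT
  have hA1 : 1 ≤ Fintype.card A := le_trans (le_max_right _ _) hA
  haveI : Nonempty A := Fintype.card_pos_iff.1 hA1
  obtain ⟨j, hjd, hj⟩ := hphi
  -- the columns
  have hcol : ∀ J : Finset (Fin N), J.card = d → ∃ v : α → Fin N → A → ℂ,
      SpanGood J (Finset.univ.filter (fun p => c p ⊆ J)) c v := by
    intro J hJ
    refine hW₀ (Fin N) A α (le_trans (le_max_left _ _) hA) J hJ (fun T => lam T.card)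
      (fun T => hlam _) ?_ _ c ?_ ?_
    · obtain ⟨J', hJ', hJ'c⟩ := Finset.exists_subset_card_eq (s := J) (n := j) (by omega)
      refine ⟨J', hJ', ?_⟩
      rw [FF_card lam J' (fun T => lam T.card) (fun T _ _ => rfl), hJ'c]
      exact hj
    · intro p hp
      exact ⟨(Finset.mem_filter.1 hp).2, hc p⟩
    · intro T hTJ hTn hTl
      have h1 := hT T hTn (by rw [← hJ]; exact Finset.card_le_card hTJ) hTl
      refine h1.trans (le_of_eq ?_)
      congr 2
      ext p
      simp only [Finset.mem_filter, Finset.mem_univ, true_and]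
      constructor
      · intro h
        exact ⟨by rw [h]; exact hTJ, h⟩
      · intro h
        exact h.2
  choose! vJ hvJ using hcol
  have hopen : ∀ J : Finset (Fin N), J.card = d → ∃ G : MvPolynomial (α × Fin N × A) ℂ, G ≠ 0 ∧
      ∀ v : α → Fin N → A → ℂ, eval (fun x => v x.1 x.2.1 x.2.2) G ≠ 0 →
        SpanGood J (Finset.univ.filter (fun p => c p ⊆ J)) c v := by
    intro J hJ
    exact spanGood_open J _ c (fun p hp => (Finset.mem_filter.1 hp).2) (vJ J) (hvJ J hJ)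
  choose! G hG0 hG using hopen
  obtain ⟨x, hx⟩ := exists_common (Finset.powersetCard d (Finset.univ : Finset (Fin N))) G
    (fun J hJ => hG0 J (Finset.mem_powersetCard.1 hJ).2)
  -- the killers
  obtain ⟨w₁, hw₁⟩ := exists_block_powers (N := N) (A := A) e₀ h2 X hX
  refine ⟨Sum.elim w₁ (fun p => vecB (c p) (fun i a => x (p, i, a))), ?_⟩
  refine span_of_columns d _ _ ?_ c (fun p i a => x (p, i, a)) Sum.inr ?_ ?_
  · intro γ hγ hi
    refine nonsquarefree_of_blocks d e₀ h2 hed (by omega) _ _ ?_ γ hγ hi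
    intro b hb F hF hFb
    exact powSpan_inl e₀ w₁ _ (fun _ => e₀) _ (hw₁ b hb F hF hFb)
  · intro p
    exact ⟨rfl, rfl⟩
  · intro J hJ
    refine ⟨Finset.univ.filter (fun p => c p ⊆ J), fun p hp => (Finset.mem_filter.1 hp).2, ?_⟩
    refine hG J hJ (fun p i a => x (p, i, a)) ?_
    have h1 := hx J (Finset.mem_powersetCard.2 ⟨Finset.subset_univ J, hJ⟩)
    exact h1

end Pool.Agent.H21.HD
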