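import Pool.Agent.H21.HD.Defs

/-!
Fewer variables, higher degree.
-/

namespace Pool.Agent.H21.HD

open MvPolynomial
open scoped Classical

/-- Passage to fewer variables. -/
theorem span_restrict {σ τ R : Type} [Fintype σ] [Fintype τ] (f : τ → σ)
    (hf : Function.Injective f) (d : ℕ) (w : R → σ → ℂ) (e : R → ℕ)
    (h : homogeneousSubmodule σ ℂ d ≤ powSpan d w e) :
    homogeneousSubmodule τ ℂ d ≤ powSpan d (fun p t => w p (f t)) e := by
  let x : σ → MvPolynomial τ ℂ := fun s => ∑ t, if f t = s then X t else 0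
  have hx : ∀ s, (x s).IsHomogeneous 1 := by
    intro s
    apply IsHomogeneous.sum
    intro t _
    split_ifs
    · exact isHomogeneous_X ℂ t
    · exact isHomogeneous_zero τ ℂ 1
  have hxf : ∀ t, x (f t) = X t := by
    intro t
    change (∑ t', if f t' = f t then (X t' : MvPolynomial τ ℂ) else 0) = X t
    rw [Finset.sum_eq_single t]
    · rw [if_pos rfl]
    · intro b _ hb
      rw [if_neg (fun hh => hb (hf hh))]
    · intro hh
      exact absurd (Finset.mem_univ _) hh
  have hlin : ∀ v : σ → ℂ, aeval x (lin v) = lin fun t => v (f t) := by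
    intro v
    unfold lin
    rw [map_sum]
    have h1 : ∀ s, aeval x (C (v s) * X s : MvPolynomial σ ℂ) =
        ∑ t, if f t = s then (C (v (f t)) * X t : MvPolynomial τ ℂ) else 0 := by
      intro s
      rw [map_mul, aeval_C, aeval_X, algebraMap_eq]
      change C (v s) * (∑ t, if f t = s then (X t : MvPolynomial τ ℂ) else 0) = _
      rw [Finset.mul_sum]
      refine Finset.sum_congr rfl fun t _ => ?_
      split_ifs with hts
      · rw [hts]
      · rw [mul_zero]
    rw [Finset.sum_congr rfl fun s _ => h1 s, Finset.sum_comm]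
    refine Finset.sum_congr rfl fun t _ => ?_
    rw [Finset.sum_ite_eq]
    rw [if_pos (Finset.mem_univ _)]
  have hmap : powSpan d w e ≤
      (powSpan d (fun p t => w p (f t)) e).comap (aeval x : MvPolynomial σ ℂ →ₐ[ℂ] _).toLinearMap := by
    unfold powSpan
    rw [Submodule.span_le]
    rintro F ⟨p, g, hp, hg, rfl⟩
    refine Submodule.subset_span ⟨p, aeval x g, hp, ?_, ?_⟩
    · have := hg.aeval x hx
      rwa [one_mul] at this
    · rw [AlgHom.toLinearMap_apply, map_mul, map_pow, hlin]
  intro F hF
  have h1 : rename f F ∈ homogeneousSubmodule σ ℂ d := by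
    rw [mem_homogeneousSubmodule]
    exact IsHomogeneous.rename_isHomogeneous hF
  have h2 := hmap (h h1)
  rw [Submodule.mem_comap, AlgHom.toLinearMap_apply, aeval_rename] at h2
  have h3 : (x ∘ f) = X := funext hxf
  rw [h3, aeval_X_left, AlgHom.id_apply] at h2
  exact h2

/-- Spanning in degree `j` implies spanning in degree `d ≥ j`. -/
theorem powSpan_up {σ P : Type} [Fintype σ] (j d : ℕ) (hjd : j ≤ d) (w : P → σ → ℂ) (e : P → ℕ)
    (h : homogeneousSubmodule σ ℂ j ≤ powSpan j w e) :
    homogeneousSubmodule σ ℂ d ≤ powSpan d w e := by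
  have h1 : homogeneousSubmodule σ ℂ d =
      homogeneousSubmodule σ ℂ (d - j) * homogeneousSubmodule σ ℂ j := by
    rw [← homogeneousSubmodule_one_pow (σ := σ) ℂ d, ← homogeneousSubmodule_one_pow (σ := σ) ℂ (d - j),
      ← homogeneousSubmodule_one_pow (σ := σ) ℂ j, ← pow_add, Nat.sub_add_cancel hjd]
  rw [h1, Submodule.mul_le]
  intro G hG F hF
  have hF' := h hF
  have hmap : powSpan j w e ≤ (powSpan d w e).comap (LinearMap.mulLeft ℂ G) := by
    conv_lhs => unfold powSpan
    rw [Submodule.span_le]
    rintro K ⟨p, g, hp, hg, rfl⟩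
    refine Submodule.subset_span ⟨p, G * g, hp.trans hjd, ?_, ?_⟩
    · have := IsHomogeneous.mul hG hg
      rwa [show d - j + (j - e p) = d - e p by omega] at this
    · rw [LinearMap.mulLeft_apply, mul_assoc]
  exact hmap hF'

end Pool.Agent.H21.HD
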