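import Pool.Agent.H21.HD.Defs3
import Pool.Agent.H21.HD.SpanBlocks
import Pool.Agent.H21.HD.SpanRestrict
import Pool.Agent.H21.HD.Balanced

/-!
The spanning theorem.
-/

namespace Pool.Agent.H21.HD

open MvPolynomial
open scoped Classical

namespace SpanMainX

/-- Transport along an injection of index types. -/
lemma transport {σ P Y : Type} [Fintype σ] (d : ℕ) (e : P → ℕ) (e' : Y → ℕ) (ι : Y → P)
    (hι : Function.Injective ι) (he : ∀ y, e (ι y) = e' y) (w' : Y → σ → ℂ) :
    powSpan d w' e' ≤ powSpan d (Function.extend ι w' 0) e := by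
  unfold powSpan
  apply Submodule.span_mono
  rintro F ⟨y, g, h1, h2, h3⟩
  refine ⟨ι y, g, ?_, ?_, ?_⟩
  · rw [he]; exact h1
  · rw [he]; exact h2
  · rw [he, hι.extend_apply]; exact h3

lemma lin_single {σ : Type} [Fintype σ] (s : σ) :
    lin (Pi.single s (1 : ℂ)) = (X s : MvPolynomial σ ℂ) := by
  unfold lin
  rw [Finset.sum_eq_single s]
  · simp
  · intro t _ hts
    simp [Pi.single_eq_of_ne hts]
  · intro h
    exact absurd (Finset.mem_univ s) h

/-- The coordinate forms span. -/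
lemma span_coord {σ : Type} [Fintype σ] (d : ℕ) (hd : 1 ≤ d) :
    homogeneousSubmodule σ ℂ d ≤
      powSpan d (fun s : σ => (Pi.single s (1 : ℂ) : σ → ℂ)) (fun _ => 1) := by
  intro F hF
  rw [mem_homogeneousSubmodule] at hF
  rw [MvPolynomial.as_sum F]
  apply Submodule.sum_mem
  intro γ hγ
  have hdeg : γ.degree = d := by
    rw [Finsupp.degree_eq_weight_one]
    exact hF (mem_support_iff.1 hγ)
  have hs : ∃ s, γ s ≠ 0 := by
    by_contra hcon
    push Not at hcon
    have h0 : γ = 0 := by ext s; simp [hcon s]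
    rw [h0] at hdeg
    simp at hdeg
    omega
  obtain ⟨s, hs⟩ := hs
  have hle : Finsupp.single s 1 ≤ γ := by
    rw [Finsupp.single_le_iff]
    omega
  apply Submodule.subset_span
  refine ⟨s, monomial (γ - Finsupp.single s 1) (coeff γ F), hd, ?_, ?_⟩
  · apply isHomogeneous_monomial
    have h1 : (γ - Finsupp.single s 1).degree + (Finsupp.single s 1).degree = γ.degree := by
      rw [← map_add, tsub_add_cancel_of_le hle]
    rw [hdeg] at h1
    simp at h1
    show (γ - Finsupp.single s 1).degree = d - 1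
    omega
  · rw [lin_single, pow_one, X, monomial_mul, tsub_add_cancel_of_le hle, mul_one]

/-- Recursion of `phi` when only the first load is present. -/
lemma phi_one (lam : ℕ → ℝ) (d : ℕ) (h : ∀ i, 2 ≤ i → i ≤ d → lam i = 0) :
    ∀ j, j ≤ d → phi lam j = (1 - lam 1) ^ j := by
  intro j
  induction j with
  | zero => intro _; simp [phi]
  | succ j ih =>
    intro hj
    have ih' := ih (by omega)
    rw [phi, Finset.sum_eq_single (⟨0, by omega⟩ : Fin (j + 1))]
    · simp only [zero_add, Nat.choose_zero_right, Nat.cast_one, mul_one, Nat.sub_zero]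
      rw [ih', pow_succ]
      ring
    · intro e _ he
      have he0 : (e : ℕ) ≠ 0 := by
        intro h0
        apply he
        ext
        exact h0
      have : lam ((e : ℕ) + 1) = 0 := h _ (by omega) (by have := e.2; omega)
      rw [this]
      ring
    · intro hcon
      exact absurd (Finset.mem_univ _) hcon

/-- The first case. -/
lemma case_one (d : ℕ) (hd : 1 ≤ d) (η : ℝ) (hη : 0 < η) (r : ℕ)
    (P : Type) [Fintype P] (e : P → ℕ) (lam : ℕ → ℝ) (hlam : ∀ i, 0 ≤ lam i ∧ lam i ≤ 1)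
    (hphi : ∃ j ≤ d, phi lam j ≤ 0) (h0 : ∀ i, 2 ≤ i → i ≤ d → lam i = 0)
    (hcount : ∀ i, 1 ≤ i → i ≤ d → 0 < lam i → (lam i + η) * ((r : ℝ) + 1) ^ i / (i.factorial : ℝ) ≤
      (Finset.univ.filter (fun p => e p = i)).card) :
    ∃ w : P → Fin (r + 1) → ℂ, homogeneousSubmodule (Fin (r + 1)) ℂ d ≤ powSpan d w e := by
  obtain ⟨j, hj, hphij⟩ := hphi
  rw [phi_one lam d h0 j hj] at hphij
  have h1 := hlam 1
  have hl1 : lam 1 = 1 := by
    by_contra hne
    have hlt : lam 1 < 1 := lt_of_le_of_ne h1.2 hne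
    have : 0 < (1 - lam 1) ^ j := pow_pos (by linarith) j
    linarith
  have hc := hcount 1 le_rfl hd (by rw [hl1]; norm_num)
  rw [hl1] at hc
  simp only [pow_one, Nat.factorial_one, Nat.cast_one, div_one] at hc
  have hc2 : ((r + 1 : ℕ) : ℝ) ≤ ((Finset.univ.filter (fun p => e p = 1)).card : ℝ) := by
    refine le_trans ?_ hc
    push_cast
    have : (0 : ℝ) ≤ r := Nat.cast_nonneg r
    nlinarith
  have hc3 : r + 1 ≤ (Finset.univ.filter (fun p => e p = 1)).card := by exact_mod_cast hc2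
  have hcard : Fintype.card (Fin (r + 1)) ≤ Fintype.card {p : P // e p = 1} := by
    rw [Fintype.card_fin, Fintype.card_subtype]
    exact hc3
  obtain ⟨ι⟩ := Function.Embedding.nonempty_of_card_le hcard
  have hinj : Function.Injective (fun s : Fin (r + 1) => (ι s).1) :=
    Subtype.val_injective.comp ι.injective
  exact ⟨_, (span_coord d hd).trans (transport d e (fun _ => 1) (fun s => (ι s).1) hinj
    (fun s => (ι s).2) _)⟩

lemma ceil_bounds (h r : ℕ) (hh : 1 ≤ h) :
    r + 1 ≤ ((r + h) / h) * h ∧ ((r + h) / h) * h ≤ r + h := by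
  constructor
  · have := Nat.lt_div_mul_add (a := r + h) (b := h) (by omega)
    omega
  · exact Nat.div_mul_le_self _ _

/-- The numerical estimate. -/
lemma num_est (d : ℕ) (η : ℝ) (hη : 0 < η) (h : ℕ) (hh : 1 ≤ h) (hηh : 4 ≤ η * h) (r : ℕ)
    (hr : (1 + η) * (h : ℝ) ^ (d + 1) * d ≤ (r : ℝ) + 1) (N : ℕ) (hN1 : r + 1 ≤ N * h)
    (hN2 : N * h ≤ r + h) (i : ℕ) (hi : 1 ≤ i) (hid : i ≤ d) (hiN : i ≤ N) (l : ℝ) (hl0 : 0 ≤ l)
    (hl1 : l ≤ 1) (n : ℕ) (hn : (l + η) * ((r : ℝ) + 1) ^ i / (i.factorial : ℝ) ≤ n) :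
    (l + η / 4) * (h : ℝ) ^ i ≤ ((n : ℝ) / (N.choose i : ℝ)) - 2 ∧ N.choose i ≤ n := by
  have hr1 : (0 : ℝ) < (r : ℝ) + 1 := by positivity
  have hh0 : (1 : ℝ) ≤ h := by exact_mod_cast hh
  have hNpos : 0 < N := by
    rcases Nat.eq_zero_or_pos N with h0 | h0
    · subst h0; omega
    · exact h0
  have hN0 : (0 : ℝ) < N := by exact_mod_cast hNpos
  have hC : 0 < N.choose i := Nat.choose_pos hiN
  have hC0 : (0 : ℝ) < (N.choose i : ℝ) := by exact_mod_cast hC
  have hN2' : (N : ℝ) * h ≤ r + h := by exact_mod_cast hN2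
  -- t = (r+1)/N
  set t : ℝ := ((r : ℝ) + 1) / N with ht
  have ht0 : 0 < t := div_pos hr1 hN0
  have hrh : (0 : ℝ) ≤ r := Nat.cast_nonneg r
  have ht1 : (h : ℝ) * (1 - h / ((r : ℝ) + 1)) ≤ t := by
    rw [ht, le_div_iff₀ hN0]
    have h1 : (h : ℝ) * (1 - h / ((r : ℝ) + 1)) * N = (1 - h / ((r : ℝ) + 1)) * (N * h) := by ring
    rw [h1]
    by_cases hneg : 0 ≤ 1 - (h : ℝ) / ((r : ℝ) + 1)
    · calc (1 - (h : ℝ) / ((r : ℝ) + 1)) * (N * h) ≤ (1 - (h : ℝ) / ((r : ℝ) + 1)) * (r + h) := by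
            gcongr
        _ ≤ (r : ℝ) + 1 := by
            have : (1 - (h : ℝ) / ((r : ℝ) + 1)) * (r + h)
                = (((r : ℝ) + 1 - h) * (r + h)) / ((r : ℝ) + 1) := by
              field_simp
            rw [this, div_le_iff₀ hr1]
            nlinarith
    · push Not at hneg
      have : (1 - (h : ℝ) / ((r : ℝ) + 1)) * (N * h) ≤ 0 :=
        mul_nonpos_of_nonpos_of_nonneg hneg.le (by positivity)
      linarith
  -- h/(r+1) ≤ 1
  have hd0 : (1 : ℝ) ≤ d := by exact_mod_cast (by omega : 1 ≤ d)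
  have hpow1 : (1 : ℝ) ≤ (h : ℝ) ^ d := one_le_pow₀ hh0
  have hhr : (h : ℝ) ≤ (r : ℝ) + 1 := by
    refine le_trans ?_ hr
    rw [pow_succ]
    have h2 : (1 : ℝ) ≤ (1 + η) := by linarith
    calc (h : ℝ) = 1 * (1 * h) * 1 := by ring
      _ ≤ (1 + η) * ((h : ℝ) ^ d * h) * d := by gcongr
  have hfrac : (h : ℝ) / ((r : ℝ) + 1) ≤ 1 := by
    rw [div_le_one hr1]; exact hhr
  have hti : (h : ℝ) ^ i * (1 - i * (h / ((r : ℝ) + 1))) ≤ t ^ i := by
    have h3 : (1 : ℝ) + i * (-(h / ((r : ℝ) + 1))) ≤ (1 + (-(h / ((r : ℝ) + 1)))) ^ i :=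
      one_add_mul_le_pow (by linarith) i
    calc (h : ℝ) ^ i * (1 - i * (h / ((r : ℝ) + 1)))
        = (h : ℝ) ^ i * (1 + i * (-(h / ((r : ℝ) + 1)))) := by ring
      _ ≤ (h : ℝ) ^ i * (1 + (-(h / ((r : ℝ) + 1)))) ^ i := by gcongr
      _ = ((h : ℝ) * (1 - h / ((r : ℝ) + 1))) ^ i := by rw [mul_pow]; ring
      _ ≤ t ^ i := by
          apply pow_le_pow_left₀ _ ht1
          apply mul_nonneg (by positivity)
          linarith
  -- bound for the quotient
  have hfac : ((i.factorial : ℕ) : ℝ) * (N.choose i : ℝ) ≤ (N : ℝ) ^ i := by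
    have := Nat.descFactorial_le_pow N i
    rw [Nat.descFactorial_eq_factorial_mul_choose] at this
    exact_mod_cast this
  have hfac0 : (0 : ℝ) < ((i.factorial : ℕ) : ℝ) := by exact_mod_cast i.factorial_pos
  have hq : (l + η) * t ^ i ≤ (n : ℝ) / (N.choose i : ℝ) := by
    rw [le_div_iff₀ hC0]
    refine le_trans ?_ hn
    rw [ht, div_pow, le_div_iff₀ hfac0]
    have h4 : (l + η) * (((r : ℝ) + 1) ^ i / (N : ℝ) ^ i) * (N.choose i : ℝ) * (i.factorial : ℝ)
        = (l + η) * ((r : ℝ) + 1) ^ i * (((i.factorial : ℝ) * (N.choose i : ℝ)) / (N : ℝ) ^ i) := by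
      ring
    rw [h4]
    have h5 : ((i.factorial : ℝ) * (N.choose i : ℝ)) / (N : ℝ) ^ i ≤ 1 := by
      rw [div_le_one (by positivity)]
      exact hfac
    calc (l + η) * ((r : ℝ) + 1) ^ i * (((i.factorial : ℝ) * (N.choose i : ℝ)) / (N : ℝ) ^ i)
        ≤ (l + η) * ((r : ℝ) + 1) ^ i * 1 := by
          gcongr
      _ = _ := by ring
  have hpowle : (h : ℝ) ^ i ≤ (h : ℝ) ^ d := pow_le_pow_right₀ hh0 hid
  have herr : (l + η) * ((h : ℝ) ^ i * (i * (h / ((r : ℝ) + 1)))) ≤ 1 := by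
    have hid' : (i : ℝ) ≤ d := by exact_mod_cast hid
    calc (l + η) * ((h : ℝ) ^ i * (i * (h / ((r : ℝ) + 1))))
        ≤ (1 + η) * ((h : ℝ) ^ d * (d * (h / ((r : ℝ) + 1)))) := by gcongr
      _ = ((1 + η) * (h : ℝ) ^ (d + 1) * d) / ((r : ℝ) + 1) := by rw [pow_succ]; ring
      _ ≤ 1 := by rw [div_le_one hr1]; exact hr
  have hmain : (l + η) * (h : ℝ) ^ i - 1 ≤ (n : ℝ) / (N.choose i : ℝ) := by
    refine le_trans ?_ hq
    have h6 : (l + η) * ((h : ℝ) ^ i * (1 - i * (h / ((r : ℝ) + 1)))) ≤ (l + η) * t ^ i := by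
      gcongr
    have h7 : (l + η) * ((h : ℝ) ^ i * (1 - i * (h / ((r : ℝ) + 1))))
        = (l + η) * (h : ℝ) ^ i - (l + η) * ((h : ℝ) ^ i * (i * (h / ((r : ℝ) + 1)))) := by ring
    rw [h7] at h6
    linarith
  have hpi : (h : ℝ) ≤ (h : ℝ) ^ i := le_self_pow₀ hh0 (by omega)
  have hηi : 4 ≤ η * (h : ℝ) ^ i := le_trans hηh (by gcongr)
  constructor
  · have h8 : (l + η / 4) * (h : ℝ) ^ i + 2 ≤ (l + η) * (h : ℝ) ^ i - 1 := by nlinarith
    linarith
  · have h9 : (1 : ℝ) ≤ (n : ℝ) / (N.choose i : ℝ) := by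
      refine le_trans ?_ hmain
      have : 0 ≤ l * (h : ℝ) ^ i := by positivity
      nlinarith
    rw [le_div_iff₀ hC0, one_mul] at h9
    exact_mod_cast h9

/-- The number of killers is at most one per subset. -/
lemma killers (d h N e₀ : ℕ) (he₀ : 2 ≤ e₀) (hed : e₀ ≤ d)
    (hN : 2 ^ (d * h + d) * d + d ≤ N) :
    N.choose (e₀ - 1) * ((e₀ - 1) * h - 1 + e₀).choose e₀ ≤ N.choose e₀ := by
  set M := ((e₀ - 1) * h - 1 + e₀).choose e₀ with hM
  have hM1 : M ≤ 2 ^ (d * h + d) := by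
    refine (Nat.choose_le_two_pow _ _).trans ?_
    apply Nat.pow_le_pow_right (by norm_num)
    have : (e₀ - 1) * h ≤ d * h := Nat.mul_le_mul_right h (by omega)
    omega
  obtain ⟨k, rfl⟩ : ∃ k, e₀ = k + 1 := ⟨e₀ - 1, by omega⟩
  simp only [Nat.add_sub_cancel] at hM ⊢
  have h1 := Nat.choose_succ_right_eq N k
  have h2 : M * (k + 1) ≤ N - k := by
    have : M * (k + 1) ≤ 2 ^ (d * h + d) * d := Nat.mul_le_mul hM1 hed
    omega
  have h3 : N.choose k * M * (k + 1) ≤ N.choose (k + 1) * (k + 1) := by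
    rw [h1, mul_assoc]
    exact Nat.mul_le_mul_left _ h2
  exact Nat.le_of_mul_le_mul_right h3 (by omega)

end SpanMainX

open SpanMainX in
/-- The spanning theorem. -/
theorem span_main (d : ℕ) (hd : 1 ≤ d) (η : ℝ) (hη : 0 < η) : ∃ r₀ : ℕ, ∀ r : ℕ, r₀ ≤ r →
    ∀ (P : Type) [Fintype P] (e : P → ℕ) (lam : ℕ → ℝ), (∀ i, 0 ≤ lam i ∧ lam i ≤ 1) →
    (∃ j ≤ d, phi lam j ≤ 0) →
    (∀ i, 1 ≤ i → i ≤ d → 0 < lam i → (lam i + η) * ((r : ℝ) + 1) ^ i / (i.factorial : ℝ) ≤
      (Finset.univ.filter (fun p => e p = i)).card) →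
    ∃ w : P → Fin (r + 1) → ℂ, homogeneousSubmodule (Fin (r + 1)) ℂ d ≤ powSpan d w e := by
  obtain ⟨W, hW⟩ := span_blocks d (η / 4) (by positivity)
  obtain ⟨h, hWh, hh, hηh⟩ : ∃ h : ℕ, W ≤ h ∧ 1 ≤ h ∧ 4 ≤ η * h := by
    refine ⟨max W (max 1 ⌈4 / η⌉₊), le_max_left _ _, le_trans (le_max_left _ _) (le_max_right _ _), ?_⟩
    have h1 : 4 / η ≤ (⌈4 / η⌉₊ : ℝ) := Nat.le_ceil _
    have h2 : (⌈4 / η⌉₊ : ℝ) ≤ ((max W (max 1 ⌈4 / η⌉₊) : ℕ) : ℝ) := by
      exact_mod_cast le_trans (le_max_right _ _) (le_max_right _ _)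
    have h3 : 4 / η ≤ ((max W (max 1 ⌈4 / η⌉₊) : ℕ) : ℝ) := h1.trans h2
    rw [div_le_iff₀ hη] at h3
    linarith
  set M : ℕ := 2 ^ (d * h + d) * d + d with hM
  refine ⟨max (h * M) ⌈(1 + η) * (h : ℝ) ^ (d + 1) * d⌉₊, ?_⟩
  intro r hr P _ e lam hlam hphi hcount
  by_cases hcase : ∃ e₀, 2 ≤ e₀ ∧ e₀ ≤ d ∧ 0 < lam e₀
  swap
  · apply case_one d hd η hη r P e lam hlam hphi _ hcount
    intro i h2 hid
    by_contra hne
    exact hcase ⟨i, h2, hid, lt_of_le_of_ne (hlam i).1 (Ne.symm hne)⟩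
  obtain ⟨e₀, he2, hed, hle0⟩ := hcase
  set N : ℕ := (r + h) / h with hNdef
  obtain ⟨hN1, hN2⟩ := ceil_bounds h r hh
  rw [← hNdef] at hN1 hN2
  have hrM : h * M ≤ r := le_trans (le_max_left _ _) hr
  have hrη : (1 + η) * (h : ℝ) ^ (d + 1) * d ≤ (r : ℝ) + 1 := by
    have h1 : ⌈(1 + η) * (h : ℝ) ^ (d + 1) * d⌉₊ ≤ r := le_trans (le_max_right _ _) hr
    have h2 := Nat.le_ceil ((1 + η) * (h : ℝ) ^ (d + 1) * d)
    have h3 : ((⌈(1 + η) * (h : ℝ) ^ (d + 1) * d⌉₊ : ℕ) : ℝ) ≤ (r : ℝ) := by exact_mod_cast h1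
    linarith
  have hMN : M ≤ N := by
    have h1 : M * h ≤ N * h := by
      calc M * h = h * M := mul_comm _ _
        _ ≤ r := hrM
        _ ≤ N * h := by omega
    exact Nat.le_of_mul_le_mul_right h1 (by omega)
  have hdN : d ≤ N := by omega
  -- numerical facts
  have hnum : ∀ i, 1 ≤ i → i ≤ d → 0 < lam i →
      (lam i + η / 4) * (h : ℝ) ^ i ≤
        (((Finset.univ.filter (fun p => e p = i)).card : ℝ) / (N.choose i : ℝ)) - 2 ∧
      N.choose i ≤ (Finset.univ.filter (fun p => e p = i)).card := by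
    intro i h1 h2 h3
    exact num_est d η hη h hh hηh r hrη N hN1 hN2 i h1 h2 (by omega) (lam i) (hlam i).1 (hlam i).2 _
      (hcount i h1 h2 h3)
  have hkill := killers d h N e₀ he2 hed hMN
  set K1 : ℕ := N.choose (e₀ - 1) * ((e₀ - 1) * h - 1 + e₀).choose e₀ with hK1
  -- the killers
  obtain ⟨K, hKsub, hKcard⟩ := Finset.exists_subset_card_eq
    (hkill.trans (hnum e₀ (by omega) hed hle0).2)
  -- the other points
  let α : Type := {p : P // p ∉ K ∧ 1 ≤ e p ∧ e p ≤ d}
  have hbal : ∀ i : ℕ, i ≤ N → ∃ f : {p : α // e p.1 = i} → {T : Finset (Fin N) // T.card = i},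
      ∀ T, Fintype.card {p : α // e p.1 = i} / N.choose i ≤
        (Finset.univ.filter (fun x => f x = T)).card := by
    intro i hi
    have hne : Nonempty {T : Finset (Fin N) // T.card = i} := by
      obtain ⟨T, -, hT⟩ := Finset.exists_subset_card_eq (s := (Finset.univ : Finset (Fin N)))
        (n := i) (by simpa using hi)
      exact ⟨⟨T, hT⟩⟩
    obtain ⟨f, hf⟩ := exists_balanced' (X := {p : α // e p.1 = i})
      (Y := {T : Finset (Fin N) // T.card = i})
    refine ⟨f, fun T => ?_⟩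
    have hcY : Fintype.card {T : Finset (Fin N) // T.card = i} = N.choose i := by
      rw [Fintype.card_finset_len, Fintype.card_fin]
    rw [← hcY]
    convert hf T
  choose f hf using hbal
  have hαN : ∀ p : α, e p.1 ≤ N := fun p => le_trans p.2.2.2 hdN
  let c : α → Finset (Fin N) := fun p => (f (e p.1) (hαN p) ⟨p, rfl⟩).1
  have hc : ∀ p, (c p).card = e p.1 := fun p => (f (e p.1) (hαN p) ⟨p, rfl⟩).2
  have hcne : ∀ p, (c p).Nonempty := by
    intro p
    rw [← Finset.card_pos, hc p]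
    exact p.2.2.1
  have hcast : ∀ (i : ℕ) (hi : i ≤ N) (x : {p : α // e p.1 = i}), c x.1 = (f i hi x).1 := by
    rintro i hi ⟨p, hp⟩
    subst hp
    rfl
  have hcountα : ∀ i, 1 ≤ i → i ≤ d →
      (Finset.univ.filter (fun p : P => e p = i)).card ≤
        Fintype.card {p : α // e p.1 = i} + N.choose i := by
    intro i hi hid
    by_cases hie : i = e₀
    · have h1 : (Finset.univ.filter (fun p : P => e p = i) \ K).card ≤
          Fintype.card {p : α // e p.1 = i} := by
        rw [← Fintype.card_coe]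
        apply Fintype.card_le_of_injective
          (fun x : ↥(Finset.univ.filter (fun p : P => e p = i) \ K) =>
            (⟨⟨x.1, (Finset.mem_sdiff.1 x.2).2, by
              have := (Finset.mem_filter.1 (Finset.mem_sdiff.1 x.2).1).2
              omega, by
              have := (Finset.mem_filter.1 (Finset.mem_sdiff.1 x.2).1).2
              omega⟩, (Finset.mem_filter.1 (Finset.mem_sdiff.1 x.2).1).2⟩ :
              {p : α // e p.1 = i}))
        intro x y hxy
        have := congrArg (fun z : {p : α // e p.1 = i} => z.1.1) hxy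
        exact Subtype.ext this
      have h2 := Finset.le_card_sdiff K (Finset.univ.filter (fun p : P => e p = i))
      rw [hKcard] at h2
      rw [hie] at h1 h2 ⊢
      omega
    · have h1 : (Finset.univ.filter (fun p : P => e p = i)).card ≤
          Fintype.card {p : α // e p.1 = i} := by
        rw [← Fintype.card_coe]
        apply Fintype.card_le_of_injective
          (fun x : ↥(Finset.univ.filter (fun p : P => e p = i)) =>
            (⟨⟨x.1, fun hxK => hie (by
              have h3 := (Finset.mem_filter.1 (hKsub hxK)).2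
              have h4 := (Finset.mem_filter.1 x.2).2
              omega), by
              have := (Finset.mem_filter.1 x.2).2
              omega, by
              have := (Finset.mem_filter.1 x.2).2
              omega⟩, (Finset.mem_filter.1 x.2).2⟩ :
              {p : α // e p.1 = i}))
        intro x y hxy
        have := congrArg (fun z : {p : α // e p.1 = i} => z.1.1) hxy
        exact Subtype.ext this
      omega
  have hT : ∀ T : Finset (Fin N), T.Nonempty → T.card ≤ d → 0 < lam T.card →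
      (lam T.card + η / 4) * (Fintype.card (Fin h) : ℝ) ^ T.card ≤
        (Finset.univ.filter (fun p => c p = T)).card := by
    intro T hTne hTd hlT
    have hT1 : 1 ≤ T.card := Finset.card_pos.2 hTne
    have hTN : T.card ≤ N := by omega
    obtain ⟨hn1, -⟩ := hnum T.card hT1 hTd hlT
    rw [Fintype.card_fin]
    refine hn1.trans ?_
    have h1 := hcountα T.card hT1 hTd
    have h2 := hf T.card hTN ⟨T, rfl⟩
    have h3 : (Finset.univ.filter (fun x => f T.card hTN x = ⟨T, rfl⟩)).card ≤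
        (Finset.univ.filter (fun p : α => c p = T)).card := by
      apply Finset.card_le_card_of_injOn (fun x => x.1)
      · intro x hx
        simp only [Finset.coe_filter, Finset.mem_univ, true_and, Set.mem_ofPred_eq] at hx ⊢
        rw [hcast T.card hTN x, hx]
      · intro x _ y _ hxy
        exact Subtype.ext hxy
    have hC : 0 < N.choose T.card := Nat.choose_pos hTN
    have hC0 : (0 : ℝ) < (N.choose T.card : ℝ) := by exact_mod_cast hC
    have h4 : ((Fintype.card {p : α // e p.1 = T.card} : ℕ) : ℝ) / (N.choose T.card : ℝ) - 1 ≤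
        ((Fintype.card {p : α // e p.1 = T.card} / N.choose T.card : ℕ) : ℝ) := by
      have h5 := Nat.lt_div_mul_add (a := Fintype.card {p : α // e p.1 = T.card}) hC
      have h6 : ((Fintype.card {p : α // e p.1 = T.card} : ℕ) : ℝ) ≤
          ((Fintype.card {p : α // e p.1 = T.card} / N.choose T.card : ℕ) : ℝ) *
            (N.choose T.card : ℝ) + (N.choose T.card : ℝ) := by exact_mod_cast h5.le
      rw [sub_le_iff_le_add, div_le_iff₀ hC0]
      linarith
    have h7 : ((Finset.univ.filter (fun p : P => e p = T.card)).card : ℝ) / (N.choose T.card : ℝ) ≤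
        ((Fintype.card {p : α // e p.1 = T.card} : ℕ) : ℝ) / (N.choose T.card : ℝ) + 1 := by
      rw [div_le_iff₀ hC0, add_mul, div_mul_cancel₀ _ hC0.ne', one_mul]
      exact_mod_cast h1
    have h8 : ((Fintype.card {p : α // e p.1 = T.card} / N.choose T.card : ℕ) : ℝ) ≤
        ((Finset.univ.filter (fun p : α => c p = T)).card : ℝ) := by
      exact_mod_cast h2.trans h3
    linarith
  obtain ⟨w', hw'⟩ := hW (Fin h) (by rw [Fintype.card_fin]; exact hWh) N e₀ he2 hed hdN
    {p : P // p ∈ K} (by rw [Fintype.card_fin, Fintype.card_coe, hKcard]) α c hcne lam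
    (fun i => (hlam i).1) hphi hT
  -- restriction
  have hcardle : Fintype.card (Fin (r + 1)) ≤ Fintype.card (Fin N × Fin h) := by
    rw [Fintype.card_prod, Fintype.card_fin, Fintype.card_fin, Fintype.card_fin]
    exact hN1
  obtain ⟨g⟩ := Function.Embedding.nonempty_of_card_le hcardle
  have h5 := span_restrict (g : Fin (r + 1) → Fin N × Fin h) g.injective d w' _ hw'
  let ι : {p : P // p ∈ K} ⊕ α → P := Sum.elim (fun x => x.1) (fun x => x.1)
  have hι : Function.Injective ι := by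
    rintro (x | x) (y | y) hxy
    · exact congrArg Sum.inl (Subtype.ext hxy)
    · exfalso
      have h6 : x.1 = y.1 := hxy
      exact y.2.1 (h6 ▸ x.2)
    · exfalso
      have h6 : x.1 = y.1 := hxy
      exact x.2.1 (h6 ▸ y.2)
    · exact congrArg Sum.inr (Subtype.ext hxy)
  refine ⟨_, h5.trans (transport d e _ ι hι ?_ _)⟩
  rintro (x | x)
  · exact (Finset.mem_filter.1 (hKsub x.2)).2
  · exact (hc x).symm

end Pool.Agent.H21.HD
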