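import Pool.Agent.H21.HD.Defs
import Pool.Agent.H18.FatToric
import Pool.Agent.H21.HD.SpanMain
import Pool.Agent.H21.HD.SpanRestrict
import Pool.Agent.H21.HD.BridgeB
import Pool.Agent.H21.HD.FroAsymp
import Pool.Agent.H21.HD.PhiNum

/-!
Vanishing outside the region.
-/

namespace Pool.Agent.H21.HD

open MvPolynomial Pool.Agent.H18.Fat
open scoped Classical

namespace VanishX

/-- `phi` depends only on the loads `1, …, j`. -/
lemma phi_congr {κ κ' : ℕ → ℝ} : ∀ j : ℕ, (∀ i, 1 ≤ i → i ≤ j → κ i = κ' i) →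
    phi κ j = phi κ' j := by
  intro j
  induction j using Nat.strong_induction_on with
  | _ j ih =>
    intro h
    cases j with
    | zero => rw [phi, phi]
    | succ j =>
      rw [phi, phi, ih j (Nat.lt_succ_self j) fun i h1 h2 => h i h1 (by omega)]
      congr 1
      refine Finset.sum_congr rfl fun e _ => ?_
      have he := e.2
      rw [h (e + 1) (by omega) (by omega), ih (j - e) (by omega) fun i h1 h2 => h i h1 (by omega)]

lemma load_nonneg {P : Type} (r : ℕ) (e : P → ℕ) (I : Finset P) (i : ℕ) : 0 ≤ load r e I i := by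
  unfold load
  positivity

/-- The case distinction: loads `lam ≤ 1` outside the region, dominated with a margin. -/
lemma exists_lam (j : ℕ) (η : ℝ) (hη : 0 < η) : ∃ η' : ℝ, 0 < η' ∧ ∃ r₀ : ℕ, ∀ r : ℕ, r₀ ≤ r →
    ∀ (P : Type) (e : P → ℕ) (I : Finset P), (∀ i ∈ I, 1 ≤ e i) →
    (fro r e I j : ℝ) ≤ - (η * ((j + r).choose r : ℝ)) →
    ∃ lam : ℕ → ℝ, (∀ i, 0 ≤ lam i ∧ lam i ≤ 1) ∧ (∃ i ≤ j, phi lam i ≤ 0) ∧
      ∀ i, 1 ≤ i → i ≤ j → 0 < lam i → lam i + η' ≤ load r e I i := by
  obtain ⟨L, hL0, hL⟩ := phi_lipschitz j 2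
  obtain ⟨r₀, hr₀⟩ := fro_asymp j 2 (η / 2) (by linarith)
  set η' : ℝ := min 1 (η / 2 / (L + 1)) with hη'
  have hL1 : 0 < L + 1 := by linarith
  have hη'0 : 0 < η' := lt_min one_pos (by positivity)
  have hη'1 : η' ≤ 1 := min_le_left _ _
  have hη'2 : L * η' ≤ η / 2 := by
    have h1 : η' ≤ η / 2 / (L + 1) := min_le_right _ _
    calc L * η' ≤ (L + 1) * η' := by nlinarith
      _ ≤ (L + 1) * (η / 2 / (L + 1)) := mul_le_mul_of_nonneg_left h1 hL1.le
      _ = η / 2 := by field_simp
  refine ⟨η', hη'0, r₀, fun r hr P e I he hfro => ?_⟩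
  by_cases hbig : ∃ i, 1 ≤ i ∧ i ≤ j ∧ 2 < load r e I i
  · obtain ⟨i, hi1, hi2, hi3⟩ := hbig
    refine ⟨fun t => if t = i then 1 else 0, ?_, ⟨i, hi2, (phi_single i hi1).le⟩, ?_⟩
    · intro t
      simp only
      split_ifs <;> norm_num
    · intro t _ _ h3
      simp only at h3 ⊢
      split_ifs at h3 ⊢ with h4
      · subst h4
        linarith
      · exact absurd h3 (lt_irrefl _)
  · push Not at hbig
    set κ : ℕ → ℝ := fun i => if 1 ≤ i ∧ i ≤ j then load r e I i else 0 with hκ
    have hκ0 : ∀ i, 0 ≤ κ i ∧ κ i ≤ 2 := by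
      intro i
      simp only [hκ]
      split_ifs with h1
      · exact ⟨load_nonneg r e I i, hbig i h1.1 h1.2⟩
      · norm_num
    have hκload : phi κ j = phi (load r e I) j := by
      apply phi_congr
      intro i h1 h2
      simp only [hκ]
      rw [if_pos ⟨h1, h2⟩]
    have hs : (0 : ℝ) < ((j + r).choose r : ℝ) := by
      exact_mod_cast Nat.choose_pos (by omega)
    have h1 := hr₀ r hr P e I he (fun i h1 h2 => hbig i h1 h2)
    rw [← hκload] at h1
    have h2 : phi κ j ≤ - (η / 2) := by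
      have h3 := (abs_le.1 h1).1
      have h4 : phi κ j * ((j + r).choose r : ℝ) ≤ - (η / 2) * ((j + r).choose r : ℝ) := by
        linarith
      exact le_of_mul_le_mul_right h4 hs
    set lam₀ : ℕ → ℝ := fun i => max (κ i - η') 0 with hlam₀
    have hlam₀b : ∀ i, 0 ≤ lam₀ i ∧ lam₀ i ≤ 2 := by
      intro i
      have := hκ0 i
      refine ⟨le_max_right _ _, max_le (by linarith) (by norm_num)⟩
    have hdiff : ∀ i, |κ i - lam₀ i| ≤ η' := by
      intro i
      have := hκ0 i
      simp only [hlam₀]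
      rcases le_total (κ i - η') 0 with h3 | h3
      · rw [max_eq_right h3, abs_le]
        constructor <;> linarith
      · rw [max_eq_left h3, abs_le]
        constructor <;> linarith
    have h3 := hL κ lam₀ hκ0 hlam₀b η' hdiff
    have h4 : phi lam₀ j ≤ 0 := by
      have h5 := (abs_le.1 h3).1
      linarith
    obtain ⟨i, hi, h5⟩ := phi_cap j lam₀ (fun i => (hlam₀b i).1) ⟨j, le_rfl, h4⟩
    refine ⟨fun i => min (lam₀ i) 1, fun i => ⟨le_min (hlam₀b i).1 zero_le_one, min_le_right _ _⟩,
      ⟨i, hi, h5⟩, ?_⟩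
    intro t ht1 ht2 ht3
    simp only at ht3 ⊢
    have h6 : 0 < lam₀ t := lt_of_lt_of_le ht3 (min_le_left _ _)
    have h7 : lam₀ t = κ t - η' := by
      simp only [hlam₀] at h6 ⊢
      rcases le_total (κ t - η') 0 with h8 | h8
      · rw [max_eq_right h8] at h6
        exact absurd h6 (lt_irrefl _)
      · exact max_eq_left h8
    have h8 : κ t = load r e I t := by
      simp only [hκ]
      rw [if_pos ⟨ht1, ht2⟩]
    have h9 : min (lam₀ t) 1 ≤ lam₀ t := min_le_left _ _
    linarith

/-- The span of the multiples grows with the family. -/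
lemma powSpan_mono {σ P R : Type} [Fintype σ] (d : ℕ) (f : P → R) (w : P → σ → ℂ) (e : P → ℕ)
    (w' : R → σ → ℂ) (e' : R → ℕ) (h : ∀ p, w' (f p) = w p ∧ e' (f p) = e p) :
    powSpan d w e ≤ powSpan d w' e' := by
  unfold powSpan
  apply Submodule.span_mono
  rintro F ⟨p, g, hp, hg, rfl⟩
  refine ⟨f p, g, ?_, ?_, ?_⟩
  · rw [(h p).2]; exact hp
  · rw [(h p).2]; exact hg
  · rw [(h p).1, (h p).2]

end VanishX

open VanishX

/-- Outside the region no form vanishes at the fat points. -/
theorem vanish_general (j d : ℕ) (hjd : j ≤ d) (η : ℝ) (hη : 0 < η) : ∃ r₀ : ℕ, ∀ r : ℕ, r₀ ≤ r →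
    ∀ (k : ℕ) (e : Fin k → ℕ), (∀ i, 1 ≤ e i) → ∀ I : Finset (Fin k),
    (fro r e I j : ℝ) ≤ - (η * ((j + r).choose r : ℝ)) →
    ForGeneralPoints r k fun p =>
      Module.finrank ℂ (fatForms r d p (fun i => if i ∈ I then d + 1 - e i else 0)) = 0 := by
  rcases Nat.eq_zero_or_pos j with hj0 | hj1
  · -- degree zero
    subst hj0
    refine ⟨0, fun r _ k e he I hfro => ?_⟩
    exfalso
    have h1 : fro r e I 0 = 1 := by
      unfold fro
      rw [Finset.sum_eq_single ∅]
      · simp
      · intro T hT hne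
        obtain ⟨i, hi⟩ := Finset.nonempty_iff_ne_empty.2 hne
        rw [if_neg, mul_zero]
        have h2 : e i ≤ ∑ i ∈ T, e i := Finset.single_le_sum (fun _ _ => Nat.zero_le _) hi
        have h3 := he i
        omega
      · intro h2
        exact absurd (Finset.empty_mem_powerset I) h2
    rw [h1] at hfro
    have h2 : (0 : ℝ) ≤ η * ((0 + r).choose r : ℝ) := by positivity
    norm_num at hfro
    linarith
  obtain ⟨η', hη', r₁, h₁⟩ := exists_lam j η hη
  obtain ⟨r₂, h₂⟩ := span_main j hj1 η' hη'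
  refine ⟨max r₁ r₂, fun r hr k e he I hfro => ?_⟩
  obtain ⟨lam, hlam, hphi, hload⟩ := h₁ r ((le_max_left _ _).trans hr) (Fin k) e I
    (fun i _ => he i) hfro
  obtain ⟨w, hw⟩ := h₂ r ((le_max_right _ _).trans hr) {i : Fin k // i ∈ I} (fun i => e i.1) lam
    hlam hphi (by
      intro i hi1 hi2 hi3
      have h3 := hload i hi1 hi2 hi3
      have hr1 : (0 : ℝ) < ((r : ℝ) + 1) ^ i := by positivity
      have hf : (0 : ℝ) < (i.factorial : ℝ) := by exact_mod_cast i.factorial_pos
      have hcard : ((Finset.univ.filter (fun p : {i : Fin k // i ∈ I} => e p.1 = i)).card : ℝ) =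
          ((I.filter (fun p => e p = i)).card : ℝ) := by
        congr 1
        rw [← Finset.card_map (Function.Embedding.subtype _)]
        congr 1
        ext x
        simp only [Finset.mem_map, Finset.mem_filter, Finset.mem_univ, true_and,
          Function.Embedding.subtype_apply, Subtype.exists, exists_and_right, exists_eq_right]
        constructor
        · rintro ⟨h4, h5⟩
          exact ⟨h4, h5⟩
        · rintro ⟨h4, h5⟩
          exact ⟨h4, h5⟩
      rw [hcard]
      unfold load at h3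
      rw [le_div_iff₀ hr1] at h3
      rw [div_le_iff₀ hf]
      linarith)
  -- the special points
  let p₀ : Fin k → Fin (r + 1) → ℂ := fun i => if h : i ∈ I then w ⟨i, h⟩ else 0
  have h4 : homogeneousSubmodule (Fin (r + 1)) ℂ d ≤
      powSpan d p₀ (fun i => d + 1 - (if i ∈ I then d + 1 - e i else 0)) := by
    refine (powSpan_up j d hjd w _ hw).trans ?_
    -- points with exponent larger than `d` do not contribute
    unfold powSpan
    apply Submodule.span_mono
    rintro F ⟨p, g, hp, hg, rfl⟩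
    simp only at hp hg ⊢
    have he1 := he p.1
    have h5 : d + 1 - (if p.1 ∈ I then d + 1 - e p.1 else 0) = e p.1 := by
      rw [if_pos p.2]
      omega
    have h6 : p₀ p.1 = w p := by
      simp only [p₀]
      rw [dif_pos p.2]
    refine ⟨p.1, g, ?_, ?_, ?_⟩
    · simp only [h5]; exact hp
    · simp only [h5]; exact hg
    · simp only [h5, h6]
  have h5 := fat_eq_bot_of_span d p₀ _ h4
  refine (general_finrank_le d p₀ (fun i => if i ∈ I then d + 1 - e i else 0)).mono
    fun p hp => ?_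
  rw [h5] at hp
  exact Nat.le_zero.1 hp

end Pool.Agent.H21.HD
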