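import Pool.Agent.H21.HD.Defs
import Pool.Agent.H18.FatToric
import Pool.Agent.H21.HD.Vanish
import Pool.Agent.H21.HD.FroB
import Pool.Agent.H21.HD.Inst

/-!
Upper bound.
-/

namespace Pool.Agent.H21.HD

open MvPolynomial Pool.Agent.H18.Fat
open scoped Classical

namespace UpperX

lemma exists_point {r k : ℕ} {P : (Fin k → Fin (r + 1) → ℂ) → Prop}
    (h : ForGeneralPoints r k P) : ∃ p, P p := by
  obtain ⟨G, hG, hG'⟩ := h
  obtain ⟨x, hx⟩ := exists_common {0} (fun _ => G) (by simpa using hG)
  refine ⟨fun i j => x (i, j), hG' _ ?_⟩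
  have := hx 0 (Finset.mem_singleton_self 0)
  simpa using this

end UpperX

open UpperX

/-- Upper bound. -/
theorem upper_general (d : ℕ) (η : ℝ) (hη : 0 < η) : ∃ r₀ : ℕ, ∀ r : ℕ, r₀ ≤ r →
    ∀ (k : ℕ) (e : Fin k → ℕ), (∀ i, 1 ≤ e i) → ∀ I : Finset (Fin k),
    0 ≤ (fro r e I d : ℝ) + η * ((d + r).choose r : ℝ) →
    ForGeneralPoints r k fun p =>
      (Module.finrank ℂ (fatForms r d p (fun i => if i ∈ I then d + 1 - e i else 0)) : ℝ) ≤
        (fro r e I d : ℝ) + η * ((d + r).choose r : ℝ) := by
  rcases Nat.eq_zero_or_pos d with hd0 | hd1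
  · subst hd0
    refine ⟨0, fun r _ k e he I _ => ?_⟩
    refine (general_finrank_le 0 (fun _ _ => 0)
      (fun i => if i ∈ I then 0 + 1 - e i else 0)).mono fun p _ => ?_
    have h1 := rank_full_add_finrank (d := 0) p (fun i => if i ∈ I then 0 + 1 - e i else 0)
    have h2 : (0 + r).choose r = 1 := by simp
    rw [h2] at h1
    have h3 : Module.finrank ℂ (fatForms r 0 p (fun i => if i ∈ I then 0 + 1 - e i else 0)) ≤ 1 :=
      by omega
    have h4 : (Module.finrank ℂ
        (fatForms r 0 p (fun i => if i ∈ I then 0 + 1 - e i else 0)) : ℝ) ≤ 1 := by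
      exact_mod_cast h3
    rw [fro_zero r e I fun i _ => he i, h2]
    push_cast
    linarith
  obtain ⟨r₁, h₁⟩ := vanish_general d d le_rfl (η / 2) (by linarith)
  refine ⟨max (max r₁ 1) ⌈2 / η⌉₊, fun r hr k e he I hpos => ?_⟩
  have hr1 : r₁ ≤ r := (le_max_left _ _).trans ((le_max_left _ _).trans hr)
  have hr2 : 1 ≤ r := (le_max_right _ _).trans ((le_max_left _ _).trans hr)
  have hr3 : 2 / η ≤ (r : ℝ) := (Nat.le_ceil _).trans (by exact_mod_cast (le_max_right _ _).trans hr)
  have hs : (r : ℝ) ≤ ((d + r).choose r : ℝ) := by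
    have h1 : (1 + r).choose r ≤ (d + r).choose r := Nat.choose_le_choose r (by omega)
    have h2 : (1 + r).choose r = r + 1 := by
      rw [add_comm, Nat.choose_succ_self_right]
    rw [h2] at h1
    have : r ≤ (d + r).choose r := by omega
    exact_mod_cast this
  have hs1 : 1 ≤ η / 2 * ((d + r).choose r : ℝ) := by
    have h1 : η / 2 * (2 / η) = 1 := by field_simp
    calc (1 : ℝ) = η / 2 * (2 / η) := h1.symm
      _ ≤ η / 2 * ((d + r).choose r : ℝ) :=
        mul_le_mul_of_nonneg_left (hr3.trans hs) (by linarith)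
  set D : ℝ := ((d + r).choose r : ℝ) with hD
  set s : ℕ := ⌈(fro r e I d : ℝ) + η / 2 * D⌉₊ with hsdef
  have hs2 : (s : ℝ) ≤ (fro r e I d : ℝ) + η * D := by
    rcases le_or_gt 0 ((fro r e I d : ℝ) + η / 2 * D) with h1 | h1
    · have h2 := Nat.ceil_lt_add_one h1
      rw [← hsdef] at h2
      linarith
    · have h2 : s = 0 := by
        rw [hsdef]
        exact Nat.ceil_eq_zero.2 h1.le
      rw [h2]
      push_cast
      exact hpos
  have hs3 : (fro r e I d : ℝ) + η / 2 * D ≤ s := Nat.le_ceil _
  -- the enlarged family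
  let e' : Fin (k + s) → ℕ := Fin.append e (fun _ => d)
  let I' : Finset (Fin (k + s)) := I.map (Fin.castAddEmb s) ∪ Finset.univ.map (Fin.natAddEmb k)
  have hdisj : Disjoint (I.map (Fin.castAddEmb s)) (Finset.univ.map (Fin.natAddEmb k)) := by
    rw [Finset.disjoint_left]
    intro x hx hx'
    obtain ⟨a, -, rfl⟩ := Finset.mem_map.1 hx
    obtain ⟨b, -, hb⟩ := Finset.mem_map.1 hx'
    have h1 := congrArg Fin.val hb
    simp at h1
    have := a.2
    omega
  have he'1 : ∀ i : Fin k, e' (Fin.castAdd s i) = e i := fun i => Fin.append_left _ _ i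
  have he'2 : ∀ i : Fin s, e' (Fin.natAdd k i) = d := fun i => Fin.append_right _ _ i
  have he' : ∀ i, 1 ≤ e' i := by
    intro i
    refine Fin.addCases (fun i => ?_) (fun i => ?_) i
    · rw [he'1]; exact he i
    · rw [he'2]; exact hd1
  have hfro : fro r e' I' d = fro r e I d - s := by
    have h1 := fro_simple' r d e' (I.map (Fin.castAddEmb s)) (Finset.univ.map (Fin.natAddEmb k))
      hdisj (fun i _ => he' i) hd1 (by
        intro i hi
        obtain ⟨b, -, rfl⟩ := Finset.mem_map.1 hi
        exact he'2 b)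
    rw [fro_map] at h1
    have h2 : (fun p => e' ((Fin.castAddEmb s) p)) = e := by
      funext i
      exact he'1 i
    rw [h2, Finset.card_map, Finset.card_univ, Fintype.card_fin] at h1
    exact h1
  have h2 := h₁ r hr1 (k + s) e' he' I' (by
    rw [hfro]
    push_cast
    linarith)
  obtain ⟨p', hp'1, hp'2⟩ := exists_point (h2.and (ForGeneralPoints.coord_ne_zero r (k + s)))
  let p₀ : Fin k → Fin (r + 1) → ℂ := fun i => p' (Fin.castAdd s i)
  have h3 := finrank_add_length_ge (d := d) hr2 p₀ (fun i => if i ∈ I then d + 1 - e i else 0)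
    (fun j : Fin s => p' (Fin.natAdd k j)) (fun j => hp'2 _ 0) (fun _ => 1)
  have h4 : Module.finrank ℂ (fatForms r d (Sum.elim p₀ (fun j : Fin s => p' (Fin.natAdd k j)))
      (Sum.elim (fun i => if i ∈ I then d + 1 - e i else 0) (fun _ => 1))) ≤
      Module.finrank ℂ (fatForms r d p' (fun i => if i ∈ I' then d + 1 - e' i else 0)) := by
    apply Submodule.finrank_mono
    rintro F ⟨hF1, hF2⟩
    refine ⟨hF1, fun i => ?_⟩
    refine Fin.addCases (fun i => ?_) (fun i => ?_) i
    · have h5 := hF2 (Sum.inl i)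
      simp only [Sum.elim_inl] at h5
      have h6 : (Fin.castAdd s i ∈ I') ↔ i ∈ I := by
        simp only [I', Finset.mem_union, Finset.mem_map, Finset.mem_univ, true_and]
        constructor
        · rintro (⟨a, ha, hab⟩ | ⟨b, hb⟩)
          · have h7 := (Fin.castAddEmb s).injective hab
            rw [← h7]
            exact ha
          · exfalso
            have h7 := congrArg Fin.val hb
            simp at h7
            have := i.2
            omega
        · intro hi
          exact Or.inl ⟨i, hi, rfl⟩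
      have h7 : (if Fin.castAdd s i ∈ I' then d + 1 - e' (Fin.castAdd s i) else 0) =
          if i ∈ I then d + 1 - e i else 0 := by
        rw [he'1]
        by_cases hi : i ∈ I
        · rw [if_pos hi, if_pos (h6.2 hi)]
        · rw [if_neg hi, if_neg (fun h => hi (h6.1 h))]
      change VanishesToOrder F (p' (Fin.castAdd s i))
        (if Fin.castAdd s i ∈ I' then d + 1 - e' (Fin.castAdd s i) else 0)
      rw [h7]
      exact h5
    · have h5 := hF2 (Sum.inr i)
      simp only [Sum.elim_inr] at h5
      have h6 : Fin.natAdd k i ∈ I' := by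
        simp only [I', Finset.mem_union, Finset.mem_map, Finset.mem_univ, true_and]
        exact Or.inr ⟨i, rfl⟩
      change VanishesToOrder F (p' (Fin.natAdd k i))
        (if Fin.natAdd k i ∈ I' then d + 1 - e' (Fin.natAdd k i) else 0)
      rw [if_pos h6, he'2]
      have h7 : d + 1 - d = 1 := by omega
      rw [h7]
      exact h5
  have h5 : Module.finrank ℂ (fatForms r d p₀ (fun i => if i ∈ I then d + 1 - e i else 0)) ≤ s := by
    have h6 : ∑ _j : Fin s, (1 + r - 1).choose r = s := by
      have h7 : (1 + r - 1).choose r = 1 := by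
        have : 1 + r - 1 = r := by omega
        rw [this, Nat.choose_self]
      simp only [h7, Finset.sum_const, Finset.card_univ, Fintype.card_fin, smul_eq_mul, mul_one]
    rw [h6] at h3
    omega
  refine (general_finrank_le d p₀ (fun i => if i ∈ I then d + 1 - e i else 0)).mono fun p hp => ?_
  have h6 : Module.finrank ℂ (fatForms r d p (fun i => if i ∈ I then d + 1 - e i else 0)) ≤ s :=
    hp.trans h5
  have h7 : (Module.finrank ℂ
      (fatForms r d p (fun i => if i ∈ I then d + 1 - e i else 0)) : ℝ) ≤ s := by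
    exact_mod_cast h6
  exact h7.trans hs2

end Pool.Agent.H21.HD
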