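import Pool.Agent.H21.HD.Defs
import Pool.Agent.H18.FatToric
import Pool.Agent.H21.HD.Upper
import Pool.Agent.H21.HD.Region
import Pool.Agent.H21.HD.BridgeC
import Pool.Agent.H21.HD.Inst

/-!
Lower bound.
-/

namespace Pool.Agent.H21.HD

open MvPolynomial Pool.Agent.H18.Fat
open scoped Classical

namespace LowerX

/-- A finite conjunction of general properties is general. -/
lemma forGeneral_forall {r k : ℕ} {κ : Type} (S : Finset κ)
    (P : κ → (Fin k → Fin (r + 1) → ℂ) → Prop) (h : ∀ a ∈ S, ForGeneralPoints r k (P a)) :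
    ForGeneralPoints r k fun p => ∀ a ∈ S, P a p := by
  induction S using Finset.induction_on with
  | empty => exact ⟨1, one_ne_zero, fun p _ a ha => absurd ha (Finset.notMem_empty a)⟩
  | insert a s ha ih =>
    refine ((h a (Finset.mem_insert_self a s)).and
      (ih fun b hb => h b (Finset.mem_insert_of_mem hb))).mono ?_
    rintro p ⟨h1, h2⟩ b hb
    rcases Finset.mem_insert.1 hb with rfl | hb
    · exact h1
    · exact h2 b hb

lemma choose_step (r j : ℕ) :
    ((r : ℝ) + 1) * ((j + r).choose r : ℝ) ≤ ((j : ℝ) + 1) * ((j + 1 + r).choose r : ℝ) := by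
  have h1 : (j + 1) * (j + 1 + r).choose r = (j + 1 + r) * (j + r).choose r := by
    have h2 := Nat.add_one_mul_choose_eq (j + r) j
    have h3 : (j + r).choose j = (j + r).choose r := Nat.choose_symm_add
    have h4 : (j + r + 1).choose (j + 1) = (j + 1 + r).choose r := by
      have : j + r + 1 = j + 1 + r := by ring
      rw [this]
      exact Nat.choose_symm_add
    rw [h3, h4] at h2
    have h5 : j + 1 + r = j + r + 1 := by ring
    rw [h5] at h2 ⊢
    linarith
  have h2 : ((j : ℝ) + 1) * ((j + 1 + r).choose r : ℝ) =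
      ((j : ℝ) + 1 + r) * ((j + r).choose r : ℝ) := by
    exact_mod_cast h1
  rw [h2]
  apply mul_le_mul_of_nonneg_right _ (by positivity)
  have : (0 : ℝ) ≤ j := by positivity
  linarith

lemma choose_steps (r d : ℕ) : ∀ l ≤ d, ((r : ℝ) + 1) ^ l * ((d - l + r).choose r : ℝ) ≤
    (d.descFactorial l : ℝ) * ((d + r).choose r : ℝ) := by
  intro l
  induction l with
  | zero => intro _; simp
  | succ l ih =>
    intro hl
    have h1 := ih (by omega)
    have h2 := choose_step r (d - (l + 1))
    have h3 : d - (l + 1) + 1 = d - l := by omega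
    rw [h3] at h2
    have h4 : ((d - (l + 1) : ℕ) : ℝ) + 1 = ((d - l : ℕ) : ℝ) := by
      have : (d - (l + 1) : ℕ) + 1 = d - l := by omega
      exact_mod_cast this
    rw [h4] at h2
    rw [Nat.descFactorial_succ]
    push_cast [Nat.cast_mul]
    calc ((r : ℝ) + 1) ^ (l + 1) * ((d - (l + 1) + r).choose r : ℝ)
        = ((r : ℝ) + 1) ^ l * (((r : ℝ) + 1) * ((d - (l + 1) + r).choose r : ℝ)) := by ring
      _ ≤ ((r : ℝ) + 1) ^ l * (((d - l : ℕ) : ℝ) * ((d - l + r).choose r : ℝ)) :=
        mul_le_mul_of_nonneg_left h2 (by positivity)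
      _ = ((d - l : ℕ) : ℝ) * (((r : ℝ) + 1) ^ l * ((d - l + r).choose r : ℝ)) := by ring
      _ ≤ ((d - l : ℕ) : ℝ) * ((d.descFactorial l : ℝ) * ((d + r).choose r : ℝ)) :=
        mul_le_mul_of_nonneg_left h1 (by positivity)
      _ = _ := by ring

/-- The total number of forms of degree `d - e i`. -/
lemma sum_le (r d k : ℕ) (e : Fin k → ℕ) (he : ∀ i, 1 ≤ e i)
    (hload : ∀ i, 1 ≤ i → i ≤ d → load r e Finset.univ i ≤ 2) :
    ∑ i ∈ Finset.univ.filter (fun i : Fin k => e i ≤ d), ((d - e i + r).choose r : ℝ) ≤
      2 ^ (d + 1) * ((d + r).choose r : ℝ) := by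
  have h1 : ∑ i ∈ Finset.univ.filter (fun i : Fin k => e i ≤ d), ((d - e i + r).choose r : ℝ) =
      ∑ l ∈ Finset.range (d + 1), ∑ i ∈ (Finset.univ.filter
        (fun i : Fin k => e i ≤ d)).filter (fun i => e i = l), ((d - e i + r).choose r : ℝ) := by
    rw [Finset.sum_fiberwise_of_maps_to]
    intro i hi
    rw [Finset.mem_filter] at hi
    rw [Finset.mem_range]
    omega
  rw [h1]
  have h2 : ∀ l ∈ Finset.range (d + 1), ∑ i ∈ (Finset.univ.filter
        (fun i : Fin k => e i ≤ d)).filter (fun i => e i = l), ((d - e i + r).choose r : ℝ) ≤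
      2 * ((d.choose l : ℝ) * ((d + r).choose r : ℝ)) := by
    intro l hl
    rw [Finset.mem_range] at hl
    have h3 : ∑ i ∈ (Finset.univ.filter
        (fun i : Fin k => e i ≤ d)).filter (fun i => e i = l), ((d - e i + r).choose r : ℝ) =
        ((Finset.univ.filter (fun i : Fin k => e i = l)).card : ℝ) *
          ((d - l + r).choose r : ℝ) := by
      have h4 : (Finset.univ.filter (fun i : Fin k => e i ≤ d)).filter (fun i => e i = l) =
          Finset.univ.filter (fun i : Fin k => e i = l) := by
        ext i
        simp only [Finset.mem_filter, Finset.mem_univ, true_and]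
        constructor
        · rintro ⟨_, h5⟩; exact h5
        · intro h5; exact ⟨by omega, h5⟩
      rw [h4, Finset.sum_congr rfl (g := fun _ => ((d - l + r).choose r : ℝ)), Finset.sum_const,
        nsmul_eq_mul]
      intro i hi
      rw [(Finset.mem_filter.1 hi).2]
    rw [h3]
    rcases Nat.eq_zero_or_pos l with hl0 | hl0
    · subst hl0
      have h4 : Finset.univ.filter (fun i : Fin k => e i = 0) = ∅ := by
        rw [Finset.filter_eq_empty_iff]
        intro i _ h5
        have := he i
        omega
      rw [h4]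
      simp only [Finset.card_empty, Nat.cast_zero, zero_mul]
      positivity
    · have h4 := hload l hl0 (by omega)
      unfold load at h4
      rw [div_le_iff₀ (by positivity)] at h4
      have h5 := choose_steps r d l (by omega)
      have h6 : (d.descFactorial l : ℝ) = (l.factorial : ℝ) * (d.choose l : ℝ) := by
        exact_mod_cast Nat.descFactorial_eq_factorial_mul_choose d l
      have h7 : (0 : ℝ) < (l.factorial : ℝ) := by exact_mod_cast l.factorial_pos
      rw [h6] at h5
      apply le_of_mul_le_mul_left _ h7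
      calc (l.factorial : ℝ) * (((Finset.univ.filter (fun i : Fin k => e i = l)).card : ℝ) *
          ((d - l + r).choose r : ℝ))
          = ((l.factorial : ℝ) * ((Finset.univ.filter (fun i : Fin k => e i = l)).card : ℝ)) *
          ((d - l + r).choose r : ℝ) := by ring
        _ ≤ (2 * ((r : ℝ) + 1) ^ l) * ((d - l + r).choose r : ℝ) :=
          mul_le_mul_of_nonneg_right h4 (by positivity)
        _ = 2 * (((r : ℝ) + 1) ^ l * ((d - l + r).choose r : ℝ)) := by ring
        _ ≤ 2 * ((l.factorial : ℝ) * (d.choose l : ℝ) * ((d + r).choose r : ℝ)) := by linarith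
        _ = _ := by ring
  refine (Finset.sum_le_sum h2).trans ?_
  rw [← Finset.mul_sum, ← Finset.sum_mul]
  have h3 : ∑ l ∈ Finset.range (d + 1), (d.choose l : ℝ) = 2 ^ d := by
    exact_mod_cast Nat.sum_range_choose d
  rw [h3, pow_succ]
  apply le_of_eq
  ring

/-- The indices below `t`. -/
noncomputable def pre (k t : ℕ) : Finset (Fin k) := Finset.univ.filter (fun i => i.val < t)

lemma mem_pre {k t : ℕ} {i : Fin k} : i ∈ pre k t ↔ i.val < t := by
  unfold pre
  simp

/-- The forms for the points in `I`. -/
noncomputable def mu {k : ℕ} (e : Fin k → ℕ) (I : Finset (Fin k)) (j : ℕ) : Fin k → ℕ :=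
  fun i => if i ∈ I then j + 1 - e i else 0

lemma load_mono {P : Type} (r : ℕ) (e : P → ℕ) {I I' : Finset P} (h : I ⊆ I') (i : ℕ) :
    load r e I i ≤ load r e I' i := by
  unfold load
  apply div_le_div_of_nonneg_right _ (by positivity)
  apply mul_le_mul_of_nonneg_left _ (by positivity)
  exact_mod_cast Finset.card_le_card (Finset.filter_subset_filter _ h)

/-- The telescoping inequality. -/
lemma telescope {r k d : ℕ} (e : Fin k → ℕ) (he : ∀ i, 1 ≤ e i) (p : Fin k → Fin (r + 1) → ℂ)
    (ε : ℝ) (h : ∀ t ≤ k, ∀ j < d, (Module.finrank ℂ (fatForms r j p (mu e (pre k t) j)) : ℝ) ≤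
      (fro r e (pre k t) j : ℝ) + ε * ((j + r).choose r : ℝ)) :
    ∀ t ≤ k, (fro r e (pre k t) d : ℝ) -
      ε * ∑ i ∈ (pre k t).filter (fun i => e i ≤ d), ((d - e i + r).choose r : ℝ) ≤
      (Module.finrank ℂ (fatForms r d p (mu e (pre k t) d)) : ℝ) := by
  intro t
  induction t with
  | zero =>
    intro _
    have h1 : pre k 0 = ∅ := by
      ext i
      simp [mem_pre]
    rw [h1]
    have h2 : fro r e ∅ d = ((d + r).choose r : ℤ) := by
      unfold fro
      simp [add_comm r d]
    rw [h2]
    have h3 : fatForms r d p (mu e ∅ d) = homogeneousSubmodule (Fin (r + 1)) ℂ d := by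
      ext F
      constructor
      · intro hF
        exact hF.1
      · intro hF
        refine ⟨hF, fun i => ?_⟩
        intro β hβ
        simp [mu] at hβ
    have h4 : Module.finrank ℂ (fatForms r d p (mu e ∅ d)) = (d + r).choose r := by
      have h5 := rank_full_add_finrank (d := d) p (mu e ∅ d)
      have h6 : Module.finrank ℂ (LinearMap.range (fullMat r d p (mu e ∅ d)).mulVecLin) = 0 := by
        have h7 : (fullMat r d p (mu e ∅ d)) = 0 := by
          ext x α
          exfalso
          obtain ⟨i, β, hβ⟩ := x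
          rw [mem_full] at hβ
          simp [mu] at hβ
        rw [h7]
        simp
      omega
    rw [h4]
    simp
  | succ t ih =>
    intro ht
    have ih1 := ih (by omega)
    let i₀ : Fin k := ⟨t, by omega⟩
    have hi₀ : i₀ ∉ pre k t := by
      rw [mem_pre]
      simp [i₀]
    have hpre : pre k (t + 1) = insert i₀ (pre k t) := by
      ext i
      rw [Finset.mem_insert, mem_pre, mem_pre, Fin.ext_iff]
      simp only [i₀]
      omega
    have hmu0 : mu e (pre k t) d i₀ = 0 := by
      unfold mu
      rw [if_neg hi₀]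
    by_cases hed : e i₀ ≤ d
    · have h1 := finrank_fat_le_add' d p (mu e (pre k t) d) i₀ (e i₀) hed hmu0
      have h2 : Function.update (mu e (pre k t) d) i₀ (d + 1 - e i₀) = mu e (pre k (t + 1)) d := by
        funext i
        by_cases hi : i = i₀
        · subst hi
          rw [Function.update_self]
          unfold mu
          rw [hpre, if_pos (Finset.mem_insert_self _ _)]
        · rw [Function.update_of_ne hi]
          unfold mu
          rw [hpre]
          by_cases hi' : i ∈ pre k t
          · rw [if_pos hi', if_pos (Finset.mem_insert_of_mem hi')]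
          · rw [if_neg hi', if_neg (by
              rw [Finset.mem_insert]
              tauto)]
      have h3 : (fun i => mu e (pre k t) d i - e i₀) = mu e (pre k t) (d - e i₀) := by
        funext i
        unfold mu
        by_cases hi' : i ∈ pre k t
        · rw [if_pos hi', if_pos hi']
          omega
        · rw [if_neg hi', if_neg hi']
          omega
      have h1' : Module.finrank ℂ (fatForms r d p (mu e (pre k t) d)) ≤
          Module.finrank ℂ (fatForms r d p (mu e (pre k (t + 1)) d)) +
          Module.finrank ℂ (fatForms r (d - e i₀) p (mu e (pre k t) (d - e i₀))) := by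
        rw [← h2, ← h3]
        exact h1
      have h4 := h t (by omega) (d - e i₀) (by have := he i₀; omega)
      have h5 : fro r e (pre k (t + 1)) d = fro r e (pre k t) d - fro r e (pre k t) (d - e i₀) := by
        rw [hpre]
        have h6 := fro_insert' r e (pre k t) i₀ hi₀ d
        rw [if_pos hed] at h6
        exact h6
      have h6 : (pre k (t + 1)).filter (fun i => e i ≤ d) =
          insert i₀ ((pre k t).filter (fun i => e i ≤ d)) := by
        rw [hpre]
        ext i
        simp only [Finset.mem_filter, Finset.mem_insert]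
        constructor
        · rintro ⟨rfl | h7, h8⟩
          · exact Or.inl rfl
          · exact Or.inr ⟨h7, h8⟩
        · rintro (rfl | ⟨h7, h8⟩)
          · exact ⟨Or.inl rfl, hed⟩
          · exact ⟨Or.inr h7, h8⟩
      have h7 : (Module.finrank ℂ (fatForms r d p (mu e (pre k t) d)) : ℝ) ≤
          (Module.finrank ℂ (fatForms r d p (mu e (pre k (t + 1)) d)) : ℝ) +
          (Module.finrank ℂ (fatForms r (d - e i₀) p (mu e (pre k t) (d - e i₀))) : ℝ) := by
        exact_mod_cast h1'
      rw [h5, h6, Finset.sum_insert (by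
        rw [Finset.mem_filter]
        tauto)]
      push_cast
      linarith
    · have h2 : mu e (pre k (t + 1)) d = mu e (pre k t) d := by
        funext i
        unfold mu
        rw [hpre]
        by_cases hi : i = i₀
        · subst hi
          rw [if_pos (Finset.mem_insert_self _ _), if_neg hi₀]
          omega
        · by_cases hi' : i ∈ pre k t
          · rw [if_pos hi', if_pos (Finset.mem_insert_of_mem hi')]
          · rw [if_neg hi', if_neg (by
              rw [Finset.mem_insert]
              tauto)]
      have h5 : fro r e (pre k (t + 1)) d = fro r e (pre k t) d := by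
        rw [hpre]
        have h6 := fro_insert' r e (pre k t) i₀ hi₀ d
        rw [if_neg hed, sub_zero] at h6
        exact h6
      have h6 : (pre k (t + 1)).filter (fun i => e i ≤ d) =
          ((pre k t).filter (fun i => e i ≤ d)) := by
        rw [hpre]
        ext i
        simp only [Finset.mem_filter, Finset.mem_insert]
        constructor
        · rintro ⟨rfl | h7, h8⟩
          · exact absurd h8 hed
          · exact ⟨h7, h8⟩
        · rintro ⟨h7, h8⟩
          exact ⟨Or.inr h7, h8⟩
      rw [h2, h5, h6]
      exact ih1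

end LowerX

open LowerX

/-- Lower bound inside the region. -/
theorem lower_general (d : ℕ) (η ε : ℝ) (hη : 0 < η) (hε : 0 < ε) : ∃ r₀ : ℕ, ∀ r : ℕ, r₀ ≤ r →
    ∀ (k : ℕ) (e : Fin k → ℕ), (∀ i, 1 ≤ e i) →
    (∀ j ≤ d, η * ((j + r).choose r : ℝ) ≤ (fro r e Finset.univ j : ℝ)) →
    ForGeneralPoints r k fun p =>
      (fro r e Finset.univ d : ℝ) - ε * ((d + r).choose r : ℝ) ≤
        (Module.finrank ℂ (fatForms r d p (fun i => d + 1 - e i)) : ℝ) := by
  set ε' : ℝ := ε / 2 ^ (d + 1) with hε'
  have hε'0 : 0 < ε' := by positivity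
  obtain ⟨r₁, h₁⟩ := region_of_fro d η hη
  choose R hR using fun j : ℕ => fro_asymp j 2 (η / 2) (by linarith)
  choose U hU using fun j : ℕ => upper_general j ε' hε'0
  refine ⟨r₁ + (Finset.range (d + 1)).sup R + (Finset.range (d + 1)).sup U,
    fun r hr k e he hfro => ?_⟩
  have hRr : ∀ j ≤ d, R j ≤ r := by
    intro j hj
    have h1 : R j ≤ (Finset.range (d + 1)).sup R :=
      Finset.le_sup (f := R) (Finset.mem_range.2 (Nat.lt_succ_of_le hj))
    omega
  have hUr : ∀ j ≤ d, U j ≤ r := by
    intro j hj
    have h1 : U j ≤ (Finset.range (d + 1)).sup U :=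
      Finset.le_sup (f := U) (Finset.mem_range.2 (Nat.lt_succ_of_le hj))
    omega
  obtain ⟨hload, hphi⟩ := h₁ r (by omega) (Fin k) e Finset.univ (fun i _ => he i) hfro
  have hs : ∀ j, (0 : ℝ) < ((j + r).choose r : ℝ) := by
    intro j
    exact_mod_cast Nat.choose_pos (by omega)
  -- the numbers of the prefixes are nonnegative
  have hpre : ∀ t ≤ k, ∀ j < d, 0 ≤ (fro r e (pre k t) j : ℝ) := by
    intro t _ j hj
    have h1 := hR j r (hRr j hj.le) (Fin k) e (pre k t) (fun i _ => he i) (fun i h2 h3 =>
      (load_mono r e (Finset.subset_univ _) i).trans (hload i h2 (by omega)))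
    have h2 : phi (load r e Finset.univ) j ≤ phi (load r e (pre k t)) j := by
      apply phi_anti d _ _ (fun i => RegionX.load_nonneg' r e _ i)
        (fun i => load_mono r e (Finset.subset_univ _) i) _ j hj.le
      intro i hi
      have := hphi i hi
      linarith
    have h3 := hphi j hj.le
    have h4 := (abs_le.1 h1).1
    have h5 : η / 2 * ((j + r).choose r : ℝ) ≤
        phi (load r e (pre k t)) j * ((j + r).choose r : ℝ) :=
      mul_le_mul_of_nonneg_right (h3.trans h2) (hs j).le
    linarith
  have h2 : ForGeneralPoints r k fun p => ∀ x ∈ (Finset.range (k + 1)) ×ˢ (Finset.range d),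
      (Module.finrank ℂ (fatForms r x.2 p (mu e (pre k x.1) x.2)) : ℝ) ≤
      (fro r e (pre k x.1) x.2 : ℝ) + ε' * ((x.2 + r).choose r : ℝ) := by
    apply forGeneral_forall
    rintro ⟨t, j⟩ hx
    rw [Finset.mem_product, Finset.mem_range, Finset.mem_range] at hx
    simp only at hx ⊢
    have h3 := hpre t (by omega) j hx.2
    have h4 : 0 ≤ ε' * ((j + r).choose r : ℝ) := mul_nonneg hε'0.le (hs j).le
    exact hU j r (hUr j hx.2.le) k e he (pre k t) (by linarith)
  refine h2.mono fun p hp => ?_
  have h3 := telescope (d := d) e he p ε' (fun t ht j hj => hp (t, j) (by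
    rw [Finset.mem_product, Finset.mem_range, Finset.mem_range]
    simp only
    omega)) k le_rfl
  have h4 : pre k k = Finset.univ := by
    ext i
    rw [mem_pre]
    simp
  rw [h4] at h3
  have h5 : mu e Finset.univ d = fun i => d + 1 - e i := by
    funext i
    simp [mu]
  rw [h5] at h3
  have h6 := sum_le r d k e he hload
  have h7 : ε' * ∑ i ∈ Finset.univ.filter (fun i : Fin k => e i ≤ d),
      ((d - e i + r).choose r : ℝ) ≤ ε * ((d + r).choose r : ℝ) := by
    calc ε' * ∑ i ∈ Finset.univ.filter (fun i : Fin k => e i ≤ d), ((d - e i + r).choose r : ℝ)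
        ≤ ε' * (2 ^ (d + 1) * ((d + r).choose r : ℝ)) := mul_le_mul_of_nonneg_left h6 hε'0.le
      _ = ε * ((d + r).choose r : ℝ) := by
        rw [hε']
        field_simp
  linarith

end Pool.Agent.H21.HD
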