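import Pool.Agent.H21.HD.Defs

/-!
Project HD: definitions, part 2 (set functionals, product functions).
-/

namespace Pool.Agent.H21.HD

open MvPolynomial
open scoped Classical

section

variable {ι : Type*}

/-- The subsets of `Q` that contain `p`. -/
noncomputable def subs (Q : Finset ι) (p : ι) : Finset (Finset ι) :=
  Q.powerset.filter (fun T => p ∈ T)

lemma mem_subs {Q : Finset ι} {p : ι} {T : Finset ι} : T ∈ subs Q p ↔ T ⊆ Q ∧ p ∈ T := by
  unfold subs
  rw [Finset.mem_filter, Finset.mem_powerset]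

lemma card_sdiff_lt' {Q T : Finset ι} {p : ι} (hT : T ⊆ Q) (hp : p ∈ T) :
    (Q \ T).card < Q.card :=
  Finset.card_lt_card (Finset.sdiff_ssubset hT ⟨p, hp⟩)

/-- Sum over set partitions of the products of the weights of the parts. -/
noncomputable def EEr (W : Finset ι → ℝ) (Q : Finset ι) : ℝ :=
  if h : Q.Nonempty then
    ∑ T : {T : Finset ι // T ∈ subs Q h.choose}, W T.1 * EEr W (Q \ T.1)
  else 1
termination_by Q.card
decreasing_by exact card_sdiff_lt' (mem_subs.mp T.2).1 (mem_subs.mp T.2).2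

/-- The functional `FF`. -/
noncomputable def FF (lam : Finset ι → ℝ) (J : Finset ι) : ℝ :=
  EEr (fun T => (if T.card = 1 then 1 else 0) - lam T) J

end

/-- Every function of the coordinates in `J` is a sum of multiples of the products
`∏_{i ∈ c p} v p i (y i)`, the multipliers depending only on the other coordinates in `J`. -/
def SpanGood {ι A α : Type} (J : Finset ι) (P : Finset α) (c : α → Finset ι)
    (v : α → ι → A → ℂ) : Prop :=
  ∀ f : (ι → A) → ℂ, DepOn J f → ∃ κ : α → (ι → A) → ℂ,
    (∀ p ∈ P, DepOn (J \ c p) (κ p)) ∧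
      ∀ y, f y = ∑ p ∈ P, (∏ i ∈ c p, v p i (y i)) * κ p y

/-- The data: `P` ordinary points with types `c p`, `Q` special points with types `c q`, thresholds
`f q` and reference points `ref q`. For an ordinary point the function `κ p` does not depend on
the coordinates in `c p`; for a special point `κ q y ≠ 0` only if at least `f q` of the coordinates
`y i`, `i ∈ c q`, equal the reference value `pt i (ref q i)`. -/
def Good {ι A α : Type} {B : ι → Type} (pt : ∀ i, A → B i) (N : ∀ i, B i → MvPolynomial A ℂ)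
    (J : Finset ι) (P Q : Finset α) (c : α → Finset ι) (f : α → ℕ) (ref : α → ι → A)
    (v : α → ι → A → ℂ) : Prop :=
  ∀ κ : α → (∀ i, B i) → ℂ, (∀ p ∈ P, DepOn (J \ c p) (κ p)) → (∀ q ∈ Q, DepOn J (κ q)) →
    (∀ q ∈ Q, ∀ y, κ q y ≠ 0 → f q ≤ ((c q).filter (fun i => y i = pt i (ref q i))).card) →
    (∀ y, ∑ p ∈ P, (∏ i ∈ c p, eval (v p i) (N i (y i))) * κ p y + ∑ q ∈ Q, κ q y = 0) →
    (∀ p ∈ P, κ p = 0) ∧ ∀ q ∈ Q, κ q = 0

end Pool.Agent.H21.HD
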