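import Pool.Agent.H21.HD.Defs2

/-!
Project HD: definitions, part 3 (blocks and labels).
-/

namespace Pool.Agent.H21.HD

/-- The rank of a degree in the order `1, 2, 3, …, 0`. -/
noncomputable def rk0 (a : ℕ) : ℕ∞ := if a = 0 then ⊤ else (a : ℕ∞)

/-- The lexicographic key of a tuple of degrees. -/
noncomputable def key {N : ℕ} (a : Fin N → ℕ) : Lex (Fin N → ℕ∞) := toLex (fun i => rk0 (a i))

open MvPolynomial
open scoped Classical

section

/-- The variables: `N` blocks of variables indexed by `A`, and the labels `Λ`. -/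
abbrev Sg (N : ℕ) (A Λ : Type) : Type := (Fin N × A) ⊕ Λ

variable {N : ℕ} {A Λ : Type} [Fintype A] [Fintype Λ]

/-- The block degrees of an exponent vector. -/
def bdeg (γ : Sg N A Λ →₀ ℕ) : Fin N → ℕ := fun i => ∑ a, γ (Sum.inl (i, a))

/-- The blocks that occur in an exponent vector. -/
noncomputable def bsupp (γ : Sg N A Λ →₀ ℕ) : Finset (Fin N) :=
  Finset.univ.filter (fun i => bdeg γ i ≠ 0)

/-- The coefficient vector of the linear form of a point. -/
noncomputable def vec (c : Finset (Fin N)) (v : Fin N → A → ℂ) (y : Λ → ℂ) : Sg N A Λ → ℂ :=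
  Sum.elim (fun x => if x.1 ∈ c then v x.1 x.2 else 0) y

/-- The number of blocks `i ∈ c` in which `γ` involves no variable except the reference one. -/
noncomputable def pureCount (c : Finset (Fin N)) (ref : Fin N → A) (γ : Sg N A Λ →₀ ℕ) : ℕ :=
  (c.filter (fun i => ∀ a, a ≠ ref i → γ (Sum.inl (i, a)) = 0)).card

/-- The substitution replacing, for `i ∈ c`, the reference variable of the block `i` by the linear
form `∑ a, v i a * X (i, a)`. -/
noncomputable def sbt (c : Finset (Fin N)) (ref : Fin N → A) (v : Fin N → A → ℂ) :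
    MvPolynomial (Sg N A Λ) ℂ →ₐ[ℂ] MvPolynomial (Sg N A Λ) ℂ :=
  aeval (Sum.elim
    (fun x => if x.1 ∈ c ∧ x.2 = ref x.1 then ∑ a, C (v x.1 a) * X (Sum.inl (x.1, a))
      else X (Sum.inl x))
    (fun l => X (Sum.inr l)))

/-- The component of block degrees `a` and label exponents `μ`. -/
noncomputable def comp (a : Fin N → ℕ) (μ : Λ → ℕ) :
    MvPolynomial (Sg N A Λ) ℂ →ₗ[ℂ] MvPolynomial (Sg N A Λ) ℂ :=
  (basisMonomials (Sg N A Λ) ℂ).constr ℂ
    (fun γ => if bdeg γ = a ∧ (fun l => γ (Sum.inr l)) = μ then monomial γ (1 : ℂ) else 0)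

end

section

variable {N : ℕ} {A Λ P : Type} [Fintype A] [Fintype Λ] [Fintype P]

/-- The families `ft` admissible in the column of block degrees `a` and label exponents `μ`. -/
def Adm (c : P → Finset (Fin N)) (lab : P → Λ) (ref : P → Fin N → A) (a : Fin N → ℕ) (μ : Λ → ℕ)
    (ft : P → MvPolynomial (Sg N A Λ) ℂ) : Prop :=
  ∀ p γ, coeff γ (ft p) ≠ 0 → bdeg γ = a ∧ (fun l => γ (Sum.inr l)) = μ ∧
    (c p).card ≤ μ (lab p) + pureCount (c p) (ref p) γ

/-- Injectivity in a column. -/
def ColInj (c : P → Finset (Fin N)) (lab : P → Λ) (ref : P → Fin N → A) (a : Fin N → ℕ)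
    (μ : Λ → ℕ) (v : P → Fin N → A → ℂ) : Prop :=
  ∀ ft : P → MvPolynomial (Sg N A Λ) ℂ, Adm c lab ref a μ ft →
    ∑ p, sbt (c p) (ref p) (v p) (ft p) = 0 → ∀ p, ft p = 0

/-- Injectivity for the set of blocks `J`: the multipliers `g p` involve only exponent vectors
`γ` with `bsupp γ ∪ c p = J`, and only the coefficients of the exponent vectors whose set of
blocks is exactly `J` are required to vanish. -/
def PhiInj (d : ℕ) (J : Finset (Fin N)) (c : P → Finset (Fin N)) (v : P → Fin N → A → ℂ)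
    (y : P → Λ → ℂ) : Prop :=
  ∀ g : P → MvPolynomial (Sg N A Λ) ℂ, (∀ p, (g p).IsHomogeneous (d - (c p).card)) →
    (∀ p γ, coeff γ (g p) ≠ 0 → bsupp γ ∪ c p = J) →
    (∀ γ, bsupp γ = J → coeff γ (∑ p, g p * lin (vec (c p) (v p) (y p)) ^ (c p).card) = 0) →
    ∀ p, g p = 0

end

/-- The coefficient vector of the linear form of a point: block variables only. -/
noncomputable def vecB {N : ℕ} {A : Type} (c : Finset (Fin N)) (v : Fin N → A → ℂ) :
    Fin N × A → ℂ := fun x => if x.1 ∈ c then v x.1 x.2 else 0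

/-- The degree in a block. -/
def bdegB {N : ℕ} {A : Type} [Fintype A] (γ : Fin N × A →₀ ℕ) (i : Fin N) : ℕ :=
  ∑ a, γ (i, a)

end Pool.Agent.H21.HD
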